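import Pool.Agent.Y720.WA.Tor

/-!
# The doubling sequence (helper720)
-/

set_option autoImplicit false
set_option linter.unusedVariables false
set_option linter.unusedSectionVars false

open WeierstrassCurve Filter Topology

namespace Pool.Agent.Y720.MZ

section ring

variable {A : Type*} [CommRing A]

/-- the duplication, homogeneous -/
def dbl (a b c : A) (p : A × A) : A × A :=
  (p.1 ^ 4 - 2 * b * p.1 ^ 2 * p.2 ^ 2 - 8 * c * p.1 * p.2 ^ 3 + (b ^ 2 - 4 * a * c) * p.2 ^ 4,
    4 * p.2 * (p.1 ^ 3 + a * p.1 ^ 2 * p.2 + b * p.1 * p.2 ^ 2 + c * p.2 ^ 3))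

/-- the doubling sequence -/
def itd (a b c : A) (p : A × A) : ℕ → A × A
  | 0 => p
  | n + 1 => dbl a b c (itd a b c p n)

lemma itd_map {B : Type*} [CommRing B] (φ : A →+* B) (a b c : A) (p : A × A) (n : ℕ) :
    itd (φ a) (φ b) (φ c) (φ p.1, φ p.2) n = (φ (itd a b c p n).1, φ (itd a b c p n).2) := by
  induction n with
  | zero => rfl
  | succ n ih =>
    simp only [itd]
    rw [ih]
    simp only [dbl, map_add, map_sub, map_mul, map_pow, map_ofNat]

/-- the sequence close to a simple pole -/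
lemma itd_pole {A : Type*} [CommRing A] {a b c N D π E : A} (hD : D = π * E) (n : ℕ) :
    ∃ G : A, (itd a b c (N, D) n).2 = π * G ∧
      (∀ {F : Type*} [Field F] [CharZero F] (φ : A →+* F), φ π = 0 → φ N ≠ 0 →
        φ (itd a b c (N, D) n).1 ≠ 0 ∧
        φ G * φ N = 4 ^ n * φ E * φ (itd a b c (N, D) n).1) := by
  induction n with
  | zero =>
    refine ⟨E, hD, fun {F} _ _ φ h0 h1 => ⟨h1, ?_⟩⟩
    simp [itd]
  | succ n ih =>
    obtain ⟨G, h1, h2⟩ := ih
    set q := itd a b c (N, D) n with hq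
    refine ⟨4 * G * (q.1 ^ 3 + a * q.1 ^ 2 * q.2 + b * q.1 * q.2 ^ 2 + c * q.2 ^ 3), ?_, ?_⟩
    · simp only [itd, dbl]
      rw [← hq, h1]
      ring
    · intro F _ _ φ h0 hN
      obtain ⟨h3, h4⟩ := h2 φ h0 hN
      have hq2 : φ q.2 = 0 := by rw [h1, map_mul, h0, zero_mul]
      have e1 : φ (itd a b c (N, D) (n + 1)).1 = φ q.1 ^ 4 := by
        simp only [itd, dbl]
        rw [← hq]
        simp only [map_add, map_sub, map_mul, map_pow, map_ofNat, hq2]
        ring
      refine ⟨by rw [e1]; exact pow_ne_zero 4 h3, ?_⟩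
      rw [e1]
      simp only [map_add, map_mul, map_pow, map_ofNat, hq2]
      rw [pow_succ]
      linear_combination (4 * φ q.1 ^ 3) * h4

end ring

section pt

variable {K : Type*} [Field K] [CharZero K] [DecidableEq K]

/-- the abscissas of the multiples by powers of two -/
lemma itd_pt {a b c x y N D : K} (h : (cv a b c).toAffine.Nonsingular x y) (hx : x * D = N)
    {M : ℕ} (hne : ∀ i ≤ M, (itd a b c (N, D) i).2 ≠ 0) (i : ℕ) (hi : i ≤ M) :
    ∃ X Y h', 2 ^ i • (.some x y h : Pt a b c) = .some X Y h' ∧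
      X * (itd a b c (N, D) i).2 = (itd a b c (N, D) i).1 := by
  induction i with
  | zero => exact ⟨x, y, h, by rw [pow_zero, one_smul], hx⟩
  | succ i ih =>
    obtain ⟨X, Y, h', e1, e2⟩ := ih (by omega)
    have h1 := hne i (by omega)
    have h2 := hne (i + 1) hi
    have hcur := (cv_ns.1 h').1
    set q := itd a b c (N, D) i with hq
    have e3 : (itd a b c (N, D) (i + 1)).2 = 4 * q.2 ^ 4 * Y ^ 2 := by
      simp only [itd, dbl]
      rw [← hq, hcur, ← e2]
      ring
    have hY : 2 * Y ≠ 0 := by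
      intro h0
      apply h2
      rw [e3]
      linear_combination (2 * q.2 ^ 4 * Y) * h0
    obtain ⟨h3, e4⟩ := dbl_mk h' hY (ℓ := (3 * X ^ 2 + 2 * a * X + b) / (2 * Y))
      (div_mul_cancel₀ _ hY)
    refine ⟨_, _, h3, by rw [pow_succ, mul_smul, two_nsmul, smul_add, e1, e4], ?_⟩
    set ℓ := (3 * X ^ 2 + 2 * a * X + b) / (2 * Y) with hℓ
    have e5 : ℓ * (2 * Y) = 3 * X ^ 2 + 2 * a * X + b := div_mul_cancel₀ _ hY
    have e6 : (itd a b c (N, D) (i + 1)).1 = q.2 ^ 4 *
        (X ^ 4 - 2 * b * X ^ 2 - 8 * c * X + (b ^ 2 - 4 * a * c)) := by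
      simp only [itd, dbl]
      rw [← hq, ← e2]
      ring
    rw [e3, e6]
    have e7 : 4 * Y ^ 2 * ℓ ^ 2 = (3 * X ^ 2 + 2 * a * X + b) ^ 2 := by rw [← e5]; ring
    linear_combination q.2 ^ 4 * e7 + q.2 ^ 4 * (-4 * a - 8 * X) * hcur

/-- multiples by powers of two which are different -/
lemma nontor_of_itd {a b c x y N D : K} (h : (cv a b c).toAffine.Nonsingular x y)
    (hx : x * D = N) {M : ℕ} (hne : ∀ i ≤ M, (itd a b c (N, D) i).2 ≠ 0)
    (hij : ∀ i ≤ M, ∀ j ≤ M, i ≠ j → (itd a b c (N, D) i).1 * (itd a b c (N, D) j).2 -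
      (itd a b c (N, D) j).1 * (itd a b c (N, D) i).2 ≠ 0) :
    ∀ n : ℕ, n ≠ 0 → n ≤ M → n • (.some x y h : Pt a b c) ≠ 0 := by
  intro n hn hnM h0
  set S : Pt a b c := .some x y h with hS
  -- two powers of two are congruent
  obtain ⟨i, j, hij', hmod⟩ : ∃ i j : Fin (n + 1), i ≠ j ∧ (2 ^ (i : ℕ)) % n = (2 ^ (j : ℕ)) % n := by
    let g : Fin (n + 1) → Fin n := fun i => ⟨2 ^ (i : ℕ) % n, Nat.mod_lt _ (Nat.pos_of_ne_zero hn)⟩
    obtain ⟨i, j, h1, h2⟩ := Fintype.exists_ne_map_eq_of_card_lt g (by simp)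
    exact ⟨i, j, h1, by simpa [g] using h2⟩
  have hmul : ∀ m : ℕ, m • S = (m % n) • S := by
    intro m
    conv_lhs => rw [← Nat.mod_add_div m n, add_smul, mul_comm, mul_smul, h0, smul_zero, add_zero]
  have he : 2 ^ (i : ℕ) • S = 2 ^ (j : ℕ) • S := by rw [hmul, hmod, ← hmul]
  have hi : (i : ℕ) ≤ M := by have := i.2; omega
  have hj : (j : ℕ) ≤ M := by have := j.2; omega
  obtain ⟨X, Y, h1, e1, e2⟩ := itd_pt h hx hne i hi
  obtain ⟨X', Y', h1', e1', e2'⟩ := itd_pt h hx hne j hj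
  rw [← hS] at e1 e1'
  rw [e1, e1'] at he
  have hX : X = X' := by
    have := Affine.Point.some.inj he
    exact this.1
  apply hij i hi j hj (fun h => hij' (Fin.ext h))
  rw [← e2, ← e2', hX]
  ring

end pt

section poly

variable {K : Type*} [Field K] [CharZero K]

/-- **The multiples by powers of two are different for all but finitely many values.** -/
theorem itd_finite {a b c N W : Polynomial K} {M : Type*} [Field M] [Algebra K M] {s₀ : M}
    (hW : Polynomial.aeval s₀ W = 0) (hW' : Polynomial.aeval s₀ (Polynomial.derivative W) ≠ 0)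
    (hN : Polynomial.aeval s₀ N ≠ 0) (B : ℕ) :
    {s : K | ¬((∀ i ≤ B, (itd (a.eval s) (b.eval s) (c.eval s) (N.eval s, 4 * W.eval s) i).2 ≠ 0) ∧
      ∀ i ≤ B, ∀ j ≤ B, i ≠ j →
        (itd (a.eval s) (b.eval s) (c.eval s) (N.eval s, 4 * W.eval s) i).1 *
          (itd (a.eval s) (b.eval s) (c.eval s) (N.eval s, 4 * W.eval s) j).2 -
        (itd (a.eval s) (b.eval s) (c.eval s) (N.eval s, 4 * W.eval s) j).1 *
          (itd (a.eval s) (b.eval s) (c.eval s) (N.eval s, 4 * W.eval s) i).2 ≠ 0)}.Finite := by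
  classical
  have : CharZero M := charZero_of_injective_algebraMap (algebraMap K M).injective
  -- the polynomials
  set q : ℕ → Polynomial K × Polynomial K := fun i => itd a b c (N, 4 * W) i with hq
  have hev : ∀ (s : K) (i : ℕ), itd (a.eval s) (b.eval s) (c.eval s) (N.eval s, 4 * W.eval s) i =
      ((q i).1.eval s, (q i).2.eval s) := by
    intro s i
    have h1 := itd_map (Polynomial.evalRingHom s) a b c (N, 4 * W) i
    have h2 : (Polynomial.evalRingHom s) (4 * W) = 4 * W.eval s := by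
      rw [map_mul, map_ofNat]; rfl
    simp only [h2] at h1
    exact h1
  -- the pole
  set φ : Polynomial K →+* Polynomial M := Polynomial.mapRingHom (algebraMap K M) with hφ
  have hWM : (φ W).IsRoot s₀ := by
    rw [Polynomial.IsRoot.def, hφ, Polynomial.coe_mapRingHom, Polynomial.eval_map_algebraMap]
    exact hW
  obtain ⟨E, hE⟩ := Polynomial.dvd_iff_isRoot.2 hWM
  have hE0 : E.eval s₀ ≠ 0 := by
    intro h0
    apply hW'
    have h1 : (Polynomial.derivative (φ W)).eval s₀ = 0 := by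
      rw [hE]
      simp [h0]
    rw [hφ, Polynomial.coe_mapRingHom, Polynomial.derivative_map,
      Polynomial.eval_map_algebraMap] at h1
    exact h1
  have hNM : (φ N).eval s₀ ≠ 0 := by
    rw [hφ, Polynomial.coe_mapRingHom, Polynomial.eval_map_algebraMap]
    exact hN
  have hD : φ (4 * W) = (Polynomial.X - Polynomial.C s₀) * (4 * E) := by
    rw [map_mul, map_ofNat, hE]; ring
  have hqφ : ∀ i, itd (φ a) (φ b) (φ c) (φ N, φ (4 * W)) i = (φ (q i).1, φ (q i).2) := fun i =>
    itd_map φ a b c (N, 4 * W) i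
  choose G hG1 hG2 using fun i : ℕ => itd_pole (a := φ a) (b := φ b) (c := φ c) (N := φ N) hD i
  have hst := fun i => hG2 i (Polynomial.evalRingHom s₀) (by simp) (by
    rw [Polynomial.coe_evalRingHom]; exact hNM)
  simp only [Polynomial.coe_evalRingHom] at hst
  have hst2 : ∀ i, ((φ (q i).1).eval s₀ ≠ 0) ∧ (G i).eval s₀ * (φ N).eval s₀ =
      4 ^ i * (4 * E).eval s₀ * (φ (q i).1).eval s₀ := by
    intro i
    have := hst i
    rwa [hqφ i] at this
  have hG0 : ∀ i, (G i).eval s₀ ≠ 0 := by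
    intro i h0
    have h1 := (hst2 i).2
    rw [h0, zero_mul] at h1
    have h2 : (4 * E).eval s₀ ≠ 0 := by
      rw [Polynomial.eval_mul]
      refine mul_ne_zero ?_ hE0
      simp
    exact mul_ne_zero (mul_ne_zero (pow_ne_zero i (by norm_num)) h2) (hst2 i).1 h1.symm
  have hq2 : ∀ i, (q i).2 ≠ 0 := by
    intro i h0
    have h1 : φ (q i).2 = (Polynomial.X - Polynomial.C s₀) * G i := by
      have := hG1 i
      rwa [hqφ i] at this
    rw [h0, map_zero] at h1
    have h2 := (mul_eq_zero.1 h1.symm).resolve_left (Polynomial.X_sub_C_ne_zero s₀)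
    exact hG0 i (by rw [h2, Polynomial.eval_zero])
  have hqij : ∀ i j, i ≠ j → (q i).1 * (q j).2 - (q j).1 * (q i).2 ≠ 0 := by
    intro i j hij h0
    have h1 : ∀ i, φ (q i).2 = (Polynomial.X - Polynomial.C s₀) * G i := by
      intro i
      have := hG1 i
      rwa [hqφ i] at this
    have h2 := congrArg φ h0
    rw [map_sub, map_mul, map_mul, h1, h1, map_zero] at h2
    have h3 : (Polynomial.X - Polynomial.C s₀) * (φ (q i).1 * G j - φ (q j).1 * G i) = 0 := by
      linear_combination h2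
    have h4 := (mul_eq_zero.1 h3).resolve_left (Polynomial.X_sub_C_ne_zero s₀)
    have h5 := congrArg (Polynomial.eval s₀) h4
    rw [Polynomial.eval_sub, Polynomial.eval_mul, Polynomial.eval_mul, Polynomial.eval_zero] at h5
    obtain ⟨n1, m1⟩ := hst2 i
    obtain ⟨n2, m2⟩ := hst2 j
    have h6 : (4 : M) ^ i ≠ 4 ^ j := by
      intro h
      have h7 : ((4 ^ i : ℕ) : M) = ((4 ^ j : ℕ) : M) := by push_cast; exact h
      have h8 : (4 : ℕ) ^ i = 4 ^ j := Nat.cast_injective h7
      exact hij (Nat.pow_right_injective (le_refl 2 |>.trans (by norm_num)) h8)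
    have h7 : (4 * E).eval s₀ ≠ 0 := by
      rw [Polynomial.eval_mul]
      refine mul_ne_zero ?_ hE0
      simp
    have h8 : ((φ (q i).1).eval s₀ * (φ (q j).1).eval s₀ * (4 * E).eval s₀) * (4 ^ j - 4 ^ i) = 0 := by
      linear_combination (φ N).eval s₀ * h5 - (φ (q i).1).eval s₀ * m2 + (φ (q j).1).eval s₀ * m1
    exact mul_ne_zero (mul_ne_zero (mul_ne_zero n1 n2) h7) (sub_ne_zero.2 h6.symm) h8
  -- finiteness
  have hfin1 : {s : K | ∃ i ≤ B, (q i).2.eval s = 0}.Finite := by
    have : {s : K | ∃ i ≤ B, (q i).2.eval s = 0} = ⋃ i ∈ Finset.range (B + 1),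
        {s | (q i).2.IsRoot s} := by
      ext s
      simp
    rw [this]
    exact Set.Finite.biUnion (Finset.finite_toSet _) fun i _ =>
      Polynomial.finite_setOf_isRoot (hq2 i)
  have hfin2 : {s : K | ∃ i ≤ B, ∃ j ≤ B, i ≠ j ∧
      ((q i).1 * (q j).2 - (q j).1 * (q i).2).eval s = 0}.Finite := by
    have : {s : K | ∃ i ≤ B, ∃ j ≤ B, i ≠ j ∧
        ((q i).1 * (q j).2 - (q j).1 * (q i).2).eval s = 0} ⊆
        ⋃ i ∈ Finset.range (B + 1), ⋃ j ∈ Finset.range (B + 1),
        {s | i ≠ j ∧ ((q i).1 * (q j).2 - (q j).1 * (q i).2).IsRoot s} := by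
      rintro s ⟨i, hi, j, hj, hij, h⟩
      simp only [Set.mem_iUnion]
      exact ⟨i, Finset.mem_range.2 (by omega), j, Finset.mem_range.2 (by omega), hij, h⟩
    refine (Set.Finite.biUnion (Finset.finite_toSet _) fun i _ =>
      Set.Finite.biUnion (Finset.finite_toSet _) fun j _ => ?_).subset this
    by_cases hij : i = j
    · refine Set.finite_empty.subset ?_
      rintro s ⟨h, -⟩
      exact absurd hij h
    · exact (Polynomial.finite_setOf_isRoot (hqij i j hij)).subset fun s h => h.2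
  refine (hfin1.union hfin2).subset ?_
  intro s hs
  rw [Set.mem_setOf_eq, not_and_or] at hs
  simp only [hev] at hs
  rcases hs with hs | hs
  · push Not at hs
    left
    exact hs
  · push Not at hs
    obtain ⟨i, hi, j, hj, hij, h⟩ := hs
    right
    refine ⟨i, hi, j, hj, hij, ?_⟩
    rw [Polynomial.eval_sub, Polynomial.eval_mul, Polynomial.eval_mul]
    exact h

end poly

end Pool.Agent.Y720.MZ
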