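import Pool.Agent.Y720.WA.Cont

/-!
# From local points of a quartic to local points of its resolvent (helper720)
-/

set_option autoImplicit false
set_option linter.unusedVariables false
set_option linter.unusedSectionVars false

open Filter Topology

namespace Pool.Agent.Y720.MZ

section alg

variable {F : Type*} [Field F]

/-- numerator of the parameter -/
def Nf (w q₁ q₂ x : F) : F := 4 * w ^ 2 * (x + q₂) - q₁ ^ 2

/-- denominator of the parameter -/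
def Df (w q₁ q₃ x y : F) : F := 2 * w * y - q₁ * x - 2 * w ^ 2 * q₃

/-- the parameter -/
def tf (w q₁ q₂ q₃ x y : F) : F := Nf w q₁ q₂ x / Df w q₁ q₃ x y

/-- the ordinate -/
def Yf (w q₁ q₂ q₃ x y : F) : F :=
  -w + tf w q₁ q₂ q₃ x y * (tf w q₁ q₂ q₃ x y * x - q₁) / (2 * w)

lemma map_tf {F' : Type*} [Field F'] (σ : F →+* F') (w q₁ q₂ q₃ x y : F) :
    σ (tf w q₁ q₂ q₃ x y) = tf (σ w) (σ q₁) (σ q₂) (σ q₃) (σ x) (σ y) := by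
  simp [tf, Nf, Df, map_ofNat]

lemma map_Yf {F' : Type*} [Field F'] (σ : F →+* F') (w q₁ q₂ q₃ x y : F) :
    σ (Yf w q₁ q₂ q₃ x y) = Yf (σ w) (σ q₁) (σ q₂) (σ q₃) (σ x) (σ y) := by
  simp [Yf, map_tf, map_ofNat]

lemma Yf_eqn [CharZero F] {w q₁ q₂ q₃ q₄ x y : F} (hw : w ≠ 0)
    (h : y ^ 2 = x ^ 3 + q₂ * x ^ 2 + rb w q₁ q₃ q₄ * x + rc w q₁ q₂ q₃ q₄)
    (hd : Df w q₁ q₃ x y ≠ 0) :
    Yf w q₁ q₂ q₃ x y ^ 2 = w ^ 2 + q₁ * tf w q₁ q₂ q₃ x y + q₂ * tf w q₁ q₂ q₃ x y ^ 2 +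
      q₃ * tf w q₁ q₂ q₃ x y ^ 3 + q₄ * tf w q₁ q₂ q₃ x y ^ 4 :=
  to_quartic hw h hd rfl

/-- from the quartic to the resolvent -/
lemma from_quartic [CharZero F] {w q₁ q₂ q₃ q₄ t Y x y : F} (hw : w ≠ 0) (ht : t ≠ 0)
    (hY : Y ^ 2 = w ^ 2 + q₁ * t + q₂ * t ^ 2 + q₃ * t ^ 3 + q₄ * t ^ 4)
    (hx : t ^ 2 * x = 2 * w * (Y + w) + q₁ * t) (hy : t * Df w q₁ q₃ x y = Nf w q₁ q₂ x) :
    y ^ 2 = x ^ 3 + q₂ * x ^ 2 + rb w q₁ q₃ q₄ * x + rc w q₁ q₂ q₃ q₄ ∧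
      Y = -w + t * (t * x - q₁) / (2 * w) := by
  have hw2 : (2 * w) ≠ 0 := mul_ne_zero two_ne_zero hw
  have hYe : Y = -w + t * (t * x - q₁) / (2 * w) := by
    field_simp
    linear_combination -hx
  refine ⟨?_, hYe⟩
  have h2 : t ^ 2 * (x ^ 2 - 4 * w ^ 2 * q₄) - 2 * t * (q₁ * x + 2 * w ^ 2 * q₃) -
      Nf w q₁ q₂ x = 0 := by
    apply (mul_eq_zero.1 (?_ : t ^ 2 * _ = 0)).resolve_left (pow_ne_zero 2 ht)
    have e1 : 2 * w * Y = t ^ 2 * x - q₁ * t - 2 * w ^ 2 := by linear_combination -hx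
    unfold Nf
    linear_combination (-(2 * w * Y) - (t ^ 2 * x - q₁ * t - 2 * w ^ 2)) * e1 + 4 * w ^ 2 * hY
  have h4 : (4 * w ^ 2 * t ^ 2) ≠ 0 :=
    mul_ne_zero (mul_ne_zero (by norm_num) (pow_ne_zero 2 hw)) (pow_ne_zero 2 ht)
  apply mul_left_cancel₀ h4
  set N := Nf w q₁ q₂ x with hN
  set D := Df w q₁ q₃ x y with hD
  have e2 : 2 * w * y = D + q₁ * x + 2 * w ^ 2 * q₃ := by rw [hD, Df]; ring
  have e3 : 4 * w ^ 2 * (y ^ 2 - (x ^ 3 + q₂ * x ^ 2 + rb w q₁ q₃ q₄ * x + rc w q₁ q₂ q₃ q₄)) =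
      D ^ 2 + 2 * D * (q₁ * x + 2 * w ^ 2 * q₃) - N * (x ^ 2 - 4 * w ^ 2 * q₄) := by
    have : 4 * w ^ 2 * y ^ 2 = (D + q₁ * x + 2 * w ^ 2 * q₃) ^ 2 := by rw [← e2]; ring
    rw [mul_sub, this, hN, Nf, rb, rc]
    ring
  have e4 : 4 * w ^ 2 * t ^ 2 * (y ^ 2 - (x ^ 3 + q₂ * x ^ 2 + rb w q₁ q₃ q₄ * x +
      rc w q₁ q₂ q₃ q₄)) = 0 := by
    have : 4 * w ^ 2 * t ^ 2 * (y ^ 2 - (x ^ 3 + q₂ * x ^ 2 + rb w q₁ q₃ q₄ * x +
      rc w q₁ q₂ q₃ q₄)) = (t * D) ^ 2 + 2 * t * (t * D) * (q₁ * x + 2 * w ^ 2 * q₃) -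
        t ^ 2 * N * (x ^ 2 - 4 * w ^ 2 * q₄) := by
      linear_combination t ^ 2 * e3
    rw [this, hy]
    linear_combination -N * h2
  linear_combination e4

/-- the ordinate is a Lipschitz function of the parameter -/
lemma s_lip {v : AbsoluteValue F ℝ} {a b c : F} {C ρ : ℝ} (h : Bd v a b c C ρ)
    {t₁ t₂ s₁ s₂ : F} (ht1 : v t₁ ≤ ρ) (ht2 : v t₂ ≤ ρ) (hs1 : v s₁ ≤ ρ) (hs2 : v s₂ ≤ ρ)
    (h1 : s₁ = t₁ ^ 3 + a * t₁ ^ 2 * s₁ + b * t₁ * s₁ ^ 2 + c * s₁ ^ 3)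
    (h2 : s₂ = t₂ ^ 3 + a * t₂ ^ 2 * s₂ + b * t₂ * s₂ ^ 2 + c * s₂ ^ 3) :
    v (s₁ - s₂) ≤ v (t₁ - t₂) := by
  have h3 := hid h1 h2
  have h4 := half_le (fac_le h ht1 ht2 hs1 hs2)
  have hs := s_small h ht1 hs1 h1
  have hs' : v s₁ ≤ 2 * ρ ^ 3 := hs.trans (by
    have := v.nonneg t₁
    gcongr)
  have h5 := num_le h (t₁ := t₁) (t₂ := t₂) (s := s₁) le_rfl ht1 ht2 hs'
  have h6 : v (s₁ - s₂) ≤ 2 * (v (t₁ - t₂) * (7 / 2 * ρ ^ 2)) := by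
    refine le_of_mul h4 ?_
    rw [h3, map_mul]
    have := v.nonneg (t₁ - t₂)
    gcongr
  have h7 := h.ρ_le
  have h8 := h.hρ
  have h9 := v.nonneg (t₁ - t₂)
  have h10 : 7 * ρ ^ 2 ≤ 1 := by nlinarith
  nlinarith

end alg

section loc

variable {K : Type*} [Field K] [CharZero K] {L : Type*} [NontriviallyNormedField L]

/-- **From the quartic to the resolvent, close to the origin.** -/
theorem conv (σ : K →+* L) {w₀ : K} {q₀ : Fin 4 → K} (hw : w₀ ≠ 0) {r ρ : ℝ} (hr : 0 < r)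
    (hρ : 0 < ρ) : ∃ δ : ℝ, 0 < δ ∧ ∀ (w : K) (q : Fin 4 → K), ‖σ w - σ w₀‖ < δ →
      (∀ j, ‖σ (q j) - σ (q₀ j)‖ < δ) → ∀ t Y : L, t ≠ 0 → ‖t‖ < δ → ‖Y - σ w₀‖ < δ →
      Y ^ 2 = σ w ^ 2 + σ (q 0) * t + σ (q 1) * t ^ 2 + σ (q 2) * t ^ 3 + σ (q 3) * t ^ 4 →
      w ≠ 0 ∧ ∃ x y : L, y ^ 2 = x ^ 3 + σ (q 1) * x ^ 2 +
        rb (σ w) (σ (q 0)) (σ (q 2)) (σ (q 3)) * x +
        rc (σ w) (σ (q 0)) (σ (q 1)) (σ (q 2)) (σ (q 3)) ∧ x ≠ 0 ∧ y ≠ 0 ∧ ‖x / y‖ ≤ r ∧ ‖1 / y‖ ≤ ρ ∧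
        Df (σ w) (σ (q 0)) (σ (q 2)) x y ≠ 0 ∧
        t = tf (σ w) (σ (q 0)) (σ (q 1)) (σ (q 2)) x y ∧
        Y = Yf (σ w) (σ (q 0)) (σ (q 1)) (σ (q 2)) x y := by
  have : CharZero L := charZero_of_injective_ringHom σ.injective
  have hw' : σ w₀ ≠ 0 := (map_ne_zero σ).2 hw
  -- the functions
  let Xt : (L × (Fin 4 → L) × L × L) → L := fun e => 2 * e.1 * (e.2.2.2 + e.1) + e.2.1 0 * e.2.2.1
  let Nt : (L × (Fin 4 → L) × L × L) → L := fun e => 4 * e.1 ^ 2 * (Xt e + e.2.1 1 * e.2.2.1 ^ 2) -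
    e.2.1 0 ^ 2 * e.2.2.1 ^ 2
  let Yt : (L × (Fin 4 → L) × L × L) → L := fun e => (Nt e + e.2.1 0 * Xt e * e.2.2.1 +
    2 * e.1 ^ 2 * e.2.1 2 * e.2.2.1 ^ 3) / (2 * e.1)
  let e₀ : L × (Fin 4 → L) × L × L := (σ w₀, fun j => σ (q₀ j), 0, σ w₀)
  have hXc : Continuous Xt := by fun_prop
  have hNc : Continuous Nt := by fun_prop
  have h2w : 2 * σ w₀ ≠ 0 := mul_ne_zero two_ne_zero hw'
  have hYc : ContinuousAt Yt e₀ := by
    refine ContinuousAt.div (by fun_prop) (by fun_prop) h2w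
  have hX0 : Xt e₀ = 4 * σ w₀ ^ 2 := by simp [Xt, e₀]; ring
  have hN0 : Nt e₀ = 16 * σ w₀ ^ 4 := by
    simp only [Nt, hX0]
    simp only [e₀]
    ring
  have hY0 : Yt e₀ = 8 * σ w₀ ^ 3 := by
    simp only [Yt, hN0, hX0]
    simp only [e₀]
    field_simp
    ring
  have hYne : Yt e₀ ≠ 0 := by
    rw [hY0]; exact mul_ne_zero (by norm_num) (pow_ne_zero 3 hw')
  have hNne : Nt e₀ ≠ 0 := by
    rw [hN0]; exact mul_ne_zero (by norm_num) (pow_ne_zero 4 hw')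
  have c1 : ContinuousAt (fun e : L × (Fin 4 → L) × L × L => e.2.2.1 * Xt e / Yt e) e₀ :=
    ContinuousAt.div (by fun_prop) hYc hYne
  have c2 : ContinuousAt (fun e : L × (Fin 4 → L) × L × L => e.2.2.1 ^ 3 / Yt e) e₀ :=
    ContinuousAt.div (by fun_prop) hYc hYne
  have v1 : ∀ᶠ e in 𝓝 e₀, ‖e.2.2.1 * Xt e / Yt e‖ < r := by
    have h1 := c1.tendsto.norm
    have e1 : ‖e₀.2.2.1 * Xt e₀ / Yt e₀‖ = 0 := by simp [e₀]
    rw [e1] at h1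
    exact h1.eventually_lt_const hr
  have v2 : ∀ᶠ e in 𝓝 e₀, ‖e.2.2.1 ^ 3 / Yt e‖ < ρ := by
    have h1 := c2.tendsto.norm
    have e1 : ‖e₀.2.2.1 ^ 3 / Yt e₀‖ = 0 := by simp [e₀]
    rw [e1] at h1
    exact h1.eventually_lt_const hρ
  have v3 : ∀ᶠ e in 𝓝 e₀, Yt e ≠ 0 := hYc.eventually_ne hYne
  have v4 : ∀ᶠ e in 𝓝 e₀, Nt e ≠ 0 := hNc.continuousAt.eventually_ne hNne
  have v6 : ∀ᶠ e in 𝓝 e₀, Xt e ≠ 0 := hXc.continuousAt.eventually_ne (by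
    rw [hX0]; exact mul_ne_zero (by norm_num) (pow_ne_zero 2 hw'))
  have v5 : ∀ᶠ e : L × (Fin 4 → L) × L × L in 𝓝 e₀, e.1 ≠ 0 := continuousAt_fst.eventually_ne hw'
  obtain ⟨δ, hδ, hb⟩ := Metric.eventually_nhds_iff_ball.1 (v1.and (v2.and (v3.and (v4.and (v5.and v6)))))
  refine ⟨δ, hδ, fun w q hww hq t Y ht0 ht hY hYe => ?_⟩
  obtain ⟨b1, b2, b3, b4, b5, b6⟩ := hb (σ w, fun j => σ (q j), t, Y) (by
    rw [Metric.mem_ball, Prod.dist_eq, Prod.dist_eq, Prod.dist_eq]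
    refine max_lt ?_ (max_lt ?_ (max_lt ?_ ?_))
    · rw [dist_eq_norm]; exact hww
    · rw [dist_pi_lt_iff hδ]
      intro j
      rw [dist_eq_norm]
      exact hq j
    · rw [dist_eq_norm, sub_zero]; exact ht
    · rw [dist_eq_norm]; exact hY)
  simp only at b1 b2 b3 b4 b5 b6
  set e : L × (Fin 4 → L) × L × L := (σ w, fun j => σ (q j), t, Y) with he
  have h2w' : 2 * σ w ≠ 0 := mul_ne_zero two_ne_zero b5
  set x : L := Xt e / t ^ 2 with hx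
  set y : L := Yt e / t ^ 3 with hy
  have hxe : t ^ 2 * x = 2 * σ w * (Y + σ w) + σ (q 0) * t := by
    rw [hx, mul_div_cancel₀ _ (pow_ne_zero 2 ht0)]
  have hXe : Xt e = t ^ 2 * x := by rw [hxe]
  have hNe : Nt e = t ^ 2 * Nf (σ w) (σ (q 0)) (σ (q 1)) x := by
    have : Nt e = 4 * σ w ^ 2 * (Xt e + σ (q 1) * t ^ 2) - σ (q 0) ^ 2 * t ^ 2 := rfl
    rw [this, hXe, Nf]; ring
  have hYe' : 2 * σ w * Yt e = Nt e + σ (q 0) * Xt e * t + 2 * σ w ^ 2 * σ (q 2) * t ^ 3 := by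
    have : Yt e = (Nt e + σ (q 0) * Xt e * t + 2 * σ w ^ 2 * σ (q 2) * t ^ 3) / (2 * σ w) := rfl
    rw [this, mul_div_cancel₀ _ h2w']
  have hye : Yt e = t ^ 3 * y := by rw [hy, mul_div_cancel₀ _ (pow_ne_zero 3 ht0)]
  have hDf : t * Df (σ w) (σ (q 0)) (σ (q 2)) x y = Nf (σ w) (σ (q 0)) (σ (q 1)) x := by
    apply mul_left_cancel₀ (pow_ne_zero 2 ht0)
    rw [← hNe, Df]
    rw [hye, hXe] at hYe'
    linear_combination hYe'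
  obtain ⟨g1, g2⟩ := from_quartic b5 ht0 hYe hxe hDf
  have hNf : Nf (σ w) (σ (q 0)) (σ (q 1)) x ≠ 0 := by
    intro h0
    apply b4
    rw [hNe, h0, mul_zero]
  have hDf0 : Df (σ w) (σ (q 0)) (σ (q 2)) x y ≠ 0 := by
    intro h0
    rw [h0, mul_zero] at hDf
    exact hNf hDf.symm
  have htf : t = tf (σ w) (σ (q 0)) (σ (q 1)) (σ (q 2)) x y := by
    rw [tf, ← hDf, mul_div_assoc, div_self hDf0, mul_one]
  refine ⟨fun h0 => b5 (by rw [h0, map_zero]), x, y, g1, ?_, ?_, ?_, ?_, hDf0, htf, ?_⟩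
  · rw [hx]; exact div_ne_zero b6 (pow_ne_zero 2 ht0)
  · rw [hy]; exact div_ne_zero b3 (pow_ne_zero 3 ht0)
  · have : x / y = t * Xt e / Yt e := by rw [hx, hy]; field_simp
    rw [this]; exact b1.le
  · have : 1 / y = t ^ 3 / Yt e := by rw [hy]; field_simp
    rw [this]; exact b2.le
  · rw [Yf, ← htf]; exact g2

/-- the quartic point is a continuous function of the parameter of the resolvent -/
theorem conv_cont (σ : K →+* L) {w q₁ q₂ q₃ q₄ : K} {C ρ : ℝ}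
    (hB : Bd (av σ) q₂ (rb w q₁ q₃ q₄) (rc w q₁ q₂ q₃ q₄) C ρ) (hw : w ≠ 0) {x y : L}
    (hxy : y ^ 2 = x ^ 3 + σ q₂ * x ^ 2 + rb (σ w) (σ q₁) (σ q₃) (σ q₄) * x +
      rc (σ w) (σ q₁) (σ q₂) (σ q₃) (σ q₄)) (hy : y ≠ 0) (hx : ‖x / y‖ ≤ ρ) (hs : ‖1 / y‖ ≤ ρ)
    (hD : Df (σ w) (σ q₁) (σ q₃) x y ≠ 0) {η' : ℝ} (hη' : 0 < η') :
    ∃ η : ℝ, 0 < η ∧ ∀ x' y' : K,
      y' ^ 2 = x' ^ 3 + q₂ * x' ^ 2 + rb w q₁ q₃ q₄ * x' + rc w q₁ q₂ q₃ q₄ → y' ≠ 0 →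
      ‖σ (x' / y')‖ ≤ ρ → ‖σ (1 / y')‖ ≤ ρ → ‖σ (x' / y') - x / y‖ < η →
      Df w q₁ q₃ x' y' ≠ 0 ∧
      ‖σ (tf w q₁ q₂ q₃ x' y') - tf (σ w) (σ q₁) (σ q₂) (σ q₃) x y‖ < η' ∧
      ‖σ (Yf w q₁ q₂ q₃ x' y') - Yf (σ w) (σ q₁) (σ q₂) (σ q₃) x y‖ < η' := by
  have : CharZero L := charZero_of_injective_ringHom σ.injective
  have hw' : σ w ≠ 0 := (map_ne_zero σ).2 hw
  have hrb : σ (rb w q₁ q₃ q₄) = rb (σ w) (σ q₁) (σ q₃) (σ q₄) := by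
    simp [rb, map_ofNat]
  have hrc : σ (rc w q₁ q₂ q₃ q₄) = rc (σ w) (σ q₁) (σ q₂) (σ q₃) (σ q₄) := by
    simp [rc, map_ofNat]
  -- the map from `(t, s)` to the quartic
  let D : L × L → L := fun e => Df (σ w) (σ q₁) (σ q₃) (e.1 / e.2) (1 / e.2)
  let T : L × L → L := fun e => tf (σ w) (σ q₁) (σ q₂) (σ q₃) (e.1 / e.2) (1 / e.2)
  let Y : L × L → L := fun e => Yf (σ w) (σ q₁) (σ q₂) (σ q₃) (e.1 / e.2) (1 / e.2)
  have hs0 : 1 / y ≠ 0 := one_div_ne_zero hy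
  have e1 : x / y / (1 / y) = x := by field_simp
  have e2 : 1 / (1 / y) = y := one_div_one_div y
  have hsn : ContinuousAt (fun e : L × L => e.1 / e.2) (x / y, 1 / y) :=
    ContinuousAt.div continuousAt_fst continuousAt_snd hs0
  have hsn' : ContinuousAt (fun e : L × L => 1 / e.2) (x / y, 1 / y) :=
    ContinuousAt.div continuousAt_const continuousAt_snd hs0
  have hDc : ContinuousAt D (x / y, 1 / y) := by
    simp only [D, Df]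
    exact ((hsn'.const_mul _).sub (hsn.const_mul _)).sub continuousAt_const
  have hD0 : D (x / y, 1 / y) = Df (σ w) (σ q₁) (σ q₃) x y := by
    simp only [D, e1, e2]
  have hT0 : T (x / y, 1 / y) = tf (σ w) (σ q₁) (σ q₂) (σ q₃) x y := by
    simp only [T, e1, e2]
  have hY0 : Y (x / y, 1 / y) = Yf (σ w) (σ q₁) (σ q₂) (σ q₃) x y := by
    simp only [Y, e1, e2]
  have hTc : ContinuousAt T (x / y, 1 / y) := by
    have h1 : ContinuousAt (fun e : L × L => Nf (σ w) (σ q₁) (σ q₂) (e.1 / e.2)) (x / y, 1 / y) := by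
      simp only [Nf]
      exact ((hsn.add continuousAt_const).const_mul _).sub continuousAt_const
    exact h1.div hDc (by
      change D (x / y, 1 / y) ≠ 0
      rw [hD0]; exact hD)
  have hYc : ContinuousAt Y (x / y, 1 / y) := by
    have h1 : Y = fun e : L × L => -σ w + T e * (T e * (e.1 / e.2) - σ q₁) / (2 * σ w) := rfl
    rw [h1]
    exact continuousAt_const.add ((hTc.mul ((hTc.mul hsn).sub continuousAt_const)).div_const _)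
  have v1 : ∀ᶠ e in 𝓝 (x / y, 1 / y), D e ≠ 0 := hDc.eventually_ne (by rw [hD0]; exact hD)
  have v2 : ∀ᶠ e in 𝓝 (x / y, 1 / y), ‖T e - T (x / y, 1 / y)‖ < η' := by
    have h1 := (hTc.tendsto.sub_const (T (x / y, 1 / y))).norm
    rw [sub_self, norm_zero] at h1
    exact h1.eventually_lt_const hη'
  have v3 : ∀ᶠ e in 𝓝 (x / y, 1 / y), ‖Y e - Y (x / y, 1 / y)‖ < η' := by
    have h1 := (hYc.tendsto.sub_const (Y (x / y, 1 / y))).norm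
    rw [sub_self, norm_zero] at h1
    exact h1.eventually_lt_const hη'
  obtain ⟨η, hη, hb⟩ := Metric.eventually_nhds_iff_ball.1 (v1.and (v2.and v3))
  refine ⟨η, hη, fun x' y' hxy' hy' h1 h2 h3 => ?_⟩
  -- the ordinates are close
  have hBL : Bd (av (RingHom.id L)) (σ q₂) (rb (σ w) (σ q₁) (σ q₃) (σ q₄))
      (rc (σ w) (σ q₁) (σ q₂) (σ q₃) (σ q₄)) C ρ :=
    { hC := hB.hC
      ha := hB.ha
      hb := by rw [← hrb]; exact hB.hb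
      hc := by rw [← hrc]; exact hB.hc
      hρ := hB.hρ
      hCρ := hB.hCρ }
  have q1 := ts_eqn hy hxy
  have q2 := congrArg σ (ts_eqn hy' hxy')
  simp only [map_add, map_mul, map_pow, hrb, hrc] at q2
  have h4 : ‖σ (1 / y') - 1 / y‖ ≤ ‖σ (x' / y') - x / y‖ :=
    s_lip hBL (v := av (RingHom.id L)) h1 hx h2 hs q2 q1
  have hmem : (σ (x' / y'), σ (1 / y')) ∈ Metric.ball (x / y, 1 / y) η := by
    rw [Metric.mem_ball, Prod.dist_eq]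
    refine max_lt ?_ ?_
    · rw [dist_eq_norm]; exact h3
    · rw [dist_eq_norm]; exact h4.trans_lt h3
  obtain ⟨b1, b2, b3⟩ := hb _ hmem
  have hy'' : σ y' ≠ 0 := (map_ne_zero σ).2 hy'
  have e3 : σ (x' / y') / σ (1 / y') = σ x' := by
    rw [map_div₀, map_div₀, map_one]; field_simp
  have e4 : 1 / σ (1 / y') = σ y' := by
    rw [map_div₀, map_one, one_div_one_div]
  have hDe : D (σ (x' / y'), σ (1 / y')) = σ (Df w q₁ q₃ x' y') := by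
    simp only [D, e3, e4]; simp [Df, map_ofNat]
  have hTe : T (σ (x' / y'), σ (1 / y')) = σ (tf w q₁ q₂ q₃ x' y') := by
    simp only [T, e3, e4, map_tf]
  have hYe : Y (σ (x' / y'), σ (1 / y')) = σ (Yf w q₁ q₂ q₃ x' y') := by
    simp only [Y, e3, e4, map_Yf]
  refine ⟨?_, ?_, ?_⟩
  · intro h0
    apply b1
    rw [hDe, h0, map_zero]
  · rw [← hTe, ← hT0]; exact b2
  · rw [← hYe, ← hY0]; exact b3

/-- square roots -/
lemma exists_sqrt {L : Type*} [NontriviallyNormedField L] [CompleteSpace L] [CharZero L] {w : L}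
    (hw : w ≠ 0) {ε : ℝ} (hε : 0 < ε) : ∃ δ : ℝ, 0 < δ ∧ ∀ a : L, ‖a - w ^ 2‖ < δ →
      ∃ Y : L, ‖Y - w‖ < ε ∧ Y ^ 2 = a := by
  have h1 : HasStrictDerivAt (fun x : L => x ^ 2) (2 * w) w := by
    have := hasStrictDerivAt_pow 2 w
    simpa using this
  have h2 := h1.map_nhds_eq (mul_ne_zero two_ne_zero hw)
  have h3 : (fun x : L => x ^ 2) '' Metric.ball w ε ∈ 𝓝 (w ^ 2) := by
    rw [← h2]
    exact Filter.image_mem_map (Metric.ball_mem_nhds w hε)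
  obtain ⟨δ, hδ, hb⟩ := Metric.mem_nhds_iff.1 h3
  refine ⟨δ, hδ, fun a ha => ?_⟩
  obtain ⟨Y, hY, hYa⟩ := hb (mem_ball_iff_norm.2 ha)
  exact ⟨Y, mem_ball_iff_norm.1 hY, hYa⟩

end loc

end Pool.Agent.Y720.MZ
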