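import Pool.Agent.Y720.MZ.Kum4

/-!
# Rational points on singular quartics close to a rational point (helper720)
-/

set_option autoImplicit false
set_option linter.unusedSectionVars false
set_option linter.unusedVariables false

open Filter Topology Polynomial

namespace Pool.Agent.Y720.MZ

variable {K : Type*} [Field K] [CharZero K] {L : Type*} [NontriviallyNormedField L]
  [CompleteSpace L]

/-- points of a conic close to a rational point -/
lemma conic_near (σ : K →+* L) (hσ : DenseRange σ) {w a b : K} (hw : w ≠ 0) {ε : ℝ}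
    (hε : 0 < ε) : ∃ t Y : K, t ≠ 0 ∧ ‖σ t‖ < ε ∧ ‖σ (Y - w)‖ < ε ∧
      Y ^ 2 = w ^ 2 + a * t + b * t ^ 2 := by
  have : CharZero L := charZero_of_injective_ringHom σ.injective
  -- `t = (a u² + 2 w u) / (1 - b u²)`, `Y = -w + (a u + 2 w) / (1 - b u²)`
  have hc1 : Tendsto (fun u : L => (σ a * u ^ 2 + 2 * σ w * u) / (1 - σ b * u ^ 2)) (𝓝 0) (𝓝 0) := by
    have h1 : ContinuousAt (fun u : L => (σ a * u ^ 2 + 2 * σ w * u) / (1 - σ b * u ^ 2)) 0 := by
      refine ContinuousAt.div (by fun_prop) (by fun_prop) (by simp)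
    have h2 := h1.tendsto
    simpa using h2
  have hc2 : Tendsto (fun u : L => -σ w + (σ a * u + 2 * σ w) / (1 - σ b * u ^ 2) - σ w) (𝓝 0)
      (𝓝 0) := by
    have h1 : ContinuousAt (fun u : L => -σ w + (σ a * u + 2 * σ w) / (1 - σ b * u ^ 2) - σ w) 0 := by
      refine ContinuousAt.sub (ContinuousAt.add (by fun_prop) (ContinuousAt.div (by fun_prop)
        (by fun_prop) (by simp))) (by fun_prop)
    have h2 := h1.tendsto
    have e : -σ w + (σ a * 0 + 2 * σ w) / (1 - σ b * 0 ^ 2) - σ w = 0 := by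
      simp; ring
    rwa [e] at h2
  have hU : {u : L | ‖(σ a * u ^ 2 + 2 * σ w * u) / (1 - σ b * u ^ 2)‖ < ε ∧
      ‖-σ w + (σ a * u + 2 * σ w) / (1 - σ b * u ^ 2) - σ w‖ < ε} ∈ 𝓝 (0 : L) := by
    filter_upwards [hc1.norm.eventually_lt_const (by simpa using hε),
      hc2.norm.eventually_lt_const (by simpa using hε)] with u h1 h2 using ⟨h1, h2⟩
  have hinf := infinite_near' σ hσ hU
  -- avoid the zeros of the numerator and of the denominator
  have hfin : {u : K | (a * u ^ 2 + 2 * w * u) * (1 - b * u ^ 2) = 0}.Finite := by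
    have hp : ((C a * X ^ 2 + C (2 * w) * X) * (1 - C b * X ^ 2) : K[X]) ≠ 0 := by
      refine mul_ne_zero ?_ ?_
      · intro h0
        have := congrArg (fun p => p.coeff 1) h0
        simp [coeff_X_pow] at this
        exact hw this
      · intro h0
        have := congrArg (fun p => p.coeff 0) h0
        simp [coeff_X_pow] at this
    refine (((C a * X ^ 2 + C (2 * w) * X) * (1 - C b * X ^ 2) : K[X]).rootSet_finite K).subset
      fun u hu => ?_
    rw [mem_rootSet]
    refine ⟨hp, ?_⟩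
    simpa using hu
  obtain ⟨u, ⟨hu, -⟩, hu0⟩ := (hinf.sdiff hfin).nonempty
  have hu0' : (a * u ^ 2 + 2 * w * u) * (1 - b * u ^ 2) ≠ 0 := hu0
  obtain ⟨h1, h2⟩ := mul_ne_zero_iff.1 hu0'
  refine ⟨(a * u ^ 2 + 2 * w * u) / (1 - b * u ^ 2), -w + (a * u + 2 * w) / (1 - b * u ^ 2),
    div_ne_zero h1 h2, ?_, ?_, ?_⟩
  · have := hu.1
    simpa [map_ofNat] using this
  · have := hu.2
    simpa [map_ofNat] using this
  · set c := 1 - b * u ^ 2 with hc
    have hb : b * u ^ 2 = 1 - c := by rw [hc]; ring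
    field_simp
    linear_combination (-(a * u + 2 * w) ^ 2) * hb

/-- points of a singular quartic close to a rational point -/
theorem quartic_sing (σ : K →+* L) (hσ : DenseRange σ) {w q₁ q₂ q₃ q₄ : K} (hw : w ≠ 0)
    (hs : ¬((qpol (w ^ 2) q₁ q₂ q₃ q₄).Separable ∧ 3 ≤ (qpol (w ^ 2) q₁ q₂ q₃ q₄).natDegree))
    {ε : ℝ} (hε : 0 < ε) : ∃ t Y : K, t ≠ 0 ∧ ‖σ t‖ < ε ∧ ‖σ (Y - w)‖ < ε ∧
      Y ^ 2 = w ^ 2 + q₁ * t + q₂ * t ^ 2 + q₃ * t ^ 3 + q₄ * t ^ 4 := by
  set p := qpol (w ^ 2) q₁ q₂ q₃ q₄ with hp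
  have hev : ∀ t, p.eval t = w ^ 2 + q₁ * t + q₂ * t ^ 2 + q₃ * t ^ 3 + q₄ * t ^ 4 := by
    intro t; simp [hp, qpol]
  -- `p = g² h` with `h` of degree at most two
  obtain ⟨g, h, hgh, hh⟩ : ∃ g h : K[X], p = g ^ 2 * h ∧ h.natDegree ≤ 2 := by
    have hp0 : p ≠ 0 := by
      intro h0
      have := hev 0
      rw [h0] at this
      simp at this
      exact hw (pow_eq_zero_iff two_ne_zero |>.1 this.symm)
    have hpd : p.natDegree ≤ 4 := by
      rw [hp]; unfold qpol; compute_degree
    by_cases hd : p.natDegree ≤ 2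
    · exact ⟨1, p, by rw [one_pow, one_mul], hd⟩
    · have hns : ¬p.Separable := fun h => hs ⟨h, by omega⟩
      rw [PerfectField.separable_iff_squarefree, Squarefree] at hns
      push Not at hns
      obtain ⟨g, ⟨h, hgh⟩, hg⟩ := hns
      refine ⟨g, h, by rw [hgh, sq], ?_⟩
      have hg0 : g ≠ 0 := by
        rintro rfl
        apply hp0
        rw [hgh]; simp
      have hh0 : h ≠ 0 := by
        rintro rfl
        apply hp0
        rw [hgh]; simp
      have h1 : g.natDegree ≠ 0 := by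
        intro h0
        rw [Polynomial.natDegree_eq_zero] at h0
        obtain ⟨c, rfl⟩ := h0
        apply hg
        rw [Polynomial.isUnit_C]
        exact isUnit_iff_ne_zero.2 (by simpa using hg0)
      rw [hgh, natDegree_mul (mul_ne_zero hg0 hg0) hh0, natDegree_mul hg0 hg0] at hpd
      omega
  have hh' : h = C (h.coeff 0) + C (h.coeff 1) * X + C (h.coeff 2) * X ^ 2 := by
    conv_lhs => rw [h.as_sum_range_C_mul_X_pow' (n := 3) (by omega)]
    simp [Finset.sum_range_succ]
  set α := h.coeff 0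
  set β := h.coeff 1
  set γ := h.coeff 2
  have hhe : ∀ t, h.eval t = α + β * t + γ * t ^ 2 := by
    intro t; rw [hh']; simp
  have h0 : g.eval 0 ^ 2 * α = w ^ 2 := by
    have := hev 0
    rw [hgh, eval_mul, eval_pow, hhe] at this
    linear_combination this
  have hg0 : g.eval 0 ≠ 0 := by
    intro h1
    rw [h1] at h0
    apply hw
    rw [zero_pow two_ne_zero, zero_mul] at h0
    exact pow_eq_zero_iff two_ne_zero |>.1 h0.symm
  set w' := w / g.eval 0 with hw'
  have hw'0 : w' ≠ 0 := div_ne_zero hw hg0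
  have hα : α = w' ^ 2 := by
    rw [hw', div_pow, ← h0]; field_simp
  -- continuity of `g t * Z`
  have hcont : ContinuousAt (fun q : L × L => (g.map σ).eval q.1 * q.2) (0, σ w') := by
    refine ContinuousAt.mul ?_ continuousAt_snd
    exact ((g.map σ).continuous.comp continuous_fst).continuousAt
  have e0 : (g.map σ).eval 0 * σ w' = σ w := by
    have : (0 : L) = σ 0 := (map_zero σ).symm
    rw [this, eval_map_apply, ← map_mul, hw']
    congr 1
    field_simp
  have hnear : {q : L × L | ‖(g.map σ).eval q.1 * q.2 - σ w‖ < ε} ∈ 𝓝 ((0 : L), σ w') := by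
    have h1 := (hcont.tendsto.sub_const (σ w)).norm
    simp only [e0, sub_self, norm_zero] at h1
    exact h1.eventually_lt_const hε
  obtain ⟨δ, hδ, hδb⟩ := Metric.mem_nhds_iff.1 hnear
  obtain ⟨t, Z, ht0, ht, hZ, hYZ⟩ := conic_near σ hσ (a := β) (b := γ) hw'0 (lt_min hε hδ)
  refine ⟨t, g.eval t * Z, ht0, ht.trans_le (min_le_left _ _), ?_, ?_⟩
  · have h2 : (σ t, σ Z) ∈ Metric.ball ((0 : L), σ w') δ := by
      rw [mem_ball_iff_norm, Prod.norm_def]
      refine max_lt ?_ ?_
      · simpa using ht.trans_le (min_le_right _ _)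
      · rw [Prod.snd_sub, ← map_sub]
        exact hZ.trans_le (min_le_right _ _)
    have h3 := hδb h2
    simp only [Set.mem_ofPred_eq] at h3
    rw [map_sub, map_mul]
    rwa [eval_map_apply] at h3
  · rw [← hev, hgh, eval_mul, eval_pow, hhe, mul_pow, hYZ, hα]

end Pool.Agent.Y720.MZ
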