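import Pool.Agent.Y720.WA.Wap2

/-!
# The real place and finitely many p-adic places (helper720)
-/

set_option autoImplicit false
set_option linter.unusedVariables false
set_option linter.unusedSectionVars false

open Filter Topology

namespace Pool.Agent.Y720.MZ

/-- the completions -/
def Lv {ι : Type*} (p : ι → ℕ) [∀ i, Fact (p i).Prime] : Option ι → Type
  | none => ℝ
  | some i => ℚ_[p i]

section inst

variable {ι : Type*} {p : ι → ℕ} [hp : ∀ i, Fact (p i).Prime]

noncomputable instance instLv : ∀ v, NontriviallyNormedField (Lv p v)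
  | none => inferInstanceAs (NontriviallyNormedField ℝ)
  | some i => inferInstanceAs (NontriviallyNormedField ℚ_[p i])

instance instLvC : ∀ v, CompleteSpace (Lv p v)
  | none => inferInstanceAs (CompleteSpace ℝ)
  | some i => inferInstanceAs (CompleteSpace ℚ_[p i])

variable {K : Type*} [Field K] [CharZero K]

/-- the embeddings -/
noncomputable def sv (σ : ∀ i, K →+* ℚ_[p i]) (τ : K →+* ℝ) : ∀ v, K →+* Lv p v
  | none => τ
  | some i => σ i

/-- the absolute values of the rational numbers -/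
noncomputable def vq (p : ι → ℕ) [∀ i, Fact (p i).Prime] : Option ι → AbsoluteValue ℚ ℝ
  | none => Rat.AbsoluteValue.real
  | some i => Rat.AbsoluteValue.padic (p i)

lemma vq_apply (σ : ∀ i, K →+* ℚ_[p i]) (τ : K →+* ℝ) (v : Option ι) (x : ℚ) :
    ‖sv σ τ v (x : K)‖ = vq p v x := by
  rcases v with _ | i
  · change ‖τ (x : K)‖ = Rat.AbsoluteValue.real x
    rw [map_ratCast, Rat.AbsoluteValue.real_eq_abs, Real.norm_eq_abs, Rat.cast_abs]
  · change ‖σ i (x : K)‖ = Rat.AbsoluteValue.padic (p i) x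
    rw [map_ratCast, Rat.AbsoluteValue.padic_eq_padicNorm, Padic.eq_padicNorm]

lemma padic_self (q : ℕ) [Fact q.Prime] : Rat.AbsoluteValue.padic q q < 1 := by
  rw [Rat.AbsoluteValue.padic_eq_padicNorm, padicNorm.padicNorm_p (Fact.out : q.Prime).one_lt]
  push_cast
  exact inv_lt_one_of_one_lt₀ (by exact_mod_cast (Fact.out : q.Prime).one_lt)

lemma vq_nontrivial (v : Option ι) : (vq p v).IsNontrivial := by
  rcases v with _ | i
  · refine ⟨2, two_ne_zero, ?_⟩
    change Rat.AbsoluteValue.real 2 ≠ 1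
    rw [Rat.AbsoluteValue.real_eq_abs]
    norm_num
  · refine ⟨(p i : ℚ), by exact_mod_cast (hp i).out.ne_zero, ?_⟩
    exact (padic_self (p i)).ne

lemma vq_pairwise (hinj : Function.Injective p) :
    Pairwise fun v v' => ¬(vq p v).IsEquiv (vq p v') := by
  intro v v' hv
  rcases v with _ | i
  · rcases v' with _ | j
    · exact absurd rfl hv
    · exact Rat.AbsoluteValue.not_real_isEquiv_padic (p j)
  · rcases v' with _ | j
    · exact fun h => Rat.AbsoluteValue.not_real_isEquiv_padic (p i) h.symm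
    · intro h
      have hij : p i ≠ p j := fun h0 => hv (by rw [hinj h0])
      have h1 : Rat.AbsoluteValue.padic (p j) (p i : ℚ) < 1 :=
        (h.lt_one_iff).1 (padic_self (p i))
      rw [Rat.AbsoluteValue.padic_eq_padicNorm, padicNorm.padicNorm_of_prime_of_ne hij.symm] at h1
      norm_num at h1

lemma near_real (τ : K →+* ℝ) (m : ℝ) {ε : ℝ} (hε : 0 < ε) : ∃ r : ℚ, ‖τ (r : K) - m‖ < ε := by
  obtain ⟨r, hr1, hr2⟩ := exists_rat_btwn (show m - ε < m by linarith)
  refine ⟨r, ?_⟩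
  rw [map_ratCast, Real.norm_eq_abs, abs_lt]
  constructor <;> linarith

lemma near_padic {q : ℕ} [Fact q.Prime] (σ : K →+* ℚ_[q]) (m : ℚ_[q]) {ε : ℝ} (hε : 0 < ε) :
    ∃ r : ℚ, ‖σ (r : K) - m‖ < ε := by
  obtain ⟨r, hr⟩ := Padic.rat_dense q m hε
  exact ⟨r, by rw [map_ratCast, norm_sub_rev]; exact hr⟩

/-- weak approximation for the line -/
theorem dn_all [Finite ι] (hinj : Function.Injective p) (σ : ∀ i, K →+* ℚ_[p i]) (τ : K →+* ℝ) :
    Dn (sv σ τ) := by
  intro m η hη
  have h1 : ∀ v, ∃ r : ℚ, ‖sv σ τ v (r : K) - m v‖ < η / 2 := by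
    intro v
    rcases v with _ | i
    · exact near_real τ (m none) (half_pos hη)
    · exact near_padic (σ i) (m (some i)) (half_pos hη)
  choose r hr using h1
  have h2 := AbsoluteValue.denseRange_algebraMap_pi (F := ℚ) (v := vq p) vq_nontrivial
    (vq_pairwise hinj)
  have : Fintype ι := Fintype.ofFinite ι
  obtain ⟨x, hx⟩ := Metric.denseRange_iff.1 h2 (fun v => (WithAbs.equiv (vq p v)).symm (r v))
    (η / 2) (half_pos hη)
  rw [dist_pi_lt_iff (half_pos hη)] at hx
  refine ⟨(x : K), fun v => ?_⟩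
  have h3 := hx v
  have h4 : ‖sv σ τ v ((r v - x : ℚ) : K)‖ < η / 2 := by
    rw [vq_apply]
    rw [dist_eq_norm] at h3
    exact h3
  rw [Rat.cast_sub, map_sub] at h4
  have h5 := norm_sub_le_norm_sub_add_norm_sub (sv σ τ v (x : K)) (sv σ τ v (r v : K)) (m v)
  rw [norm_sub_rev (sv σ τ v (x : K)) (sv σ τ v (r v : K))] at h5
  have h6 := hr v
  linarith

/-- the genus one curves -/
theorem waq_all [Finite ι] [DecidableEq K] [Nonempty ι] (hinj : Function.Injective p)
    (σ : ∀ i, K →+* ℚ_[p i]) (τ : K →+* ℝ) {θ₀ : K × (Fin 4 → K)} (hw : θ₀.1 ≠ 0)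
    (hD : dsc (tA θ₀) (tB θ₀) (tC θ₀) ≠ 0)
    (hS : ∀ h, ∀ n : ℕ, n ≠ 0 → n • (.some (tX θ₀) (tY θ₀) h :
      Pt (tA θ₀) (tB θ₀) (tC θ₀)) ≠ 0) : WAq (sv σ τ) θ₀ := by
  have : Fintype ι := Fintype.ofFinite ι
  obtain ⟨δ, hδ, h⟩ := lemE (σ := σ) (τ := τ) hinj hw hD hS
  refine ⟨δ, hδ, fun θ h1 h2 t Y ht hY he η hη => ?_⟩
  obtain ⟨u, Z, g1, g2, g3, g4⟩ := h θ (fun i => h1 (some i)) (fun i j => h2 (some i) j) (h1 none)
    (fun j => h2 none j) (fun i => t (some i)) (fun i => Y (some i)) (t none) (Y none)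
    (fun i => ht (some i)) (fun i => hY (some i)) (ht none) (hY none) (fun i => he (some i))
    (he none) η hη
  refine ⟨u, Z, g1, ?_⟩
  rintro (_ | i)
  · exact ⟨g3, g4⟩
  · exact g2 i

end inst

end Pool.Agent.Y720.MZ
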