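import Pool.Agent.Y720.WA.Fill3

/-!
# Continuity of the multiples of a point in a family of curves (helper720)
-/

set_option autoImplicit false
set_option linter.unusedVariables false
set_option linter.unusedSectionVars false

open WeierstrassCurve Filter Topology

namespace Pool.Agent.Y720.MZ

variable {K : Type*} [Field K] [CharZero K] [DecidableEq K] {L : Type*}
  [NontriviallyNormedField L]

/-- **Continuity of the multiples.** -/
theorem cont_mult {Θ : Type*} {l : Filter Θ} (σ : K →+* L) {a b c x y : Θ → K}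
    {a₀ b₀ c₀ x₀ y₀ : K} (ha : Tendsto (fun θ => σ (a θ)) l (𝓝 (σ a₀)))
    (hb : Tendsto (fun θ => σ (b θ)) l (𝓝 (σ b₀))) (hc : Tendsto (fun θ => σ (c θ)) l (𝓝 (σ c₀)))
    (hx : Tendsto (fun θ => σ (x θ)) l (𝓝 (σ x₀))) (hy : Tendsto (fun θ => σ (y θ)) l (𝓝 (σ y₀)))
    (h₀ : (cv a₀ b₀ c₀).toAffine.Nonsingular x₀ y₀)
    (hinf : ∀ n : ℕ, n ≠ 0 → n • (.some x₀ y₀ h₀ : Pt a₀ b₀ c₀) ≠ 0) (n : ℕ) (hn : n ≠ 0) :
    ∃ (X Y : Θ → K) (X₀ Y₀ : K), (∃ h', n • (.some x₀ y₀ h₀ : Pt a₀ b₀ c₀) = .some X₀ Y₀ h') ∧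
      (∀ᶠ θ in l, ∀ h : (cv (a θ) (b θ) (c θ)).toAffine.Nonsingular (x θ) (y θ), ∃ h',
        n • (.some (x θ) (y θ) h : Pt (a θ) (b θ) (c θ)) = .some (X θ) (Y θ) h') ∧
      Tendsto (fun θ => σ (X θ)) l (𝓝 (σ X₀)) ∧ Tendsto (fun θ => σ (Y θ)) l (𝓝 (σ Y₀)) := by
  have : CharZero L := charZero_of_injective_ringHom σ.injective
  obtain ⟨m, rfl⟩ := Nat.exists_eq_succ_of_ne_zero hn
  clear hn
  induction m with
  | zero =>
    refine ⟨x, y, x₀, y₀, ⟨h₀, by rw [Nat.succ_eq_add_one, zero_add, one_smul]⟩,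
      Eventually.of_forall fun θ h => ⟨h, by rw [Nat.succ_eq_add_one, zero_add, one_smul]⟩, hx, hy⟩
  | succ m ih =>
    obtain ⟨X, Y, X₀, Y₀, ⟨h', he⟩, hev, hX, hY⟩ := ih
    by_cases hxx : X₀ = x₀
    · -- doubling
      subst hxx
      have hm : m = 0 := by
        rcases eq_or_neg h' h₀ with e | e
        · by_contra hm
          apply hinf m hm
          have : (m + 1) • (.some X₀ y₀ h₀ : Pt a₀ b₀ c₀) = .some X₀ y₀ h₀ := he.trans e
          rw [succ_nsmul] at this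
          exact add_eq_right.1 this
        · exfalso
          apply hinf (m + 2) (by omega)
          have : (m + 1) • (.some X₀ y₀ h₀ : Pt a₀ b₀ c₀) = -.some X₀ y₀ h₀ := he.trans e
          rw [succ_nsmul, this, neg_add_cancel]
      subst hm
      have hy0 : 2 * y₀ ≠ 0 := by
        intro h0
        apply hinf 2 two_ne_zero
        rw [two_nsmul, dbl_zero h₀ h0]
      obtain ⟨h2, e2⟩ := dbl_mk h₀ hy0 (ℓ := (3 * X₀ ^ 2 + 2 * a₀ * X₀ + b₀) / (2 * y₀))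
        (div_mul_cancel₀ _ hy0)
      set ℓ : Θ → K := fun θ => (3 * x θ ^ 2 + 2 * a θ * x θ + b θ) / (2 * y θ) with hℓ
      set ℓ₀ := (3 * X₀ ^ 2 + 2 * a₀ * X₀ + b₀) / (2 * y₀) with hℓ₀
      have hy0' : 2 * σ y₀ ≠ 0 := by
        have := (map_ne_zero σ).2 hy0
        rwa [map_mul, map_ofNat] at this
      have hℓt : Tendsto (fun θ => σ (ℓ θ)) l (𝓝 (σ ℓ₀)) := by
        simp only [hℓ, hℓ₀, map_div₀, map_add, map_mul, map_pow, map_ofNat]
        exact ((((hx.pow 2).const_mul _).add ((ha.const_mul _).mul hx)).add hb).div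
          (hy.const_mul _) hy0'
      have hyev : ∀ᶠ θ in l, 2 * y θ ≠ 0 := by
        have h1 : ∀ᶠ θ in l, 2 * σ (y θ) ≠ 0 := (hy.const_mul 2).eventually_ne hy0'
        filter_upwards [h1] with θ h h0
        apply h
        have := congrArg σ h0
        rwa [map_mul, map_ofNat, map_zero] at this
      have hX2 : Tendsto (fun θ => σ (ℓ θ ^ 2 - a θ - x θ - x θ)) l
          (𝓝 (σ (ℓ₀ ^ 2 - a₀ - X₀ - X₀))) := by
        simp only [map_sub, map_pow]
        exact (((hℓt.pow 2).sub ha).sub hx).sub hx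
      refine ⟨fun θ => ℓ θ ^ 2 - a θ - x θ - x θ,
        fun θ => -(ℓ θ * (ℓ θ ^ 2 - a θ - x θ - x θ - x θ) + y θ), _, _, ⟨h2, ?_⟩, ?_, hX2, ?_⟩
      · change (2 : ℕ) • _ = _
        rw [two_nsmul]; exact e2
      · filter_upwards [hyev] with θ hyθ h
        obtain ⟨h3, e3⟩ := dbl_mk h hyθ (ℓ := ℓ θ) (div_mul_cancel₀ _ hyθ)
        refine ⟨h3, ?_⟩
        change (2 : ℕ) • _ = _
        rw [two_nsmul]; exact e3
      · simp only [map_neg, map_add, map_mul, map_sub, map_pow] at hX2 ⊢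
        exact ((hℓt.mul (hX2.sub hx)).add hy).neg
    · -- chord
      have hx0 : X₀ - x₀ ≠ 0 := sub_ne_zero.2 hxx
      obtain ⟨h2, e2⟩ := add_mk h' h₀ hxx (ℓ := (Y₀ - y₀) / (X₀ - x₀)) (div_mul_cancel₀ _ hx0)
      set ℓ : Θ → K := fun θ => (Y θ - y θ) / (X θ - x θ) with hℓ
      set ℓ₀ := (Y₀ - y₀) / (X₀ - x₀) with hℓ₀
      have hx0' : σ X₀ - σ x₀ ≠ 0 := by
        rw [← map_sub]; exact (map_ne_zero σ).2 hx0
      have hℓt : Tendsto (fun θ => σ (ℓ θ)) l (𝓝 (σ ℓ₀)) := by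
        simp only [hℓ, hℓ₀, map_div₀, map_sub]
        exact (hY.sub hy).div (hX.sub hx) hx0'
      have hxev : ∀ᶠ θ in l, X θ ≠ x θ := by
        have h1 : ∀ᶠ θ in l, σ (X θ) - σ (x θ) ≠ 0 := (hX.sub hx).eventually_ne hx0'
        filter_upwards [h1] with θ h h0
        apply h
        rw [h0, sub_self]
      have hX2 : Tendsto (fun θ => σ (ℓ θ ^ 2 - a θ - X θ - x θ)) l
          (𝓝 (σ (ℓ₀ ^ 2 - a₀ - X₀ - x₀))) := by
        simp only [map_sub, map_pow]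
        exact (((hℓt.pow 2).sub ha).sub hX).sub hx
      refine ⟨fun θ => ℓ θ ^ 2 - a θ - X θ - x θ,
        fun θ => -(ℓ θ * (ℓ θ ^ 2 - a θ - X θ - x θ - X θ) + Y θ), _, _, ⟨h2, ?_⟩, ?_, hX2, ?_⟩
      · rw [succ_nsmul, he]; exact e2
      · filter_upwards [hxev, hev] with θ hxθ h1 h
        obtain ⟨h1', e1⟩ := h1 h
        obtain ⟨h3, e3⟩ := add_mk h1' h hxθ (ℓ := ℓ θ) (div_mul_cancel₀ _ (sub_ne_zero.2 hxθ))
        exact ⟨h3, by rw [succ_nsmul, e1]; exact e3⟩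
      · simp only [map_neg, map_add, map_mul, map_sub, map_pow] at hX2 ⊢
        exact ((hℓt.mul (hX2.sub hX)).add hY).neg

end Pool.Agent.Y720.MZ
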