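import Pool.Agent.Y720.WA.Sing

/-!
# Polynomials vanishing at the rational points of `w² = F(s, t)` close to a given one (helper720)
-/

set_option autoImplicit false
set_option linter.unusedSectionVars false
set_option linter.unusedVariables false

open Filter Topology

namespace Pool.Agent.Y720.MZ

variable {K : Type*} [Field K] [NumberField K] {L : Type*} [NontriviallyNormedField L]
  [CompleteSpace L] [ProperSpace L]

/-- infinitely many curves with rational points close to a given one; singular curves allowed -/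
theorem plane_all [DecidableEq K] (σ : K →+* L) (hσ : DenseRange σ)
    {w₀ d A₁ A₂ A₃ A₄ B₁ B₂ B₃ B₄ C₁ C₂ C₃ C₄ : K} (hw : w₀ ≠ 0)
    (hd : d ≠ 0) (hgood : B₁ ≠ 0 ∨ d * A₁ + C₁ * w₀ ^ 2 ≠ 0) {ε : ℝ} (hε : 0 < ε) :
    {k : K | ‖σ k‖ < ε ∧ wk w₀ d k ≠ 0 ∧
      ∀ δ : ℝ, 0 < δ → ∃ t Y : K, t ≠ 0 ∧ ‖σ t‖ < δ ∧ ‖σ (Y - wk w₀ d k)‖ < δ ∧
        Y ^ 2 = wk w₀ d k ^ 2 + qk w₀ d A₁ B₁ C₁ k * t + qk w₀ d A₂ B₂ C₂ k * t ^ 2 +
          qk w₀ d A₃ B₃ C₃ k * t ^ 3 + qk w₀ d A₄ B₄ C₄ k * t ^ 4}.Infinite := by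
  have : CharZero L := charZero_of_injective_ringHom σ.injective
  by_cases hdisc : ∃ k : K, dq (wk w₀ d k) (qk w₀ d A₁ B₁ C₁ k) (qk w₀ d A₂ B₂ C₂ k)
      (qk w₀ d A₃ B₃ C₃ k) (qk w₀ d A₄ B₄ C₄ k) ≠ 0
  · refine (plane_key σ hσ hw hd hgood hdisc hε).mono ?_
    rintro k ⟨h1, -, h3, h4⟩
    exact ⟨h1, h3, h4⟩
  · push Not at hdisc
    have h1 := infinite_near' σ hσ (Metric.ball_mem_nhds (0 : L) hε)
    have h2 : {k : K | wk w₀ d k = 0}.Finite := by
      have h3 : PF1 fun k : K => wk w₀ d k :=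
        (PF1.const w₀).mul ((PF1.const 1).sub ((PF1.const d).mul (PF1.id'.pow 2)))
      refine h3.finite (τ := 0) ?_
      simp [wk, hw]
    refine (h1.sdiff h2).mono ?_
    rintro k ⟨⟨hk1, -⟩, hk2⟩
    refine ⟨by simpa using hk1, hk2, fun δ hδ => ?_⟩
    refine quartic_sing σ hσ hk2 ?_ hδ
    rintro ⟨hs, hdeg⟩
    have := dc_ne_zero hs hdeg
    rw [← dq_eq] at this
    exact this (hdisc k)

/-- **The vanishing lemma.** -/
theorem line_lemma [DecidableEq K] (σ : K →+* L) (hσ : DenseRange σ) {w₀ : K} (hw : w₀ ≠ 0)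
    {a b c : Fin 5 → K} (ha : a 0 = w₀ ^ 2) (hdisc : b 0 ^ 2 - 4 * w₀ ^ 2 * c 0 ≠ 0)
    (hind : ¬(b 1 * w₀ ^ 2 = a 1 * b 0 ∧ c 1 * w₀ ^ 2 = a 1 * c 0))
    {h : K → K → K} (h1 : ∀ s, PF1 fun t => h s t) (h2 : ∀ t, PF1 fun s => h s t)
    {δ : ℝ} (hδ : 0 < δ) (hV : ∀ s t Y : K, ‖σ s‖ < δ → ‖σ t‖ < δ → ‖σ (Y - w₀)‖ < δ →
      Y ^ 2 = ∑ j : Fin 5, (a j + b j * s + c j * s ^ 2) * t ^ (j : ℕ) → h s t = 0) (s t : K) :
    h s t = 0 := by
  have : CharZero L := charZero_of_injective_ringHom σ.injective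
  set β : K := b 0 / (2 * w₀ ^ 2) with hβ
  set d : K := b 0 ^ 2 / (4 * w₀ ^ 2) - c 0 with hd
  have hd0 : d ≠ 0 := by
    intro h0
    apply hdisc
    have : b 0 ^ 2 / (4 * w₀ ^ 2) = c 0 := by linear_combination h0
    rw [div_eq_iff (by simpa using hw)] at this
    linear_combination this
  let A : Fin 5 → K := a
  have hA : A = a := rfl
  set B : Fin 5 → K := fun j => (b j - 2 * a j * β) / 2 with hB
  set C : Fin 5 → K := fun j => a j * β ^ 2 - b j * β + c j with hC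
  have hgood : B 1 ≠ 0 ∨ d * A 1 + C 1 * w₀ ^ 2 ≠ 0 := by
    by_contra hcon
    push Not at hcon
    obtain ⟨e1, e2⟩ := hcon
    have e1' : b 1 = 2 * a 1 * β := by
      rw [hB] at e1
      simp only [div_eq_zero_iff, OfNat.ofNat_ne_zero, or_false] at e1
      linear_combination e1
    have hβ' : 2 * w₀ ^ 2 * β = b 0 := by
      rw [hβ]; field_simp
    apply hind
    constructor
    · rw [e1']
      linear_combination a 1 * hβ'
    · have e3 : d * (4 * w₀ ^ 2) = b 0 ^ 2 - 4 * w₀ ^ 2 * c 0 := by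
        rw [hd]; field_simp
      simp only [hA, hC] at e2
      rw [e1'] at e2
      have h4 : (4 : K) ≠ 0 := by norm_num
      apply mul_left_cancel₀ (mul_ne_zero h4 (pow_ne_zero 2 hw))
      linear_combination (4 * w₀ ^ 2) * e2 - a 1 * e3 + a 1 * (2 * w₀ ^ 2 * β + b 0) * hβ'
  -- the parametrization
  let μ : K → K := fun k => 1 + d * k ^ 2 - 2 * β * w₀ * k
  have hq : ∀ (j : Fin 5) (k : K), qk w₀ d (A j) (B j) (C j) k =
      a j * μ k ^ 2 + b j * (2 * w₀ * k) * μ k + c j * (2 * w₀ * k) ^ 2 := by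
    intro j k
    simp only [qk, hA, hB, hC, μ]
    ring
  have hq0 : ∀ k, wk w₀ d k ^ 2 = a 0 * μ k ^ 2 + b 0 * (2 * w₀ * k) * μ k + c 0 * (2 * w₀ * k) ^ 2 := by
    intro k
    rw [ha]
    simp only [wk, μ, hd, hβ]
    field_simp
    ring
  -- continuity
  let μL : L → L := fun k => 1 + σ d * k ^ 2 - 2 * σ β * σ w₀ * k
  have hμL : ∀ k, σ (μ k) = μL (σ k) := by
    intro k; simp only [μ, μL, map_sub, map_add, map_mul, map_pow, map_one, map_ofNat]
  have hμc : Continuous μL := by fun_prop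
  have hμ0 : μL 0 = 1 := by simp [μL]
  have c1 : ContinuousAt (fun k : L => 2 * σ w₀ * k / μL k) 0 := by
    refine ContinuousAt.div (by fun_prop) hμc.continuousAt (by rw [hμ0]; exact one_ne_zero)
  have c2 : ContinuousAt (fun k : L => σ w₀ * (1 - σ d * k ^ 2) / μL k - σ w₀) 0 := by
    refine ContinuousAt.sub (ContinuousAt.div (by fun_prop) hμc.continuousAt (by
      rw [hμ0]; exact one_ne_zero)) continuousAt_const
  have n1 : ∀ᶠ k : L in 𝓝 0, ‖2 * σ w₀ * k / μL k‖ < δ := by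
    have := c1.tendsto.norm
    simp only [mul_zero, zero_div, norm_zero] at this
    exact this.eventually_lt_const hδ
  have n2 : ∀ᶠ k : L in 𝓝 0, ‖σ w₀ * (1 - σ d * k ^ 2) / μL k - σ w₀‖ < δ / 2 := by
    have := c2.tendsto.norm
    simp only [hμ0] at this
    have e : σ w₀ * (1 - σ d * 0 ^ 2) / 1 - σ w₀ = 0 := by simp
    rw [e, norm_zero] at this
    exact this.eventually_lt_const (by positivity)
  have n3 : ∀ᶠ k : L in 𝓝 0, μL k ≠ 0 := by
    have := hμc.tendsto 0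
    rw [hμ0] at this
    exact this.eventually_ne one_ne_zero
  obtain ⟨ε, hε, hεb⟩ := Metric.eventually_nhds_iff_ball.1 (n1.and (n2.and n3))
  have key := plane_all σ hσ (A₁ := A 1) (A₂ := A 2) (A₃ := A 3) (A₄ := A 4) (B₁ := B 1)
    (B₂ := B 2) (B₃ := B 3) (B₄ := B 4) (C₁ := C 1) (C₂ := C 2) (C₃ := C 3) (C₄ := C 4)
    hw hd0 hgood hε
  set 𝒦 := {k : K | ‖σ k‖ < ε ∧ wk w₀ d k ≠ 0 ∧
      ∀ δ : ℝ, 0 < δ → ∃ t Y : K, t ≠ 0 ∧ ‖σ t‖ < δ ∧ ‖σ (Y - wk w₀ d k)‖ < δ ∧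
        Y ^ 2 = wk w₀ d k ^ 2 + qk w₀ d (A 1) (B 1) (C 1) k * t +
          qk w₀ d (A 2) (B 2) (C 2) k * t ^ 2 + qk w₀ d (A 3) (B 3) (C 3) k * t ^ 3 +
          qk w₀ d (A 4) (B 4) (C 4) k * t ^ 4} with h𝒦
  -- vanishing on the curves
  have hcur : ∀ k ∈ 𝒦, ∀ t, h (2 * w₀ * k / μ k) t = 0 := by
    rintro k ⟨hk1, hk2, hk3⟩
    obtain ⟨m1, m2, m3⟩ := hεb (σ k) (by simpa using hk1)
    rw [← hμL] at m1 m2 m3
    have hμk : μ k ≠ 0 := (map_ne_zero σ).1 m3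
    apply (h1 _).zero
    -- infinitely many `t`
    intro hfin
    -- a bound avoiding the finite set
    obtain ⟨ρ, hρ, hρb⟩ : ∃ ρ : ℝ, 0 < ρ ∧ ∀ t : K, t ≠ 0 → h (2 * w₀ * k / μ k) t = 0 →
        ρ ≤ ‖σ t‖ := by
      have hfin' : (((fun t => ‖σ t‖) '' {t : K | t ≠ 0 ∧ h (2 * w₀ * k / μ k) t = 0})).Finite :=
        (hfin.subset fun t ht => ht.2).image _
      rcases Set.eq_empty_or_nonempty
        (((fun t => ‖σ t‖) '' {t : K | t ≠ 0 ∧ h (2 * w₀ * k / μ k) t = 0})) with he | hne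
      · refine ⟨1, one_pos, fun t ht1 ht2 => ?_⟩
        exact absurd (Set.mem_image_of_mem (fun t => ‖σ t‖) (show t ∈ {t : K | t ≠ 0 ∧
          h (2 * w₀ * k / μ k) t = 0} from ⟨ht1, ht2⟩)) (by rw [he]; exact Set.notMem_empty _)
      · obtain ⟨t₀, ⟨ht1, ht2⟩, he⟩ := hne.csInf_mem hfin'
        refine ⟨‖σ t₀‖, norm_pos_iff.2 ((map_ne_zero σ).2 ht1), fun t ht ht' => ?_⟩
        have he' : ‖σ t₀‖ = sInf ((fun t => ‖σ t‖) '' {t : K | t ≠ 0 ∧
          h (2 * w₀ * k / μ k) t = 0}) := he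
        rw [he']
        exact csInf_le hfin'.bddBelow ⟨t, ⟨ht, ht'⟩, rfl⟩
    obtain ⟨t, Y, ht0, ht, hY, hYe⟩ := hk3 (min (min δ ρ) (δ / 2 * ‖σ (μ k)‖))
      (lt_min (lt_min hδ hρ) (mul_pos (by positivity) (norm_pos_iff.2 m3)))
    have hzero : h (2 * w₀ * k / μ k) t = 0 := by
      refine hV _ t (Y / μ k) ?_ ?_ ?_ ?_
      · rw [map_div₀, map_mul, map_mul, map_ofNat]
        exact m1
      · exact ht.trans_le ((min_le_left _ _).trans (min_le_left _ _))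
      · have e : σ (Y / μ k - w₀) = σ (Y - wk w₀ d k) / σ (μ k) +
            (σ w₀ * (1 - σ d * σ k ^ 2) / σ (μ k) - σ w₀) := by
          simp only [wk, map_sub, map_div₀, map_mul, map_one, map_pow]
          ring
        rw [e]
        refine (norm_add_le _ _).trans_lt ?_
        have e2 : ‖σ (Y - wk w₀ d k) / σ (μ k)‖ < δ / 2 := by
          rw [norm_div, div_lt_iff₀ (norm_pos_iff.2 m3)]
          exact hY.trans_le (min_le_right _ _)
        linarith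
      · rw [div_pow, hYe, div_eq_iff (pow_ne_zero 2 hμk), hq0, hq, hq, hq, hq, Fin.sum_univ_five]
        field_simp
        simp only [Fin.val_zero, Fin.val_one, Fin.val_two, pow_zero, pow_one, hA]
        have e3 : ((3 : Fin 5) : ℕ) = 3 := rfl
        have e4 : ((4 : Fin 5) : ℕ) = 4 := rfl
        rw [e3, e4]
        ring
    have := hρb t ht0 hzero
    exact absurd (ht.trans_le ((min_le_left _ _).trans (min_le_right _ _))) (not_lt.2 this)
  -- infinitely many `s`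
  apply (h2 t).zero
  intro hfin
  apply key
  have hfib : ∀ s₀ : K, {k : K | k ∈ 𝒦 ∧ 2 * w₀ * k / μ k = s₀}.Finite := by
    intro s₀
    have hpf : PF1 fun k : K => s₀ * μ k - 2 * w₀ * k := by
      have : PF1 fun k : K => μ k := ((PF1.const 1).add ((PF1.const d).mul (PF1.id'.pow 2))).sub
        ((PF1.const (2 * β * w₀)).mul PF1.id')
      exact ((PF1.const s₀).mul this).sub ((PF1.const (2 * w₀)).mul PF1.id')
    have hne : ∃ k, s₀ * μ k - 2 * w₀ * k ≠ 0 := by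
      by_cases hs : s₀ = 0
      · refine ⟨1, ?_⟩
        rw [hs]; simp [hw]
      · refine ⟨0, ?_⟩
        simp [μ, hs]
    obtain ⟨k₀, hk₀⟩ := hne
    refine (hpf.finite hk₀).subset ?_
    rintro k ⟨hk, hk'⟩
    obtain ⟨m1, m2, m3⟩ := hεb (σ k) (by simpa using hk.1)
    rw [← hμL] at m3
    have hμk : μ k ≠ 0 := (map_ne_zero σ).1 m3
    change s₀ * μ k - 2 * w₀ * k = 0
    rw [← hk', div_mul_cancel₀ _ hμk, sub_self]
  refine (hfin.biUnion fun s₀ _ => hfib s₀).subset ?_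
  intro k hk
  rw [Set.mem_iUnion₂]
  exact ⟨2 * w₀ * k / μ k, hcur k hk t, hk, rfl⟩

end Pool.Agent.Y720.MZ
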