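import Pool.Agent.Y720.WA.Den1

/-!
# Degenerate conics, and the criterion in the plane (helper720)
-/

set_option autoImplicit false
set_option linter.unusedSectionVars false
set_option linter.unusedVariables false

open Filter Topology

namespace Pool.Agent.Y720.MZ

section io

variable {K : Type*} [Field K] [CharZero K] [DecidableEq K]

/-- points of infinite order on a quartic, from a place -/
lemma io_small {v : AbsoluteValue K ℝ} (hv : IsNonarchimedean v) {p : ℕ} (hp3 : 3 ≤ p)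
    (hpk : ∀ k : ℕ, 1 ≤ k → k < p → v (k : K) = 1) (hp1 : v (p : K) < 1)
    {w q₁ q₂ q₃ q₄ : K} (h1 : v q₁ = 1) (h2 : v q₂ ≤ 1) (h3 : v q₃ ≤ 1) (h4 : v q₄ ≤ 1)
    (hw0 : w ≠ 0) (hw : v w < v (p : K)) (h : (cv q₂ (rb w q₁ q₃ q₄) (rc w q₁ q₂ q₃ q₄)).toAffine.Nonsingular
      (xs w q₁ q₂) (ys w q₁ q₂ q₃)) :
    ∀ n : ℕ, n ≠ 0 → n • (.some (xs w q₁ q₂) (ys w q₁ q₂ q₃) h :
      Pt q₂ (rb w q₁ q₃ q₄) (rc w q₁ q₂ q₃ q₄)) ≠ 0 := by
  have hvp : 0 < v (p : K) := v.pos (by exact_mod_cast (by omega : p ≠ 0))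
  have iw : w ∈ ivr hv := (hw.trans hp1).le
  have j1 : q₁ ∈ ivr hv := h1.le
  have j2 : q₂ ∈ ivr hv := h2
  have j3 : q₃ ∈ ivr hv := h3
  have j4 : q₄ ∈ ivr hv := h4
  refine infinite_order hv (p := p) j2 ?_ ?_ hp3 hpk hp1 h ?_
  · exact (mem_ivr (hv := hv)).1 <| sub_mem (mul_mem j1 j3)
      (mul_mem (mul_mem (ofNat_mem _ 4) (pow_mem iw 2)) j4)
  · exact (mem_ivr (hv := hv)).1 <| sub_mem (add_mem (mul_mem (pow_mem j1 2) j4)
      (mul_mem (pow_mem iw 2) (pow_mem j3 2)))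
      (mul_mem (mul_mem (mul_mem (ofNat_mem _ 4) (pow_mem iw 2)) j2) j4)
  · have hv2 : v (2 : K) = 1 := by exact_mod_cast hpk 2 (by norm_num) (by omega)
    have hwk0 : 0 < v w := v.pos hw0
    have hv4 : v (4 : K) = 1 := by
      rw [show (4 : K) = 2 ^ 2 by norm_num, map_pow, hv2, one_pow]
    have e1 : v (q₁ ^ 2 / (4 * w ^ 2)) = 1 / v w ^ 2 := by
      rw [map_div₀, map_pow, map_mul, map_pow, h1, hv4, one_pow, one_mul]
    have e2 : 1 < 1 / v w ^ 2 := by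
      rw [one_lt_div (by positivity)]
      exact pow_lt_one₀ hwk0.le (hw.trans hp1) two_ne_zero
    have e3 : v (xs w q₁ q₂) = 1 / v w ^ 2 := by
      rw [xs, sub_eq_add_neg, na_eq hv, e1]
      rw [v.map_neg, e1]
      exact lt_of_le_of_lt j2 e2
    rw [e3, one_div, ← div_eq_inv_mul, one_lt_div (by positivity)]
    calc v w ^ 2 < v (p : K) ^ 2 := by gcongr
      _ = v (p : K) * v (p : K) := by ring
      _ ≤ v (p : K) * 1 := by gcongr
      _ = v (p : K) := mul_one _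

end io

variable {K : Type*} [Field K] [NumberField K] {L : Type*} [NontriviallyNormedField L]
  [CompleteSpace L] [ProperSpace L]

/-- points close to `(0, w)` on any quartic for which the difference has infinite order as soon as
it is defined -/
lemma quartic_any [DecidableEq K] (σ : K →+* L) (hσ : DenseRange σ) {w q₁ q₂ q₃ q₄ : K}
    (hw : w ≠ 0)
    (hS : ∀ h, ∀ n : ℕ, n ≠ 0 → n • (.some (xs w q₁ q₂) (ys w q₁ q₂ q₃) h :
      Pt q₂ (rb w q₁ q₃ q₄) (rc w q₁ q₂ q₃ q₄)) ≠ 0) {ε : ℝ} (hε : 0 < ε) :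
    ∃ t Y : K, t ≠ 0 ∧ ‖σ t‖ < ε ∧ ‖σ (Y - w)‖ < ε ∧
      Y ^ 2 = w ^ 2 + q₁ * t + q₂ * t ^ 2 + q₃ * t ^ 3 + q₄ * t ^ 4 := by
  by_cases hs : (qpol (w ^ 2) q₁ q₂ q₃ q₄).Separable ∧ 3 ≤ (qpol (w ^ 2) q₁ q₂ q₃ q₄).natDegree
  · have h1 := dc_ne_zero hs.1 hs.2
    rw [← dq_eq] at h1
    exact quartic_dense σ hw h1 hS hε
  · exact quartic_sing σ hσ hw hs hε

/-- infinitely many curves with rational points close to a given one, when the conic degenerates -/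
theorem plane_zero [DecidableEq K] (σ : K →+* L) (hσ : DenseRange σ)
    {w₀ A₁ A₂ A₃ A₄ B₁ B₂ B₃ B₄ C₁ C₂ C₃ C₄ : K} (hw : w₀ ≠ 0)
    (hgood : C₁ ≠ 0) {ε : ℝ} (hε : 0 < ε) :
    {k : K | ‖σ k‖ < ε ∧ wk w₀ 0 k ≠ 0 ∧
      ∀ δ : ℝ, 0 < δ → ∃ t Y : K, t ≠ 0 ∧ ‖σ t‖ < δ ∧ ‖σ (Y - wk w₀ 0 k)‖ < δ ∧
        Y ^ 2 = wk w₀ 0 k ^ 2 + qk w₀ 0 A₁ B₁ C₁ k * t + qk w₀ 0 A₂ B₂ C₂ k * t ^ 2 +
          qk w₀ 0 A₃ B₃ C₃ k * t ^ 3 + qk w₀ 0 A₄ B₄ C₄ k * t ^ 4}.Infinite := by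
  have : CharZero L := charZero_of_injective_ringHom σ.injective
  intro hfin
  obtain ⟨v, p, hv, hp3, hpk, hp1, hS1, hS2, -, happ⟩ := exists_place σ hσ 1 one_ne_zero
    {2, w₀, C₁, A₁, A₂, A₃, A₄, B₁, B₂, B₃, B₄, C₂, C₃, C₄}
  have hv2 : v 2 = 1 := hS2 2 (by simp) two_ne_zero
  have hvw : v w₀ = 1 := hS2 w₀ (by simp) hw
  have hvC : v C₁ = 1 := hS2 C₁ (by simp) hgood
  have hvp : 0 < v (p : K) := v.pos (by exact_mod_cast (by omega : p ≠ 0))
  have hv4 : v (4 : K) = 1 := by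
    rw [show (4 : K) = 2 ^ 2 by norm_num, map_pow, hv2, one_pow]
  -- a small element
  obtain ⟨c, hc, hc0⟩ := (infinite_near' σ hσ (Metric.ball_mem_nhds (0 : L)
    (by positivity : 0 < ε / 2))).nonempty
  have hc' : ‖σ c‖ < ε / 2 := by simpa using hc
  have hvc : 0 < v c := v.pos hc0
  -- a bound for the values to be avoided
  obtain ⟨M, hM0, hM⟩ : ∃ M : ℝ, 0 < M ∧ ∀ k ∈ hfin.toFinset, v k < M := by
    have h1 : ∀ F : Finset K, ∃ M : ℝ, 0 < M ∧ ∀ k ∈ F, v k < M := by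
      intro F
      induction F using Finset.induction_on with
      | empty => exact ⟨1, one_pos, by simp⟩
      | insert b F hb ih =>
        obtain ⟨M, h1, h2⟩ := ih
        refine ⟨max M (v b + 1), lt_max_of_lt_left h1, fun k hk => ?_⟩
        rcases Finset.mem_insert.1 hk with rfl | hk
        · exact lt_max_of_lt_right (by linarith)
        · exact lt_max_of_lt_left (h2 k hk)
    exact h1 _
  obtain ⟨e, he1, he2⟩ := happ (min (1 / 2) (v c * min (v (p : K)) (1 / M)))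
    (lt_min (by norm_num) (mul_pos hvc (lt_min hvp (by positivity))))
  have he3 : ‖σ e - 1‖ < 1 / 2 := he1.trans_le (min_le_left _ _)
  have he4 : v e < v c * min (v (p : K)) (1 / M) := he2.trans_le (min_le_right _ _)
  have hne : 1 / 2 < ‖σ e‖ := by
    have h1 : ‖(1 : L)‖ ≤ ‖(1 : L) - σ e‖ + ‖σ e‖ := by
      have := norm_add_le ((1 : L) - σ e) (σ e)
      simpa using this
    rw [norm_one, norm_sub_rev] at h1
    linarith
  have he0 : e ≠ 0 := by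
    rintro rfl
    rw [map_zero, norm_zero] at hne
    linarith
  have hve : 0 < v e := v.pos he0
  set k := c / e with hk
  have hk0 : k ≠ 0 := div_ne_zero hc0 he0
  set r := e / c with hr
  have hrk : r * k = 1 := by rw [hr, hk]; field_simp
  have hvr : v r < min (v (p : K)) (1 / M) := by
    rw [hr, map_div₀, div_lt_iff₀ hvc, mul_comm]
    exact he4
  have hvr1 : v r < v (p : K) := hvr.trans_le (min_le_left _ _)
  have hvr2 : v r < 1 / M := hvr.trans_le (min_le_right _ _)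
  have hvr0 : 0 < v r := v.pos (div_ne_zero he0 hc0)
  have hkM : M < v k := by
    have h1 : v r * v k = 1 := by rw [← map_mul, hrk, map_one]
    rw [lt_div_iff₀ hM0] at hvr2
    by_contra hcon
    push Not at hcon
    have : v r * v k ≤ v r * M := by gcongr
    linarith
  have hkσ : ‖σ k‖ < ε := by
    rw [hk, map_div₀, norm_div, div_lt_iff₀ (by linarith)]
    nlinarith
  have hmem : k ∉ hfin.toFinset := fun h => absurd (hM k h) (not_lt.2 hkM.le)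
  apply hmem
  rw [Set.Finite.mem_toFinset]
  have hwk : wk w₀ 0 k = w₀ := by simp [wk]
  refine ⟨hkσ, by rw [hwk]; exact hw, ?_⟩
  rw [hwk]
  intro δ hδ
  -- the rescaled curve
  have ir : r ∈ ivr hv := (hvr1.trans hp1).le
  have iw : w₀ ∈ ivr hv := hvw.le
  set q : K → K → K → K := fun A B C => A * r ^ 2 + 4 * B * w₀ * r + 4 * C * w₀ ^ 2 with hq
  have hqk : ∀ A B C, qk w₀ 0 A B C k = k ^ 2 * q A B C := by
    intro A B C
    rw [qk, hq]
    have h1 : r = 1 / k := by rw [hr, hk]; field_simp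
    rw [h1]
    field_simp
    ring
  have iq : ∀ A B C : K, A ∈ ivr hv → B ∈ ivr hv → C ∈ ivr hv → v (q A B C) ≤ 1 := by
    intro A B C hA hB hC
    exact (mem_ivr (hv := hv)).1 <| add_mem (add_mem (mul_mem hA (pow_mem ir 2))
      (mul_mem (mul_mem (mul_mem (ofNat_mem _ 4) hB) iw) ir))
      (mul_mem (mul_mem (ofNat_mem _ 4) hC) (pow_mem iw 2))
  have hq1 : v (q A₁ B₁ C₁) = 1 := by
    have e1 : q A₁ B₁ C₁ = 4 * C₁ * w₀ ^ 2 + r * (A₁ * r + 4 * B₁ * w₀) := by rw [hq]; ring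
    have e2 : v (4 * C₁ * w₀ ^ 2) = 1 := by
      rw [map_mul, map_mul, map_pow, hv4, hvC, hvw, one_mul, one_pow, one_mul]
    rw [e1, na_eq hv, e2]
    rw [e2, map_mul]
    have h3 : v (A₁ * r + 4 * B₁ * w₀) ≤ 1 := (mem_ivr (hv := hv)).1 <|
      add_mem (mul_mem (hS1 _ (by simp)) ir) (mul_mem (mul_mem (ofNat_mem _ 4)
        (hS1 _ (by simp))) iw)
    calc v r * v (A₁ * r + 4 * B₁ * w₀) ≤ v r * 1 := by gcongr
      _ < 1 := by rw [mul_one]; exact hvr1.trans hp1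
  have hwr : w₀ * r ≠ 0 := mul_ne_zero hw (div_ne_zero he0 hc0)
  obtain ⟨t, Y, ht0, ht1, ht2, ht3⟩ := quartic_any σ hσ (w := w₀ * r) (q₁ := q A₁ B₁ C₁)
    (q₂ := q A₂ B₂ C₂) (q₃ := q A₃ B₃ C₃) (q₄ := q A₄ B₄ C₄) hwr
    (fun h => io_small hv hp3 hpk hp1 hq1 (iq _ _ _ (hS1 _ (by simp)) (hS1 _ (by simp))
      (hS1 _ (by simp))) (iq _ _ _ (hS1 _ (by simp)) (hS1 _ (by simp))
      (hS1 _ (by simp))) (iq _ _ _ (hS1 _ (by simp)) (hS1 _ (by simp))
      (hS1 _ (by simp))) hwr (by rw [map_mul, hvw, one_mul]; exact hvr1) h)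
    (lt_min hδ (by positivity : 0 < δ / (‖σ k‖ + 1)))
  refine ⟨t, k * Y, ht0, ht1.trans_le (min_le_left _ _), ?_, ?_⟩
  · have e1 : k * Y - w₀ = k * (Y - w₀ * r) := by linear_combination w₀ * hrk
    rw [e1, map_mul, norm_mul]
    have h2 := ht2.trans_le (min_le_right _ _)
    rw [lt_div_iff₀ (by positivity)] at h2
    nlinarith [norm_nonneg (σ k), norm_nonneg (σ (Y - w₀ * r))]
  · rw [mul_pow, ht3, hqk, hqk, hqk, hqk]
    linear_combination (w₀ ^ 2 * (r * k + 1)) * hrk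

/-- nondegeneracy of a binary quadratic polynomial `a₀ + b₀ s + c₀ s²` and its derivative
`a₁ + b₁ s + c₁ s²` -/
def ND {K : Type*} [CommRing K] (a₀ b₀ c₀ a₁ b₁ c₁ : K) : Prop :=
  (b₀ ^ 2 - 4 * a₀ * c₀ ≠ 0 ∧ ¬(b₁ * a₀ = a₁ * b₀ ∧ c₁ * a₀ = a₁ * c₀)) ∨
    4 * a₀ * (c₁ * a₀ - a₁ * c₀) - 2 * b₀ * (b₁ * a₀ - a₁ * b₀) ≠ 0

/-- **The vanishing lemma.** -/
theorem line_lemma' [DecidableEq K] (σ : K →+* L) (hσ : DenseRange σ) {w₀ : K} (hw : w₀ ≠ 0)
    {a b c : Fin 5 → K} (ha : a 0 = w₀ ^ 2) (hnd : ND (a 0) (b 0) (c 0) (a 1) (b 1) (c 1))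
    {h : K → K → K} (h1 : ∀ s, PF1 fun t => h s t) (h2 : ∀ t, PF1 fun s => h s t)
    {δ : ℝ} (hδ : 0 < δ) (hV : ∀ s t Y : K, ‖σ s‖ < δ → ‖σ t‖ < δ → ‖σ (Y - w₀)‖ < δ →
      Y ^ 2 = ∑ j : Fin 5, (a j + b j * s + c j * s ^ 2) * t ^ (j : ℕ) → h s t = 0) (s t : K) :
    h s t = 0 := by
  have : CharZero L := charZero_of_injective_ringHom σ.injective
  by_cases hdisc : b 0 ^ 2 - 4 * w₀ ^ 2 * c 0 ≠ 0
  · refine line_lemma σ hσ hw ha hdisc ?_ h1 h2 hδ hV s t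
    rintro ⟨e1, e2⟩
    rcases hnd with h3 | h3
    · rw [ha] at h3
      exact h3.2 ⟨e1, e2⟩
    · apply h3
      rw [ha]
      linear_combination 4 * w₀ ^ 2 * e2 - 2 * b 0 * e1
  push Not at hdisc
  -- the degenerate case
  set β : K := b 0 / (2 * w₀ ^ 2) with hβ
  have hβ' : 2 * w₀ ^ 2 * β = b 0 := by
    rw [hβ]; field_simp
  set B : Fin 5 → K := fun j => (b j - 2 * a j * β) / 2 with hB
  set C : Fin 5 → K := fun j => a j * β ^ 2 - b j * β + c j with hC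
  have hgood : C 1 ≠ 0 := by
    intro h0
    rcases hnd with h3 | h3
    · rw [ha] at h3
      exact h3.1 hdisc
    · apply h3
      simp only [hC] at h0
      rw [ha]
      have h4 : (4 : K) ≠ 0 := by norm_num
      rw [← hβ'] at hdisc ⊢
      have h5 : c 0 = w₀ ^ 2 * β ^ 2 := by
        apply mul_left_cancel₀ (mul_ne_zero h4 (pow_ne_zero 2 hw))
        linear_combination -hdisc
      rw [h5]
      linear_combination 4 * w₀ ^ 4 * h0
  -- the parametrization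
  let μ : K → K := fun k => 1 - 2 * β * w₀ * k
  have hq : ∀ (j : Fin 5) (k : K), qk w₀ 0 (a j) (B j) (C j) k =
      a j * μ k ^ 2 + b j * (2 * w₀ * k) * μ k + c j * (2 * w₀ * k) ^ 2 := by
    intro j k
    simp only [qk, hB, hC, μ]
    ring
  have hwk : ∀ k, wk w₀ 0 k = w₀ := by intro k; simp [wk]
  have hq0 : ∀ k, w₀ ^ 2 = a 0 * μ k ^ 2 + b 0 * (2 * w₀ * k) * μ k + c 0 * (2 * w₀ * k) ^ 2 := by
    intro k
    have h4 : (4 : K) ≠ 0 := by norm_num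
    have h5 : c 0 = w₀ ^ 2 * β ^ 2 := by
      apply mul_left_cancel₀ (mul_ne_zero h4 (pow_ne_zero 2 hw))
      rw [← hβ'] at hdisc
      linear_combination -hdisc
    rw [ha, ← hβ', h5]
    simp only [μ]
    ring
  -- continuity
  let μL : L → L := fun k => 1 - 2 * σ β * σ w₀ * k
  have hμL : ∀ k, σ (μ k) = μL (σ k) := by
    intro k; simp only [μ, μL, map_sub, map_mul, map_one, map_ofNat]
  have hμc : Continuous μL := by fun_prop
  have hμ0 : μL 0 = 1 := by simp [μL]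
  have c1 : ContinuousAt (fun k : L => 2 * σ w₀ * k / μL k) 0 := by
    refine ContinuousAt.div (by fun_prop) hμc.continuousAt (by rw [hμ0]; exact one_ne_zero)
  have c2 : ContinuousAt (fun k : L => σ w₀ / μL k - σ w₀) 0 := by
    refine ContinuousAt.sub (ContinuousAt.div (by fun_prop) hμc.continuousAt (by
      rw [hμ0]; exact one_ne_zero)) continuousAt_const
  have n1 : ∀ᶠ k : L in 𝓝 0, ‖2 * σ w₀ * k / μL k‖ < δ := by
    have := c1.tendsto.norm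
    simp only [mul_zero, zero_div, norm_zero] at this
    exact this.eventually_lt_const hδ
  have n2 : ∀ᶠ k : L in 𝓝 0, ‖σ w₀ / μL k - σ w₀‖ < δ / 2 := by
    have := c2.tendsto.norm
    simp only [hμ0] at this
    have e : σ w₀ / 1 - σ w₀ = 0 := by simp
    rw [e, norm_zero] at this
    exact this.eventually_lt_const (by positivity)
  have n3 : ∀ᶠ k : L in 𝓝 0, μL k ≠ 0 := by
    have := hμc.tendsto 0
    rw [hμ0] at this
    exact this.eventually_ne one_ne_zero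
  obtain ⟨ε, hε, hεb⟩ := Metric.eventually_nhds_iff_ball.1 (n1.and (n2.and n3))
  have key := plane_zero σ hσ (A₁ := a 1) (A₂ := a 2) (A₃ := a 3) (A₄ := a 4) (B₁ := B 1)
    (B₂ := B 2) (B₃ := B 3) (B₄ := B 4) (C₁ := C 1) (C₂ := C 2) (C₃ := C 3) (C₄ := C 4)
    hw hgood hε
  simp only [hwk] at key
  set 𝒦 := {k : K | ‖σ k‖ < ε ∧ w₀ ≠ 0 ∧
      ∀ δ : ℝ, 0 < δ → ∃ t Y : K, t ≠ 0 ∧ ‖σ t‖ < δ ∧ ‖σ (Y - w₀)‖ < δ ∧
        Y ^ 2 = w₀ ^ 2 + qk w₀ 0 (a 1) (B 1) (C 1) k * t +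
          qk w₀ 0 (a 2) (B 2) (C 2) k * t ^ 2 + qk w₀ 0 (a 3) (B 3) (C 3) k * t ^ 3 +
          qk w₀ 0 (a 4) (B 4) (C 4) k * t ^ 4} with h𝒦
  -- vanishing on the curves
  have hcur : ∀ k ∈ 𝒦, ∀ t, h (2 * w₀ * k / μ k) t = 0 := by
    rintro k ⟨hk1, hk2, hk3⟩
    obtain ⟨m1, m2, m3⟩ := hεb (σ k) (by simpa using hk1)
    rw [← hμL] at m1 m2 m3
    have hμk : μ k ≠ 0 := (map_ne_zero σ).1 m3
    apply (h1 _).zero
    -- infinitely many `t`
    intro hfin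
    -- a bound avoiding the finite set
    obtain ⟨ρ, hρ, hρb⟩ : ∃ ρ : ℝ, 0 < ρ ∧ ∀ t : K, t ≠ 0 → h (2 * w₀ * k / μ k) t = 0 →
        ρ ≤ ‖σ t‖ := by
      have hfin' : (((fun t => ‖σ t‖) '' {t : K | t ≠ 0 ∧ h (2 * w₀ * k / μ k) t = 0})).Finite :=
        (hfin.subset fun t ht => ht.2).image _
      rcases Set.eq_empty_or_nonempty
        (((fun t => ‖σ t‖) '' {t : K | t ≠ 0 ∧ h (2 * w₀ * k / μ k) t = 0})) with he | hne
      · refine ⟨1, one_pos, fun t ht1 ht2 => ?_⟩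
        exact absurd (Set.mem_image_of_mem (fun t => ‖σ t‖) (show t ∈ {t : K | t ≠ 0 ∧
          h (2 * w₀ * k / μ k) t = 0} from ⟨ht1, ht2⟩)) (by rw [he]; exact Set.notMem_empty _)
      · obtain ⟨t₀, ⟨ht1, ht2⟩, he⟩ := hne.csInf_mem hfin'
        refine ⟨‖σ t₀‖, norm_pos_iff.2 ((map_ne_zero σ).2 ht1), fun t ht ht' => ?_⟩
        have he' : ‖σ t₀‖ = sInf ((fun t => ‖σ t‖) '' {t : K | t ≠ 0 ∧
          h (2 * w₀ * k / μ k) t = 0}) := he
        rw [he']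
        exact csInf_le hfin'.bddBelow ⟨t, ⟨ht, ht'⟩, rfl⟩
    obtain ⟨t, Y, ht0, ht, hY, hYe⟩ := hk3 (min (min δ ρ) (δ / 2 * ‖σ (μ k)‖))
      (lt_min (lt_min hδ hρ) (mul_pos (by positivity) (norm_pos_iff.2 m3)))
    have hzero : h (2 * w₀ * k / μ k) t = 0 := by
      refine hV _ t (Y / μ k) ?_ ?_ ?_ ?_
      · rw [map_div₀, map_mul, map_mul, map_ofNat]
        exact m1
      · exact ht.trans_le ((min_le_left _ _).trans (min_le_left _ _))
      · have e : σ (Y / μ k - w₀) = σ (Y - w₀) / σ (μ k) +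
            (σ w₀ / σ (μ k) - σ w₀) := by
          simp only [map_sub, map_div₀]
          ring
        rw [e]
        refine (norm_add_le _ _).trans_lt ?_
        have e2 : ‖σ (Y - w₀) / σ (μ k)‖ < δ / 2 := by
          rw [norm_div, div_lt_iff₀ (norm_pos_iff.2 m3)]
          exact hY.trans_le (min_le_right _ _)
        linarith
      · rw [div_pow, hYe, div_eq_iff (pow_ne_zero 2 hμk), hq0 k, hq, hq, hq, hq, Fin.sum_univ_five]
        field_simp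
        simp only [Fin.val_zero, Fin.val_one, Fin.val_two, pow_zero, pow_one]
        have e3 : ((3 : Fin 5) : ℕ) = 3 := rfl
        have e4 : ((4 : Fin 5) : ℕ) = 4 := rfl
        rw [e3, e4]
        ring
    have := hρb t ht0 hzero
    exact absurd (ht.trans_le ((min_le_left _ _).trans (min_le_right _ _))) (not_lt.2 this)
  -- infinitely many `s`
  apply (h2 t).zero
  intro hfin
  apply key
  have hfib : ∀ s₀ : K, {k : K | k ∈ 𝒦 ∧ 2 * w₀ * k / μ k = s₀}.Finite := by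
    intro s₀
    have hpf : PF1 fun k : K => s₀ * μ k - 2 * w₀ * k := by
      have : PF1 fun k : K => μ k := (PF1.const 1).sub
        ((PF1.const (2 * β * w₀)).mul PF1.id')
      exact ((PF1.const s₀).mul this).sub ((PF1.const (2 * w₀)).mul PF1.id')
    have hne : ∃ k, s₀ * μ k - 2 * w₀ * k ≠ 0 := by
      by_cases hs : s₀ = 0
      · refine ⟨1, ?_⟩
        rw [hs]; simp [hw]
      · refine ⟨0, ?_⟩
        simp [μ, hs]
    obtain ⟨k₀, hk₀⟩ := hne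
    refine (hpf.finite hk₀).subset ?_
    rintro k ⟨hk, hk'⟩
    obtain ⟨m1, m2, m3⟩ := hεb (σ k) (by simpa using hk.1)
    rw [← hμL] at m3
    have hμk : μ k ≠ 0 := (map_ne_zero σ).1 m3
    change s₀ * μ k - 2 * w₀ * k = 0
    rw [← hk', div_mul_cancel₀ _ hμk, sub_self]
  refine (hfin.biUnion fun s₀ _ => hfib s₀).subset ?_
  intro k hk
  rw [Set.mem_iUnion₂]
  exact ⟨2 * w₀ * k / μ k, hcur k hk t, hk, rfl⟩

end Pool.Agent.Y720.MZ
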