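import Pool.Agent.Y720.WA.Den2

/-!
# Moving a rational point of `w² = f(z)` (helper720)
-/

set_option autoImplicit false
set_option linter.unusedSectionVars false
set_option linter.unusedVariables false

open Filter Topology

namespace Pool.Agent.Y720.MZ

section alg

variable {K : Type*} [Field K] [CharZero K] {α : Type*} [Fintype α]

/-- the restriction of `f` to the line `z + X v` -/
noncomputable def rst (f : MvPolynomial α K) (z v : α → K) : Polynomial K :=
  MvPolynomial.aeval (fun i => Polynomial.C (z i) + Polynomial.C (v i) * Polynomial.X) f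

lemma rst_eval (f : MvPolynomial α K) (z v : α → K) (s : K) :
    (rst f z v).eval s = MvPolynomial.eval (z + s • v) f := by
  induction f using MvPolynomial.induction_on with
  | C a => simp [rst]
  | add p q hp hq => simp only [rst, map_add, Polynomial.eval_add] at *; rw [hp, hq]
  | mul_X p i hp =>
    simp only [rst, map_mul, Polynomial.eval_mul, MvPolynomial.aeval_X, MvPolynomial.eval_X] at *
    rw [hp]
    simp
    left; ring

/-- the derivative along `e` -/
noncomputable def dd (f : MvPolynomial α K) (e : α → K) : MvPolynomial α K :=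
  ∑ i, MvPolynomial.C (e i) * MvPolynomial.pderiv i f

lemma rst_deriv (f : MvPolynomial α K) (z e : α → K) :
    Polynomial.derivative (rst f z e) = rst (dd f e) z e := by
  classical
  induction f using MvPolynomial.induction_on with
  | C a => simp [rst, dd]
  | add p q hp hq =>
    simp only [rst, dd, map_add, mul_add, Finset.sum_add_distrib] at *
    rw [hp, hq]
  | mul_X p i hp =>
    have h1 : dd (p * MvPolynomial.X i) e = dd p e * MvPolynomial.X i +
        MvPolynomial.C (e i) * p := by
      simp only [dd, Derivation.leibniz, smul_eq_mul, mul_add, Finset.sum_add_distrib,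
        MvPolynomial.pderiv_X]
      rw [add_comm, Finset.sum_mul]
      congr 1
      · refine Finset.sum_congr rfl fun j _ => by ring
      · rw [Finset.sum_eq_single i]
        · simp
        · intro j _ hj
          rw [Pi.single_apply, if_neg (fun h => hj h.symm), mul_zero, mul_zero]
        · simp
    rw [h1]
    simp only [rst, map_mul, map_add, MvPolynomial.aeval_X, Polynomial.derivative_mul,
      MvPolynomial.aeval_C] at *
    rw [hp]
    simp
    ring

lemma rst_deg {f : MvPolynomial α K} {T : Finset α} {n : ℕ}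
    (hf : ∀ d ∈ f.support, ∑ i ∈ T, d i ≤ n) {z e : α → K} (he : ∀ i ∉ T, e i = 0) :
    (rst f z e).natDegree ≤ n := by
  classical
  rw [rst, MvPolynomial.aeval_def, MvPolynomial.eval₂_eq']
  refine Polynomial.natDegree_sum_le_of_forall_le _ _ fun d hd => ?_
  refine (Polynomial.natDegree_C_mul_le _ _).trans ?_
  refine (Polynomial.natDegree_prod_le _ _).trans ?_
  have h1 : ∀ i, ((Polynomial.C (z i) + Polynomial.C (e i) * Polynomial.X) ^ d i :
      Polynomial K).natDegree ≤ if i ∈ T then d i else 0 := by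
    intro i
    refine (Polynomial.natDegree_pow_le).trans ?_
    by_cases hi : i ∈ T
    · rw [if_pos hi]
      have : (Polynomial.C (z i) + Polynomial.C (e i) * Polynomial.X : Polynomial K).natDegree ≤ 1 := by
        compute_degree
      nlinarith
    · rw [if_neg hi, he i hi, map_zero, zero_mul, add_zero, Polynomial.natDegree_C, mul_zero]
  refine (Finset.sum_le_sum fun i _ => h1 i).trans ?_
  rw [Finset.sum_ite_mem, Finset.univ_inter]
  exact hf d hd

/-- interpolation -/
noncomputable def lb (x y z : K) : K := -3 / 2 * x + 2 * y - 1 / 2 * z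

/-- interpolation -/
noncomputable def lc (x y z : K) : K := 1 / 2 * x - y + 1 / 2 * z

lemma lag {p : Polynomial K} (hp : p.natDegree ≤ 2) :
    p.coeff 0 = p.eval 0 ∧ p.coeff 1 = lb (p.eval 0) (p.eval 1) (p.eval 2) ∧
      p.coeff 2 = lc (p.eval 0) (p.eval 1) (p.eval 2) := by
  have h : p = .C (p.coeff 0) + .C (p.coeff 1) * .X + .C (p.coeff 2) * .X ^ 2 := by
    conv_lhs => rw [p.as_sum_range_C_mul_X_pow' (n := 3) (by omega)]
    simp [Finset.sum_range_succ]
  have h0 : ∀ s, p.eval s = p.coeff 0 + p.coeff 1 * s + p.coeff 2 * s ^ 2 := by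
    intro s
    conv_lhs => rw [h]
    simp
  rw [h0, h0, h0, lb, lc]
  refine ⟨by ring, by ring, by ring⟩

lemma lag_eval {p : Polynomial K} (hp : p.natDegree ≤ 2) (s : K) :
    p.eval s = p.eval 0 + lb (p.eval 0) (p.eval 1) (p.eval 2) * s +
      lc (p.eval 0) (p.eval 1) (p.eval 2) * s ^ 2 := by
  obtain ⟨h0, h1, h2⟩ := lag hp
  have h : p = .C (p.coeff 0) + .C (p.coeff 1) * .X + .C (p.coeff 2) * .X ^ 2 := by
    conv_lhs => rw [p.as_sum_range_C_mul_X_pow' (n := 3) (by omega)]
    simp [Finset.sum_range_succ]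
  rw [← h1, ← h2, ← h0]
  conv_lhs => rw [h]
  simp

/-- the expansion in the plane -/
lemma biexp {f : MvPolynomial α K} {v e : α → K} (hv : ∀ z, (rst f z v).natDegree ≤ 2)
    (he : ∀ z, (rst f z e).natDegree ≤ 4) (z : α → K) :
    ∃ a b c : Fin 5 → K, (∀ s t, MvPolynomial.eval (z + s • v + t • e) f =
      ∑ j : Fin 5, (a j + b j * s + c j * s ^ 2) * t ^ (j : ℕ)) ∧
      a 0 = MvPolynomial.eval z f ∧
      b 0 = lb (MvPolynomial.eval z f) (MvPolynomial.eval (z + v) f)
        (MvPolynomial.eval (z + 2 • v) f) ∧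
      c 0 = lc (MvPolynomial.eval z f) (MvPolynomial.eval (z + v) f)
        (MvPolynomial.eval (z + 2 • v) f) ∧
      a 1 = MvPolynomial.eval z (dd f e) ∧
      b 1 = lb (MvPolynomial.eval z (dd f e)) (MvPolynomial.eval (z + v) (dd f e))
        (MvPolynomial.eval (z + 2 • v) (dd f e)) ∧
      c 1 = lc (MvPolynomial.eval z (dd f e)) (MvPolynomial.eval (z + v) (dd f e))
        (MvPolynomial.eval (z + 2 • v) (dd f e)) := by
  let p : ℕ → Polynomial K := fun l => rst f (z + l • v) e
  have hp : ∀ l, (p l).natDegree ≤ 4 := fun l => he _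
  have hpe : ∀ l t, (p l).eval t = MvPolynomial.eval (z + l • v + t • e) f := fun l t => rst_eval _ _ _ _
  have hp0 : ∀ l, (p l).coeff 0 = MvPolynomial.eval (z + l • v) f := by
    intro l
    rw [Polynomial.coeff_zero_eq_eval_zero, hpe, zero_smul, add_zero]
  have hp1 : ∀ l, (p l).coeff 1 = MvPolynomial.eval (z + l • v) (dd f e) := by
    intro l
    have h1 : (Polynomial.derivative (p l)).coeff 0 = (p l).coeff 1 := by
      rw [Polynomial.coeff_derivative]; simp
    rw [← h1, rst_deriv, Polynomial.coeff_zero_eq_eval_zero, rst_eval, zero_smul, add_zero]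
  have hpx : ∀ l t, (p l).eval t = ∑ j : Fin 5, (p l).coeff j * t ^ (j : ℕ) := by
    intro l t
    conv_lhs => rw [(p l).as_sum_range_C_mul_X_pow' (n := 5) (by have := hp l; omega)]
    rw [Polynomial.eval_finsetSum, Finset.sum_range]
    simp
  refine ⟨fun j => (p 0).coeff j, fun j => lb ((p 0).coeff j) ((p 1).coeff j) ((p 2).coeff j),
    fun j => lc ((p 0).coeff j) ((p 1).coeff j) ((p 2).coeff j), ?_, ?_, ?_, ?_, ?_, ?_, ?_⟩
  · intro s t
    have h1 := lag_eval (hv (z + t • e)) s
    rw [rst_eval, rst_eval, rst_eval, rst_eval] at h1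
    have e1 : ∀ r : K, z + r • v + t • e = z + t • e + r • v := fun r => by module
    rw [e1, h1]
    have e2 : ∀ l : ℕ, MvPolynomial.eval (z + t • e + (l : K) • v) f = (p l).eval t := by
      intro l
      rw [hpe, ← e1, Nat.cast_smul_eq_nsmul]
    have e3 := e2 0
    have e4 := e2 1
    have e5 := e2 2
    push_cast at e3 e4 e5
    rw [e3, e4, e5, hpx, hpx, hpx]
    simp only [lb, lc, Fin.sum_univ_five]
    ring
  · simpa using hp0 0
  · have := hp0 0; have h1 := hp0 1; have h2 := hp0 2
    simp only [zero_smul, add_zero, one_smul] at this h1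
    change lb ((p 0).coeff 0) ((p 1).coeff 0) ((p 2).coeff 0) = _
    rw [this, h1, h2]
  · have := hp0 0; have h1 := hp0 1; have h2 := hp0 2
    simp only [zero_smul, add_zero, one_smul] at this h1
    change lc ((p 0).coeff 0) ((p 1).coeff 0) ((p 2).coeff 0) = _
    rw [this, h1, h2]
  · simpa using hp1 0
  · have := hp1 0; have h1 := hp1 1; have h2 := hp1 2
    simp only [zero_smul, add_zero, one_smul] at this h1
    change lb ((p 0).coeff 1) ((p 1).coeff 1) ((p 2).coeff 1) = _
    rw [this, h1, h2]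
  · have := hp1 0; have h1 := hp1 1; have h2 := hp1 2
    simp only [zero_smul, add_zero, one_smul] at this h1
    change lc ((p 0).coeff 1) ((p 1).coeff 1) ((p 2).coeff 1) = _
    rw [this, h1, h2]

/-- nondegeneracy at the point `z` with respect to the directions `v` and `e` -/
noncomputable def NDa (f : MvPolynomial α K) (v e z : α → K) : Prop :=
  ND (MvPolynomial.eval z f)
    (lb (MvPolynomial.eval z f) (MvPolynomial.eval (z + v) f) (MvPolynomial.eval (z + 2 • v) f))
    (lc (MvPolynomial.eval z f) (MvPolynomial.eval (z + v) f) (MvPolynomial.eval (z + 2 • v) f))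
    (MvPolynomial.eval z (dd f e))
    (lb (MvPolynomial.eval z (dd f e)) (MvPolynomial.eval (z + v) (dd f e))
      (MvPolynomial.eval (z + 2 • v) (dd f e)))
    (lc (MvPolynomial.eval z (dd f e)) (MvPolynomial.eval (z + v) (dd f e))
      (MvPolynomial.eval (z + 2 • v) (dd f e)))

lemma pf1_line (N : MvPolynomial α K) (z e : α → K) :
    PF1 fun t : K => MvPolynomial.eval (z + t • e) N := by
  exact ⟨rst N z e, fun t => rst_eval _ _ _ _⟩

end alg

section move

variable {K : Type*} [Field K] [NumberField K] {L : Type*} [NontriviallyNormedField L]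
  [CompleteSpace L] [ProperSpace L] {α : Type*} [Fintype α]

/-- vanishing at the rational points in `U` -/
def VN (σ : K →+* L) (f N : MvPolynomial α K) (U : Set ((α → L) × L)) : Prop :=
  ∀ (z : α → K) (w : K), w ^ 2 = MvPolynomial.eval z f → ((fun i => σ (z i)), σ w) ∈ U →
    MvPolynomial.eval z N = 0

/-- **Moving in a plane.** -/
theorem plane_move (σ : K →+* L) (hσ : DenseRange σ) {f N : MvPolynomial α K} {v e : α → K}
    (hv : ∀ z, (rst f z v).natDegree ≤ 2) (he : ∀ z, (rst f z e).natDegree ≤ 4)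
    {z : α → K} {w : K} (hw : w ≠ 0) (hzw : w ^ 2 = MvPolynomial.eval z f) (hnd : NDa f v e z)
    {U : Set ((α → L) × L)} (hU : U ∈ 𝓝 ((fun i => σ (z i)), σ w)) (hV : VN σ f N U) (s t : K) :
    MvPolynomial.eval (z + s • v + t • e) N = 0 := by
  classical
  obtain ⟨a, b, c, hexp, ha0, hb0, hc0, ha1, hb1, hc1⟩ := biexp hv he z
  -- the neighbourhood
  let Φ : L × L × L → (α → L) × L := fun q =>
    ((fun i => σ (z i) + q.1 * σ (v i) + q.2.1 * σ (e i)), σ w + q.2.2)
  have hΦ : Continuous Φ := by
    refine Continuous.prodMk (continuous_pi fun i => by fun_prop) (by fun_prop)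
  have hΦ0 : Φ (0, 0, 0) = ((fun i => σ (z i)), σ w) := by simp [Φ]
  have hpre : Φ ⁻¹' U ∈ 𝓝 ((0, 0, 0) : L × L × L) := by
    apply hΦ.continuousAt.preimage_mem_nhds
    rw [hΦ0]; exact hU
  obtain ⟨δ, hδ, hball⟩ := Metric.mem_nhds_iff.1 hpre
  refine line_lemma' σ hσ hw (a := a) (b := b) (c := c) (by rw [ha0, hzw]) (by
    rw [ha0, hb0, hc0, ha1, hb1, hc1]; exact hnd)
    (h := fun s t => MvPolynomial.eval (z + s • v + t • e) N) (fun s => pf1_line N _ _) (fun t => ?_)
    hδ ?_ s t
  · have h1 := pf1_line N (z + t • e) v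
    have e1 : (fun s : K => MvPolynomial.eval (z + t • e + s • v) N) =
        fun s => MvPolynomial.eval (z + s • v + t • e) N := by
      funext s
      congr 2
      module
    rw [← e1]
    exact h1
  · intro s t Y hs ht hY hYe
    rw [← hexp] at hYe
    refine hV _ Y hYe ?_
    have hmem : ((σ s, σ t, σ (Y - w)) : L × L × L) ∈ Metric.ball ((0, 0, 0) : L × L × L) δ := by
      rw [Metric.mem_ball, Prod.dist_eq, Prod.dist_eq]
      refine max_lt ?_ (max_lt ?_ ?_)
      · rw [dist_zero_right]; exact hs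
      · rw [dist_zero_right]; exact ht
      · rw [dist_zero_right]; exact hY
    have h2 := hball hmem
    have h3 : Φ (σ s, σ t, σ (Y - w)) = ((fun i => σ ((z + s • v + t • e) i)), σ Y) := by
      simp only [Φ, Prod.mk.injEq]
      refine ⟨?_, ?_⟩
      · funext i
        simp only [Pi.smul_apply, Pi.add_apply, smul_eq_mul, map_mul, map_add]
      · rw [map_sub]; ring
    rw [← h3]
    exact h2

lemma dd_add (f : MvPolynomial α K) (e e' : α → K) : dd f (e + e') = dd f e + dd f e' := by
  simp only [dd, Pi.add_apply, map_add, add_mul, Finset.sum_add_distrib]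

lemma dd_smul (f : MvPolynomial α K) (c : K) (e : α → K) :
    dd f (c • e) = MvPolynomial.C c * dd f e := by
  simp only [dd, Pi.smul_apply, smul_eq_mul, map_mul, Finset.mul_sum, mul_assoc]

/-- nondegeneracy is an open condition on the second direction -/
lemma nda_perturb {f : MvPolynomial α K} {v e e' z : α → K} (hnd : NDa f v e z) :
    {η : K | ¬NDa f v (e + η • e') z}.Finite := by
  unfold NDa at *
  set a₀ := MvPolynomial.eval z f
  set a₁ := MvPolynomial.eval (z + v) f
  set a₂ := MvPolynomial.eval (z + 2 • v) f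
  have h1 : ∀ (y : α → K) (η : K), MvPolynomial.eval y (dd f (e + η • e')) =
      MvPolynomial.eval y (dd f e) + η * MvPolynomial.eval y (dd f e') := by
    intro y η
    rw [dd_add, dd_smul, map_add, map_mul, MvPolynomial.eval_C]
  simp only [h1]
  set b₀ := MvPolynomial.eval z (dd f e)
  set b₁ := MvPolynomial.eval (z + v) (dd f e)
  set b₂ := MvPolynomial.eval (z + 2 • v) (dd f e)
  set c₀ := MvPolynomial.eval z (dd f e')
  set c₁ := MvPolynomial.eval (z + v) (dd f e')
  set c₂ := MvPolynomial.eval (z + 2 • v) (dd f e')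
  have p0 : PF1 fun η : K => b₀ + η * c₀ := (PF1.const _).add (PF1.id'.mul (PF1.const _))
  have p1 : PF1 fun η : K => b₁ + η * c₁ := (PF1.const _).add (PF1.id'.mul (PF1.const _))
  have p2 : PF1 fun η : K => b₂ + η * c₂ := (PF1.const _).add (PF1.id'.mul (PF1.const _))
  have plb : PF1 fun η : K => lb (b₀ + η * c₀) (b₁ + η * c₁) (b₂ + η * c₂) :=
    (((PF1.const _).mul p0).add ((PF1.const _).mul p1)).sub ((PF1.const _).mul p2)
  have plc : PF1 fun η : K => lc (b₀ + η * c₀) (b₁ + η * c₁) (b₂ + η * c₂) :=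
    (((PF1.const _).mul p0).sub p1).add ((PF1.const _).mul p2)
  rcases hnd with ⟨h2, h3⟩ | h2
  · rw [not_and_or] at h3
    rcases h3 with h3 | h3
    · have hp : PF1 fun η : K => lb (b₀ + η * c₀) (b₁ + η * c₁) (b₂ + η * c₂) * a₀ -
          (b₀ + η * c₀) * lb a₀ a₁ a₂ := (plb.mul (PF1.const _)).sub (p0.mul (PF1.const _))
      refine (hp.finite (τ := 0) ?_).subset ?_
      · simp only [zero_mul, add_zero]
        exact sub_ne_zero.2 h3
      · intro η hη
        by_contra hcon
        exact hη (Or.inl ⟨h2, fun h => hcon (sub_eq_zero.2 h.1)⟩)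
    · have hp : PF1 fun η : K => lc (b₀ + η * c₀) (b₁ + η * c₁) (b₂ + η * c₂) * a₀ -
          (b₀ + η * c₀) * lc a₀ a₁ a₂ := (plc.mul (PF1.const _)).sub (p0.mul (PF1.const _))
      refine (hp.finite (τ := 0) ?_).subset ?_
      · simp only [zero_mul, add_zero]
        exact sub_ne_zero.2 h3
      · intro η hη
        by_contra hcon
        exact hη (Or.inl ⟨h2, fun h => hcon (sub_eq_zero.2 h.2)⟩)
  · have hp : PF1 fun η : K => 4 * a₀ * (lc (b₀ + η * c₀) (b₁ + η * c₁) (b₂ + η * c₂) * a₀ -
        (b₀ + η * c₀) * lc a₀ a₁ a₂) - 2 * lb a₀ a₁ a₂ *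
        (lb (b₀ + η * c₀) (b₁ + η * c₁) (b₂ + η * c₂) * a₀ - (b₀ + η * c₀) * lb a₀ a₁ a₂) :=
      ((PF1.const _).mul ((plc.mul (PF1.const _)).sub (p0.mul (PF1.const _)))).sub
        ((PF1.const _).mul ((plb.mul (PF1.const _)).sub (p0.mul (PF1.const _))))
    refine (hp.finite (τ := 0) ?_).subset ?_
    · simp only [zero_mul, add_zero]
      exact h2
    · intro η hη
      by_contra hcon
      exact hη (Or.inr hcon)

/-- **Moving in a block.** -/
theorem block_move (σ : K →+* L) (hσ : DenseRange σ) {f N : MvPolynomial α K} {v e e' : α → K}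
    (hv : ∀ z, (rst f z v).natDegree ≤ 2)
    (he : ∀ (η : K) z, (rst f z (e + η • e')).natDegree ≤ 4)
    {z : α → K} {w : K} (hw : w ≠ 0) (hzw : w ^ 2 = MvPolynomial.eval z f) (hnd : NDa f v e z)
    {U : Set ((α → L) × L)} (hU : U ∈ 𝓝 ((fun i => σ (z i)), σ w)) (hV : VN σ f N U) (t : K) :
    MvPolynomial.eval (z + t • e') N = 0 := by
  have hfin := nda_perturb (e' := e') hnd
  have h1 : ∀ η : K, NDa f v (e + η • e') z → ∀ r : K,
      MvPolynomial.eval (z + r • (e + η • e')) N = 0 := by
    intro η hη r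
    have := plane_move σ hσ hv (he η) hw hzw hη hU hV 0 r
    rwa [zero_smul, add_zero] at this
  have hp := pf1_line N (z + t • e') e
  have h2 := hp.zero ?_ 0
  · rwa [zero_smul, add_zero] at h2
  · -- all `ρ = t / η`
    by_cases ht : t = 0
    · subst ht
      refine (Set.infinite_univ).mono fun ρ _ => ?_
      have h3 := h1 0 (by rw [zero_smul, add_zero]; exact hnd) ρ
      rw [zero_smul, add_zero] at h3
      rw [Set.mem_ofPred_eq, zero_smul, add_zero]
      exact h3
    · have hinf : ({η : K | ¬NDa f v (e + η • e') z} ∪ {0})ᶜ.Infinite :=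
        (hfin.union (Set.finite_singleton 0)).infinite_compl
      have hinj : Set.InjOn (fun η : K => t / η) (({η : K | ¬NDa f v (e + η • e') z} ∪ {0})ᶜ) := by
        intro η hη η' hη' h
        have e0 : η ≠ 0 := fun h => hη (Or.inr h)
        have e0' : η' ≠ 0 := fun h => hη' (Or.inr h)
        simp only at h
        field_simp at h
        exact h.symm
      refine (hinf.image hinj).mono ?_
      rintro _ ⟨η, hη, rfl⟩
      have e0 : η ≠ 0 := fun h => hη (Or.inr h)
      have e1 : NDa f v (e + η • e') z := by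
        by_contra h
        exact hη (Or.inl h)
      have h3 := h1 η e1 (t / η)
      rw [Set.mem_ofPred_eq]
      have e2 : z + t • e' + (t / η) • e = z + (t / η) • (e + η • e') := by
        rw [smul_add, smul_smul, div_mul_cancel₀ _ e0]
        module
      rw [e2]
      exact h3

/-- **Moving along a quadratic direction.** -/
theorem conic_move (σ : K →+* L) (hσ : DenseRange σ) {f N : MvPolynomial α K} {v : α → K}
    (hv : ∀ z, (rst f z v).natDegree ≤ 2)
    {z : α → K} {w : K} (hw : w ≠ 0) (hzw : w ^ 2 = MvPolynomial.eval z f)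
    {U : Set ((α → L) × L)} (hU : U ∈ 𝓝 ((fun i => σ (z i)), σ w)) (hV : VN σ f N U) (t : K) :
    MvPolynomial.eval (z + t • v) N = 0 := by
  apply (pf1_line N z v).zero
  intro hfin
  -- the neighbourhood
  let Φ : L × L → (α → L) × L := fun q => ((fun i => σ (z i) + q.1 * σ (v i)), σ w + q.2)
  have hΦ : Continuous Φ := by
    refine Continuous.prodMk (continuous_pi fun i => by fun_prop) (by fun_prop)
  have hΦ0 : Φ (0, 0) = ((fun i => σ (z i)), σ w) := by simp [Φ]
  have hpre : Φ ⁻¹' U ∈ 𝓝 ((0, 0) : L × L) := by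
    apply hΦ.continuousAt.preimage_mem_nhds
    rw [hΦ0]; exact hU
  obtain ⟨δ, hδ, hball⟩ := Metric.mem_nhds_iff.1 hpre
  obtain ⟨ρ, hρ, hρb⟩ : ∃ ρ : ℝ, 0 < ρ ∧ ∀ t : K, t ≠ 0 →
      MvPolynomial.eval (z + t • v) N = 0 → ρ ≤ ‖σ t‖ := by
    have hfin' : (((fun t => ‖σ t‖) '' {t : K | t ≠ 0 ∧
        MvPolynomial.eval (z + t • v) N = 0})).Finite :=
      (hfin.subset fun t ht => ht.2).image _
    rcases Set.eq_empty_or_nonempty (((fun t => ‖σ t‖) '' {t : K | t ≠ 0 ∧
        MvPolynomial.eval (z + t • v) N = 0})) with he | hne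
    · refine ⟨1, one_pos, fun t ht1 ht2 => ?_⟩
      exact absurd (Set.mem_image_of_mem (fun t => ‖σ t‖) (show t ∈ {t : K | t ≠ 0 ∧
        MvPolynomial.eval (z + t • v) N = 0} from ⟨ht1, ht2⟩)) (by
          rw [he]; exact Set.notMem_empty _)
    · obtain ⟨t₀, ⟨ht1, ht2⟩, he⟩ := hne.csInf_mem hfin'
      refine ⟨‖σ t₀‖, norm_pos_iff.2 ((map_ne_zero σ).2 ht1), fun t ht ht' => ?_⟩
      have he' : ‖σ t₀‖ = sInf ((fun t => ‖σ t‖) '' {t : K | t ≠ 0 ∧
        MvPolynomial.eval (z + t • v) N = 0}) := he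
      rw [he']
      exact csInf_le hfin'.bddBelow ⟨t, ⟨ht, ht'⟩, rfl⟩
  have hq := lag_eval (hv z)
  have e00 : (rst f z v).eval 0 = w ^ 2 := by rw [rst_eval, zero_smul, add_zero, hzw]
  rw [e00] at hq
  obtain ⟨t, Y, ht0, ht, hY, hYe⟩ := conic_near σ hσ
    (a := lb (w ^ 2) ((rst f z v).eval 1) ((rst f z v).eval 2))
    (b := lc (w ^ 2) ((rst f z v).eval 1) ((rst f z v).eval 2)) hw (lt_min hδ hρ)
  rw [← hq, rst_eval] at hYe
  have h1 := hV _ Y hYe (by
    have hmem : ((σ t, σ (Y - w)) : L × L) ∈ Metric.ball ((0, 0) : L × L) δ := by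
      rw [Metric.mem_ball, Prod.dist_eq]
      refine max_lt ?_ ?_
      · rw [dist_zero_right]; exact ht.trans_le (min_le_left _ _)
      · rw [dist_zero_right]; exact hY.trans_le (min_le_left _ _)
    have h2 := hball hmem
    have h3 : Φ (σ t, σ (Y - w)) = ((fun i => σ ((z + t • v) i)), σ Y) := by
      simp only [Φ, Prod.mk.injEq]
      refine ⟨?_, ?_⟩
      · funext i
        simp only [Pi.smul_apply, Pi.add_apply, smul_eq_mul, map_mul, map_add]
      · rw [map_sub]; ring
    rw [← h3]
    exact h2)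
  exact absurd (ht.trans_le (min_le_right _ _)) (not_lt.2 (hρb t ht0 h1))

end move

end Pool.Agent.Y720.MZ
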