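import Pool.Agent.Y720.WA.Den3

/-!
# Density of the rational points of `w² = f(z)` close to a nondegenerate one (helper720)
-/

set_option autoImplicit false
set_option linter.unusedSectionVars false
set_option linter.unusedVariables false

open Filter Topology

namespace Pool.Agent.Y720.MZ

universe u

section cont

variable {K : Type*} [Field K] [CharZero K] {L : Type*} [NontriviallyNormedField L]
  {α : Type*} [Fintype α]

/-- functions continuous for the topology of `L` -/
def CF (σ : K →+* L) (g : (α → K) → K) : Prop :=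
  ∃ G : (α → L) → L, Continuous G ∧ ∀ z, σ (g z) = G fun i => σ (z i)

namespace CF

variable {σ : K →+* L}

lemma const (c : K) : CF σ fun _ : α → K => c := ⟨fun _ => σ c, continuous_const, fun _ => rfl⟩

lemma add {g h : (α → K) → K} (hg : CF σ g) (hh : CF σ h) : CF σ fun z => g z + h z := by
  obtain ⟨G, hG, h1⟩ := hg
  obtain ⟨H, hH, h2⟩ := hh
  exact ⟨fun z => G z + H z, hG.add hH, fun z => by rw [map_add, h1, h2]⟩

lemma sub {g h : (α → K) → K} (hg : CF σ g) (hh : CF σ h) : CF σ fun z => g z - h z := by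
  obtain ⟨G, hG, h1⟩ := hg
  obtain ⟨H, hH, h2⟩ := hh
  exact ⟨fun z => G z - H z, hG.sub hH, fun z => by rw [map_sub, h1, h2]⟩

lemma mul {g h : (α → K) → K} (hg : CF σ g) (hh : CF σ h) : CF σ fun z => g z * h z := by
  obtain ⟨G, hG, h1⟩ := hg
  obtain ⟨H, hH, h2⟩ := hh
  exact ⟨fun z => G z * H z, hG.mul hH, fun z => by rw [map_mul, h1, h2]⟩

lemma eval (f : MvPolynomial α K) (u : α → K) :
    CF σ fun z : α → K => MvPolynomial.eval (z + u) f := by
  refine ⟨fun y => MvPolynomial.eval (y + fun i => σ (u i)) (MvPolynomial.map σ f), ?_, ?_⟩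
  · exact (MvPolynomial.continuous_eval _).comp (continuous_id.add continuous_const)
  · intro z
    dsimp only
    rw [MvPolynomial.eval_map, ← MvPolynomial.eval₂_id, MvPolynomial.eval₂_comp_left,
      RingHom.comp_id]
    congr 1
    funext i
    simp

lemma eval0 (f : MvPolynomial α K) :
    CF σ fun z : α → K => MvPolynomial.eval z f := by
  have := eval (σ := σ) f 0
  simpa using this

lemma ne_nhds {g : (α → K) → K} (hg : CF σ g) {z₀ : α → K} (h0 : g z₀ ≠ 0) :
    ∃ U ∈ 𝓝 (fun i => σ (z₀ i)), ∀ z : α → K, (fun i => σ (z i)) ∈ U → g z ≠ 0 := by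
  obtain ⟨G, hG, h1⟩ := hg
  have h2 : G (fun i => σ (z₀ i)) ≠ 0 := by rw [← h1]; exact (map_ne_zero σ).2 h0
  refine ⟨G ⁻¹' {0}ᶜ, hG.continuousAt.preimage_mem_nhds (isOpen_ne.mem_nhds h2), ?_⟩
  intro z hz h3
  apply hz
  rw [Set.mem_singleton_iff, ← h1, h3, map_zero]

end CF

/-- nondegeneracy, for all points -/
def ND3 {K : Type*} [CommRing K] (a₀ b₀ c₀ a₁ b₁ c₁ : K) : Prop :=
  (b₀ ^ 2 - 4 * a₀ * c₀ ≠ 0 ∧ (b₁ * a₀ - a₁ * b₀ ≠ 0 ∨ c₁ * a₀ - a₁ * c₀ ≠ 0 ∨
    c₁ * b₀ - b₁ * c₀ ≠ 0)) ∨
    4 * a₀ * (c₁ * a₀ - a₁ * c₀) - 2 * b₀ * (b₁ * a₀ - a₁ * b₀) ≠ 0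

lemma ND3.nd {K : Type*} [Field K] {a₀ b₀ c₀ a₁ b₁ c₁ : K} (h : ND3 a₀ b₀ c₀ a₁ b₁ c₁)
    (ha : a₀ ≠ 0) : ND a₀ b₀ c₀ a₁ b₁ c₁ := by
  rcases h with ⟨h1, h2⟩ | h
  · refine Or.inl ⟨h1, ?_⟩
    rintro ⟨e1, e2⟩
    rcases h2 with h2 | h2 | h2
    · exact h2 (sub_eq_zero.2 e1)
    · exact h2 (sub_eq_zero.2 e2)
    · apply h2
      apply mul_left_cancel₀ ha
      linear_combination b₀ * e2 - c₀ * e1
  · exact Or.inr h

/-- nondegeneracy at the point `z` with respect to the directions `v` and `e` -/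
noncomputable def ND3a (f : MvPolynomial α K) (v e z : α → K) : Prop :=
  ND3 (MvPolynomial.eval z f)
    (lb (MvPolynomial.eval z f) (MvPolynomial.eval (z + v) f) (MvPolynomial.eval (z + 2 • v) f))
    (lc (MvPolynomial.eval z f) (MvPolynomial.eval (z + v) f) (MvPolynomial.eval (z + 2 • v) f))
    (MvPolynomial.eval z (dd f e))
    (lb (MvPolynomial.eval z (dd f e)) (MvPolynomial.eval (z + v) (dd f e))
      (MvPolynomial.eval (z + 2 • v) (dd f e)))
    (lc (MvPolynomial.eval z (dd f e)) (MvPolynomial.eval (z + v) (dd f e))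
      (MvPolynomial.eval (z + 2 • v) (dd f e)))

lemma ND3a.nhds {f : MvPolynomial α K} {v e z₀ : α → K} (σ : K →+* L) (h : ND3a f v e z₀) :
    ∃ U ∈ 𝓝 (fun i => σ (z₀ i)), ∀ z : α → K, (fun i => σ (z i)) ∈ U → ND3a f v e z := by
  have f0 := CF.eval0 (σ := σ) f
  have f1 := CF.eval (σ := σ) f v
  have f2 := CF.eval (σ := σ) f (2 • v)
  have g0 := CF.eval0 (σ := σ) (dd f e)
  have g1 := CF.eval (σ := σ) (dd f e) v
  have g2 := CF.eval (σ := σ) (dd f e) (2 • v)
  have hlb : ∀ {x y z : (α → K) → K}, CF σ x → CF σ y → CF σ z →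
      CF σ fun u => lb (x u) (y u) (z u) := fun hx hy hz =>
    (((CF.const _).mul hx).add ((CF.const _).mul hy)).sub ((CF.const _).mul hz)
  have hlc : ∀ {x y z : (α → K) → K}, CF σ x → CF σ y → CF σ z →
      CF σ fun u => lc (x u) (y u) (z u) := fun hx hy hz =>
    (((CF.const _).mul hx).sub hy).add ((CF.const _).mul hz)
  have b0 := hlb f0 f1 f2
  have c0 := hlc f0 f1 f2
  have b1 := hlb g0 g1 g2
  have c1 := hlc g0 g1 g2
  rcases h with ⟨h1, h2⟩ | h
  · have k1 := (((b0.mul b0).sub (((CF.const 4).mul f0).mul c0))).ne_nhds (z₀ := z₀)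
      (by simpa [sq] using h1)
    obtain ⟨U, hU, hU'⟩ := k1
    rcases h2 with h2 | h2 | h2
    · obtain ⟨V, hV, hV'⟩ := ((b1.mul f0).sub (g0.mul b0)).ne_nhds (z₀ := z₀) h2
      refine ⟨U ∩ V, Filter.inter_mem hU hV, fun z hz => Or.inl ⟨?_, Or.inl (hV' z hz.2)⟩⟩
      simpa [sq] using hU' z hz.1
    · obtain ⟨V, hV, hV'⟩ := ((c1.mul f0).sub (g0.mul c0)).ne_nhds (z₀ := z₀) h2
      refine ⟨U ∩ V, Filter.inter_mem hU hV, fun z hz =>
        Or.inl ⟨?_, Or.inr (Or.inl (hV' z hz.2))⟩⟩
      simpa [sq] using hU' z hz.1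
    · obtain ⟨V, hV, hV'⟩ := ((c1.mul b0).sub (b1.mul c0)).ne_nhds (z₀ := z₀) h2
      refine ⟨U ∩ V, Filter.inter_mem hU hV, fun z hz =>
        Or.inl ⟨?_, Or.inr (Or.inr (hV' z hz.2))⟩⟩
      simpa [sq] using hU' z hz.1
  · obtain ⟨V, hV, hV'⟩ := ((((CF.const 4).mul f0).mul ((c1.mul f0).sub (g0.mul c0))).sub
      (((CF.const 2).mul b0).mul ((b1.mul f0).sub (g0.mul b0)))).ne_nhds (z₀ := z₀) h
    exact ⟨V, hV, fun z hz => Or.inr (hV' z hz)⟩

end cont

section core

variable {K : Type*} [Field K] [NumberField K] {L : Type*} [NontriviallyNormedField L]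
  [CompleteSpace L] [ProperSpace L] {α : Type*} [Fintype α] [DecidableEq α] {κ : Type*}

lemma eval_sub {R β γ : Type*} [CommRing R] (g : β → MvPolynomial γ R) (N : MvPolynomial β R)
    (y : γ → R) : MvPolynomial.eval y (MvPolynomial.aeval g N) =
      MvPolynomial.eval (fun i => MvPolynomial.eval y (g i)) N := by
  induction N using MvPolynomial.induction_on with
  | C a => simp
  | add p q hp hq => rw [map_add, map_add, hp, hq, map_add]
  | mul_X p i hp => rw [map_mul, map_mul, hp, map_mul, MvPolynomial.aeval_X, MvPolynomial.eval_X]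

lemma density_aux (σ : K →+* L) (hσ : DenseRange σ) {f : MvPolynomial α K} (c : α → Option κ)
    (hy : ∀ i, c i = none → ∀ z, (rst f z (Pi.single i 1)).natDegree ≤ 2)
    (v e : κ → α → K) (hv : ∀ j z, (rst f z (v j)).natDegree ≤ 2)
    (he : ∀ i j, c i = some j → ∀ (η : K) z, (rst f z (e j + η • Pi.single i 1)).natDegree ≤ 4)
    {U : Set ((α → L) × L)} (hU : IsOpen U)
    (hU' : ∀ z w, w ^ 2 = MvPolynomial.eval z f → ((fun i => σ (z i)), σ w) ∈ U →
      w ≠ 0 ∧ ∀ j, NDa f (v j) (e j) z) (S : Finset α) :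
    ∀ N : MvPolynomial α K, VN σ f N U → ∀ u : α → K, (∀ i ∉ S, u i = 0) →
      ∀ z w, w ^ 2 = MvPolynomial.eval z f → ((fun i => σ (z i)), σ w) ∈ U →
        MvPolynomial.eval (z + u) N = 0 := by
  induction S using Finset.induction_on with
  | empty =>
    intro N hN u hu z w hzw hz
    have : u = 0 := by funext i; exact hu i (Finset.notMem_empty _)
    rw [this, add_zero]
    exact hN z w hzw hz
  | insert i S hi ih =>
    intro N hN u hu z w hzw hz
    set N' : MvPolynomial α K :=
      MvPolynomial.aeval (fun j => MvPolynomial.X j +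
        MvPolynomial.C ((u i • Pi.single i (1 : K) : α → K) j)) N with hN'
    have hev : ∀ y, MvPolynomial.eval y N' = MvPolynomial.eval (y + u i • Pi.single i 1) N := by
      intro y
      rw [hN', eval_sub]
      congr 2
      funext j
      simp
    have hVN' : VN σ f N' U := by
      intro y r hyr hy'
      rw [hev]
      obtain ⟨hr, hnd⟩ := hU' y r hyr hy'
      rcases hc : c i with _ | j
      · exact conic_move σ hσ (hy i hc) hr hyr (hU.mem_nhds hy') hN _
      · exact block_move σ hσ (hv j) (he i j hc) hr hyr (hnd j) (hU.mem_nhds hy') hN _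
    have h1 := ih N' hVN' (fun j => if j = i then 0 else u j) (by
      intro j hj
      by_cases hji : j = i
      · simp [hji]
      · simp only [hji, if_false]
        exact hu j (by simp [hji, hj])) z w hzw hz
    rw [hev] at h1
    rw [← h1]
    congr 2
    funext j
    by_cases hji : j = i
    · subst hji; simp
    · simp [hji]

/-- **Density of the projections.** -/
theorem density_core (σ : K →+* L) (hσ : DenseRange σ) {f : MvPolynomial α K} (c : α → Option κ)
    (hy : ∀ i, c i = none → ∀ z, (rst f z (Pi.single i 1)).natDegree ≤ 2)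
    (v e : κ → α → K) (hv : ∀ j z, (rst f z (v j)).natDegree ≤ 2)
    (he : ∀ i j, c i = some j → ∀ (η : K) z, (rst f z (e j + η • Pi.single i 1)).natDegree ≤ 4)
    {U : Set ((α → L) × L)} (hU : IsOpen U)
    (hU' : ∀ z w, w ^ 2 = MvPolynomial.eval z f → ((fun i => σ (z i)), σ w) ∈ U →
      w ≠ 0 ∧ ∀ j, NDa f (v j) (e j) z) {z₀ : α → K} {w₀ : K}
    (hzw : w₀ ^ 2 = MvPolynomial.eval z₀ f) (hz₀ : ((fun i => σ (z₀ i)), σ w₀) ∈ U)
    {N : MvPolynomial α K} (hN : VN σ f N U) : N = 0 := by
  apply MvPolynomial.funext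
  intro y
  have := density_aux σ hσ c hy v e hv he hU hU' Finset.univ N hN (y - z₀) (by simp) z₀ w₀ hzw hz₀
  rw [map_zero, ← this]
  congr 2
  module

/-- evaluation of a polynomial in `z` and `w` -/
lemma eval_option {R : Type*} [CommRing R] {β : Type*} (g : MvPolynomial (Option β) R) (z : β → R)
    (w : R) : MvPolynomial.eval (fun o => o.elim w z) g =
      ((MvPolynomial.optionEquivLeft R β g).map (MvPolynomial.eval z)).eval w := by
  induction g using MvPolynomial.induction_on with
  | C a => simp [MvPolynomial.optionEquivLeft_C]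
  | add p q hp hq => simp only [map_add, Polynomial.map_add, Polynomial.eval_add]; rw [hp, hq]
  | mul_X p i hp =>
    rw [map_mul, map_mul, Polynomial.map_mul, Polynomial.eval_mul, hp]
    congr 1
    rcases i with _ | i
    · simp [MvPolynomial.optionEquivLeft_X_none]
    · simp [MvPolynomial.optionEquivLeft_X_some]

/-- **Density of the rational points of the double cover.** -/
theorem density_cover (σ : K →+* L) (hσ : DenseRange σ) {f : MvPolynomial α K}
    (hsq : ¬IsSquare f) (c : α → Option κ)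
    (hy : ∀ i, c i = none → ∀ z, (rst f z (Pi.single i 1)).natDegree ≤ 2)
    (v e : κ → α → K) (hv : ∀ j z, (rst f z (v j)).natDegree ≤ 2)
    (he : ∀ i j, c i = some j → ∀ (η : K) z, (rst f z (e j + η • Pi.single i 1)).natDegree ≤ 4)
    {U : Set ((α → L) × L)} (hU : IsOpen U)
    (hU' : ∀ z w, w ^ 2 = MvPolynomial.eval z f → ((fun i => σ (z i)), σ w) ∈ U →
      w ≠ 0 ∧ ∀ j, NDa f (v j) (e j) z) {z₀ : α → K} {w₀ : K}
    (hzw : w₀ ^ 2 = MvPolynomial.eval z₀ f) (hz₀ : ((fun i => σ (z₀ i)), σ w₀) ∈ U)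
    {g : MvPolynomial (Option α) K} (hg : ∀ (z : α → K) (w : K), w ^ 2 = MvPolynomial.eval z f →
      ((fun i => σ (z i)), σ w) ∈ U → MvPolynomial.eval (fun o => o.elim w z) g = 0) :
    (MvPolynomial.X none ^ 2 - MvPolynomial.rename some f) ∣ g := by
  set G := MvPolynomial.optionEquivLeft K α g with hG
  set q : Polynomial (MvPolynomial α K) := Polynomial.X ^ 2 - Polynomial.C f with hq
  have hqm : q.Monic := by
    rw [hq]; exact Polynomial.monic_X_pow_sub_C f two_ne_zero
  set r := G %ₘ q with hr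
  have hqd : q.natDegree = 2 := by rw [hq]; exact Polynomial.natDegree_X_pow_sub_C
  have hrd : r.natDegree < 2 := by
    rw [← hqd, hr]
    exact Polynomial.natDegree_modByMonic_lt _ hqm (by
      intro h
      rw [h] at hqd
      simp at hqd)
  have hr' : r = .C (r.coeff 0) + .C (r.coeff 1) * .X := by
    conv_lhs => rw [r.as_sum_range_C_mul_X_pow' (n := 2) (by omega)]
    simp [Finset.sum_range_succ]
  set g0 := r.coeff 0
  set g1 := r.coeff 1
  have hdiv : G = r + q * (G /ₘ q) := (Polynomial.modByMonic_add_div G q).symm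
  have hN : g0 ^ 2 - f * g1 ^ 2 = 0 := by
    refine density_core σ hσ c hy v e hv he hU hU' hzw hz₀ ?_
    intro z w hzw' hz
    have h1 := hg z w hzw' hz
    rw [eval_option, ← hG, hdiv] at h1
    rw [Polynomial.map_add, Polynomial.map_mul, Polynomial.eval_add, Polynomial.eval_mul] at h1
    have h2 : (q.map (MvPolynomial.eval z)).eval w = 0 := by
      rw [hq]; simp [hzw']
    rw [h2, zero_mul, add_zero, hr'] at h1
    simp only [Polynomial.map_add, Polynomial.map_C, Polynomial.map_mul, Polynomial.map_X,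
      Polynomial.eval_add, Polynomial.eval_C, Polynomial.eval_mul, Polynomial.eval_X] at h1
    rw [map_sub, map_mul, map_pow, map_pow, ← hzw']
    linear_combination (MvPolynomial.eval z g0 - w * MvPolynomial.eval z g1) * h1
  have hg1 : g1 = 0 := by
    by_contra h1
    have h2 : g1 ^ 2 ∣ g0 ^ 2 := ⟨f, by linear_combination hN⟩
    have h3 : g1 ∣ g0 := (IsIntegrallyClosed.pow_dvd_pow_iff two_ne_zero).1 h2
    obtain ⟨d, hd⟩ := h3
    apply hsq
    refine ⟨d, ?_⟩
    apply mul_left_cancel₀ (pow_ne_zero 2 h1)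
    rw [hd] at hN
    linear_combination -hN
  have hg0 : g0 = 0 := by
    rw [hg1] at hN
    have : g0 ^ 2 = 0 := by linear_combination hN
    exact pow_eq_zero_iff two_ne_zero |>.1 this
  have hr0 : r = 0 := by rw [hr', hg0, hg1]; simp
  have h5 : q ∣ G := by
    rw [hdiv, hr0, zero_add]
    exact dvd_mul_right _ _
  have h6 : MvPolynomial.optionEquivLeft K α
      (MvPolynomial.X none ^ 2 - MvPolynomial.rename some f) = q := by
    rw [hq, map_sub, map_pow, MvPolynomial.optionEquivLeft_X_none]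
    congr 1
    have : ∀ f : MvPolynomial α K, MvPolynomial.optionEquivLeft K α
        (MvPolynomial.rename some f) = Polynomial.C f := by
      intro f
      induction f using MvPolynomial.induction_on with
      | C a => simp [MvPolynomial.optionEquivLeft_C]
      | add p q hp hq => rw [map_add, map_add, hp, hq, map_add]
      | mul_X p i hp =>
        rw [map_mul, map_mul, hp, MvPolynomial.rename_X, MvPolynomial.optionEquivLeft_X_some,
          map_mul]
    exact this f
  rw [← h6] at h5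
  exact (map_dvd_iff (MvPolynomial.optionEquivLeft K α)).1 h5

end core

/-- the completion at a nontrivial absolute value -/
lemma exists_completion {K : Type u} [Field K] (ν : AbsoluteValue K ℝ) (hν : ν.IsNontrivial) :
    ∃ (L : Type u) (_ : NontriviallyNormedField L) (_ : CompleteSpace L) (σ : K →+* L),
      DenseRange σ ∧ ∀ x, ‖σ x‖ = ν x := by
  obtain ⟨x, hx⟩ : ∃ x, 1 < ν x := by
    obtain ⟨y, hy0, hy1⟩ := hν
    rcases lt_or_gt_of_ne hy1 with h | h
    · refine ⟨y⁻¹, ?_⟩
      rw [map_inv₀]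
      exact (one_lt_inv₀ (ν.pos hy0)).2 h
    · exact ⟨y, h⟩
  let I : NontriviallyNormedField ν.Completion :=
    { (inferInstance : NormedField ν.Completion) with
      non_trivial := ⟨((WithAbs.toAbs ν x : WithAbs ν) : ν.Completion), by
        rw [UniformSpace.Completion.norm_coe, WithAbs.norm_toAbs_eq]
        exact hx⟩ }
  refine ⟨ν.Completion, I, inferInstanceAs (CompleteSpace ν.Completion),
    (UniformSpace.Completion.coeRingHom).comp (WithAbs.equiv ν).symm.toRingHom, ?_, ?_⟩
  · have h1 : DenseRange (fun x : WithAbs ν => (x : ν.Completion)) :=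
      UniformSpace.Completion.denseRange_coe
    have h2 : DenseRange ((WithAbs.equiv ν).symm : K → WithAbs ν) :=
      (WithAbs.equiv ν).symm.surjective.denseRange
    exact h1.comp h2 (UniformSpace.Completion.continuous_coe _)
  · intro x
    exact UniformSpace.Completion.norm_coe _

end Pool.Agent.Y720.MZ
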