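import Pool.Agent.Y720.WA.Den4

/-!
# The density theorem for double covers (helper720)
-/

set_option autoImplicit false
set_option linter.unusedSectionVars false
set_option linter.unusedVariables false

open Filter Topology

namespace Pool.Agent.Y720.MZ

section alg

variable {K : Type*} [Field K] [CharZero K] {α : Type*} [Fintype α]

/-- nondegeneracy of a point `(z, w)` of `w² = f(z)` with respect to the directions `v` and `e` -/
def NDpt (f : MvPolynomial α K) (z : α → K) (w : K) (v e : α → K) : Prop :=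
  ((rst f z v).coeff 1 ^ 2 ≠ 4 * (rst f z v).coeff 0 * (rst f z v).coeff 2 ∧
    ¬∃ r : K, rst (dd f e) z v = Polynomial.C r * rst f z v) ∨
  (w ≠ 0 ∧ (rst f z v).coeff 1 ^ 2 = 4 * (rst f z v).coeff 0 * (rst f z v).coeff 2 ∧
    2 * (rst f z v).coeff 0 * (rst (dd f e) z v).coeff 2 -
      (rst f z v).coeff 1 * (rst (dd f e) z v).coeff 1 +
      2 * (rst f z v).coeff 2 * (rst (dd f e) z v).coeff 0 ≠ 0)

lemma ND3_of {a b c a' b' c' : K} (h : b ^ 2 - 4 * a * c ≠ 0)
    (h2 : ¬∃ r : K, a' = r * a ∧ b' = r * b ∧ c' = r * c) : ND3 a b c a' b' c' := by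
  refine Or.inl ⟨h, ?_⟩
  by_contra hcon
  push Not at hcon
  obtain ⟨h3, h4, h5⟩ := hcon
  apply h2
  by_cases ha : a = 0
  · have hb : b ≠ 0 := by
      rintro rfl
      apply h
      rw [ha]; ring
    refine ⟨b' / b, ?_, by field_simp, ?_⟩
    · rw [ha] at h3 ⊢
      have : a' * b = 0 := by linear_combination -h3
      rw [(mul_eq_zero.1 this).resolve_right hb, mul_zero]
    · field_simp
      linear_combination h5
  · refine ⟨a' / a, by field_simp, ?_, ?_⟩
    · field_simp
      linear_combination h3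
    · field_simp
      linear_combination h4

lemma poly_two {p : Polynomial K} (hp : p.natDegree ≤ 2) :
    p = .C (p.coeff 0) + .C (p.coeff 1) * .X + .C (p.coeff 2) * .X ^ 2 := by
  conv_lhs => rw [p.as_sum_range_C_mul_X_pow' (n := 3) (by omega)]
  simp [Finset.sum_range_succ]

lemma NDpt.nd3 {f : MvPolynomial α K} {z : α → K} {w : K} {v e : α → K}
    (hzw : w ^ 2 = MvPolynomial.eval z f) (hA : (rst f z v).natDegree ≤ 2)
    (hB : (rst (dd f e) z v).natDegree ≤ 2) (h : NDpt f z w v e) : ND3a f v e z := by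
  obtain ⟨a0, a1, a2⟩ := lag hA
  obtain ⟨b0, b1, b2⟩ := lag hB
  have hev : ∀ g : MvPolynomial α K, (rst g z v).eval 0 = MvPolynomial.eval z g ∧
      (rst g z v).eval 1 = MvPolynomial.eval (z + v) g ∧
      (rst g z v).eval 2 = MvPolynomial.eval (z + 2 • v) g := by
    intro g
    refine ⟨by rw [rst_eval, zero_smul, add_zero], by rw [rst_eval, one_smul], ?_⟩
    rw [rst_eval]
    congr 2
    have := Nat.cast_smul_eq_nsmul K 2 v
    push_cast at this
    rw [this]
  obtain ⟨f0, f1, f2⟩ := hev f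
  obtain ⟨g0, g1, g2⟩ := hev (dd f e)
  unfold ND3a
  rw [← f0, ← f1, ← f2, ← g0, ← g1, ← g2, ← a1, ← a2, ← b1, ← b2, ← a0, ← b0]
  rcases h with ⟨h1, h2⟩ | ⟨hw, h1, h2⟩
  · refine ND3_of (sub_ne_zero.2 h1) ?_
    rintro ⟨r, e0, e1, e2⟩
    apply h2
    refine ⟨r, ?_⟩
    rw [poly_two hA, poly_two hB, e0, e1, e2]
    simp only [map_mul]
    ring
  · refine Or.inr ?_
    have hA0 : (rst f z v).coeff 0 ≠ 0 := by
      rw [a0, f0, ← hzw]; exact pow_ne_zero 2 hw
    intro h3
    apply h2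
    apply mul_left_cancel₀ (mul_ne_zero (two_ne_zero (α := K)) hA0)
    linear_combination h3 - 2 * (rst (dd f e) z v).coeff 0 * h1

lemma supp_dd {f : MvPolynomial α K} {T : Finset α} {n : ℕ}
    (hf : ∀ d ∈ f.support, ∑ i ∈ T, d i ≤ n) (e : α → K) :
    ∀ d ∈ (dd f e).support, ∑ i ∈ T, d i ≤ n := by
  classical
  intro d hd
  rw [MvPolynomial.mem_support_iff] at hd
  have h1 : ∃ i, MvPolynomial.coeff d (MvPolynomial.pderiv i f) ≠ 0 := by
    by_contra hcon
    push Not at hcon
    apply hd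
    rw [dd, MvPolynomial.coeff_sum]
    refine Finset.sum_eq_zero fun i _ => ?_
    rw [MvPolynomial.coeff_C_mul, hcon, mul_zero]
  obtain ⟨i, hi⟩ := h1
  have h2 : d + Finsupp.single i 1 ∈ f.support := by
    rw [MvPolynomial.mem_support_iff]
    intro h0
    apply hi
    conv_lhs => rw [f.as_sum]
    rw [map_sum, MvPolynomial.coeff_sum]
    refine Finset.sum_eq_zero fun s hs => ?_
    rw [MvPolynomial.pderiv_monomial, MvPolynomial.coeff_monomial]
    split_ifs with h
    · by_cases hsi : s i = 0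
      · simp [hsi]
      · exfalso
        have : d + Finsupp.single i 1 = s := by
          rw [← h]
          ext j
          by_cases hj : j = i
          · subst hj
            simp
            omega
          · simp [Finsupp.single_apply, Ne.symm hj]
        rw [this] at h0
        exact (MvPolynomial.mem_support_iff.1 hs) h0
    · rfl
  refine le_trans ?_ (hf _ h2)
  refine Finset.sum_le_sum fun j _ => ?_
  simp

end alg

section final

universe u

variable {K : Type u} [Field K] [NumberField K] {α : Type*} [Fintype α] [DecidableEq α]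
  {κ : Type*} [Finite κ] [DecidableEq κ]

/-- the density theorem, for a completion -/
theorem density_L {L : Type*} [NontriviallyNormedField L] [CompleteSpace L] [ProperSpace L]
    (σ : K →+* L) (hσ : DenseRange σ) [Nonempty κ] (c : α → Option κ) {f : MvPolynomial α K}
    (hsq : ¬IsSquare f) (hy : ∀ d ∈ f.support, ∑ i with c i = none, d i ≤ 2)
    (hx : ∀ j, ∀ d ∈ f.support, ∑ i with c i = some j, d i ≤ 4) {z₀ : α → K} {w₀ : K}
    (hzw : w₀ ^ 2 = MvPolynomial.eval z₀ f)
    (hnd : ∀ j, ∃ v e : α → K, (∀ i, c i ≠ none → v i = 0) ∧ (∀ i, c i ≠ some j → e i = 0) ∧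
      NDpt f z₀ w₀ v e)
    {U : Set ((α → L) × L)} (hU : U ∈ 𝓝 ((fun i => σ (z₀ i)), σ w₀))
    {g : MvPolynomial (Option α) K} (hg : ∀ (z : α → K) (w : K), w ^ 2 = MvPolynomial.eval z f →
      ((fun i => σ (z i)), σ w) ∈ U → MvPolynomial.eval (fun o => o.elim w z) g = 0) :
    (MvPolynomial.X none ^ 2 - MvPolynomial.rename some f) ∣ g := by
  have : CharZero L := charZero_of_injective_ringHom σ.injective
  choose v e hv he hN using hnd
  have hvT : ∀ j, ∀ i ∉ Finset.univ.filter (fun i => c i = none), v j i = 0 := by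
    intro j i hi
    exact hv j i (by simpa using hi)
  have hA : ∀ j z, (rst f z (v j)).natDegree ≤ 2 := fun j z => rst_deg hy (hvT j)
  have hB : ∀ j z, (rst (dd f (e j)) z (v j)).natDegree ≤ 2 := fun j z =>
    rst_deg (supp_dd hy _) (hvT j)
  have h3 : ∀ j, ND3a f (v j) (e j) z₀ := fun j => (hN j).nd3 hzw (hA j _) (hB j _)
  have hopen := fun j => (h3 j).nhds σ
  choose V hV hV' using hopen
  -- the open set
  obtain ⟨U', hU'U, hU'o, hU'z⟩ := mem_nhds_iff.1 hU
  have hW : (⋂ j, V j) ∈ 𝓝 (fun i => σ (z₀ i)) := Filter.iInter_mem.2 hV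
  obtain ⟨W', hW'W, hW'o, hW'z⟩ := mem_nhds_iff.1 hW
  set O : Set ((α → L) × L) := (U' ∩ (W' ×ˢ Set.univ)) ∩ {q | q.2 ≠ 0} with hO
  have hOo : IsOpen O := (hU'o.inter (hW'o.prod isOpen_univ)).inter
    (isOpen_ne.preimage continuous_snd)
  have hO' : ∀ z w, w ^ 2 = MvPolynomial.eval z f → ((fun i => σ (z i)), σ w) ∈ O →
      w ≠ 0 ∧ ∀ j, NDa f (v j) (e j) z := by
    intro z w hzw' hz
    have hw : w ≠ 0 := (map_ne_zero σ).1 hz.2
    refine ⟨hw, fun j => ?_⟩
    refine ND3.nd (hV' j z ?_) ?_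
    · exact Set.mem_iInter.1 (hW'W hz.1.2.1) j
    · rw [← hzw']; exact pow_ne_zero 2 hw
  -- a rational point in the open set
  obtain ⟨z₁, w₁, hzw₁, hz₁⟩ : ∃ z w, w ^ 2 = MvPolynomial.eval z f ∧
      ((fun i => σ (z i)), σ w) ∈ O := by
    by_cases hw : w₀ = 0
    · obtain ⟨j⟩ := ‹Nonempty κ›
      have hdisc := (hN j).resolve_right fun h => h.1 hw
      have hq := poly_two (hA j z₀)
      set p := rst f z₀ (v j) with hp
      have hp0 : p.coeff 0 = 0 := by
        rw [Polynomial.coeff_zero_eq_eval_zero, hp, rst_eval, zero_smul, add_zero, ← hzw, hw,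
          zero_pow two_ne_zero]
      have hb : p.coeff 1 ≠ 0 := by
        intro h0
        apply hdisc.1
        rw [h0, hp0]; ring
      set b := p.coeff 1
      set γ := p.coeff 2
      have hpe : ∀ s, MvPolynomial.eval (z₀ + s • v j) f = b * s + γ * s ^ 2 := by
        intro s
        rw [← rst_eval, ← hp]
        conv_lhs => rw [hq, hp0]
        simp
      -- the parametrization
      let Φ : L → (α → L) × L := fun r =>
        ((fun i => σ (z₀ i) + (σ b * r ^ 2 / (1 - σ γ * r ^ 2)) * σ (v j i)),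
          σ b * r / (1 - σ γ * r ^ 2))
      have hΦ : ContinuousAt Φ 0 := by
        refine ContinuousAt.prodMk (continuousAt_pi.2 fun i => ?_) ?_
        · refine ContinuousAt.add continuousAt_const (ContinuousAt.mul ?_ continuousAt_const)
          exact ContinuousAt.div (by fun_prop) (by fun_prop) (by simp)
        · exact ContinuousAt.div (by fun_prop) (by fun_prop) (by simp)
      have hΦ0 : Φ 0 = ((fun i => σ (z₀ i)), σ w₀) := by simp [Φ, hw]
      have hpre : Φ ⁻¹' (U' ∩ (W' ×ˢ Set.univ)) ∈ 𝓝 (0 : L) := by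
        apply hΦ.preimage_mem_nhds
        rw [hΦ0]
        exact (hU'o.inter (hW'o.prod isOpen_univ)).mem_nhds ⟨hU'z, hW'z, Set.mem_univ _⟩
      have hinf := infinite_near' σ hσ hpre
      have hfin : {r : K | 1 - γ * r ^ 2 = 0}.Finite := by
        have hpf : PF1 fun r : K => 1 - γ * r ^ 2 :=
          (PF1.const _).sub ((PF1.const _).mul (PF1.id'.pow 2))
        exact hpf.finite (τ := 0) (by simp)
      obtain ⟨r, ⟨hr1, hr0⟩, hr2⟩ := (hinf.sdiff hfin).nonempty
      have hr2' : 1 - γ * r ^ 2 ≠ 0 := hr2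
      refine ⟨z₀ + (b * r ^ 2 / (1 - γ * r ^ 2)) • v j, b * r / (1 - γ * r ^ 2), ?_, ?_, ?_⟩
      · rw [hpe]
        field_simp
        ring
      · have h5 : Φ (σ r) ∈ U' ∩ (W' ×ˢ Set.univ) := hr1
        have h6 : Φ (σ r) = ((fun i => σ ((z₀ + (b * r ^ 2 / (1 - γ * r ^ 2)) • v j) i)),
            σ (b * r / (1 - γ * r ^ 2))) := by
          simp [Φ]
        rw [← h6]
        exact h5
      · change σ (b * r / (1 - γ * r ^ 2)) ≠ 0
        exact (map_ne_zero σ).2 (div_ne_zero (mul_ne_zero hb hr0) hr2')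
    · exact ⟨z₀, w₀, hzw, ⟨hU'z, hW'z, Set.mem_univ _⟩, (map_ne_zero σ).2 hw⟩
  refine density_cover σ hσ hsq c ?_ v e hA ?_ hOo hO' hzw₁ hz₁ (g := g) ?_
  · intro i hi z
    refine rst_deg hy fun l hl => ?_
    rw [Pi.single_apply, if_neg]
    rintro rfl
    exact hl (by simpa using hi)
  · intro i j hij η z
    refine rst_deg (hx j) fun l hl => ?_
    have hl' : c l ≠ some j := by simpa using hl
    rw [Pi.add_apply, he j l hl', zero_add, Pi.smul_apply, Pi.single_apply, if_neg, smul_zero]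
    rintro rfl
    exact hl' hij
  · intro z w hzw' hz
    exact hg z w hzw' (hU'U hz.1.1)

/-- **The density theorem.** -/
theorem density_abs [Nonempty κ] (c : α → Option κ) {f : MvPolynomial α K}
    (hsq : ¬IsSquare f) (hy : ∀ d ∈ f.support, ∑ i with c i = none, d i ≤ 2)
    (hx : ∀ j, ∀ d ∈ f.support, ∑ i with c i = some j, d i ≤ 4) {z₀ : α → K} {w₀ : K}
    (hzw : w₀ ^ 2 = MvPolynomial.eval z₀ f)
    (hnd : ∀ j, ∃ v e : α → K, (∀ i, c i ≠ none → v i = 0) ∧ (∀ i, c i ≠ some j → e i = 0) ∧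
      NDpt f z₀ w₀ v e)
    (ν : AbsoluteValue K ℝ) (hν : ν.IsNontrivial) {ε : ℝ} (hε : 0 < ε)
    {g : MvPolynomial (Option α) K} (hg : ∀ (z : α → K) (w : K), w ^ 2 = MvPolynomial.eval z f →
      (∀ i, ν (z i - z₀ i) < ε) → ν (w - w₀) < ε →
        MvPolynomial.eval (fun o => o.elim w z) g = 0) :
    (MvPolynomial.X none ^ 2 - MvPolynomial.rename some f) ∣ g := by
  obtain ⟨L, _, _, σ, hσ, hn⟩ := exists_completion ν hν
  have : CharZero L := charZero_of_injective_ringHom σ.injective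
  have : ProperSpace L := Pool.Agent.W279.Tri.properSpace_of_denseRange σ hσ
  refine density_L σ hσ c hsq hy hx hzw hnd (U := Metric.ball ((fun i => σ (z₀ i)), σ w₀) ε)
    (Metric.ball_mem_nhds _ hε) fun z w h1 h2 => hg z w h1 ?_ ?_
  · intro i
    rw [Metric.mem_ball, Prod.dist_eq] at h2
    have h3 := (max_lt_iff.1 h2).1
    rw [dist_pi_lt_iff hε] at h3
    have h4 := h3 i
    rw [dist_eq_norm, ← map_sub, hn] at h4
    exact h4
  · rw [Metric.mem_ball, Prod.dist_eq] at h2
    have h3 := (max_lt_iff.1 h2).2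
    rw [dist_eq_norm, ← map_sub, hn] at h3
    exact h3

end final

end Pool.Agent.Y720.MZ
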