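import Pool.Agent.Y720.WA.Den5

/-!
# Smooth double covers of `ℙᴺ⁻¹ × ℙⁿ⁻¹` branched along divisors of bidegree `(2, 4)` (helper720)
-/

set_option autoImplicit false
set_option linter.unusedSectionVars false
set_option linter.unusedVariables false

open Filter Topology Matrix

namespace Pool.Agent.Y720.MZ

section alg

variable {K : Type*} [Field K] [CharZero K] {N n : ℕ}

/-- the bihomogeneous form `∑ yₐ y_b M_{ab}(x)` -/
noncomputable def FF (M : Fin N → Fin N → MvPolynomial (Fin n) K) :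
    MvPolynomial (Fin N ⊕ Fin n) K :=
  ∑ a, ∑ b, MvPolynomial.X (Sum.inl a) * MvPolynomial.X (Sum.inl b) *
    MvPolynomial.rename Sum.inr (M a b)

/-- the matrix at `x` -/
noncomputable def Mx (M : Fin N → Fin N → MvPolynomial (Fin n) K) (x : Fin n → K) :
    Matrix (Fin N) (Fin N) K := fun a b => MvPolynomial.eval x (M a b)

/-- the derivative of the matrix at `x` -/
noncomputable def Mj (M : Fin N → Fin N → MvPolynomial (Fin n) K) (j : Fin n) (x : Fin n → K) :
    Matrix (Fin N) (Fin N) K := fun a b => MvPolynomial.eval x (MvPolynomial.pderiv j (M a b))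

lemma eval_FF (M : Fin N → Fin N → MvPolynomial (Fin n) K) (y : Fin N → K) (x : Fin n → K) :
    MvPolynomial.eval (Sum.elim y x) (FF M) = bf (Mx M x) y y := by
  simp only [FF, map_sum, map_mul, MvPolynomial.eval_X, Sum.elim_inl, MvPolynomial.eval_rename,
    bf, dotProduct, mulVec, Mx, Finset.mul_sum]
  refine Finset.sum_congr rfl fun a _ => Finset.sum_congr rfl fun b _ => ?_
  rw [Sum.elim_comp_inr]
  ring

lemma pderiv_ren (g : MvPolynomial (Fin n) K) (j : Fin n) :
    MvPolynomial.pderiv (Sum.inr j : Fin N ⊕ Fin n) (MvPolynomial.rename Sum.inr g) =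
      MvPolynomial.rename Sum.inr (MvPolynomial.pderiv j g) := by
  classical
  induction g using MvPolynomial.induction_on with
  | C a => simp
  | add p q hp hq => simp only [map_add]; rw [hp, hq]
  | mul_X p i hp =>
    rw [map_mul, Derivation.leibniz, Derivation.leibniz, hp]
    simp only [MvPolynomial.rename_X, MvPolynomial.pderiv_X, smul_eq_mul, map_add, map_mul]
    congr 2
    by_cases h : j = i
    · subst h; simp
    · rw [Pi.single_apply, Pi.single_apply, if_neg, if_neg]
      · simp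
      · intro h'; exact h h'.symm
      · intro h'
        exact h (Sum.inr_injective h').symm

lemma eval_dd_FF (M : Fin N → Fin N → MvPolynomial (Fin n) K) (j : Fin n) (y : Fin N → K)
    (x : Fin n → K) : MvPolynomial.eval (Sum.elim y x)
      (dd (FF M) (Pi.single (Sum.inr j) 1)) = bf (Mj M j x) y y := by
  classical
  have h1 : dd (FF M) (Pi.single (Sum.inr j) 1) = MvPolynomial.pderiv (Sum.inr j) (FF M) := by
    rw [dd, Finset.sum_eq_single (Sum.inr j)]
    · simp
    · intro i _ hi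
      rw [Pi.single_apply, if_neg hi, map_zero, zero_mul]
    · simp
  rw [h1]
  simp only [FF, map_sum, bf, dotProduct, mulVec, Mj, Finset.mul_sum]
  refine Finset.sum_congr rfl fun a _ => Finset.sum_congr rfl fun b _ => ?_
  rw [Derivation.leibniz, Derivation.leibniz, pderiv_ren, MvPolynomial.pderiv_X_of_ne (by simp),
    MvPolynomial.pderiv_X_of_ne (by simp)]
  simp only [smul_zero, add_zero, smul_eq_mul, map_mul, map_add, mul_zero, MvPolynomial.eval_X,
    Sum.elim_inl, MvPolynomial.eval_rename]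
  rw [Sum.elim_comp_inr]
  ring

/-- degree bounds in blocks -/
def DB {σ : Type*} (T : Finset σ) (m : ℕ) (f : MvPolynomial σ K) : Prop :=
  ∀ d ∈ f.support, ∑ i ∈ T, d i ≤ m

lemma DB.sum {σ ι : Type*} {T : Finset σ} {m : ℕ} (s : Finset ι) {f : ι → MvPolynomial σ K}
    (hf : ∀ i ∈ s, DB T m (f i)) : DB T m (∑ i ∈ s, f i) := by
  classical
  intro d hd
  rw [MvPolynomial.mem_support_iff, MvPolynomial.coeff_sum] at hd
  obtain ⟨i, hi, hi'⟩ := Finset.exists_ne_zero_of_sum_ne_zero hd
  exact hf i hi d (MvPolynomial.mem_support_iff.2 hi')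

lemma DB.mul {σ : Type*} {T : Finset σ} {m m' : ℕ} {f g : MvPolynomial σ K}
    (hf : DB T m f) (hg : DB T m' g) : DB T (m + m') (f * g) := by
  classical
  intro d hd
  have := MvPolynomial.support_mul f g hd
  obtain ⟨d1, h1, d2, h2, rfl⟩ := Finset.mem_add.1 this
  simp only [Finsupp.coe_add, Pi.add_apply, Finset.sum_add_distrib]
  exact add_le_add (hf d1 h1) (hg d2 h2)

lemma DB.X_mem {σ : Type*} (T : Finset σ) (i : σ) : DB T 1 (MvPolynomial.X i : MvPolynomial σ K) := by
  classical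
  intro d hd
  rw [MvPolynomial.support_X, Finset.mem_singleton] at hd
  subst hd
  have : ∑ j ∈ T, (Finsupp.single i 1 : σ →₀ ℕ) j ≤ ∑ j ∈ T, if j = i then 1 else 0 := by
    refine Finset.sum_le_sum fun j _ => ?_
    rw [Finsupp.single_apply]
    by_cases h : i = j
    · rw [if_pos h, if_pos h.symm]
    · rw [if_neg h, if_neg fun h' => h h'.symm]
  refine this.trans ?_
  rw [Finset.sum_ite_eq']
  split_ifs <;> omega

lemma DB.X_notMem {σ : Type*} {T : Finset σ} {i : σ} (hi : i ∉ T) :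
    DB T 0 (MvPolynomial.X i : MvPolynomial σ K) := by
  classical
  intro d hd
  rw [MvPolynomial.support_X, Finset.mem_singleton] at hd
  subst hd
  rw [Finset.sum_eq_zero]
  intro j hj
  rw [Finsupp.single_apply, if_neg]
  rintro rfl
  exact hi hj

lemma FF_db (M : Fin N → Fin N → MvPolynomial (Fin n) K) (hM : ∀ a b, (M a b).totalDegree ≤ 4) :
    DB (Finset.univ.filter fun i : Fin N ⊕ Fin n => Sum.isLeft i) 2 (FF M) ∧
      DB (Finset.univ.filter fun i : Fin N ⊕ Fin n => Sum.isRight i) 4 (FF M) := by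
  classical
  have h1 : ∀ (T : Finset (Fin N ⊕ Fin n)) a b, DB T 4
      (MvPolynomial.rename Sum.inr (M a b) : MvPolynomial (Fin N ⊕ Fin n) K) := by
    intro T a b d hd
    have h2 := MvPolynomial.le_totalDegree hd
    have h3 := (MvPolynomial.totalDegree_rename_le (R := K) (Sum.inr : Fin n → Fin N ⊕ Fin n)
      (M a b)).trans (hM a b)
    refine le_trans ?_ (h2.trans h3)
    rw [Finsupp.sum_fintype _ _ (fun _ => rfl)]
    exact Finset.sum_le_sum_of_subset (Finset.subset_univ _)
  have h4 : ∀ a b, DB (Finset.univ.filter fun i : Fin N ⊕ Fin n => Sum.isLeft i) 0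
      (MvPolynomial.rename Sum.inr (M a b) : MvPolynomial (Fin N ⊕ Fin n) K) := by
    intro a b d hd
    rw [MvPolynomial.support_rename_of_injective Sum.inr_injective, Finset.mem_image] at hd
    obtain ⟨d', -, rfl⟩ := hd
    rw [Finset.sum_eq_zero]
    intro i hi
    rcases i with i | i
    · rw [Finsupp.mapDomain_of_notMem_range]
      simp
    · simp at hi
  constructor
  · refine DB.sum _ fun a _ => DB.sum _ fun b _ => ?_
    exact (((DB.X_mem _ _).mul (DB.X_mem _ _)).mul (h4 a b))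
  · refine DB.sum _ fun a _ => DB.sum _ fun b _ => ?_
    have := (((DB.X_notMem (K := K) (i := (Sum.inl a : Fin N ⊕ Fin n))
      (T := Finset.univ.filter fun i : Fin N ⊕ Fin n => Sum.isRight i) (by simp)).mul
      (DB.X_notMem (i := (Sum.inl b : Fin N ⊕ Fin n)) (by simp))).mul (h1 _ a b))
    simpa using this

/-- quadratic polynomials are determined by their values -/
lemma coeffs_of_eval {p : Polynomial K} {a b c : K} (h : ∀ s, p.eval s = a + b * s + c * s ^ 2) :
    p = .C a + .C b * .X + .C c * .X ^ 2 := by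
  apply Polynomial.funext
  intro s
  rw [h]
  simp

lemma coeffs_q {a b c : K} :
    (.C a + .C b * .X + .C c * .X ^ 2 : Polynomial K).coeff 0 = a ∧
    (.C a + .C b * .X + .C c * .X ^ 2 : Polynomial K).coeff 1 = b ∧
    (.C a + .C b * .X + .C c * .X ^ 2 : Polynomial K).coeff 2 = c := by
  simp [Polynomial.coeff_X, Polynomial.coeff_C, Polynomial.coeff_X_pow]

lemma rst_FF (M : Fin N → Fin N → MvPolynomial (Fin n) K) (hsym : ∀ a b, M a b = M b a)
    (y v : Fin N → K) (x : Fin n → K) :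
    rst (FF M) (Sum.elim y x) (Sum.elim v 0) = .C (bf (Mx M x) y y) +
      .C (2 * bf (Mx M x) y v) * .X + .C (bf (Mx M x) v v) * .X ^ 2 := by
  have hs : (Mx M x).IsSymm := by
    ext a b
    simp only [Mx, transpose_apply, hsym a b]
  apply coeffs_of_eval
  intro s
  rw [rst_eval]
  have e : (Sum.elim y x + s • Sum.elim v 0 : Fin N ⊕ Fin n → K) = Sum.elim (y + s • v) x := by
    funext i
    rcases i with i | i <;> simp
  rw [e, eval_FF]
  simp only [bf_add_left, bf_add_right, bf_smul_left, bf_smul_right]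
  rw [bf_comm hs v y]
  ring

lemma rst_dd_FF (M : Fin N → Fin N → MvPolynomial (Fin n) K) (hsym : ∀ a b, M a b = M b a)
    (j : Fin n) (y v : Fin N → K) (x : Fin n → K) :
    rst (dd (FF M) (Pi.single (Sum.inr j) 1)) (Sum.elim y x) (Sum.elim v 0) =
      .C (bf (Mj M j x) y y) + .C (2 * bf (Mj M j x) y v) * .X + .C (bf (Mj M j x) v v) * .X ^ 2 := by
  have hs : (Mj M j x).IsSymm := by
    ext a b
    simp only [Mj, transpose_apply, hsym a b]
  apply coeffs_of_eval
  intro s
  rw [rst_eval]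
  have e : (Sum.elim y x + s • Sum.elim v 0 : Fin N ⊕ Fin n → K) = Sum.elim (y + s • v) x := by
    funext i
    rcases i with i | i <;> simp
  rw [e, eval_dd_FF]
  simp only [bf_add_left, bf_add_right, bf_smul_left, bf_smul_right]
  rw [bf_comm hs v y]
  ring

lemma PF_bfy (A : Matrix (Fin N) (Fin N) K) (y : Fin N → K) : PF fun v => bf A y v := by
  simp only [bf, dotProduct, mulVec]
  exact PF.sum _ fun a _ => (PF.const _).mul (PF.sum _ fun b _ => (PF.const _).mul (PF.coord b))

lemma PF_qf (A : Matrix (Fin N) (Fin N) K) : PF fun v => bf A v v := by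
  simp only [bf, dotProduct, mulVec]
  exact PF.sum _ fun a _ => (PF.coord a).mul (PF.sum _ fun b _ => (PF.const _).mul (PF.coord b))

lemma exists_qf_ne {A : Matrix (Fin N) (Fin N) K} (hA : A.IsSymm) (h : A ≠ 0) :
    ∃ v, bf A v v ≠ 0 := by
  classical
  by_contra hcon
  push Not at hcon
  apply h
  have h1 : ∀ u v, bf A u v = 0 := by
    intro u v
    have := hcon (u + v)
    rw [bf_add_left, bf_add_right, bf_add_right, hcon u, hcon v, bf_comm hA v u] at this
    have h2 : 2 * bf A u v = 0 := by linear_combination this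
    exact (mul_eq_zero.1 h2).resolve_left two_ne_zero
  ext a b
  have := h1 (Pi.single a 1) (Pi.single b 1)
  simpa [bf] using this

/-- forms of rank one have a kernel -/
lemma ker_of_rank_one {A : Matrix (Fin N) (Fin N) K} (hA : A.IsSymm) (hN : 2 ≤ N) {y : Fin N → K}
    (hy0 : bf A y y ≠ 0) (hrk : ∀ v, bf A y v ^ 2 - bf A y y * bf A v v = 0) :
    ∃ v : Fin N → K, v ≠ 0 ∧ bf A y v = 0 ∧ A *ᵥ v = 0 := by
  classical
  obtain ⟨v, hv0, hv⟩ : ∃ v : Fin N → K, v ≠ 0 ∧ bf A y v = 0 := by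
    let φ : (Fin N → K) →ₗ[K] K :=
      { toFun := fun v => bf A y v
        map_add' := fun u v => bf_add_right _ _ _ _
        map_smul' := fun c v => bf_smul_right _ _ _ _ }
    have h1 : 0 < Module.finrank K (LinearMap.ker φ) := by
      have h2 := LinearMap.finrank_range_add_finrank_ker φ
      have h3 : Module.finrank K (LinearMap.range φ) ≤ 1 := by
        have := Submodule.finrank_le (LinearMap.range φ)
        simpa using this
      rw [Module.finrank_fin_fun] at h2
      omega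
    obtain ⟨v, hv⟩ := Module.finrank_pos_iff_exists_ne_zero.1 h1
    exact ⟨v, fun h => hv (Subtype.ext h), v.2⟩
  have hq : ∀ u, bf A y y * bf A u u = bf A y u ^ 2 := by
    intro u
    linear_combination -hrk u
  refine ⟨v, hv0, hv, ?_⟩
  have h1 : ∀ u, bf A u v = 0 := by
    intro u
    have h2 := hq (u + v)
    have h3 := hq u
    have h4 := hq v
    simp only [bf_add_left, bf_add_right, hv, add_zero, bf_comm hA v u] at h2
    rw [hv] at h4
    have h5 : bf A y y * (2 * bf A u v) = 0 := by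
      linear_combination h2 - h3 - h4
    have h6 := (mul_eq_zero.1 h5).resolve_left hy0
    exact (mul_eq_zero.1 h6).resolve_left two_ne_zero
  funext a
  have := h1 (Pi.single a 1)
  simpa [bf] using this

/-- the existence of good directions -/
lemma exists_dir (M : Fin N → Fin N → MvPolynomial (Fin n) K) (hN : 2 ≤ N)
    (hsym : ∀ a b, M a b = M b a)
    {y : Fin N → K} {x : Fin n → K} {w : K} (hw : w ≠ 0) (hzw : w ^ 2 = bf (Mx M x) y y)
    (hs : ∀ v : Fin N → K, v ≠ 0 → Mx M x *ᵥ v = 0 → ∃ j, bf (Mj M j x) v v ≠ 0)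
    (hφ : (Mx M x).det ≠ 0 → ∃ j, ¬∃ r : K, Mj M j x = r • Mx M x) :
    ∃ (v : Fin N → K) (j : Fin n), NDpt (FF M) (Sum.elim y x) w (Sum.elim v 0)
      (Pi.single (Sum.inr j) 1) := by
  classical
  have hsm : (Mx M x).IsSymm := by
    ext a b
    simp only [Mx, transpose_apply, hsym a b]
  have hsj : ∀ j, (Mj M j x).IsSymm := by
    intro j
    ext a b
    simp only [Mj, transpose_apply, hsym a b]
  by_cases hrk : ∃ v, bf (Mx M x) y v ^ 2 - bf (Mx M x) y y * bf (Mx M x) v v ≠ 0
  · -- rank at least two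
    obtain ⟨j, hj⟩ : ∃ j, ¬∃ r : K, Mj M j x = r • Mx M x := by
      by_cases hdet : (Mx M x).det = 0
      · obtain ⟨v, hv0, hv⟩ := Matrix.exists_mulVec_eq_zero_iff.2 hdet
        obtain ⟨j, hj⟩ := hs v hv0 hv
        refine ⟨j, ?_⟩
        rintro ⟨r, hr⟩
        apply hj
        rw [hr, bf, smul_mulVec, hv, smul_zero, dotProduct_zero]
      · exact hφ hdet
    set r := bf (Mj M j x) y y / bf (Mx M x) y y with hr
    have hE : Mj M j x - r • Mx M x ≠ 0 := fun h => hj ⟨r, sub_eq_zero.1 h⟩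
    have hEs : (Mj M j x - r • Mx M x).IsSymm := (hsj j).sub (hsm.smul r)
    obtain ⟨v₂, hv₂⟩ := exists_qf_ne hEs hE
    obtain ⟨v, hv1, hv2⟩ := LO.inter (K := K)
      (((PF_bfy (Mx M x) y).pow 2).sub ((PF.const (bf (Mx M x) y y)).mul (PF_qf (Mx M x)))).lo
      (PF_qf (Mj M j x - r • Mx M x)).lo hrk ⟨v₂, hv₂⟩
    refine ⟨v, j, Or.inl ?_⟩
    rw [rst_FF M hsym, rst_dd_FF M hsym]
    obtain ⟨c0, c1, c2⟩ := coeffs_q (a := bf (Mx M x) y y) (b := 2 * bf (Mx M x) y v)
      (c := bf (Mx M x) v v)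
    rw [c0, c1, c2]
    refine ⟨?_, ?_⟩
    · intro h
      apply hv1
      have h4 : (4 : K) ≠ 0 := by norm_num
      apply mul_left_cancel₀ h4
      linear_combination h
    · rintro ⟨t, ht⟩
      apply hv2
      obtain ⟨d0, d1, d2⟩ := coeffs_q (a := bf (Mj M j x) y y) (b := 2 * bf (Mj M j x) y v)
        (c := bf (Mj M j x) v v)
      have e0 := congrArg (fun p => p.coeff 0) ht
      have e2 := congrArg (fun p => p.coeff 2) ht
      simp only [Polynomial.coeff_C_mul] at e0 e2
      rw [d0, c0] at e0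
      rw [d2, c2] at e2
      have hy0 : bf (Mx M x) y y ≠ 0 := by rw [← hzw]; exact pow_ne_zero 2 hw
      have ht' : t = r := by
        rw [hr, e0, mul_div_assoc, div_self hy0, mul_one]
      have e5 : bf (Mj M j x - r • Mx M x) v v = bf (Mj M j x) v v - r * bf (Mx M x) v v := by
        simp only [bf, sub_mulVec, dotProduct_sub, smul_mulVec, dotProduct_smul, smul_eq_mul]
      rw [e5, e2, ht', sub_self]
  · -- rank one
    push Not at hrk
    have hy0 : bf (Mx M x) y y ≠ 0 := by rw [← hzw]; exact pow_ne_zero 2 hw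
    obtain ⟨v, hv0, hv, hker⟩ := ker_of_rank_one hsm hN hy0 hrk
    obtain ⟨j, hj⟩ := hs v hv0 hker
    refine ⟨v, j, Or.inr ?_⟩
    rw [rst_FF M hsym, rst_dd_FF M hsym]
    obtain ⟨c0, c1, c2⟩ := coeffs_q (a := bf (Mx M x) y y) (b := 2 * bf (Mx M x) y v)
      (c := bf (Mx M x) v v)
    obtain ⟨d0, d1, d2⟩ := coeffs_q (a := bf (Mj M j x) y y) (b := 2 * bf (Mj M j x) y v)
      (c := bf (Mj M j x) v v)
    rw [c0, c1, c2, d0, d1, d2]
    have hvv : bf (Mx M x) v v = 0 := by rw [bf, hker, dotProduct_zero]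
    refine ⟨hw, by rw [hv, hvv]; ring, ?_⟩
    rw [hv, hvv]
    have : 2 * bf (Mx M x) y y * bf (Mj M j x) v v ≠ 0 :=
      mul_ne_zero (mul_ne_zero two_ne_zero hy0) hj
    simpa using this

lemma dd_mul {α : Type*} [Fintype α] (f g : MvPolynomial α K) (e : α → K) :
    dd (f * g) e = dd f e * g + f * dd g e := by
  simp only [dd, Derivation.leibniz, smul_eq_mul, mul_add, Finset.sum_add_distrib,
    Finset.sum_mul, Finset.mul_sum]
  rw [add_comm]
  congr 1
  · exact Finset.sum_congr rfl fun i _ => by ring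
  · exact Finset.sum_congr rfl fun i _ => by ring

lemma not_sq_FF (M : Fin N → Fin N → MvPolynomial (Fin n) K) (hN : 2 ≤ N)
    (hsym : ∀ a b, M a b = M b a)
    {y : Fin N → K} {x : Fin n → K} {w : K} (hw : w ≠ 0) (hzw : w ^ 2 = bf (Mx M x) y y)
    (hs : ∀ v : Fin N → K, v ≠ 0 → Mx M x *ᵥ v = 0 → ∃ j, bf (Mj M j x) v v ≠ 0) :
    ¬IsSquare (FF M) := by
  classical
  have hsm : (Mx M x).IsSymm := by
    ext a b
    simp only [Mx, transpose_apply, hsym a b]
  have hy0 : bf (Mx M x) y y ≠ 0 := by rw [← hzw]; exact pow_ne_zero 2 hw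
  rintro ⟨h, hh⟩
  by_cases hrk : ∃ v, bf (Mx M x) y v ^ 2 - bf (Mx M x) y y * bf (Mx M x) v v ≠ 0
  · obtain ⟨v, hv⟩ := hrk
    apply hv
    have h1 := rst_FF M hsym y v x
    obtain ⟨c0, c1, c2⟩ := coeffs_q (a := bf (Mx M x) y y) (b := 2 * bf (Mx M x) y v)
      (c := bf (Mx M x) v v)
    rw [← h1] at c0 c1 c2
    have h2 : rst (FF M) (Sum.elim y x) (Sum.elim v 0) =
        rst h (Sum.elim y x) (Sum.elim v 0) * rst h (Sum.elim y x) (Sum.elim v 0) := by
      rw [hh, rst, map_mul]; rfl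
    set H := rst h (Sum.elim y x) (Sum.elim v 0) with hH
    have h3 : H.natDegree ≤ 1 := by
      have h4 : (H * H).natDegree ≤ 2 := by
        rw [← h2, h1]; compute_degree
      by_cases hH0 : H = 0
      · rw [hH0]; simp
      · rw [Polynomial.natDegree_mul hH0 hH0] at h4
        omega
    have h5 : H = .C (H.coeff 0) + .C (H.coeff 1) * .X := by
      conv_lhs => rw [H.as_sum_range_C_mul_X_pow' (n := 2) (by omega)]
      simp [Finset.sum_range_succ]
    set p := H.coeff 0
    set q := H.coeff 1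
    have h6 : H * H = .C (p ^ 2) + .C (2 * p * q) * .X + .C (q ^ 2) * .X ^ 2 := by
      rw [h5]
      simp only [map_pow, map_mul, map_ofNat]
      ring
    obtain ⟨d0, d1, d2⟩ := coeffs_q (a := p ^ 2) (b := 2 * p * q) (c := q ^ 2)
    rw [← h6, ← h2] at d0 d1 d2
    rw [d0] at c0
    rw [d1] at c1
    rw [d2] at c2
    have c1' : bf (Mx M x) y v = p * q := by
      apply mul_left_cancel₀ (two_ne_zero (α := K))
      linear_combination -c1
    rw [c1', ← c0, ← c2]
    ring
  · push Not at hrk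
    obtain ⟨v, hv0, hv, hker⟩ := ker_of_rank_one hsm hN hy0 hrk
    obtain ⟨j, hj⟩ := hs v hv0 hker
    apply hj
    rw [← eval_dd_FF, hh, dd_mul]
    have h1 : MvPolynomial.eval (Sum.elim v x) h = 0 := by
      have h2 := eval_FF M v x
      rw [hh, map_mul, bf, hker, dotProduct_zero] at h2
      exact mul_self_eq_zero.1 h2
    rw [map_add, map_mul, map_mul, h1]
    ring

end alg

section final

variable {K : Type*} [Field K] [NumberField K] {N n : ℕ}

/-- leaving the branch locus along a conic -/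
lemma conic_off {L : Type*} [NontriviallyNormedField L] [CompleteSpace L] [ProperSpace L] (σ : K →+* L) (hσ : DenseRange σ)
    {α : Type*} [Fintype α] {f : MvPolynomial α K} {z₀ v : α → K}
    (h0 : MvPolynomial.eval z₀ f = 0) {b γ : K} (hb : b ≠ 0)
    (hpe : ∀ s, MvPolynomial.eval (z₀ + s • v) f = b * s + γ * s ^ 2)
    {U : Set ((α → L) × L)} (hU : U ∈ 𝓝 ((fun i => σ (z₀ i)), σ 0)) :
    ∃ s w : K, w ≠ 0 ∧ w ^ 2 = MvPolynomial.eval (z₀ + s • v) f ∧
      ((fun i => σ ((z₀ + s • v) i)), σ w) ∈ U := by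
  have : CharZero L := charZero_of_injective_ringHom σ.injective
  let Φ : L → (α → L) × L := fun r =>
    ((fun i => σ (z₀ i) + (σ b * r ^ 2 / (1 - σ γ * r ^ 2)) * σ (v i)),
      σ b * r / (1 - σ γ * r ^ 2))
  have hΦ : ContinuousAt Φ 0 := by
    refine ContinuousAt.prodMk (continuousAt_pi.2 fun i => ?_) ?_
    · refine ContinuousAt.add continuousAt_const (ContinuousAt.mul ?_ continuousAt_const)
      exact ContinuousAt.div (by fun_prop) (by fun_prop) (by simp)
    · exact ContinuousAt.div (by fun_prop) (by fun_prop) (by simp)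
  have hΦ0 : Φ 0 = ((fun i => σ (z₀ i)), σ 0) := by simp [Φ]
  have hpre : Φ ⁻¹' U ∈ 𝓝 (0 : L) := by
    apply hΦ.preimage_mem_nhds
    rw [hΦ0]
    exact hU
  have hinf := infinite_near' σ hσ hpre
  have hfin : {r : K | 1 - γ * r ^ 2 = 0}.Finite := by
    have hpf : PF1 fun r : K => 1 - γ * r ^ 2 :=
      (PF1.const _).sub ((PF1.const _).mul (PF1.id'.pow 2))
    exact hpf.finite (τ := 0) (by simp)
  obtain ⟨r, ⟨hr1, hr0⟩, hr2⟩ := (hinf.sdiff hfin).nonempty
  have hr2' : 1 - γ * r ^ 2 ≠ 0 := hr2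
  refine ⟨b * r ^ 2 / (1 - γ * r ^ 2), b * r / (1 - γ * r ^ 2),
    div_ne_zero (mul_ne_zero hb hr0) hr2', ?_, ?_⟩
  · rw [hpe]
    field_simp
    ring
  · have h6 : Φ (σ r) = ((fun i => σ ((z₀ + (b * r ^ 2 / (1 - γ * r ^ 2)) • v) i)),
        σ (b * r / (1 - γ * r ^ 2))) := by
      simp [Φ]
    rw [← h6]
    exact hr1

/-- **Rational points on double covers of `ℙᴺ⁻¹ × ℙⁿ⁻¹` branched along divisors of bidegree
`(2, 4)`.** -/
theorem smooth_density {L : Type*} [NontriviallyNormedField L] [CompleteSpace L] [ProperSpace L]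
    (σ : K →+* L) (hσ : DenseRange σ) (hN : 2 ≤ N)
    (M : Fin N → Fin N → MvPolynomial (Fin n) K) (hsym : ∀ a b, M a b = M b a)
    (hM : ∀ a b, (M a b).totalDegree ≤ 4)
    {y : Fin N → K} {x : Fin n → K} {w : K} (hzw : w ^ 2 = bf (Mx M x) y y)
    (hw : w ≠ 0 ∨ Mx M x *ᵥ y ≠ 0)
    (hs : ∀ v : Fin N → K, v ≠ 0 → Mx M x *ᵥ v = 0 → ∃ j, bf (Mj M j x) v v ≠ 0)
    (hφ : (Mx M x).det ≠ 0 → ∃ j, ¬∃ r : K, Mj M j x = r • Mx M x)
    {U : Set ((Fin N ⊕ Fin n → L) × L)} (hU : U ∈ 𝓝 ((fun i => σ (Sum.elim y x i)), σ w))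
    {g : MvPolynomial (Option (Fin N ⊕ Fin n)) K}
    (hg : ∀ (z : Fin N ⊕ Fin n → K) (w : K), w ^ 2 = MvPolynomial.eval z (FF M) →
      ((fun i => σ (z i)), σ w) ∈ U → MvPolynomial.eval (fun o => o.elim w z) g = 0) :
    (MvPolynomial.X none ^ 2 - MvPolynomial.rename some (FF M)) ∣ g := by
  classical
  have : CharZero L := charZero_of_injective_ringHom σ.injective
  have hsm : (Mx M x).IsSymm := by
    ext a b
    simp only [Mx, transpose_apply, hsym a b]
  obtain ⟨U', hU'U, hU'o, hU'z⟩ := mem_nhds_iff.1 hU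
  -- a point off the branch locus, in the same fibre
  obtain ⟨y', w', hw', hzw', hmem⟩ : ∃ (y' : Fin N → K) (w' : K), w' ≠ 0 ∧
      w' ^ 2 = bf (Mx M x) y' y' ∧ ((fun i => σ (Sum.elim y' x i)), σ w') ∈ U' := by
    by_cases hw0 : w = 0
    · have hy : Mx M x *ᵥ y ≠ 0 := hw.resolve_left (by simp [hw0])
      obtain ⟨a, ha⟩ := Function.ne_iff.1 hy
      have hb : bf (Mx M x) y (Pi.single a 1) ≠ 0 := by
        rw [bf_comm hsm]
        simpa [bf] using ha
      have hyy : bf (Mx M x) y y = 0 := by rw [← hzw, hw0, zero_pow two_ne_zero]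
      have hadd : ∀ s : K, (Sum.elim y x + s • Sum.elim (Pi.single a 1) 0 : Fin N ⊕ Fin n → K) =
          Sum.elim (y + s • Pi.single a 1) x := by
        intro s
        funext i
        rcases i with i | i
        · simp only [Pi.add_apply, Pi.smul_apply, Sum.elim_inl]
        · simp only [Pi.add_apply, Pi.smul_apply, Sum.elim_inr, Pi.zero_apply, smul_zero, add_zero]
      obtain ⟨s, w', h1, h2, h3⟩ := conic_off σ hσ (f := FF M) (z₀ := Sum.elim y x)
        (v := Sum.elim (Pi.single a 1) 0) (by rw [eval_FF, hyy])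
        (b := 2 * bf (Mx M x) y (Pi.single a 1))
        (γ := bf (Mx M x) (Pi.single a 1) (Pi.single a 1))
        (mul_ne_zero two_ne_zero hb) (by
          intro s
          rw [hadd, eval_FF]
          simp only [bf_add_left, bf_add_right, bf_smul_left, bf_smul_right]
          rw [bf_comm hsm (Pi.single a 1) y, hyy]
          ring) (hU'o.mem_nhds (by rw [← hw0]; exact hU'z))
      rw [hadd] at h2 h3
      exact ⟨y + s • Pi.single a 1, w', h1, by rw [h2, eval_FF], h3⟩
    · exact ⟨y, w, hw0, hzw, hU'z⟩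
  obtain ⟨v, j, hnd⟩ := exists_dir M hN hsym hw' hzw' hs hφ
  obtain ⟨db1, db2⟩ := FF_db M hM
  refine density_L σ hσ (κ := Unit) (fun i => Sum.elim (fun _ => none) (fun _ => some ()) i)
    (f := FF M) (not_sq_FF M hN hsym hw' hzw' hs) ?_ ?_ (z₀ := Sum.elim y' x) (w₀ := w')
    (by rw [eval_FF]; exact hzw') ?_ (hU'o.mem_nhds hmem) fun z w h1 h2 => hg z w h1 (hU'U h2)
  · intro d hd
    refine le_trans ?_ (db1 d hd)
    refine Finset.sum_le_sum_of_subset fun i hi => ?_
    rcases i with i | i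
    · simp
    · simp at hi
  · intro _ d hd
    refine le_trans ?_ (db2 d hd)
    refine Finset.sum_le_sum_of_subset fun i hi => ?_
    rcases i with i | i
    · simp at hi
    · simp
  · intro _
    refine ⟨Sum.elim v 0, Pi.single (Sum.inr j) 1, ?_, ?_, hnd⟩
    · intro i hi
      rcases i with i | i
      · simp at hi
      · simp
    · intro i hi
      rcases i with i | i
      · simp
      · simp at hi

end final

end Pool.Agent.Y720.MZ
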