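import Pool.Agent.Y720.WA.Na2

/-!
# Multiples of a point fill a neighbourhood of the origin (helper720)
-/

set_option autoImplicit false
set_option linter.unusedVariables false
set_option linter.unusedSectionVars false

open WeierstrassCurve Filter Topology

namespace Pool.Agent.Y720.MZ

/-- the absolute value given by an embedding -/
noncomputable def av {K L : Type*} [Field K] [NormedField L] (σ : K →+* L) : AbsoluteValue K ℝ where
  toFun x := ‖σ x‖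
  map_mul' x y := by rw [map_mul, norm_mul]
  nonneg' x := norm_nonneg _
  eq_zero' x := by rw [norm_eq_zero, map_eq_zero]
  add_le' x y := by rw [map_add]; exact norm_add_le _ _

lemma av_apply {K L : Type*} [Field K] [NormedField L] (σ : K →+* L) (x : K) :
    av σ x = ‖σ x‖ := rfl

section big

variable {K : Type*} [Field K] {v : AbsoluteValue K ℝ} {a b c : K} {C ρ : ℝ}

/-- points with a large abscissa are close to the origin -/
lemma big_x' (hB : Bd v a b c C ρ) {r : ℝ} (hr : 0 < r) :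
    ∀ x y : K, y ^ 2 = x ^ 3 + a * x ^ 2 + b * x + c →
      max (6 * C) (max (2 / r ^ 2) (2 / ρ ^ 2)) < v x →
      y ≠ 0 ∧ v (x / y) ≤ r ∧ v (1 / y) ≤ ρ := by
  have hC := hB.hC; have hρ := hB.hρ
  have ha := hB.ha; have hb := hB.hb; have hc := hB.hc
  intro x y h hx
  have h1 : 6 * C < v x := (le_max_left _ _).trans_lt hx
  have h2 : 2 / r ^ 2 < v x := ((le_max_left _ _).trans (le_max_right _ _)).trans_lt hx
  have h3 : 2 / ρ ^ 2 < v x := ((le_max_right _ _).trans (le_max_right _ _)).trans_lt hx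
  have hX : 6 ≤ v x := by linarith
  have hX0 : 0 < v x := by linarith
  -- `v y ^ 2 ≥ v x ^ 3 / 2`
  have hy : 1 / 2 * v x ^ 3 ≤ v y ^ 2 := by
    have e1 : x ^ 3 = y ^ 2 + (-(a * x ^ 2) + (-(b * x) + -c)) := by rw [h]; ring
    have e2 : v x ^ 3 ≤ v y ^ 2 + (v a * v x ^ 2 + (v b * v x + v c)) := by
      calc v x ^ 3 = v (x ^ 3) := (map_pow _ _ _).symm
        _ ≤ v (y ^ 2) + (v (-(a * x ^ 2)) + (v (-(b * x)) + v (-c))) := by
          rw [e1]
          exact (v.add_le _ _).trans (add_le_add le_rfl ((v.add_le _ _).trans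
            (add_le_add le_rfl (v.add_le _ _))))
        _ = v y ^ 2 + (v a * v x ^ 2 + (v b * v x + v c)) := by
          simp only [v.map_neg, map_mul, map_pow]
    have e3 : v a * v x ^ 2 ≤ C * v x ^ 2 := by gcongr
    have e4 : v b * v x ≤ C * v x ^ 2 := by
      have : v x ≤ v x ^ 2 := by nlinarith
      have hb0 := v.nonneg b
      gcongr
    have e5 : v c ≤ C * v x ^ 2 := by
      have : (1 : ℝ) ≤ v x ^ 2 := by nlinarith
      nlinarith
    have e6 : 6 * C * v x ^ 2 ≤ v x * v x ^ 2 := by gcongr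
    nlinarith
  have hy0 : 0 < v y ^ 2 := lt_of_lt_of_le (by positivity) hy
  have hyne : y ≠ 0 := by
    rintro rfl
    rw [map_zero] at hy0
    norm_num at hy0
  have hvy : 0 < v y := v.pos hyne
  refine ⟨hyne, ?_, ?_⟩
  · rw [map_div₀]
    apply abs_le_of_sq_le_sq' ?_ hr.le |>.2
    rw [div_pow, div_le_iff₀ hy0]
    have e1 : 2 ≤ v x * r ^ 2 := by
      have := h2.le
      rwa [div_le_iff₀ (by positivity)] at this
    calc v x ^ 2 = 1 / 2 * v x ^ 2 * 2 := by ring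
      _ ≤ 1 / 2 * v x ^ 2 * (v x * r ^ 2) := by gcongr
      _ = r ^ 2 * (1 / 2 * v x ^ 3) := by ring
      _ ≤ r ^ 2 * v y ^ 2 := by gcongr
  · rw [map_div₀, map_one]
    apply abs_le_of_sq_le_sq' ?_ hρ.le |>.2
    rw [div_pow, one_pow, div_le_iff₀ hy0]
    have e1 : 2 ≤ v x * ρ ^ 2 := by
      have := h3.le
      rwa [div_le_iff₀ (by positivity)] at this
    have e2 : (1 : ℝ) ≤ v x ^ 2 := by nlinarith
    calc (1 : ℝ) = 1 / 2 * 1 * 2 := by ring
      _ ≤ 1 / 2 * v x ^ 2 * (v x * ρ ^ 2) := by gcongr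
      _ = ρ ^ 2 * (1 / 2 * v x ^ 3) := by ring
      _ ≤ ρ ^ 2 * v y ^ 2 := by gcongr

/-- points with a large abscissa are close to the origin -/
lemma big_x (hB : Bd v a b c C ρ) {r : ℝ} (hr : 0 < r) :
    ∃ B : ℝ, 0 < B ∧ ∀ x y : K, y ^ 2 = x ^ 3 + a * x ^ 2 + b * x + c → B < v x →
      y ≠ 0 ∧ v (x / y) ≤ r ∧ v (1 / y) ≤ ρ := by
  have hC := hB.hC
  exact ⟨_, lt_max_of_lt_left (by linarith), big_x' hB hr⟩

/-- the parameter does not vanish -/
lemma TT_ne (hB : Bd v a b c C ρ) {r : ℝ} (hr : r ≤ ρ) {P : Pt a b c} (hP : Nb v ρ r P)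
    (h0 : P ≠ 0) : TT P ≠ 0 := by
  rcases P with _ | ⟨x, y, h⟩
  · exact absurd rfl h0
  · obtain ⟨hy, h1, h2⟩ := (Nb_some h).1 hP
    rw [TT_some]
    intro ht
    have h3 := s_small hB (h1.trans hr) h2 (ts_eqn hy (cv_ns.1 h).1)
    rw [ht, map_zero, zero_pow three_ne_zero, mul_zero] at h3
    have h4 : (1 : K) / y = 0 := (v.eq_zero).1 (le_antisymm h3 (v.nonneg _))
    rw [div_eq_zero_iff] at h4
    rcases h4 with h4 | h4
    · exact one_ne_zero h4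
    · exact hy h4

end big

section padic

variable {K : Type*} [Field K] [CharZero K] [DecidableEq K] {a b c : K} {C ρ : ℝ}
  {p : ℕ} [hp : Fact p.Prime] {σ : K →+* ℚ_[p]}

lemma av_na (σ : K →+* ℚ_[p]) : IsNonarchimedean (av σ) := by
  intro x y
  simp only [av_apply, map_add]
  exact Padic.nonarchimedean _ _

lemma U1 (hB : Bd (av σ) a b c C ρ) {P Q : Pt a b c} {r : ℝ} (hr : r ≤ ρ)
    (hP : Nb (av σ) ρ r P) (hQ : Nb (av σ) ρ r Q) : Nb (av σ) ρ r (P + Q) := by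
  obtain ⟨h1, h2⟩ := add_near hB hr hP hQ
  refine h1.mono ?_
  have hv := av_na σ
  have e1 : TT (P + Q) = (TT (P + Q) - TT P - TT Q) + (TT P + TT Q) := by ring
  rw [e1]
  refine na_add hv ?_ (na_add hv hP.le hQ.le)
  refine h2.trans ?_
  have h3 := hP.le
  have h4 := hQ.le
  have h5 := hB.ρ_le
  have h6 := (av σ).nonneg (TT P)
  have h7 := (av σ).nonneg (TT Q)
  have : (av σ) (TT P) * (av σ) (TT Q) ≤ r * 1 := by
    have h8 : (av σ) (TT Q) ≤ 1 := by linarith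
    exact mul_le_mul h3 h8 h7 (h6.trans h3)
  nlinarith

lemma U2 (hB : Bd (av σ) a b c C ρ) {P : Pt a b c} {r : ℝ} (hr : r ≤ ρ)
    (hP : Nb (av σ) ρ r P) (n : ℕ) : Nb (av σ) ρ r (n • P) := by
  have hr0 : 0 ≤ r := ((av σ).nonneg _).trans hP.le
  induction n with
  | zero => rw [zero_smul]; exact Nb_zero hr0
  | succ n ih => rw [succ_nsmul]; exact U1 hB hr ih hP

lemma U2z (hB : Bd (av σ) a b c C ρ) {P : Pt a b c} {r : ℝ} (hr : r ≤ ρ)
    (hP : Nb (av σ) ρ r P) (n : ℤ) : Nb (av σ) ρ r (n • P) := by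
  obtain ⟨m, rfl | rfl⟩ := n.eq_nat_or_neg
  · rw [natCast_zsmul]; exact U2 hB hr hP m
  · rw [neg_smul, natCast_zsmul]; exact (U2 hB hr hP m).neg

lemma U3 (hB : Bd (av σ) a b c C ρ) {P : Pt a b c} {r : ℝ} (hr : r ≤ ρ)
    (hP : Nb (av σ) ρ r P) (n : ℕ) : av σ (TT (n • P) - n * TT P) ≤ 1 / 2 * (r * r) := by
  have hv := av_na σ
  have hr0 : 0 ≤ r := ((av σ).nonneg _).trans hP.le
  induction n with
  | zero =>
    rw [zero_smul, TT_zero, Nat.cast_zero, zero_mul, sub_self, map_zero]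
    positivity
  | succ n ih =>
    have h1 := (add_near hB hr (U2 hB hr hP n) hP).2
    rw [succ_nsmul]
    have e : TT (n • P + P) - ((n + 1 : ℕ) : K) * TT P =
        (TT (n • P + P) - TT (n • P) - TT P) + (TT (n • P) - n * TT P) := by
      push_cast; ring
    rw [e]
    refine na_add hv (h1.trans ?_) ih
    have h2 := (U2 hB hr hP n).le
    have h3 := hP.le
    have h4 := (av σ).nonneg (TT P)
    gcongr

lemma norm_p_pos : 0 < ‖(p : ℚ_[p])‖ := norm_pos_iff.2 (by exact_mod_cast hp.out.ne_zero)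

lemma norm_p_lt : ‖(p : ℚ_[p])‖ < 1 := by
  rw [Padic.norm_p]
  exact inv_lt_one_of_one_lt₀ (by exact_mod_cast hp.out.one_lt)

lemma av_p (σ : K →+* ℚ_[p]) : av σ (p : K) = ‖(p : ℚ_[p])‖ := by rw [av_apply, map_natCast]

lemma U4 (hB : Bd (av σ) a b c C ρ) {P : Pt a b c} {r : ℝ} (hr : r ≤ ρ) (hr0 : 0 < r)
    (hrp : r ≤ ‖(p : ℚ_[p])‖) (hP : Nb (av σ) ρ r P) (hPr : av σ (TT P) = r) (j : ℕ) :
    av σ (TT (p ^ j • P)) = ‖(p : ℚ_[p])‖ ^ j * r := by
  have hv := av_na σ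
  have hp0 : 0 < ‖(p : ℚ_[p])‖ := norm_p_pos
  have hp1 : ‖(p : ℚ_[p])‖ < 1 := norm_p_lt
  -- one step
  have step : ∀ (Q : Pt a b c) (s : ℝ), s ≤ ρ → 0 < s → s ≤ ‖(p : ℚ_[p])‖ →
      Nb (av σ) ρ s Q → av σ (TT Q) = s → av σ (TT (p • Q)) = ‖(p : ℚ_[p])‖ * s := by
    intro Q s h1 h2 h3 h4 h5
    have h6 := U3 hB h1 h4 p
    have e1 : av σ ((p : K) * TT Q) = ‖(p : ℚ_[p])‖ * s := by rw [map_mul, av_p, h5]
    have e2 : TT (p • Q) = (p : K) * TT Q + (TT (p • Q) - p * TT Q) := by ring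
    rw [e2, na_eq hv, e1]
    rw [e1]
    refine h6.trans_lt ?_
    calc 1 / 2 * (s * s) < 1 * (s * s) := by
          apply mul_lt_mul_of_pos_right (by norm_num) (by positivity)
      _ ≤ ‖(p : ℚ_[p])‖ * s := by rw [one_mul]; gcongr
  induction j with
  | zero => rw [pow_zero, one_smul, pow_zero, one_mul, hPr]
  | succ j ih =>
    have hle : ‖(p : ℚ_[p])‖ ^ j * r ≤ r := by
      have : ‖(p : ℚ_[p])‖ ^ j ≤ 1 := pow_le_one₀ hp0.le hp1.le
      nlinarith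
    rw [pow_succ', mul_smul, step _ _ (hle.trans hr) (by positivity) (hle.trans hrp)
      ((U2 hB hr hP _).mono ih.le) ih]
    rw [pow_succ']
    ring

lemma near_nat (x : ℚ_[p]) (hx : ‖x‖ ≤ 1) : ∃ n : ℕ, ‖x - n‖ ≤ ‖(p : ℚ_[p])‖ := by
  let y : ℤ_[p] := ⟨x, hx⟩
  have h1 := PadicInt.appr_spec 1 y
  rw [← PadicInt.norm_le_pow_iff_mem_span_pow] at h1
  refine ⟨y.appr 1, ?_⟩
  have e : ‖x - (y.appr 1 : ℕ)‖ = ‖y - (y.appr 1 : ℕ)‖ := by
    rw [PadicInt.norm_def]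
    push_cast
    rfl
  rw [e, Padic.norm_p]
  simpa using h1

/-- **The multiples of a point fill a ball.** -/
lemma U5 (hB : Bd (av σ) a b c C ρ) {P : Pt a b c} {r : ℝ} (hr : r ≤ ρ) (hr0 : 0 < r)
    (hrp : r ≤ ‖(p : ℚ_[p])‖) (hP : Nb (av σ) ρ r P) (hPr : av σ (TT P) = r) (ξ : ℚ_[p])
    (hξ : ‖ξ‖ ≤ r) (j : ℕ) : ∃ n : ℕ, ‖σ (TT (n • P)) - ξ‖ ≤ ‖(p : ℚ_[p])‖ ^ j * r := by
  have hp0 : 0 < ‖(p : ℚ_[p])‖ := norm_p_pos
  have hp1 : ‖(p : ℚ_[p])‖ < 1 := norm_p_lt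
  induction j with
  | zero =>
    refine ⟨0, ?_⟩
    rw [zero_smul, TT_zero, map_zero, zero_sub, norm_neg, pow_zero, one_mul]
    exact hξ
  | succ j ih =>
    obtain ⟨n, hn⟩ := ih
    set Q := p ^ j • P with hQ
    set s := ‖(p : ℚ_[p])‖ ^ j * r with hs
    have hs0 : 0 < s := by positivity
    have hsr : s ≤ r := by
      have : ‖(p : ℚ_[p])‖ ^ j ≤ 1 := pow_le_one₀ hp0.le hp1.le
      rw [hs]; nlinarith
    have hQs : av σ (TT Q) = s := U4 hB hr hr0 hrp hP hPr j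
    have hQN : Nb (av σ) ρ s Q := (U2 hB hr hP _).mono hQs.le
    have hQ0 : σ (TT Q) ≠ 0 := by
      intro h0
      rw [av_apply, h0, norm_zero] at hQs
      exact hs0.ne hQs
    obtain ⟨m, hm⟩ := near_nat ((ξ - σ (TT (n • P))) / σ (TT Q)) (by
      rw [norm_div, ← av_apply σ (TT Q), hQs, div_le_one hs0, norm_sub_rev]
      exact hn)
    refine ⟨n + m * p ^ j, ?_⟩
    have e0 : (n + m * p ^ j) • P = n • P + m • Q := by
      rw [add_smul, mul_smul]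
    have hmQ := U2 hB (hsr.trans hr) hQN m
    have h1 := (add_near hB hr (U2 hB hr hP n) (hmQ.mono (hmQ.le.trans hsr))).2
    have h2 := U3 hB (hsr.trans hr) hQN m
    rw [e0]
    have e1 : σ (TT (n • P + m • Q)) - ξ =
        σ (TT (n • P + m • Q) - TT (n • P) - TT (m • Q)) + (σ (TT (m • Q) - m * TT Q) +
        -(σ (TT Q) * ((ξ - σ (TT (n • P))) / σ (TT Q) - m))) := by
      simp only [map_sub, map_mul, map_natCast]
      field_simp
      ring_nf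
    have b1 : ‖σ (TT (n • P + m • Q) - TT (n • P) - TT (m • Q))‖ ≤ ‖(p : ℚ_[p])‖ * s := by
      refine h1.trans ?_
      have k1 := (U2 hB hr hP n).le
      have k2 := hmQ.le
      have k3 := (av σ).nonneg (TT (n • P))
      have k4 := (av σ).nonneg (TT (m • Q))
      calc 1 / 2 * (av σ (TT (n • P)) * av σ (TT (m • Q))) ≤ 1 * (‖(p : ℚ_[p])‖ * s) := by
            gcongr
            · norm_num
            · exact k1.trans hrp
        _ = ‖(p : ℚ_[p])‖ * s := one_mul _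
    have b2 : ‖σ (TT (m • Q) - m * TT Q)‖ ≤ ‖(p : ℚ_[p])‖ * s := by
      refine h2.trans ?_
      calc 1 / 2 * (s * s) ≤ 1 * (‖(p : ℚ_[p])‖ * s) := by
            gcongr
            · norm_num
            · exact hsr.trans hrp
        _ = ‖(p : ℚ_[p])‖ * s := one_mul _
    have b3 : ‖-(σ (TT Q) * ((ξ - σ (TT (n • P))) / σ (TT Q) - m))‖ ≤ ‖(p : ℚ_[p])‖ * s := by
      rw [norm_neg, norm_mul, ← av_apply σ (TT Q), hQs, mul_comm]
      gcongr
    rw [e1, pow_succ']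
    have e2 : ‖(p : ℚ_[p])‖ * ‖(p : ℚ_[p])‖ ^ j * r = ‖(p : ℚ_[p])‖ * s := by rw [hs]; ring
    rw [e2]
    exact (Padic.nonarchimedean _ _).trans (max_le b1
      ((Padic.nonarchimedean _ _).trans (max_le b2 b3)))

/-- congruent multiples are close -/
lemma U6 (hB : Bd (av σ) a b c C ρ) {P : Pt a b c} {r : ℝ} (hr : r ≤ ρ) (hr0 : 0 < r)
    (hrp : r ≤ ‖(p : ℚ_[p])‖) (hP : Nb (av σ) ρ r P) (hPr : av σ (TT P) = r) (j : ℕ)
    {m n k : ℤ} (h : n = m + k * (p : ℤ) ^ j) :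
    ‖σ (TT (n • P)) - σ (TT (m • P))‖ ≤ ‖(p : ℚ_[p])‖ ^ j * r := by
  have hp0 : 0 < ‖(p : ℚ_[p])‖ := norm_p_pos
  have hp1 : ‖(p : ℚ_[p])‖ < 1 := norm_p_lt
  set Q := p ^ j • P with hQ
  set s := ‖(p : ℚ_[p])‖ ^ j * r with hs
  have hs0 : 0 < s := by positivity
  have hsr : s ≤ r := by
    have : ‖(p : ℚ_[p])‖ ^ j ≤ 1 := pow_le_one₀ hp0.le hp1.le
    rw [hs]; nlinarith
  have hQs : av σ (TT Q) = s := U4 hB hr hr0 hrp hP hPr j
  have hQN : Nb (av σ) ρ s Q := (U2 hB hr hP _).mono hQs.le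
  have hkQ := U2z hB (hsr.trans hr) hQN k
  have e0 : n • P = m • P + k • Q := by
    rw [h, add_smul, mul_smul, hQ]
    congr 2
  have h1 := (add_near hB hr (U2z hB hr hP m) (hkQ.mono (hkQ.le.trans hsr))).2
  rw [e0]
  have e1 : σ (TT (m • P + k • Q)) - σ (TT (m • P)) =
      σ (TT (m • P + k • Q) - TT (m • P) - TT (k • Q)) + σ (TT (k • Q)) := by
    simp only [map_sub]; ring
  rw [e1]
  refine (Padic.nonarchimedean _ _).trans (max_le (h1.trans ?_) hkQ.le)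
  have k1 := (U2z hB hr hP m).le
  have k2 := hkQ.le
  have k3 := (av σ).nonneg (TT (m • P))
  have k4 := (av σ).nonneg (TT (k • Q))
  have k5 : av σ (TT (m • P)) ≤ 1 := (k1.trans hrp).trans hp1.le
  calc 1 / 2 * (av σ (TT (m • P)) * av σ (TT (k • Q))) ≤ 1 * (1 * s) := by
        gcongr
        norm_num
    _ = s := by ring

/-- points close to the origin are not torsion points -/
lemma U7 (hB : Bd (av σ) a b c C ρ) {r : ℝ} (hr : r ≤ ρ) (hr0 : 0 < r)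
    (hrp : r ≤ ‖(p : ℚ_[p])‖) {P : Pt a b c} (hP : Nb (av σ) ρ r P) (hPr : av σ (TT P) = r) :
    ∀ n : ℕ, n ≠ 0 → n • P ≠ 0 := by
  have hv := av_na σ
  have hp0 : 0 < ‖(p : ℚ_[p])‖ := norm_p_pos
  have hp1 : ‖(p : ℚ_[p])‖ < 1 := norm_p_lt
  -- prime to `p`
  have h1 : ∀ (Q : Pt a b c) (s : ℝ), s ≤ ρ → 0 < s → Nb (av σ) ρ s Q → av σ (TT Q) = s →
      ∀ m : ℕ, ‖(m : ℚ_[p])‖ = 1 → m • Q ≠ 0 := by
    intro Q s h1 h2 h3 h4 m hm h0
    have h5 := U3 hB h1 h3 m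
    rw [h0, TT_zero, zero_sub, (av σ).map_neg, map_mul, h4, av_apply, map_natCast, hm, one_mul] at h5
    have h6 := hB.ρ_le
    nlinarith
  intro n hn
  obtain ⟨j, m, hm, rfl⟩ := Nat.exists_eq_pow_mul_and_not_dvd hn p hp.out.ne_one
  rw [mul_comm, mul_smul]
  have hle : ‖(p : ℚ_[p])‖ ^ j * r ≤ r := by
    have : ‖(p : ℚ_[p])‖ ^ j ≤ 1 := pow_le_one₀ hp0.le hp1.le
    nlinarith
  have h2 := U4 hB hr hr0 hrp hP hPr j
  refine h1 _ _ (hle.trans hr) (by positivity) ((U2 hB hr hP _).mono h2.le) h2 m ?_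
  rw [Padic.norm_natCast_eq_one_iff]
  exact (Nat.Prime.coprime_iff_not_dvd hp.out).2 hm

end padic

end Pool.Agent.Y720.MZ
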