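import Pool.Agent.Y720.WA.Fill

/-!
# Multiples of a point fill a neighbourhood of the origin, at several places (helper720)
-/

set_option autoImplicit false
set_option linter.unusedVariables false
set_option linter.unusedSectionVars false

open WeierstrassCurve Filter Topology

namespace Pool.Agent.Y720.MZ

section real

variable {K : Type*} [Field K] [CharZero K] [DecidableEq K] {a b c : K} {C ρ : ℝ} {σ : K →+* ℝ}

/-- **Stepping.** -/
lemma R1 (hB : Bd (av σ) a b c C ρ) {U : Pt a b c} (hU : Nb (av σ) ρ (ρ / 3) U)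
    (hU0 : σ (TT U) ≠ 0) (ξ : ℝ) (k : ℕ) : ∀ A : Pt a b c, Nb (av σ) ρ (ρ / 3) A →
      |ξ| + |σ (TT A) - ξ| ≤ ρ / 3 → |σ (TT A) - ξ| ≤ (k + 2) * (9 / 10 * |σ (TT U)|) →
      ∃ j : ℤ, Nb (av σ) ρ (ρ / 3) (A + j • U) ∧ |σ (TT (A + j • U)) - ξ| ≤ 2 * |σ (TT U)| := by
  have hρ := hB.hρ
  have h100 := hB.ρ_le
  have hU0' : 0 < |σ (TT U)| := abs_pos.2 hU0
  induction k with
  | zero =>
    intro A hA h1 h2
    refine ⟨0, by rw [zero_smul, add_zero]; exact hA, ?_⟩
    rw [zero_smul, add_zero]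
    push_cast at h2
    linarith
  | succ k ih =>
    intro A hA h1 h2
    by_cases hd : |σ (TT A) - ξ| ≤ 2 * |σ (TT U)|
    · exact ⟨0, by rw [zero_smul, add_zero]; exact hA, by rw [zero_smul, add_zero]; exact hd⟩
    push Not at hd
    -- the direction
    obtain ⟨e, hV, hVd⟩ : ∃ e : ℤ, Nb (av σ) ρ (ρ / 3) (e • U) ∧
        |σ (TT (e • U))| = |σ (TT U)| ∧ |(σ (TT A) - ξ) + σ (TT (e • U))| =
          |σ (TT A) - ξ| - |σ (TT U)| := by
      have hn : TT ((-1 : ℤ) • U) = -TT U := by rw [neg_one_zsmul, TT_neg]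
      rcases le_total 0 (σ (TT A) - ξ) with h | h
      · rcases le_total 0 (σ (TT U)) with h' | h'
        · refine ⟨-1, by rw [neg_one_zsmul]; exact hU.neg, by rw [hn, map_neg, abs_neg], ?_⟩
          rw [hn, map_neg, abs_of_nonneg h, abs_of_nonneg h']
          rw [abs_of_nonneg h, abs_of_nonneg h'] at hd
          rw [abs_of_nonneg (by linarith)]
          ring
        · refine ⟨1, by rw [one_zsmul]; exact hU, by rw [one_zsmul], ?_⟩
          rw [one_zsmul, abs_of_nonneg h, abs_of_nonpos h']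
          rw [abs_of_nonneg h, abs_of_nonpos h'] at hd
          rw [abs_of_nonneg (by linarith)]
          ring
      · rcases le_total 0 (σ (TT U)) with h' | h'
        · refine ⟨1, by rw [one_zsmul]; exact hU, by rw [one_zsmul], ?_⟩
          rw [one_zsmul, abs_of_nonpos h, abs_of_nonneg h']
          rw [abs_of_nonpos h, abs_of_nonneg h'] at hd
          rw [abs_of_nonpos (by linarith)]
          ring
        · refine ⟨-1, by rw [neg_one_zsmul]; exact hU.neg, by rw [hn, map_neg, abs_neg], ?_⟩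
          rw [hn, map_neg, abs_of_nonpos h, abs_of_nonpos h']
          rw [abs_of_nonpos h, abs_of_nonpos h'] at hd
          rw [abs_of_nonpos (by linarith)]
          ring
    obtain ⟨hV1, hV2⟩ := hVd
    obtain ⟨g1, g2⟩ := add_near hB (r := ρ / 3) (by linarith) hA hV
    have g3 : |σ (TT (A + e • U)) - σ (TT A) - σ (TT (e • U))| ≤ 1 / 10 * |σ (TT U)| := by
      have h3 : |σ (TT (A + e • U)) - σ (TT A) - σ (TT (e • U))| ≤
          1 / 2 * (|σ (TT A)| * |σ (TT (e • U))|) := by
        have := g2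
        simp only [av_apply, map_sub, Real.norm_eq_abs] at this
        exact this
      refine h3.trans ?_
      have h4 : |σ (TT A)| ≤ ρ / 3 := hA.le
      rw [hV1]
      have : |σ (TT A)| * |σ (TT U)| ≤ ρ / 3 * |σ (TT U)| := by gcongr
      nlinarith
    have g4 : |σ (TT (A + e • U)) - ξ| ≤ |σ (TT A) - ξ| - 9 / 10 * |σ (TT U)| := by
      have e1 : σ (TT (A + e • U)) - ξ = (σ (TT (A + e • U)) - σ (TT A) - σ (TT (e • U))) +
          ((σ (TT A) - ξ) + σ (TT (e • U))) := by ring
      rw [e1]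
      refine (abs_add_le _ _).trans ?_
      rw [hV2]
      linarith
    have g5 : Nb (av σ) ρ (ρ / 3) (A + e • U) := by
      refine g1.mono ?_
      change |σ (TT (A + e • U))| ≤ ρ / 3
      have e1 : |σ (TT (A + e • U))| ≤ |ξ| + |σ (TT (A + e • U)) - ξ| := by
        have := abs_add_le ξ (σ (TT (A + e • U)) - ξ)
        rwa [add_sub_cancel] at this
      linarith
    obtain ⟨j, hj1, hj2⟩ := ih (A + e • U) g5 (by linarith) (by
      push_cast at h2
      linarith)
    refine ⟨e + j, ?_, ?_⟩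
    · rw [add_smul, ← add_assoc]; exact hj1
    · rw [add_smul, ← add_assoc]; exact hj2

/-- multiples of a point which is very close to the origin -/
lemma R3 (hB : Bd (av σ) a b c C ρ) {P : Pt a b c} {δ : ℝ} (hP : Nb (av σ) ρ δ P) (n : ℕ)
    (hn : 2 * n * δ ≤ ρ) (hδ : δ ≤ ρ) : ∀ k : ℕ, k ≤ n → Nb (av σ) ρ (2 * k * δ) (k • P) := by
  have hδ0 : 0 ≤ δ := ((av σ).nonneg _).trans hP.le
  intro k hk
  induction k with
  | zero => rw [zero_smul]; exact Nb_zero (by simp)
  | succ k ih =>
    have ih' := ih (by omega)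
    have hk2 : 2 * k * δ ≤ ρ := by
      refine le_trans ?_ hn
      have : (k : ℝ) ≤ n := by exact_mod_cast (by omega : k ≤ n)
      gcongr
    have hkn : (k : ℝ) + 1 ≤ n := by exact_mod_cast hk
    set r := max (2 * k * δ) δ with hr
    have hrρ : r ≤ ρ := max_le hk2 hδ
    have h1 : Nb (av σ) ρ r (k • P) := ih'.mono (ih'.le.trans (le_max_left _ _))
    have h2 : Nb (av σ) ρ r P := hP.mono (hP.le.trans (le_max_right _ _))
    obtain ⟨g1, g2⟩ := add_near hB hrρ h1 h2
    rw [succ_nsmul]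
    refine g1.mono ?_
    have e1 : TT (k • P + P) = (TT (k • P + P) - TT (k • P) - TT P) + TT (k • P) + TT P := by ring
    have e2 : (av σ) (TT (k • P + P)) ≤ (av σ) (TT (k • P + P) - TT (k • P) - TT P) +
        (av σ) (TT (k • P)) + (av σ) (TT P) := by
      conv_lhs => rw [e1]
      exact ((av σ).add_le _ _).trans (add_le_add_left ((av σ).add_le _ _) _)
    have e3 := ih'.le
    have e4 := hP.le
    have e5 : (av σ) (TT (k • P)) * (av σ) (TT P) ≤ ρ * δ := by
      have := (av σ).nonneg (TT P)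
      have h3 := h1.le.trans hrρ
      have := (av σ).nonneg (TT (k • P))
      have := hB.hρ.le
      gcongr
    have h100 := hB.ρ_le
    push_cast
    nlinarith

end real

/-- multiples which are close to the origin -/
lemma accum_near {K : Type*} [Field K] [CharZero K] [DecidableEq K] {L : Type*}
    [NontriviallyNormedField L] [ProperSpace L] (σ : K →+* L) {a b c : K} (hD : dsc a b c ≠ 0)
    {C ρ : ℝ} (hB : Bd (av σ) a b c C ρ) {P : Pt a b c} (hP : ∀ n : ℕ, n ≠ 0 → n • P ≠ 0)
    {r : ℝ} (hr : 0 < r) : ∃ n : ℕ, n ≠ 0 ∧ Nb (av σ) ρ r (n • P) := by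
  have : CharZero L := charZero_of_injective_ringHom σ.injective
  obtain ⟨B, hB0, hBx⟩ := big_x hB hr
  obtain ⟨n, hn, x, y, h, he, hx⟩ := accum σ hD hP B
  refine ⟨n, hn, ?_⟩
  rw [he, Nb_some]
  exact hBx x y (cv_ns.1 h).1 hx

end Pool.Agent.Y720.MZ
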