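import Pool.Agent.Y720.WA.Fill2

/-!
# Multiples of a point fill a neighbourhood of the origin, simultaneously at a real place and at
several p-adic places (helper720)
-/

set_option autoImplicit false
set_option linter.unusedVariables false
set_option linter.unusedSectionVars false

open WeierstrassCurve Filter Topology

namespace Pool.Agent.Y720.MZ

variable {K : Type*} [Field K] [CharZero K] [DecidableEq K] {a b c : K}
  {ι : Type*} [Fintype ι] {p : ι → ℕ} [hp : ∀ i, Fact (p i).Prime]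
  {σ : ∀ i, K →+* ℚ_[p i]} {τ : K →+* ℝ} {C ρ : ι → ℝ} {C' ρ' : ℝ}

/-- a multiple which is close to the origin at all the places -/
lemma near_all (hD : dsc a b c ≠ 0) (hB : ∀ i, Bd (av (σ i)) a b c (C i) (ρ i))
    (hB' : Bd (av τ) a b c C' ρ') {S : Pt a b c} (hS : ∀ n : ℕ, n ≠ 0 → n • S ≠ 0)
    {r : ι → ℝ} (hr0 : ∀ i, 0 < r i) (hr : ∀ i, r i ≤ ρ i) {r' : ℝ} (hr' : 0 < r') :
    ∃ N : ℕ, N ≠ 0 ∧ (∀ i, Nb (av (σ i)) (ρ i) (r i) (N • S)) ∧ Nb (av τ) ρ' r' (N • S) := by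
  classical
  have hmul : ∀ N : ℕ, N ≠ 0 → ∀ n : ℕ, n ≠ 0 → n • (N • S) ≠ 0 := by
    intro N hN n hn
    rw [← mul_smul]
    exact hS _ (mul_ne_zero hn hN)
  have h1 : ∀ s : Finset ι, ∃ N : ℕ, N ≠ 0 ∧ ∀ i ∈ s, Nb (av (σ i)) (ρ i) (r i) (N • S) := by
    intro s
    induction s using Finset.induction_on with
    | empty => exact ⟨1, one_ne_zero, by simp⟩
    | insert i s hi ih =>
      obtain ⟨N, hN, hNs⟩ := ih
      obtain ⟨m, hm, hmN⟩ := accum_near (σ i) hD (hB i) (hmul N hN) (hr0 i)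
      refine ⟨m * N, mul_ne_zero hm hN, fun j hj => ?_⟩
      rw [mul_smul]
      rcases Finset.mem_insert.1 hj with rfl | hj
      · exact hmN
      · exact U2 (hB j) (hr j) (hNs j hj) m
  obtain ⟨N, hN, hNs⟩ := h1 Finset.univ
  obtain ⟨m, hm, hmN⟩ := accum_near τ hD hB' (hmul N hN) hr'
  refine ⟨m * N, mul_ne_zero hm hN, fun i => ?_, ?_⟩
  · rw [mul_smul]; exact U2 (hB i) (hr i) (hNs i (Finset.mem_univ i)) m
  · rw [mul_smul]; exact hmN

/-- **Simultaneous filling.** -/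
theorem fill_all (hinj : Function.Injective p) (hD : dsc a b c ≠ 0)
    (hB : ∀ i, Bd (av (σ i)) a b c (C i) (ρ i)) (hB' : Bd (av τ) a b c C' ρ') {R : Pt a b c}
    (hRi : ∀ n : ℕ, n ≠ 0 → n • R ≠ 0) {r : ι → ℝ} (hr0 : ∀ i, 0 < r i) (hr : ∀ i, r i ≤ ρ i)
    (hrp : ∀ i, r i ≤ ‖(p i : ℚ_[p i])‖) (hR : ∀ i, Nb (av (σ i)) (ρ i) (r i) R)
    (hRr : ∀ i, av (σ i) (TT R) = r i) (hR' : Nb (av τ) ρ' (ρ' / 3) R)
    (ξ : ∀ i, ℚ_[p i]) (hξ : ∀ i, ‖ξ i‖ ≤ r i) (ξ' : ℝ) (hξ' : |ξ'| ≤ ρ' / 12) {η : ℝ}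
    (hη : 0 < η) :
    ∃ n : ℤ, (∀ i, Nb (av (σ i)) (ρ i) (r i) (n • R) ∧ ‖σ i (TT (n • R)) - ξ i‖ < η) ∧
      Nb (av τ) ρ' (ρ' / 3) (n • R) ∧ |τ (TT (n • R)) - ξ'| < η := by
  classical
  have hρ := hB'.hρ
  have h100 := hB'.ρ_le
  -- the exponent
  obtain ⟨J, hJ⟩ : ∃ J : ℕ, ∀ i, ‖(p i : ℚ_[p i])‖ ^ J * r i < η := by
    have h1 : ∀ᶠ J : ℕ in atTop, ∀ i, ‖(p i : ℚ_[p i])‖ ^ J * r i < η := by
      rw [Filter.eventually_all]
      intro i
      have h2 := (tendsto_pow_atTop_nhds_zero_of_lt_one (norm_nonneg _)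
        (norm_p_lt (p := p i))).mul_const (r i)
      rw [zero_mul] at h2
      exact h2.eventually_lt_const hη
    exact h1.exists
  choose nn hnn using fun i => U5 (hB i) (hr i) (hr0 i) (hrp i) (hR i) (hRr i) (ξ i) (hξ i) J
  -- the remainder
  obtain ⟨n0, hn0⟩ := Nat.chineseRemainderOfFinset nn (fun i => p i ^ J) Finset.univ
    (fun i _ => pow_ne_zero _ (hp i).out.ne_zero) (by
      intro i _ j _ hij
      exact Nat.Coprime.pow _ _ ((Nat.coprime_primes (hp i).out (hp j).out).2 fun h =>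
        hij (hinj h)))
  set M := ∏ i, p i ^ J with hM
  have hM0 : M ≠ 0 := Finset.prod_ne_zero_iff.2 fun i _ => pow_ne_zero _ (hp i).out.ne_zero
  -- the small step
  set t := min (ρ' / 100) (min (η / 4) (ρ' / (1000 * (n0 + 1)))) with ht
  have ht0 : 0 < t := lt_min (by positivity) (lt_min (by positivity) (by positivity))
  have ht1 : t ≤ ρ' / 100 := min_le_left _ _
  have ht2 : t ≤ η / 4 := (min_le_right _ _).trans (min_le_left _ _)
  have ht3 : t * (n0 + 1) ≤ ρ' / 1000 := by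
    have : t ≤ ρ' / (1000 * (n0 + 1)) := (min_le_right _ _).trans (min_le_right _ _)
    rw [le_div_iff₀ (by positivity)] at this
    linarith
  obtain ⟨m, hm, hU⟩ := accum_near τ hD hB' (P := M • R) (fun n hn => by
    rw [← mul_smul]; exact hRi _ (mul_ne_zero hn hM0)) ht0
  set U := m • M • R with hUdef
  have hU00 : U ≠ 0 := by
    rw [hUdef, ← mul_smul]; exact hRi _ (mul_ne_zero hm hM0)
  have hU0 : τ (TT U) ≠ 0 :=
    (map_ne_zero τ).2 (TT_ne hB' (ht1.trans (by linarith)) hU hU00)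
  have hUt : |τ (TT U)| ≤ t := hU.le
  have hU3 : Nb (av τ) ρ' (ρ' / 3) U := hU.mono (hU.le.trans (by linarith))
  have hU0' : 0 < |τ (TT U)| := abs_pos.2 hU0
  have hex : ∀ x : ℝ, ∃ k : ℕ, x ≤ (k + 2) * (9 / 10 * |τ (TT U)|) := by
    intro x
    obtain ⟨k, hk⟩ := exists_nat_ge (x / (9 / 10 * |τ (TT U)|))
    refine ⟨k, ?_⟩
    rw [div_le_iff₀ (by positivity)] at hk
    nlinarith
  -- `R + j U`
  obtain ⟨k1, hk1⟩ := hex |τ (TT R) - 0|
  obtain ⟨j, hj1, hj2⟩ := R1 hB' hU3 hU0 0 k1 R hR' (by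
    rw [abs_zero, zero_add, sub_zero]; exact hR'.le) hk1
  rw [sub_zero] at hj2
  set R' := R + j • U with hR'def
  have hR't : Nb (av τ) ρ' (2 * t) R' := hj1.mono (by
    change |τ (TT R')| ≤ 2 * t
    linarith)
  have hA := R3 hB' hR't n0 (by nlinarith) (by linarith) n0 le_rfl
  set A := n0 • R' with hAdef
  have hAt : |τ (TT A)| ≤ ρ' / 250 := by
    refine hA.le.trans ?_
    nlinarith
  have hA3 : Nb (av τ) ρ' (ρ' / 3) A := hA.mono (hAt.trans (by linarith))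
  obtain ⟨k2, hk2⟩ := hex |τ (TT A) - ξ'|
  obtain ⟨j', hj'1, hj'2⟩ := R1 hB' hU3 hU0 ξ' k2 A hA3 (by
    have := abs_sub (τ (TT A)) ξ'
    linarith) hk2
  -- the multiple
  set n : ℤ := n0 * (1 + j * (m * M)) + j' * (m * M) with hn
  have hUz : U = ((m : ℤ) * M) • R := by
    rw [hUdef, mul_smul, natCast_zsmul, natCast_zsmul]
  have hnR : A + j' • U = n • R := by
    rw [hAdef, hR'def, hUz, hn, ← natCast_zsmul]
    module
  refine ⟨n, fun i => ⟨U2z (hB i) (hr i) (hR i) n, ?_⟩, by rw [← hnR]; exact hj'1, ?_⟩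
  · -- p-adic places
    obtain ⟨k, hk⟩ : ∃ k : ℤ, n = (nn i : ℤ) + k * (p i : ℤ) ^ J := by
      have h1 : ((p i : ℤ) ^ J) ∣ (n0 : ℤ) - nn i := by
        have := (Nat.modEq_iff_dvd.1 (hn0 i (Finset.mem_univ i)).symm)
        push_cast at this
        exact this
      have h2 : ((p i : ℤ) ^ J) ∣ (M : ℤ) := by
        have : p i ^ J ∣ M := Finset.dvd_prod_of_mem (fun i => p i ^ J) (Finset.mem_univ i)
        exact_mod_cast this
      obtain ⟨k1, hk1⟩ := h1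
      obtain ⟨k2, hk2⟩ := h2
      refine ⟨k1 + (n0 * j * m + j' * m) * k2, ?_⟩
      rw [hn, hk2]
      linear_combination hk1
    have h3 := U6 (hB i) (hr i) (hr0 i) (hrp i) (hR i) (hRr i) J hk
    rw [natCast_zsmul] at h3
    have e : σ i (TT (n • R)) - ξ i = (σ i (TT (n • R)) - σ i (TT (nn i • R))) +
        (σ i (TT (nn i • R)) - ξ i) := by ring
    rw [e]
    exact (Padic.nonarchimedean _ _).trans_lt (max_lt (h3.trans_lt (hJ i))
      ((hnn i).trans_lt (hJ i)))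
  · rw [← hnR]
    refine hj'2.trans_lt ?_
    linarith

end Pool.Agent.Y720.MZ
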