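import Pool.Agent.Y720.WA.Conv

/-!
# Rational points of a genus one curve near a rational point, uniformly in a family (helper720)
-/

set_option autoImplicit false
set_option linter.unusedVariables false
set_option linter.unusedSectionVars false

open WeierstrassCurve Filter Topology

namespace Pool.Agent.Y720.MZ

section tend

variable {K : Type*} [Field K] [CharZero K]

/-- a coefficient of the resolvent -/
def tA (θ : K × (Fin 4 → K)) : K := θ.2 1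
/-- a coefficient of the resolvent -/
def tB (θ : K × (Fin 4 → K)) : K := rb θ.1 (θ.2 0) (θ.2 2) (θ.2 3)
/-- a coefficient of the resolvent -/
def tC (θ : K × (Fin 4 → K)) : K := rc θ.1 (θ.2 0) (θ.2 1) (θ.2 2) (θ.2 3)
/-- the abscissa of the difference of the two points -/
def tX (θ : K × (Fin 4 → K)) : K := xs θ.1 (θ.2 0) (θ.2 1)
/-- the ordinate of the difference of the two points -/
def tY (θ : K × (Fin 4 → K)) : K := ys θ.1 (θ.2 0) (θ.2 1) (θ.2 2)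

/-- the filter of the parameters is finer than the neighbourhoods for an embedding -/
def Tn {L : Type*} [NormedField L] (σ : K →+* L) (l : Filter (K × (Fin 4 → K)))
    (θ₀ : K × (Fin 4 → K)) : Prop :=
  Tendsto (fun θ => σ θ.1) l (𝓝 (σ θ₀.1)) ∧ ∀ j, Tendsto (fun θ => σ (θ.2 j)) l (𝓝 (σ (θ₀.2 j)))

variable {L : Type*} [NontriviallyNormedField L] {σ : K →+* L} {l : Filter (K × (Fin 4 → K))}
  {θ₀ : K × (Fin 4 → K)}

lemma Tn.tA (h : Tn σ l θ₀) : Tendsto (fun θ => σ (tA θ)) l (𝓝 (σ (tA θ₀))) := h.2 1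

lemma Tn.tB (h : Tn σ l θ₀) : Tendsto (fun θ => σ (tB θ)) l (𝓝 (σ (tB θ₀))) := by
  simp only [MZ.tB, rb, map_sub, map_mul, map_pow, map_ofNat]
  exact ((h.2 0).mul (h.2 2)).sub (((h.1.pow 2).const_mul 4).mul (h.2 3))

lemma Tn.tC (h : Tn σ l θ₀) : Tendsto (fun θ => σ (tC θ)) l (𝓝 (σ (tC θ₀))) := by
  simp only [MZ.tC, rc, map_sub, map_add, map_mul, map_pow, map_ofNat]
  exact ((((h.2 0).pow 2).mul (h.2 3)).add ((h.1.pow 2).mul ((h.2 2).pow 2))).sub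
    ((((h.1.pow 2).const_mul 4).mul (h.2 1)).mul (h.2 3))

lemma Tn.tX (h : Tn σ l θ₀) (hw : θ₀.1 ≠ 0) :
    Tendsto (fun θ => σ (tX θ)) l (𝓝 (σ (tX θ₀))) := by
  have : CharZero L := charZero_of_injective_ringHom σ.injective
  have hw' : σ θ₀.1 ≠ 0 := (map_ne_zero σ).2 hw
  simp only [MZ.tX, xs, map_sub, map_div₀, map_mul, map_pow, map_ofNat]
  exact (((h.2 0).pow 2).div ((h.1.pow 2).const_mul 4)
    (mul_ne_zero (by norm_num) (pow_ne_zero 2 hw'))).sub (h.2 1)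

lemma Tn.tY (h : Tn σ l θ₀) (hw : θ₀.1 ≠ 0) :
    Tendsto (fun θ => σ (tY θ)) l (𝓝 (σ (tY θ₀))) := by
  have : CharZero L := charZero_of_injective_ringHom σ.injective
  have hw' : σ θ₀.1 ≠ 0 := (map_ne_zero σ).2 hw
  have h1 := h.tX hw
  have e : ∀ θ : K × (Fin 4 → K), σ (MZ.tY θ) =
      (σ (θ.2 0) * σ (MZ.tX θ) + 2 * σ θ.1 ^ 2 * σ (θ.2 2)) / (2 * σ θ.1) := by
    intro θ
    simp only [MZ.tY, ys, MZ.tX, map_add, map_div₀, map_mul, map_pow, map_ofNat]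
  simp only [e]
  exact ((((h.2 0).mul h1).add (((h.1.pow 2).const_mul 2).mul (h.2 2)))).div
    (h.1.const_mul 2) (mul_ne_zero (by norm_num) hw')

lemma Tn.dsc (h : Tn σ l θ₀) : Tendsto (fun θ => σ (dsc (MZ.tA θ) (MZ.tB θ) (MZ.tC θ))) l
    (𝓝 (σ (dsc (MZ.tA θ₀) (MZ.tB θ₀) (MZ.tC θ₀)))) := by
  simp only [MZ.dsc, map_sub, map_add, map_mul, map_pow, map_ofNat]
  have ha := h.tA
  have hb := h.tB
  have hc := h.tC
  exact (((((ha.pow 2).mul (hb.pow 2)).sub ((hb.pow 3).const_mul 4)).sub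
    (((ha.pow 3).const_mul 4).mul hc)).sub ((hc.pow 2).const_mul 27)).add
    (((ha.const_mul 18).mul hb).mul hc)

lemma Tn.ne (h : Tn σ l θ₀) (hw : θ₀.1 ≠ 0) : ∀ᶠ θ in l, θ.1 ≠ 0 := by
  filter_upwards [h.1.eventually_ne ((map_ne_zero σ).2 hw)] with θ h1 h2
  apply h1
  rw [h2, map_zero]

lemma Tn.dsc_ne (h : Tn σ l θ₀) (hD : MZ.dsc (MZ.tA θ₀) (MZ.tB θ₀) (MZ.tC θ₀) ≠ 0) :
    ∀ᶠ θ in l, MZ.dsc (MZ.tA θ) (MZ.tB θ) (MZ.tC θ) ≠ 0 := by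
  filter_upwards [h.dsc.eventually_ne ((map_ne_zero σ).2 hD)] with θ h1 h2
  apply h1
  rw [h2, map_zero]

/-- the constant of the family -/
noncomputable def CC (σ : K →+* L) (θ₀ : K × (Fin 4 → K)) : ℝ :=
  1 + ‖σ (tA θ₀)‖ + ‖σ (tB θ₀)‖ + ‖σ (tC θ₀)‖

lemma CC_ge (σ : K →+* L) (θ₀ : K × (Fin 4 → K)) : 1 ≤ CC σ θ₀ := by
  unfold CC
  have := norm_nonneg (σ (tA θ₀))
  have := norm_nonneg (σ (tB θ₀))
  have := norm_nonneg (σ (tC θ₀))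
  linarith

lemma Bd_base (σ : K →+* L) (θ₀ : K × (Fin 4 → K)) : Bd (av σ) (tA θ₀) (tB θ₀) (tC θ₀)
    (CC σ θ₀) (1 / (100 * CC σ θ₀)) := by
  have h1 := CC_ge σ θ₀
  have a1 := norm_nonneg (σ (tA θ₀))
  have a2 := norm_nonneg (σ (tB θ₀))
  have a3 := norm_nonneg (σ (tC θ₀))
  refine ⟨h1, ?_, ?_, ?_, by positivity, ?_⟩
  · change ‖σ (tA θ₀)‖ ≤ 1 + ‖σ (tA θ₀)‖ + ‖σ (tB θ₀)‖ + ‖σ (tC θ₀)‖
    linarith
  · change ‖σ (tB θ₀)‖ ≤ 1 + ‖σ (tA θ₀)‖ + ‖σ (tB θ₀)‖ + ‖σ (tC θ₀)‖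
    linarith
  · change ‖σ (tC θ₀)‖ ≤ 1 + ‖σ (tA θ₀)‖ + ‖σ (tB θ₀)‖ + ‖σ (tC θ₀)‖
    linarith
  · have : CC σ θ₀ ≠ 0 := by linarith
    field_simp
    norm_num

lemma Tn.Bd (h : Tn σ l θ₀) : ∀ᶠ θ in l, Bd (av σ) (MZ.tA θ) (MZ.tB θ) (MZ.tC θ)
    (CC σ θ₀) (1 / (100 * CC σ θ₀)) := by
  have hb := Bd_base σ θ₀
  have a1 := norm_nonneg (σ (MZ.tA θ₀))
  have a2 := norm_nonneg (σ (MZ.tB θ₀))
  have a3 := norm_nonneg (σ (MZ.tC θ₀))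
  have e : ‖σ (MZ.tA θ₀)‖ < CC σ θ₀ ∧ ‖σ (MZ.tB θ₀)‖ < CC σ θ₀ ∧ ‖σ (MZ.tC θ₀)‖ < CC σ θ₀ := by
    unfold CC
    refine ⟨?_, ?_, ?_⟩ <;> linarith
  filter_upwards [h.tA.norm.eventually_lt_const e.1, h.tB.norm.eventually_lt_const e.2.1,
    h.tC.norm.eventually_lt_const e.2.2] with θ h1 h2 h3
  exact ⟨hb.hC, h1.le, h2.le, h3.le, hb.hρ, hb.hCρ⟩

lemma tns {θ : K × (Fin 4 → K)} (hw : θ.1 ≠ 0) (hD : dsc (tA θ) (tB θ) (tC θ) ≠ 0) :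
    (cv (tA θ) (tB θ) (tC θ)).toAffine.Nonsingular (tX θ) (tY θ) :=
  ns_of_dsc hD (s_eqn hw)

end tend

section pl

variable {K : Type*} [Field K] [CharZero K] [DecidableEq K] {l : Filter (K × (Fin 4 → K))}
  {θ₀ : K × (Fin 4 → K)}

lemma padic_lc {p : ℕ} [Fact p.Prime] {Θ : Type*} {l : Filter Θ} {f : Θ → ℚ_[p]} {a : ℚ_[p]}
    (h : Tendsto f l (𝓝 a)) (ha : a ≠ 0) : ∀ᶠ θ in l, ‖f θ‖ = ‖a‖ := by
  have h1 : Tendsto (fun θ => ‖f θ - a‖) l (𝓝 0) := by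
    have := (h.sub_const a).norm
    rwa [sub_self, norm_zero] at this
  filter_upwards [h1.eventually_lt_const (norm_pos_iff.2 ha)] with θ h2
  apply le_antisymm
  · have e : f θ = (f θ - a) + a := by ring
    rw [e]
    exact (Padic.nonarchimedean _ _).trans (max_le h2.le le_rfl)
  · by_contra hcon
    push Not at hcon
    have e : a = -(f θ - a) + f θ := by ring
    have h3 : ‖a‖ ≤ max ‖-(f θ - a)‖ ‖f θ‖ := by
      conv_lhs => rw [e]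
      exact Padic.nonarchimedean _ _
    rw [norm_neg] at h3
    exact absurd h3 (not_le.2 (max_lt h2 hcon))

/-- the multiple of the point in the family, at a p-adic place -/
lemma ev_p {p : ℕ} [Fact p.Prime] {σ : K →+* ℚ_[p]} (hT : Tn σ l θ₀) (hw : θ₀.1 ≠ 0)
    (h₀ : (cv (tA θ₀) (tB θ₀) (tC θ₀)).toAffine.Nonsingular (tX θ₀) (tY θ₀))
    (hinf : ∀ n : ℕ, n ≠ 0 → n • (.some _ _ h₀ : Pt (tA θ₀) (tB θ₀) (tC θ₀)) ≠ 0) {N : ℕ}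
    (hN : N ≠ 0) {r : ℝ} (hr : r ≤ 1 / (100 * CC σ θ₀))
    (hNb : Nb (av σ) (1 / (100 * CC σ θ₀)) r (N • (.some _ _ h₀ : Pt (tA θ₀) (tB θ₀) (tC θ₀)))) :
    ∀ᶠ θ in l, ∀ h : (cv (tA θ) (tB θ) (tC θ)).toAffine.Nonsingular (tX θ) (tY θ),
      Nb (av σ) (1 / (100 * CC σ θ₀))
        (av σ (TT (N • (.some _ _ h₀ : Pt (tA θ₀) (tB θ₀) (tC θ₀)))))
        (N • (.some _ _ h : Pt (tA θ) (tB θ) (tC θ))) ∧
      av σ (TT (N • (.some _ _ h : Pt (tA θ) (tB θ) (tC θ)))) =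
        av σ (TT (N • (.some _ _ h₀ : Pt (tA θ₀) (tB θ₀) (tC θ₀)))) := by
  obtain ⟨X, Y, X₀, Y₀, ⟨h', he⟩, hev, hX, hY⟩ := cont_mult σ hT.tA hT.tB hT.tC (hT.tX hw)
    (hT.tY hw) h₀ hinf N hN
  have hne := TT_ne (Bd_base σ θ₀) hr hNb (hinf N hN)
  rw [he] at hNb hne ⊢
  rw [TT_some] at hne ⊢
  obtain ⟨k1, k2, k3⟩ := (Nb_some h').1 hNb
  have k1' : σ Y₀ ≠ 0 := (map_ne_zero σ).2 k1
  have t1 : Tendsto (fun θ => σ (X θ / Y θ)) l (𝓝 (σ (X₀ / Y₀))) := by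
    simp only [map_div₀]
    exact hX.div hY k1'
  have t2 : Tendsto (fun θ => σ (1 / Y θ)) l (𝓝 (σ (1 / Y₀))) := by
    simp only [map_div₀, map_one]
    exact tendsto_const_nhds.div hY k1'
  filter_upwards [hev, padic_lc t1 ((map_ne_zero σ).2 hne),
    padic_lc t2 ((map_ne_zero σ).2 (one_div_ne_zero k1)), hY.eventually_ne k1'] with θ e1 e2 e3 e4 h
  obtain ⟨h2, e5⟩ := e1 h
  rw [e5, TT_some, Nb_some]
  have e6 : Y θ ≠ 0 := fun h0 => e4 (by rw [h0, map_zero])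
  exact ⟨⟨e6, e2.le, e3.le.trans k3⟩, e2⟩

/-- the multiple of the point in the family, at a real place -/
lemma ev_r {σ : K →+* ℝ} (hT : Tn σ l θ₀) (hw : θ₀.1 ≠ 0)
    (h₀ : (cv (tA θ₀) (tB θ₀) (tC θ₀)).toAffine.Nonsingular (tX θ₀) (tY θ₀))
    (hinf : ∀ n : ℕ, n ≠ 0 → n • (.some _ _ h₀ : Pt (tA θ₀) (tB θ₀) (tC θ₀)) ≠ 0) {N : ℕ}
    (hN : N ≠ 0)
    (hNb : Nb (av σ) (1 / (100 * CC σ θ₀)) (1 / (100 * CC σ θ₀) / 6)
      (N • (.some _ _ h₀ : Pt (tA θ₀) (tB θ₀) (tC θ₀)))) :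
    ∀ᶠ θ in l, ∀ h : (cv (tA θ) (tB θ) (tC θ)).toAffine.Nonsingular (tX θ) (tY θ),
      Nb (av σ) (1 / (100 * CC σ θ₀)) (1 / (100 * CC σ θ₀) / 3)
        (N • (.some _ _ h : Pt (tA θ) (tB θ) (tC θ))) := by
  obtain ⟨X, Y, X₀, Y₀, ⟨h', he⟩, hev, hX, hY⟩ := cont_mult σ hT.tA hT.tB hT.tC (hT.tX hw)
    (hT.tY hw) h₀ hinf N hN
  have hB := Bd_base σ θ₀
  set ρ := 1 / (100 * CC σ θ₀) with hρ
  have hρ0 := hB.hρ
  have hρ1 := hB.ρ_le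
  rw [he] at hNb
  obtain ⟨k1, k2, k3⟩ := (Nb_some h').1 hNb
  have k1' : σ Y₀ ≠ 0 := (map_ne_zero σ).2 k1
  have k4 := s_small hB (k2.trans (by linarith)) k3 (ts_eqn k1 (cv_ns.1 h').1)
  have k5 : ‖σ (1 / Y₀)‖ < ρ := by
    refine lt_of_le_of_lt k4 ?_
    have k6 := (av σ).nonneg (X₀ / Y₀)
    calc 2 * (av σ) (X₀ / Y₀) ^ 3 ≤ 2 * (ρ / 6) ^ 3 := by gcongr
      _ < ρ := by nlinarith [mul_pos hρ0 hρ0]
  have k7 : ‖σ (X₀ / Y₀)‖ < ρ / 3 := lt_of_le_of_lt k2 (by linarith)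
  have t1 : Tendsto (fun θ => σ (X θ / Y θ)) l (𝓝 (σ (X₀ / Y₀))) := by
    simp only [map_div₀]
    exact hX.div hY k1'
  have t2 : Tendsto (fun θ => σ (1 / Y θ)) l (𝓝 (σ (1 / Y₀))) := by
    simp only [map_div₀, map_one]
    exact tendsto_const_nhds.div hY k1'
  filter_upwards [hev, t1.norm.eventually_lt_const k7, t2.norm.eventually_lt_const k5,
    hY.eventually_ne k1'] with θ e1 e2 e3 e4 h
  obtain ⟨h2, e5⟩ := e1 h
  rw [e5, Nb_some]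
  have e6 : Y θ ≠ 0 := fun h0 => e4 (by rw [h0, map_zero])
  exact ⟨e6, e2.le, e3.le⟩

end pl

/-- points of a double cover can be moved away from zero -/
lemma perturb {L : Type*} [NontriviallyNormedField L] [CompleteSpace L] [CharZero L] {g : L → L}
    (hg : Continuous g) {t Y : L} (h : Y ^ 2 = g t) (hY : Y ≠ 0) {η : ℝ} (hη : 0 < η) :
    ∃ t' Y' : L, t' ≠ 0 ∧ ‖t' - t‖ < η ∧ ‖Y' - Y‖ < η ∧ Y' ^ 2 = g t' := by
  obtain ⟨δ, hδ, hs⟩ := exists_sqrt hY hη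
  have h1 : ∀ᶠ t' in 𝓝 t, ‖g t' - Y ^ 2‖ < δ := by
    have h2 : Tendsto (fun t' => ‖g t' - Y ^ 2‖) (𝓝 t) (𝓝 0) := by
      have := ((hg.tendsto t).sub_const (Y ^ 2)).norm
      rwa [← h, sub_self, norm_zero] at this
    exact h2.eventually_lt_const hδ
  have h3 : ∀ᶠ t' in 𝓝 t, ‖t' - t‖ < η := by
    have h2 : Tendsto (fun t' => ‖t' - t‖) (𝓝 t) (𝓝 0) := by
      have := ((continuous_id.tendsto t).sub_const t).norm
      rwa [id, sub_self, norm_zero] at this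
    exact h2.eventually_lt_const hη
  have h4 : ∃ᶠ t' in 𝓝 t, t' ≠ 0 := by
    have := (dense_compl_singleton (0 : L)) t
    rwa [mem_closure_iff_frequently] at this
  obtain ⟨t', e1, e2, e3⟩ := (h4.and_eventually (h1.and h3)).exists
  obtain ⟨Y', e4, e5⟩ := hs _ e2
  exact ⟨t', Y', e1, e3, e4, e5⟩

section main

variable {K : Type*} [Field K] [CharZero K] {ι : Type*} [Fintype ι] {p : ι → ℕ}
  [hp : ∀ i, Fact (p i).Prime]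

/-- the diagonal embedding of the parameters -/
noncomputable def gT (σ : ∀ i, K →+* ℚ_[p i]) (τ : K →+* ℝ) (θ : K × (Fin 4 → K)) :
    (∀ i, ℚ_[p i] × (Fin 4 → ℚ_[p i])) × (ℝ × (Fin 4 → ℝ)) :=
  (fun i => (σ i θ.1, fun j => σ i (θ.2 j)), (τ θ.1, fun j => τ (θ.2 j)))

/-- the filter of the parameters close to a given one at all the places -/
noncomputable def lT (σ : ∀ i, K →+* ℚ_[p i]) (τ : K →+* ℝ) (θ₀ : K × (Fin 4 → K)) :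
    Filter (K × (Fin 4 → K)) := comap (gT σ τ) (𝓝 (gT σ τ θ₀))

variable {σ : ∀ i, K →+* ℚ_[p i]} {τ : K →+* ℝ} {θ₀ : K × (Fin 4 → K)}

lemma Tn_p (i : ι) : Tn (σ i) (lT σ τ θ₀) θ₀ := by
  have h0 : Tendsto (gT σ τ) (lT σ τ θ₀) (𝓝 (gT σ τ θ₀)) := tendsto_comap
  have h1 : Continuous fun e : (∀ i, ℚ_[p i] × (Fin 4 → ℚ_[p i])) × (ℝ × (Fin 4 → ℝ)) =>
      (e.1 i).1 := (continuous_fst.comp ((continuous_apply i).comp continuous_fst))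
  have h2 : ∀ j, Continuous fun e : (∀ i, ℚ_[p i] × (Fin 4 → ℚ_[p i])) × (ℝ × (Fin 4 → ℝ)) =>
      (e.1 i).2 j := fun j => (continuous_apply j).comp
        (continuous_snd.comp ((continuous_apply i).comp continuous_fst))
  exact ⟨(h1.tendsto _).comp h0, fun j => ((h2 j).tendsto _).comp h0⟩

lemma Tn_r : Tn τ (lT σ τ θ₀) θ₀ := by
  have h0 : Tendsto (gT σ τ) (lT σ τ θ₀) (𝓝 (gT σ τ θ₀)) := tendsto_comap
  have h1 : Continuous fun e : (∀ i, ℚ_[p i] × (Fin 4 → ℚ_[p i])) × (ℝ × (Fin 4 → ℝ)) =>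
      e.2.1 := continuous_fst.comp continuous_snd
  have h2 : ∀ j, Continuous fun e : (∀ i, ℚ_[p i] × (Fin 4 → ℚ_[p i])) × (ℝ × (Fin 4 → ℝ)) =>
      e.2.2 j := fun j => (continuous_apply j).comp (continuous_snd.comp continuous_snd)
  exact ⟨(h1.tendsto _).comp h0, fun j => ((h2 j).tendsto _).comp h0⟩

lemma lT_ev {Φ : K × (Fin 4 → K) → Prop} (h : ∀ᶠ θ in lT σ τ θ₀, Φ θ) :
    ∃ δ : ℝ, 0 < δ ∧ ∀ θ : K × (Fin 4 → K), (∀ i, ‖σ i θ.1 - σ i θ₀.1‖ < δ) →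
      (∀ i j, ‖σ i (θ.2 j) - σ i (θ₀.2 j)‖ < δ) → |τ θ.1 - τ θ₀.1| < δ →
      (∀ j, |τ (θ.2 j) - τ (θ₀.2 j)| < δ) → Φ θ := by
  obtain ⟨U, hU, hs⟩ := mem_comap.1 h
  obtain ⟨δ, hδ, hb⟩ := Metric.mem_nhds_iff.1 hU
  refine ⟨δ, hδ, fun θ h1 h2 h3 h4 => ?_⟩
  apply hs
  apply hb
  rw [Metric.mem_ball, Prod.dist_eq]
  refine max_lt ?_ ?_
  · rw [dist_pi_lt_iff hδ]
    intro i
    rw [Prod.dist_eq]
    refine max_lt ?_ ?_
    · rw [dist_eq_norm]; exact h1 i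
    · rw [dist_pi_lt_iff hδ]
      intro j
      rw [dist_eq_norm]; exact h2 i j
  · rw [Prod.dist_eq]
    refine max_lt ?_ ?_
    · rw [dist_eq_norm]; exact h3
    · rw [dist_pi_lt_iff hδ]
      intro j
      rw [dist_eq_norm]; exact h4 j

lemma fin_min {ι : Type*} [Finite ι] {f : ι → ℝ} (hf : ∀ i, 0 < f i) :
    ∃ δ : ℝ, 0 < δ ∧ ∀ i, δ ≤ f i := by
  have h1 : ∀ᶠ δ in 𝓝[>] (0 : ℝ), ∀ i, δ ≤ f i := by
    rw [Filter.eventually_all]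
    intro i
    have : ∀ᶠ δ in 𝓝 (0 : ℝ), δ < f i := eventually_lt_nhds (hf i)
    exact (this.filter_mono nhdsWithin_le_nhds).mono fun δ h => h.le
  obtain ⟨δ, h2, h3⟩ := (h1.and self_mem_nhdsWithin).exists
  exact ⟨δ, h3, h2⟩

/-- the value of a quartic polynomial -/
def qv {R : Type*} [CommRing R] (w : R) (q : Fin 4 → R) (t : R) : R :=
  w ^ 2 + q 0 * t + q 1 * t ^ 2 + q 2 * t ^ 3 + q 3 * t ^ 4

/-- **Rational points of a genus one curve close to a rational point, uniformly.** -/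
theorem lemE [DecidableEq K] [Nonempty ι] (hinj : Function.Injective p) (hw : θ₀.1 ≠ 0)
    (hD : dsc (tA θ₀) (tB θ₀) (tC θ₀) ≠ 0)
    (hS : ∀ h, ∀ n : ℕ, n ≠ 0 → n • (.some (tX θ₀) (tY θ₀) h :
      Pt (tA θ₀) (tB θ₀) (tC θ₀)) ≠ 0) :
    ∃ δ : ℝ, 0 < δ ∧ ∀ θ : K × (Fin 4 → K), (∀ i, ‖σ i θ.1 - σ i θ₀.1‖ < δ) →
      (∀ i j, ‖σ i (θ.2 j) - σ i (θ₀.2 j)‖ < δ) → |τ θ.1 - τ θ₀.1| < δ →
      (∀ j, |τ (θ.2 j) - τ (θ₀.2 j)| < δ) →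
      ∀ (t Y : ∀ i, ℚ_[p i]) (t' Y' : ℝ), (∀ i, ‖t i‖ < δ) → (∀ i, ‖Y i - σ i θ₀.1‖ < δ) →
      |t'| < δ → |Y' - τ θ₀.1| < δ →
      (∀ i, Y i ^ 2 = qv (σ i θ.1) (fun j => σ i (θ.2 j)) (t i)) →
      Y' ^ 2 = qv (τ θ.1) (fun j => τ (θ.2 j)) t' → ∀ η : ℝ, 0 < η →
      ∃ s Z : K, Z ^ 2 = qv θ.1 θ.2 s ∧ (∀ i, ‖σ i s - t i‖ < η ∧ ‖σ i Z - Y i‖ < η) ∧
        |τ s - t'| < η ∧ |τ Z - Y'| < η := by
  classical
  have hns := tns hw hD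
  have hinf := hS hns
  obtain ⟨N, hN, hNp, hNr⟩ := near_all hD (fun i => Bd_base (σ i) θ₀) (Bd_base τ θ₀) hinf
    (r := fun i => min (1 / (100 * CC (σ i) θ₀)) ‖(p i : ℚ_[p i])‖)
    (fun i => lt_min (Bd_base (σ i) θ₀).hρ norm_p_pos) (fun i => min_le_left _ _)
    (r' := 1 / (100 * CC τ θ₀) / 6) (div_pos (Bd_base τ θ₀).hρ (by norm_num))
  set S₀ : Pt (tA θ₀) (tB θ₀) (tC θ₀) := .some _ _ hns with hS₀
  set r : ι → ℝ := fun i => av (σ i) (TT (N • S₀)) with hr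
  have hrm : ∀ i, r i ≤ min (1 / (100 * CC (σ i) θ₀)) ‖(p i : ℚ_[p i])‖ := fun i => (hNp i).le
  have hr1 : ∀ i, r i ≤ 1 / (100 * CC (σ i) θ₀) := fun i => (hrm i).trans (min_le_left _ _)
  have hrp : ∀ i, r i ≤ ‖(p i : ℚ_[p i])‖ := fun i => (hrm i).trans (min_le_right _ _)
  have hr0 : ∀ i, 0 < r i := fun i => (av (σ i)).pos
    (TT_ne (Bd_base (σ i) θ₀) (min_le_left _ _) (hNp i) (hinf N hN))
  have ev1 : ∀ᶠ θ in lT σ τ θ₀, θ.1 ≠ 0 := Tn_r.ne hw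
  have ev2 : ∀ᶠ θ in lT σ τ θ₀, dsc (tA θ) (tB θ) (tC θ) ≠ 0 := Tn_r.dsc_ne hD
  have ev3 : ∀ᶠ θ in lT σ τ θ₀, ∀ i, Bd (av (σ i)) (tA θ) (tB θ) (tC θ)
      (CC (σ i) θ₀) (1 / (100 * CC (σ i) θ₀)) := eventually_all.2 fun i => (Tn_p i).Bd
  have ev4 : ∀ᶠ θ in lT σ τ θ₀, Bd (av τ) (tA θ) (tB θ) (tC θ)
      (CC τ θ₀) (1 / (100 * CC τ θ₀)) := Tn_r.Bd
  have ev5 := eventually_all.2 fun i => ev_p (σ := σ i) (l := lT σ τ θ₀) (Tn_p i) hw hns hinf hN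
    (min_le_left _ _) (hNp i)
  have ev6 := ev_r (σ := τ) (l := lT σ τ θ₀) Tn_r hw hns hinf hN hNr
  obtain ⟨δ₁, hδ₁, hb⟩ := lT_ev (ev1.and (ev2.and (ev3.and (ev4.and (ev5.and ev6)))))
  choose δp hδp hcp using fun i => conv (σ i) (w₀ := θ₀.1) (q₀ := θ₀.2) hw (hr0 i)
    (Bd_base (σ i) θ₀).hρ
  obtain ⟨δr, hδr, hcr⟩ := conv τ (w₀ := θ₀.1) (q₀ := θ₀.2) hw
    (div_pos (Bd_base τ θ₀).hρ (by norm_num : (0 : ℝ) < 12)) (Bd_base τ θ₀).hρ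
  obtain ⟨δ₂, hδ₂, hδ₂p⟩ := fin_min hδp
  obtain ⟨δ₃, hδ₃, hδ₃p⟩ := fin_min (f := fun i => ‖σ i θ₀.1‖) fun i =>
    norm_pos_iff.2 ((map_ne_zero (σ i)).2 hw)
  have hw' : 0 < |τ θ₀.1| := abs_pos.2 ((map_ne_zero τ).2 hw)
  set δ := min (min δ₁ δ₂) (min δ₃ (min δr |τ θ₀.1|)) with hδ
  have d1 : δ ≤ δ₁ := (min_le_left _ _).trans (min_le_left _ _)
  have d2 : δ ≤ δ₂ := (min_le_left _ _).trans (min_le_right _ _)
  have d3 : δ ≤ δ₃ := (min_le_right _ _).trans (min_le_left _ _)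
  have d4 : δ ≤ δr := (min_le_right _ _).trans ((min_le_right _ _).trans (min_le_left _ _))
  have d5 : δ ≤ |τ θ₀.1| := (min_le_right _ _).trans ((min_le_right _ _).trans (min_le_right _ _))
  refine ⟨δ, lt_min (lt_min hδ₁ hδ₂) (lt_min hδ₃ (lt_min hδr hw')), ?_⟩
  intro θ h1 h2 h3 h4 t Y t' Y' ht hY ht' hY' he he' η hη
  obtain ⟨g1, g2, g3, g4, g5, g6⟩ := hb θ (fun i => (h1 i).trans_le d1)
    (fun i j => (h2 i j).trans_le d1) (h3.trans_le d1) (fun j => (h4 j).trans_le d1)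
  have hnsθ := tns g1 g2
  -- the targets are moved away from zero
  have hp1 : ∀ i, ∃ s Z : ℚ_[p i], s ≠ 0 ∧ ‖s‖ < δ ∧ ‖Z - σ i θ₀.1‖ < δ ∧ ‖s - t i‖ < η / 2 ∧
      ‖Z - Y i‖ < η / 2 ∧ Z ^ 2 = qv (σ i θ.1) (fun j => σ i (θ.2 j)) s := by
    intro i
    have hYne : Y i ≠ 0 := by
      intro h0
      have := hY i
      rw [h0, zero_sub, norm_neg] at this
      exact absurd (this.trans_le (d3.trans (hδ₃p i))) (lt_irrefl _)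
    obtain ⟨s, Z, k1, k2, k3, k4⟩ := perturb (g := qv (σ i θ.1) (fun j => σ i (θ.2 j)))
      (by unfold qv; fun_prop) (he i) hYne
      (η := min (η / 2) (min (δ - ‖t i‖) (δ - ‖Y i - σ i θ₀.1‖)))
      (lt_min (half_pos hη) (lt_min (sub_pos.2 (ht i)) (sub_pos.2 (hY i))))
    have k5 := k2.trans_le (min_le_left _ _)
    have k6 := k3.trans_le (min_le_left _ _)
    have k7 := k2.trans_le ((min_le_right _ _).trans (min_le_left _ _))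
    have k8 := k3.trans_le ((min_le_right _ _).trans (min_le_right _ _))
    refine ⟨s, Z, k1, ?_, ?_, k5, k6, k4⟩
    · have : ‖s‖ ≤ ‖s - t i‖ + ‖t i‖ := by
        have := norm_add_le (s - t i) (t i)
        rwa [sub_add_cancel] at this
      linarith
    · have : ‖Z - σ i θ₀.1‖ ≤ ‖Z - Y i‖ + ‖Y i - σ i θ₀.1‖ := by
        have := norm_add_le (Z - Y i) (Y i - σ i θ₀.1)
        rwa [sub_add_sub_cancel] at this
      linarith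
  obtain ⟨s', Z', m1, m2, m3, m4, m5, m6⟩ : ∃ s Z : ℝ, s ≠ 0 ∧ |s| < δ ∧ |Z - τ θ₀.1| < δ ∧
      |s - t'| < η / 2 ∧ |Z - Y'| < η / 2 ∧ Z ^ 2 = qv (τ θ.1) (fun j => τ (θ.2 j)) s := by
    have hYne : Y' ≠ 0 := by
      intro h0
      have := hY'
      rw [h0, zero_sub, abs_neg] at this
      exact absurd (this.trans_le d5) (lt_irrefl _)
    obtain ⟨s, Z, k1, k2, k3, k4⟩ := perturb (g := qv (τ θ.1) (fun j => τ (θ.2 j)))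
      (by unfold qv; fun_prop) he' hYne
      (η := min (η / 2) (min (δ - |t'|) (δ - |Y' - τ θ₀.1|)))
      (lt_min (half_pos hη) (lt_min (sub_pos.2 ht') (sub_pos.2 hY')))
    rw [Real.norm_eq_abs] at k2 k3
    have k5 := k2.trans_le (min_le_left _ _)
    have k6 := k3.trans_le (min_le_left _ _)
    have k7 := k2.trans_le ((min_le_right _ _).trans (min_le_left _ _))
    have k8 := k3.trans_le ((min_le_right _ _).trans (min_le_right _ _))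
    refine ⟨s, Z, k1, ?_, ?_, k5, k6, k4⟩
    · have : |s| ≤ |s - t'| + |t'| := by
        have := abs_add_le (s - t') t'
        rwa [sub_add_cancel] at this
      linarith
    · have : |Z - τ θ₀.1| ≤ |Z - Y'| + |Y' - τ θ₀.1| := by
        have := abs_add_le (Z - Y') (Y' - τ θ₀.1)
        rwa [sub_add_sub_cancel] at this
      linarith
  choose s Z n1 n2 n3 n4 n5 n6 using hp1
  -- the points of the resolvents
  have hx1 : ∀ i, ∃ x y : ℚ_[p i], y ^ 2 = x ^ 3 + σ i (θ.2 1) * x ^ 2 +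
      rb (σ i θ.1) (σ i (θ.2 0)) (σ i (θ.2 2)) (σ i (θ.2 3)) * x +
      rc (σ i θ.1) (σ i (θ.2 0)) (σ i (θ.2 1)) (σ i (θ.2 2)) (σ i (θ.2 3)) ∧ x ≠ 0 ∧ y ≠ 0 ∧
      ‖x / y‖ ≤ r i ∧ ‖1 / y‖ ≤ 1 / (100 * CC (σ i) θ₀) ∧
      Df (σ i θ.1) (σ i (θ.2 0)) (σ i (θ.2 2)) x y ≠ 0 ∧
      s i = tf (σ i θ.1) (σ i (θ.2 0)) (σ i (θ.2 1)) (σ i (θ.2 2)) x y ∧
      Z i = Yf (σ i θ.1) (σ i (θ.2 0)) (σ i (θ.2 1)) (σ i (θ.2 2)) x y := fun i =>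
    (hcp i θ.1 θ.2 ((h1 i).trans_le (d2.trans (hδ₂p i)))
      (fun j => (h2 i j).trans_le (d2.trans (hδ₂p i))) (s i) (Z i) (n1 i)
      ((n2 i).trans_le (d2.trans (hδ₂p i))) ((n3 i).trans_le (d2.trans (hδ₂p i))) (n6 i)).2
  choose x y c1 c0 c2 c3 c4 c5 c6 c7 using hx1
  obtain ⟨x', y', b1, b0, b2, b3, b4, b5, b6, b7⟩ := (hcr θ.1 θ.2 (h3.trans_le d4)
    (fun j => (h4 j).trans_le d4) s' Z' m1 (m2.trans_le d4) (m3.trans_le d4) m6).2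
  choose ηp hηp hcc using fun i => conv_cont (σ i) (w := θ.1) (q₁ := θ.2 0) (q₂ := θ.2 1)
    (q₃ := θ.2 2) (q₄ := θ.2 3) (g3 i) g1 (c1 i) (c2 i) ((c3 i).trans (hr1 i)) (c4 i) (c5 i)
    (half_pos hη)
  have hρ' := (Bd_base τ θ₀).hρ
  obtain ⟨ηr, hηr, hccr⟩ := conv_cont τ (w := θ.1) (q₁ := θ.2 0) (q₂ := θ.2 1)
    (q₃ := θ.2 2) (q₄ := θ.2 3) g4 g1 b1 b2 (b3.trans (by linarith)) b4 b5 (half_pos hη)
  obtain ⟨η₁, hη₁, hη₁p⟩ := fin_min hηp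
  have hxy' : 0 < |x' / y'| := abs_pos.2 (div_ne_zero b0 b2)
  set ηη := min η₁ (min ηr |x' / y'|) with hηη
  have hηη0 : 0 < ηη := lt_min hη₁ (lt_min hηr hxy')
  -- the multiple
  set R := N • (.some _ _ hnsθ : Pt (tA θ) (tB θ) (tC θ)) with hR
  have hRi : ∀ n : ℕ, n ≠ 0 → n • R ≠ 0 := by
    obtain ⟨i⟩ := ‹Nonempty ι›
    exact U7 (g3 i) (hr1 i) (hr0 i) (hrp i) (g5 i hnsθ).1 (g5 i hnsθ).2
  obtain ⟨n, hn1, hn2, hn3⟩ := fill_all (σ := σ) (τ := τ) hinj g2 g3 g4 hRi hr0 hr1 hrp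
    (fun i => (g5 i hnsθ).1) (fun i => (g5 i hnsθ).2) (g6 hnsθ) (fun i => x i / y i) c3 (x' / y')
    (by rw [← Real.norm_eq_abs]; exact b3) hηη0
  have hTT : TT (n • R) ≠ 0 := by
    intro h0
    rw [h0, map_zero, zero_sub, abs_neg] at hn3
    exact absurd (hn3.trans_le ((min_le_right _ _).trans (min_le_right _ _))) (lt_irrefl _)
  revert hn1 hn2 hn3 hTT
  generalize n • R = Q
  intro hn1 hn2 hn3 hTT
  rcases Q with _ | ⟨X, W, hQ⟩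
  · exact absurd rfl hTT
  have hXW := (cv_ns.1 hQ).1
  simp only [TT_some] at hn1 hn3
  obtain ⟨hW, -, -⟩ := (Nb_some hQ).1 hn2
  have hA : ∀ i, _ := fun i => hcc i X W hXW hW
    (((Nb_some hQ).1 (hn1 i).1).2.1.trans (hr1 i)) ((Nb_some hQ).1 (hn1 i).1).2.2
    ((hn1 i).2.trans_le ((min_le_left _ _).trans (hη₁p i)))
  obtain ⟨hB1, hB2, hB3⟩ := hccr X W hXW hW
    (((Nb_some hQ).1 hn2).2.1.trans (by linarith)) ((Nb_some hQ).1 hn2).2.2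
    (hn3.trans_le ((min_le_right _ _).trans (min_le_left _ _)))
  refine ⟨tf θ.1 (θ.2 0) (θ.2 1) (θ.2 2) X W, Yf θ.1 (θ.2 0) (θ.2 1) (θ.2 2) X W,
    Yf_eqn g1 hXW hB1, fun i => ⟨?_, ?_⟩, ?_, ?_⟩
  · obtain ⟨-, a2, a3⟩ := hA i
    rw [← c6 i] at a2
    have := norm_sub_le_norm_sub_add_norm_sub (σ i (tf θ.1 (θ.2 0) (θ.2 1) (θ.2 2) X W)) (s i) (t i)
    have := n4 i
    linarith
  · obtain ⟨-, a2, a3⟩ := hA i
    rw [← c7 i] at a3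
    have := norm_sub_le_norm_sub_add_norm_sub (σ i (Yf θ.1 (θ.2 0) (θ.2 1) (θ.2 2) X W)) (Z i) (Y i)
    have := n5 i
    linarith
  · rw [← b6, Real.norm_eq_abs] at hB2
    have := abs_sub_le (τ (tf θ.1 (θ.2 0) (θ.2 1) (θ.2 2) X W)) s' t'
    linarith
  · rw [← b7, Real.norm_eq_abs] at hB3
    have := abs_sub_le (τ (Yf θ.1 (θ.2 0) (θ.2 1) (θ.2 2) X W)) Z' Y'
    linarith

end main

end Pool.Agent.Y720.MZ
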