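import Pool.Agent.Y720.MZ.Quar

/-!
# The group law close to the origin, for an arbitrary absolute value (helper720)
-/

set_option autoImplicit false
set_option linter.unusedVariables false

open WeierstrassCurve

namespace Pool.Agent.Y720.MZ

section alg

variable {K : Type*} [Field K] (v : AbsoluteValue K ℝ)

/-- coefficients bounded by `C`, and a radius `ρ` -/
structure Bd (a b c : K) (C ρ : ℝ) : Prop where
  hC : 1 ≤ C
  ha : v a ≤ C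
  hb : v b ≤ C
  hc : v c ≤ C
  hρ : 0 < ρ
  hCρ : 100 * C * ρ ≤ 1

variable {v} {a b c : K} {C ρ : ℝ}

lemma Bd.ρ_le (h : Bd v a b c C ρ) : ρ ≤ 1 / 100 := by
  have h1 := h.hC; have h2 := h.hρ; have h3 := h.hCρ
  nlinarith

lemma Bd.Cρ_le (h : Bd v a b c C ρ) : C * ρ ≤ 1 / 100 := by
  have h3 := h.hCρ
  nlinarith

/-- `v (1 + x) ≥ 1/2` -/
lemma half_le {x : K} (h : v x ≤ 1 / 2) : 1 / 2 ≤ v (1 - x) := by
  have := v.add_le (1 - x) x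
  rw [sub_add_cancel, v.map_one] at this
  linarith

lemma le_of_mul {x y : K} {r : ℝ} (hy : 1 / 2 ≤ v y) (h : v (x * y) ≤ r) : v x ≤ 2 * r := by
  rw [map_mul] at h
  have := v.nonneg x
  nlinarith

/-- the ordinate is small -/
lemma s_small (h : Bd v a b c C ρ) {t s : K} (ht : v t ≤ ρ) (hs : v s ≤ ρ)
    (he : s = t ^ 3 + a * t ^ 2 * s + b * t * s ^ 2 + c * s ^ 3) : v s ≤ 2 * v t ^ 3 := by
  have hC := h.hC; have hρ := h.hρ; have h1 := h.ρ_le; have h2 := h.Cρ_le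
  have ht0 := v.nonneg t
  have hs0 := v.nonneg s
  have ha := h.ha; have hb := h.hb; have hc := h.hc
  have ha0 := v.nonneg a; have hb0 := v.nonneg b; have hc0 := v.nonneg c
  have e : s * (1 - (a * t ^ 2 + b * t * s + c * s ^ 2)) = t ^ 3 := by linear_combination he
  have hx : v (a * t ^ 2 + b * t * s + c * s ^ 2) ≤ 1 / 2 := by
    refine (v.add_le _ _).trans ?_
    refine (add_le_add_left (v.add_le _ _) _).trans ?_
    simp only [map_mul, map_pow]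
    have e1 : v a * v t ^ 2 ≤ C * ρ ^ 2 := by gcongr
    have e2 : v b * v t * v s ≤ C * ρ * ρ := by gcongr
    have e3 : v c * v s ^ 2 ≤ C * ρ ^ 2 := by gcongr
    nlinarith
  refine le_of_mul (half_le hx) ?_
  rw [e, map_pow]

/-- the key factor -/
lemma fac_le (h : Bd v a b c C ρ) {t₁ t₂ s₁ s₂ : K} (ht1 : v t₁ ≤ ρ) (ht2 : v t₂ ≤ ρ)
    (hs1 : v s₁ ≤ ρ) (hs2 : v s₂ ≤ ρ) :
    v (a * t₂ ^ 2 + b * t₂ * (s₁ + s₂) + c * (s₁ ^ 2 + s₁ * s₂ + s₂ ^ 2)) ≤ 1 / 2 := by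
  have hC := h.hC; have hρ := h.hρ; have h1 := h.ρ_le; have h2 := h.Cρ_le
  have q1 := v.nonneg t₁
  have q2 := v.nonneg t₂
  have q3 := v.nonneg s₁
  have q4 := v.nonneg s₂
  have ha := h.ha; have hb := h.hb; have hc := h.hc
  have ha0 := v.nonneg a; have hb0 := v.nonneg b; have hc0 := v.nonneg c
  refine (v.add_le _ _).trans ?_
  refine (add_le_add_left (v.add_le _ _) _).trans ?_
  simp only [map_mul, map_pow]
  have e0 : v (s₁ + s₂) ≤ ρ + ρ := (v.add_le _ _).trans (add_le_add hs1 hs2)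
  have e4 : v (s₁ ^ 2 + s₁ * s₂ + s₂ ^ 2) ≤ ρ ^ 2 + ρ * ρ + ρ ^ 2 := by
    refine (v.add_le _ _).trans (add_le_add ((v.add_le _ _).trans (add_le_add ?_ ?_)) ?_)
    · rw [map_pow]; gcongr
    · rw [map_mul]; gcongr
    · rw [map_pow]; gcongr
  have e1 : v a * v t₂ ^ 2 ≤ C * ρ ^ 2 := by gcongr
  have e2 : v b * v t₂ * v (s₁ + s₂) ≤ C * ρ * (ρ + ρ) := by
    have := v.nonneg (s₁ + s₂)
    gcongr
  have e3 : v c * v (s₁ ^ 2 + s₁ * s₂ + s₂ ^ 2) ≤ C * (ρ ^ 2 + ρ * ρ + ρ ^ 2) := by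
    have := v.nonneg (s₁ ^ 2 + s₁ * s₂ + s₂ ^ 2)
    gcongr
  have e5 : C * ρ * ρ ≤ 1 / 100 * (1 / 100) := by gcongr
  nlinarith

lemma hid {t₁ t₂ s₁ s₂ : K}
    (h1 : s₁ = t₁ ^ 3 + a * t₁ ^ 2 * s₁ + b * t₁ * s₁ ^ 2 + c * s₁ ^ 3)
    (h2 : s₂ = t₂ ^ 3 + a * t₂ ^ 2 * s₂ + b * t₂ * s₂ ^ 2 + c * s₂ ^ 3) :
    (s₁ - s₂) * (1 - (a * t₂ ^ 2 + b * t₂ * (s₁ + s₂) + c * (s₁ ^ 2 + s₁ * s₂ + s₂ ^ 2))) =
      (t₁ - t₂) * (t₁ ^ 2 + t₁ * t₂ + t₂ ^ 2 + a * (t₁ + t₂) * s₁ + b * s₁ ^ 2) := by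
  linear_combination h1 - h2

/-- the ordinate is determined by the parameter -/
lemma s_unique (h : Bd v a b c C ρ) {t s₁ s₂ : K} (ht : v t ≤ ρ) (hs1 : v s₁ ≤ ρ)
    (hs2 : v s₂ ≤ ρ) (h1 : s₁ = t ^ 3 + a * t ^ 2 * s₁ + b * t * s₁ ^ 2 + c * s₁ ^ 3)
    (h2 : s₂ = t ^ 3 + a * t ^ 2 * s₂ + b * t * s₂ ^ 2 + c * s₂ ^ 3) : s₁ = s₂ := by
  have h3 := hid h1 h2
  rw [sub_self, zero_mul] at h3
  have h4 := half_le (fac_le h ht ht hs1 hs2)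
  rcases mul_eq_zero.1 h3 with h5 | h5
  · exact sub_eq_zero.1 h5
  · rw [h5, map_zero] at h4
    norm_num at h4

/-- the numerator of the slope -/
lemma num_le (h : Bd v a b c C ρ) {t₁ t₂ s : K} {r : ℝ} (hr : r ≤ ρ) (ht1 : v t₁ ≤ r)
    (ht2 : v t₂ ≤ r) (hs : v s ≤ 2 * r ^ 3) :
    v (t₁ ^ 2 + t₁ * t₂ + t₂ ^ 2 + a * (t₁ + t₂) * s + b * s ^ 2) ≤ 7 / 2 * r ^ 2 := by
  have hC := h.hC; have hρ := h.hρ; have h1 := h.ρ_le; have h2 := h.Cρ_le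
  have q1 := v.nonneg t₁
  have q2 := v.nonneg t₂
  have q3 := v.nonneg s
  have hr0 : 0 ≤ r := q1.trans ht1
  have ha := h.ha; have hb := h.hb
  have ha0 := v.nonneg a; have hb0 := v.nonneg b
  have e0 : v (t₁ + t₂) ≤ r + r := (v.add_le _ _).trans (add_le_add ht1 ht2)
  have e1 : v (t₁ ^ 2) ≤ r ^ 2 := by rw [map_pow]; gcongr
  have e2 : v (t₁ * t₂) ≤ r * r := by rw [map_mul]; gcongr
  have e3 : v (t₂ ^ 2) ≤ r ^ 2 := by rw [map_pow]; gcongr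
  have e4 : v (a * (t₁ + t₂) * s) ≤ C * (r + r) * (2 * r ^ 3) := by
    rw [map_mul, map_mul]
    have := v.nonneg (t₁ + t₂)
    gcongr
  have e5 : v (b * s ^ 2) ≤ C * (2 * r ^ 3) ^ 2 := by
    rw [map_mul, map_pow]; gcongr
  have e6 : v (t₁ ^ 2 + t₁ * t₂ + t₂ ^ 2 + a * (t₁ + t₂) * s + b * s ^ 2) ≤
      r ^ 2 + r * r + r ^ 2 + C * (r + r) * (2 * r ^ 3) + C * (2 * r ^ 3) ^ 2 :=
    (v.add_le _ _).trans (add_le_add ((v.add_le _ _).trans (add_le_add ((v.add_le _ _).trans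
      (add_le_add ((v.add_le _ _).trans (add_le_add e1 e2)) e3)) e4)) e5)
  refine e6.trans ?_
  have hCr : C * r ≤ 1 / 100 := (mul_le_mul_of_nonneg_left hr (by linarith)).trans h2
  have hr1 : r ≤ 1 / 100 := hr.trans h1
  have k1 : C * (r + r) * (2 * r ^ 3) = 4 * (C * r) * r * r ^ 2 := by ring
  have k2 : C * (2 * r ^ 3) ^ 2 = 4 * (C * r) * r ^ 3 * r ^ 2 := by ring
  have k3 : 4 * (C * r) * r ≤ 4 * (1 / 100) * (1 / 100) := by gcongr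
  have k4 : 4 * (C * r) * r ^ 3 ≤ 4 * (1 / 100) * (1 / 100) ^ 3 := by gcongr
  have hr2 : 0 ≤ r ^ 2 := sq_nonneg r
  rw [k1, k2]
  nlinarith

/-- the product of the parameters -/
lemma prod_par {x₁ x₂ x₃ ℓ ν : K} (E1 : x₁ + x₂ + x₃ = ℓ ^ 2 - a)
    (E2 : x₁ * x₂ + x₁ * x₃ + x₂ * x₃ = b - 2 * ℓ * ν) (E3 : x₁ * x₂ * x₃ = ν ^ 2 - c)
    (hν : ν ≠ 0) (h1 : ℓ * x₁ + ν ≠ 0) (h2 : ℓ * x₂ + ν ≠ 0) (h3 : ℓ * x₃ + ν ≠ 0) :
    (1 + a * (-ℓ / ν) + b * (-ℓ / ν) ^ 2 + c * (-ℓ / ν) ^ 3) *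
      (x₁ / (ℓ * x₁ + ν) * (x₂ / (ℓ * x₂ + ν)) * (x₃ / (ℓ * x₃ + ν))) =
      1 / ν * (1 - c * (1 / ν) ^ 2) := by
  have e1 : (ℓ * x₁ + ν) * (ℓ * x₂ + ν) * (ℓ * x₃ + ν) =
      ν ^ 3 - a * ℓ * ν ^ 2 + b * ℓ ^ 2 * ν - c * ℓ ^ 3 := by
    linear_combination ℓ ^ 3 * E3 + ℓ ^ 2 * ν * E2 + ℓ * ν ^ 2 * E1
  have e2 : (1 + a * (-ℓ / ν) + b * (-ℓ / ν) ^ 2 + c * (-ℓ / ν) ^ 3) =
      (ν ^ 3 - a * ℓ * ν ^ 2 + b * ℓ ^ 2 * ν - c * ℓ ^ 3) / ν ^ 3 := by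
    field_simp
    ring
  have hne := mul_ne_zero (mul_ne_zero h1 h2) h3
  rw [e2, ← e1, div_mul_div_comm, div_mul_div_comm, E3]
  generalize (ℓ * x₁ + ν) * (ℓ * x₂ + ν) * (ℓ * x₃ + ν) = Y at hne ⊢
  field_simp

/-- the third point of a line -/
lemma third_near (h : Bd v a b c C ρ) {x₁ x₂ x₃ ℓ ν : K} (E1 : x₁ + x₂ + x₃ = ℓ ^ 2 - a)
    (E2 : x₁ * x₂ + x₁ * x₃ + x₂ * x₃ = b - 2 * ℓ * ν) (E3 : x₁ * x₂ * x₃ = ν ^ 2 - c)
    {r : ℝ} (hr : r ≤ ρ) (hν : ν ≠ 0) (hlam : v (-ℓ / ν) ≤ 7 * r ^ 2)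
    (hmu : v (1 / ν) ≤ 9 * r ^ 3) (h1 : ℓ * x₁ + ν ≠ 0) (h2 : ℓ * x₂ + ν ≠ 0)
    (ht1 : v (x₁ / (ℓ * x₁ + ν)) ≤ r) (ht2 : v (x₂ / (ℓ * x₂ + ν)) ≤ r) :
    ℓ * x₃ + ν ≠ 0 ∧ v (1 / (ℓ * x₃ + ν)) ≤ ρ ∧
      v (x₃ / (ℓ * x₃ + ν) + x₁ / (ℓ * x₁ + ν) + x₂ / (ℓ * x₂ + ν)) ≤
        1 / 2 * (v (x₁ / (ℓ * x₁ + ν)) * v (x₂ / (ℓ * x₂ + ν))) := by
  have hC := h.hC; have hρ := h.hρ; have h1' := h.ρ_le; have h2' := h.Cρ_le
  have ha := h.ha; have hb := h.hb; have hc := h.hc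
  have ha0 := v.nonneg a; have hb0 := v.nonneg b; have hc0 := v.nonneg c
  have hr0 : 0 ≤ r := (v.nonneg _).trans ht1
  have hr1 : r ≤ 1 / 100 := hr.trans h1'
  have hCr : C * r ≤ 1 / 100 := (mul_le_mul_of_nonneg_left hr (by linarith)).trans h2'
  have hCr0 : 0 ≤ C * r := by positivity
  set l := -ℓ / ν with hl
  set m := 1 / ν with hm
  have hl0 := v.nonneg l
  have hm0 := v.nonneg m
  have hr2 : 0 ≤ r ^ 2 := sq_nonneg r
  have hr2' : r ^ 2 ≤ 1 / 100 * r := by nlinarith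
  have hr2'' : r ^ 2 ≤ 1 / 10000 := by nlinarith
  have hl1 : v l ≤ 1 / 100 := by nlinarith
  have hCl : C * v l ≤ 1 / 100 := by
    have : C * v l ≤ C * (7 * r ^ 2) := by gcongr
    nlinarith
  have hCl0 : 0 ≤ C * v l := by positivity
  -- the denominator
  have hx : v (-(a * l + b * l ^ 2 + c * l ^ 3)) ≤ 1 / 10 := by
    rw [v.map_neg]
    have e1 : v (a * l) ≤ C * v l := by rw [map_mul]; gcongr
    have e2 : v (b * l ^ 2) ≤ C * v l ^ 2 := by rw [map_mul, map_pow]; gcongr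
    have e3 : v (c * l ^ 3) ≤ C * v l ^ 3 := by rw [map_mul, map_pow]; gcongr
    have e4 : v (a * l + b * l ^ 2 + c * l ^ 3) ≤ C * v l + C * v l ^ 2 + C * v l ^ 3 :=
      (v.add_le _ _).trans (add_le_add ((v.add_le _ _).trans (add_le_add e1 e2)) e3)
    have e5 : C * v l ^ 2 = (C * v l) * v l := by ring
    have e6 : C * v l ^ 3 = (C * v l) * v l * v l := by ring
    have e7 : (C * v l) * v l ≤ 1 / 100 * (1 / 100) := by gcongr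
    have e8 : (C * v l) * v l * v l ≤ 1 / 100 * (1 / 100) * (1 / 100) := by gcongr
    linarith
  set D := 1 + a * l + b * l ^ 2 + c * l ^ 3 with hD
  have hDe : D = 1 - -(a * l + b * l ^ 2 + c * l ^ 3) := by rw [hD]; ring
  have hDlo : 1 / 2 ≤ v D := by rw [hDe]; exact half_le (hx.trans (by norm_num))
  have hDhi : v D ≤ 3 / 2 := by
    have : v D ≤ v 1 + v (a * l + b * l ^ 2 + c * l ^ 3) := by
      rw [hD, show 1 + a * l + b * l ^ 2 + c * l ^ 3 = 1 + (a * l + b * l ^ 2 + c * l ^ 3) by ring]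
      exact v.add_le _ _
    rw [v.map_neg] at hx
    rw [v.map_one] at this
    linarith
  have hD0 : D ≠ 0 := by
    intro h0
    rw [h0, map_zero] at hDlo
    norm_num at hDlo
  obtain ⟨h3, h4⟩ := line_sum E1 E2 E3 hν h1 h2 hD0
  -- the error
  have hF : v (a + 2 * b * l + 3 * c * l ^ 2) ≤ 11 / 10 * C := by
    have v2 : v (2 : K) ≤ 2 := by
      have := v.add_le 1 1
      rw [v.map_one, one_add_one_eq_two] at this
      linarith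
    have v3 : v (3 : K) ≤ 3 := by
      have := v.add_le 2 1
      rw [v.map_one, show (2 : K) + 1 = 3 by norm_num] at this
      linarith
    have e1 : v (2 * b * l) ≤ 2 * (C * v l) := by
      rw [map_mul, map_mul]
      calc v 2 * v b * v l ≤ 2 * C * v l := by gcongr
        _ = 2 * (C * v l) := by ring
    have e2 : v (3 * c * l ^ 2) ≤ 3 * (C * v l * v l) := by
      rw [map_mul, map_mul, map_pow]
      calc v 3 * v c * v l ^ 2 ≤ 3 * C * v l ^ 2 := by gcongr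
        _ = 3 * (C * v l * v l) := by ring
    have e3 : C * v l * v l ≤ 1 / 100 * (1 / 100) := by gcongr
    have e4 : v (a + 2 * b * l + 3 * c * l ^ 2) ≤ C + 2 * (C * v l) + 3 * (C * v l * v l) :=
      (v.add_le _ _).trans (add_le_add ((v.add_le _ _).trans (add_le_add ha e1)) e2)
    nlinarith
  set t₁ := x₁ / (ℓ * x₁ + ν) with ht₁
  set t₂ := x₂ / (ℓ * x₂ + ν) with ht₂
  set t₃ := x₃ / (ℓ * x₃ + ν) with ht₃
  have h4' : t₃ = -t₁ - t₂ - (a * m + 2 * b * l * m + 3 * c * l ^ 2 * m) / D := h4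
  have h5 : (t₃ + t₁ + t₂) * D = -(m * (a + 2 * b * l + 3 * c * l ^ 2)) := by
    rw [h4', show -t₁ - t₂ - (a * m + 2 * b * l * m + 3 * c * l ^ 2 * m) / D + t₁ + t₂ =
      -((a * m + 2 * b * l * m + 3 * c * l ^ 2 * m) / D) by ring, neg_mul,
      div_mul_cancel₀ _ hD0]
    ring
  have herr : v (t₃ + t₁ + t₂) ≤ 2 * (v m * (11 / 10 * C)) := by
    refine le_of_mul hDlo ?_
    rw [h5, v.map_neg, map_mul]
    gcongr
  -- the first bound for `t₃`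
  have ht3 : v t₃ ≤ 3 * r := by
    have e1 : t₃ = (t₃ + t₁ + t₂) + -t₁ + -t₂ := by ring
    have e2 : v t₃ ≤ v (t₃ + t₁ + t₂) + v (-t₁) + v (-t₂) := by
      conv_lhs => rw [e1]
      exact (v.add_le _ _).trans (add_le_add_left (v.add_le _ _) _)
    rw [v.map_neg, v.map_neg] at e2
    have e3 : v m * (11 / 10 * C) ≤ 9 * r ^ 3 * (11 / 10 * C) := by gcongr
    have e4 : 9 * r ^ 3 * (11 / 10 * C) = 99 / 10 * (C * r) * r * r := by ring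
    have e5 : 99 / 10 * (C * r) * r * r ≤ 99 / 10 * (1 / 100) * (1 / 100) * r := by gcongr
    nlinarith
  -- the product of the parameters
  have hprod : D * (t₁ * t₂ * t₃) = m * (1 - c * m ^ 2) := prod_par E1 E2 E3 hν h1 h2 h3
  have hcm : v (c * m ^ 2) ≤ 1 / 2 := by
    rw [map_mul, map_pow]
    have e1 : v c * v m ^ 2 ≤ C * (9 * r ^ 3) ^ 2 := by gcongr
    have e2 : C * (9 * r ^ 3) ^ 2 = 81 * (C * r) * r ^ 5 := by ring
    have e3 : 81 * (C * r) * r ^ 5 ≤ 81 * (1 / 100) * (1 / 100) ^ 5 := by gcongr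
    linarith
  have hm2 : v m ≤ 9 * r * (v t₁ * v t₂) := by
    have e1 : v m ≤ 2 * v (D * (t₁ * t₂ * t₃)) := le_of_mul (half_le hcm) (by rw [← hprod])
    have e2 : v (D * (t₁ * t₂ * t₃)) ≤ 3 / 2 * (v t₁ * v t₂ * (3 * r)) := by
      rw [map_mul, map_mul, map_mul]
      have q1 := v.nonneg t₁
      have q2 := v.nonneg t₂
      have q3 := v.nonneg t₃
      gcongr
    calc v m ≤ 2 * v (D * (t₁ * t₂ * t₃)) := e1
      _ ≤ 2 * (3 / 2 * (v t₁ * v t₂ * (3 * r))) := by gcongr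
      _ = 9 * r * (v t₁ * v t₂) := by ring
  refine ⟨h3, ?_, ?_⟩
  · -- the ordinate
    have h8 : 1 / (ℓ * x₃ + ν) = l * t₃ + m := by
      rw [hl, hm, ht₃]
      field_simp
      ring
    rw [h8]
    have e1 : v (l * t₃ + m) ≤ 7 * r ^ 2 * (3 * r) + 9 * r ^ 3 := by
      refine (v.add_le _ _).trans (add_le_add ?_ hmu)
      rw [map_mul]
      have := v.nonneg t₃
      gcongr
    refine e1.trans ?_
    have e2 : 7 * r ^ 2 * (3 * r) + 9 * r ^ 3 = 30 * r ^ 2 * r := by ring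
    have e4 : 30 * r ^ 2 ≤ 1 := by linarith
    have e3 : 30 * r ^ 2 * r ≤ 1 * r := mul_le_mul_of_nonneg_right e4 hr0
    linarith
  · refine herr.trans ?_
    have q : 0 ≤ v t₁ * v t₂ := mul_nonneg (v.nonneg _) (v.nonneg _)
    have e1 : v m * (11 / 10 * C) ≤ 9 * r * (v t₁ * v t₂) * (11 / 10 * C) := by gcongr
    have e2 : 9 * r * (v t₁ * v t₂) * (11 / 10 * C) = 99 / 10 * (C * r) * (v t₁ * v t₂) := by ring
    have e3 : 99 / 10 * (C * r) * (v t₁ * v t₂) ≤ 99 / 10 * (1 / 100) * (v t₁ * v t₂) := by gcongr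
    linarith

end alg

end Pool.Agent.Y720.MZ
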