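import Pool.Agent.Y720.WA.Na

/-!
# The group law close to the origin, for an arbitrary absolute value, second part (helper720)
-/

set_option autoImplicit false
set_option linter.unusedVariables false

open WeierstrassCurve

namespace Pool.Agent.Y720.MZ

section alg

variable {K : Type*} [Field K] {v : AbsoluteValue K ℝ} {a b c : K} {C ρ : ℝ}

lemma chord_near (h : Bd v a b c C ρ) {x₁ x₂ y₁ y₂ ℓ ν : K} {r : ℝ} (hr : r ≤ ρ)
    (hy1' : y₁ ≠ 0) (hy2' : y₂ ≠ 0) (hx : x₁ ≠ x₂)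
    (h1 : y₁ ^ 2 = x₁ ^ 3 + a * x₁ ^ 2 + b * x₁ + c)
    (h2 : y₂ ^ 2 = x₂ ^ 3 + a * x₂ ^ 2 + b * x₂ + c) (hy1 : y₁ = ℓ * x₁ + ν)
    (hy2 : y₂ = ℓ * x₂ + ν) (ht1 : v (x₁ / y₁) ≤ r) (ht2 : v (x₂ / y₂) ≤ r)
    (hs1 : v (1 / y₁) ≤ ρ) (hs2 : v (1 / y₂) ≤ ρ) :
    ν ≠ 0 ∧ v (-ℓ / ν) ≤ 7 * r ^ 2 ∧ v (1 / ν) ≤ 9 * r ^ 3 := by
  have hr0 : 0 ≤ r := (v.nonneg _).trans ht1
  have q1 := ts_eqn hy1' h1
  have q2 := ts_eqn hy2' h2
  have e1 : x₁ / y₁ * y₁ = x₁ := div_mul_cancel₀ _ hy1'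
  have e1' : (1 / y₁) * y₁ = 1 := one_div_mul_cancel hy1'
  have e2' : (1 / y₂) * y₂ = 1 := one_div_mul_cancel hy2'
  have e2 : x₂ / y₂ * y₂ = x₂ := div_mul_cancel₀ _ hy2'
  have u1 : x₁ = (x₁ / y₁) / (1 / y₁) := by field_simp
  have u2 : x₂ = (x₂ / y₂) / (1 / y₂) := by field_simp
  set t₁ := x₁ / y₁ with ht₁
  set t₂ := x₂ / y₂ with ht₂
  set s₁ := 1 / y₁ with hs₁
  set s₂ := 1 / y₂ with hs₂
  have ht : t₁ ≠ t₂ := by
    intro h0
    apply hx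
    rw [u1, u2]
    have : s₁ = s₂ := s_unique h (ht1.trans hr) hs1 hs2 q1 (by
      have := q2
      rw [← h0] at this
      exact this)
    rw [h0, this]
  have w1 := s_small h (ht1.trans hr) hs1 q1
  have w1' : v s₁ ≤ 2 * r ^ 3 := w1.trans (by
    have := v.nonneg t₁
    gcongr)
  have hid' := hid q1 q2
  have hfac := half_le (fac_le h (ht1.trans hr) (ht2.trans hr) hs1 hs2)
  have hnum := num_le h (t₁ := t₁) (t₂ := t₂) (s := s₁) hr ht1 ht2 w1'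
  set F := 1 - (a * t₂ ^ 2 + b * t₂ * (s₁ + s₂) + c * (s₁ ^ 2 + s₁ * s₂ + s₂ ^ 2)) with hF
  set G := t₁ ^ 2 + t₁ * t₂ + t₂ ^ 2 + a * (t₁ + t₂) * s₁ + b * s₁ ^ 2 with hG
  have ht12 : t₁ - t₂ ≠ 0 := sub_ne_zero.2 ht
  set l := (s₁ - s₂) / (t₁ - t₂) with hl
  have hl' : l * (t₁ - t₂) = s₁ - s₂ := div_mul_cancel₀ _ ht12
  have hlF : l * F = G := by
    apply mul_left_cancel₀ ht12
    linear_combination hid' + F * hl'
  have hlv : v l ≤ 7 * r ^ 2 := by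
    have := le_of_mul hfac (x := l) (r := 7 / 2 * r ^ 2) (by rw [hlF]; exact hnum)
    linarith
  have hmv : v (s₁ - l * t₁) ≤ 9 * r ^ 3 := by
    have e3 : v (s₁ - l * t₁) ≤ v s₁ + v (l * t₁) := by
      rw [sub_eq_add_neg]
      exact (v.add_le _ _).trans (by rw [v.map_neg])
    rw [map_mul] at e3
    have e4 : v l * v t₁ ≤ 7 * r ^ 2 * r := by
      have := v.nonneg t₁
      gcongr
    calc v (s₁ - l * t₁) ≤ v s₁ + v l * v t₁ := e3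
      _ ≤ 2 * r ^ 3 + 7 * r ^ 2 * r := add_le_add w1' e4
      _ = 9 * r ^ 3 := by ring
  set m := s₁ - l * t₁ with hm
  have k1 : l * x₁ + m * y₁ = 1 := by
    rw [hm]; linear_combination e1' - l * e1
  have k2 : l * x₂ + m * y₂ = 1 := by
    have : m = s₂ - l * t₂ := by rw [hm]; linear_combination -hl'
    rw [this]; linear_combination e2' - l * e2
  -- `ν = 1 / m`
  have k3 : m * ν = 1 := by
    have hx' : x₁ - x₂ ≠ 0 := sub_ne_zero.2 hx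
    have k4 : l + m * ℓ = 0 := by
      apply (mul_eq_zero.1 (?_ : (x₁ - x₂) * (l + m * ℓ) = 0)).resolve_left hx'
      rw [hy1] at k1
      rw [hy2] at k2
      linear_combination k1 - k2
    rw [hy1] at k1
    linear_combination k1 - x₁ * k4
  have hν : ν ≠ 0 := by
    rintro rfl
    rw [mul_zero] at k3
    exact zero_ne_one k3
  have hm' : 1 / ν = m := by rw [div_eq_iff hν]; exact k3.symm
  have hl'' : -ℓ / ν = l := by
    have k4 : l + m * ℓ = 0 := by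
      have hx' : x₁ - x₂ ≠ 0 := sub_ne_zero.2 hx
      apply (mul_eq_zero.1 (?_ : (x₁ - x₂) * (l + m * ℓ) = 0)).resolve_left hx'
      rw [hy1] at k1
      rw [hy2] at k2
      linear_combination k1 - k2
    rw [div_eq_iff hν]
    linear_combination -ν * k4 + ℓ * k3
  exact ⟨hν, by rw [hl'']; exact hlv, by rw [hm']; exact hmv⟩

lemma tangent_near [CharZero K] (h : Bd v a b c C ρ) {x y ℓ ν : K} {r : ℝ} (hr : r ≤ ρ)
    (hy' : y ≠ 0) (h1 : y ^ 2 = x ^ 3 + a * x ^ 2 + b * x + c) (hy1 : y = ℓ * x + ν)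
    (hℓ : ℓ * (2 * y) = 3 * x ^ 2 + 2 * a * x + b) (ht1 : v (x / y) ≤ r)
    (hs1 : v (1 / y) ≤ ρ) :
    ν ≠ 0 ∧ v (-ℓ / ν) ≤ 7 * r ^ 2 ∧ v (1 / ν) ≤ 9 * r ^ 3 := by
  have hr0 : 0 ≤ r := (v.nonneg _).trans ht1
  have q1 := ts_eqn hy' h1
  have w1 := s_small h (ht1.trans hr) hs1 q1
  have w1' : v (1 / y) ≤ 2 * r ^ 3 := w1.trans (by
    have := v.nonneg (x / y)
    gcongr)
  have hfac := half_le (fac_le h (ht1.trans hr) (ht1.trans hr) hs1 hs1)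
  have hnum := num_le h (t₁ := x / y) (t₂ := x / y) (s := 1 / y) hr ht1 ht1 w1'
  set F := 1 - (a * (x / y) ^ 2 + b * (x / y) * (1 / y + 1 / y) +
    c * ((1 / y) ^ 2 + 1 / y * (1 / y) + (1 / y) ^ 2)) with hF
  set G := (x / y) ^ 2 + x / y * (x / y) + (x / y) ^ 2 + a * (x / y + x / y) * (1 / y) +
    b * (1 / y) ^ 2 with hG
  have hF0 : F ≠ 0 := by
    intro h0
    rw [h0, map_zero] at hfac
    norm_num at hfac
  have eF : F * y ^ 2 = -(2 * y * ν) := by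
    have e1 : F * y ^ 2 = y ^ 2 - a * x ^ 2 - 2 * b * x - 3 * c := by
      rw [hF]; field_simp; ring
    rw [e1]
    have e2 : ν = y - ℓ * x := by rw [hy1]; ring
    rw [e2]
    linear_combination 3 * h1 - x * hℓ
  have eG : G * y ^ 2 = 2 * y * ℓ := by
    have e1 : G * y ^ 2 = 3 * x ^ 2 + 2 * a * x + b := by
      rw [hG]; field_simp; ring
    rw [e1, ← hℓ]
    ring
  have hν : ν ≠ 0 := by
    rintro rfl
    rw [mul_zero, neg_zero] at eF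
    exact mul_ne_zero hF0 (pow_ne_zero 2 hy') eF
  have hlF : -ℓ / ν * F = G := by
    apply mul_right_cancel₀ (pow_ne_zero 2 hy')
    rw [mul_assoc, eF, eG]
    field_simp
  have hlv : v (-ℓ / ν) ≤ 7 * r ^ 2 := by
    have := le_of_mul hfac (x := -ℓ / ν) (r := 7 / 2 * r ^ 2) (by rw [hlF]; exact hnum)
    linarith
  have hm : 1 / ν = 1 / y - (-ℓ / ν) * (x / y) := by
    have e2 : y = ℓ * x + ν := hy1
    field_simp
    rw [e2]; ring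
  refine ⟨hν, hlv, ?_⟩
  rw [hm]
  have e3 : v (1 / y - (-ℓ / ν) * (x / y)) ≤ v (1 / y) + v (-ℓ / ν) * v (x / y) := by
    rw [sub_eq_add_neg, ← map_mul]
    exact (v.add_le _ _).trans (by rw [v.map_neg])
  have e4 : v (-ℓ / ν) * v (x / y) ≤ 7 * r ^ 2 * r := by
    have := v.nonneg (x / y)
    gcongr
  calc v (1 / y - (-ℓ / ν) * (x / y)) ≤ v (1 / y) + v (-ℓ / ν) * v (x / y) := e3
    _ ≤ 2 * r ^ 3 + 7 * r ^ 2 * r := add_le_add w1' e4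
    _ = 9 * r ^ 3 := by ring

end alg

section points

variable {K : Type*} [Field K] [CharZero K] [DecidableEq K] {v : AbsoluteValue K ℝ} {a b c : K}
  {C ρ : ℝ}

/-- the parameter of a point -/
def TT {a b c : K} (P : Pt a b c) : K :=
  match P with
  | .zero => 0
  | .some x y _ => x / y

/-- points close to the origin -/
def Nb (v : AbsoluteValue K ℝ) (ρ r : ℝ) {a b c : K} (P : Pt a b c) : Prop :=
  match P with
  | .zero => 0 ≤ r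
  | .some x y _ => y ≠ 0 ∧ v (x / y) ≤ r ∧ v (1 / y) ≤ ρ

omit [CharZero K] [DecidableEq K] in
@[simp] lemma TT_zero : TT (0 : Pt a b c) = 0 := rfl

omit [CharZero K] [DecidableEq K] in
@[simp] lemma TT_some {x y : K} (h : (cv a b c).toAffine.Nonsingular x y) :
    TT (.some x y h : Pt a b c) = x / y := rfl

omit [CharZero K] [DecidableEq K] in
lemma Nb_zero {r : ℝ} (hr : 0 ≤ r) : Nb v ρ r (0 : Pt a b c) := hr

omit [CharZero K] [DecidableEq K] in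
lemma Nb_some {r : ℝ} {x y : K} (h : (cv a b c).toAffine.Nonsingular x y) :
    Nb v ρ r (.some x y h : Pt a b c) ↔ y ≠ 0 ∧ v (x / y) ≤ r ∧ v (1 / y) ≤ ρ := Iff.rfl

omit [CharZero K] [DecidableEq K] in
lemma Nb.le {r : ℝ} {P : Pt a b c} (h : Nb v ρ r P) : v (TT P) ≤ r := by
  rcases P with _ | ⟨x, y, h'⟩
  · change v 0 ≤ r
    rw [map_zero]; exact h
  · exact h.2.1

omit [CharZero K] [DecidableEq K] in
lemma Nb.mono {r r' : ℝ} {P : Pt a b c} (h : Nb v ρ r P) (hr : v (TT P) ≤ r') : Nb v ρ r' P := by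
  rcases P with _ | ⟨x, y, h'⟩
  · exact (v.nonneg _).trans hr
  · exact ⟨h.1, hr, h.2.2⟩

omit [CharZero K] in
lemma TT_neg (P : Pt a b c) : TT (-P) = -TT P := by
  rcases P with _ | ⟨x, y, h⟩
  · change TT (-0) = -TT (0 : Pt a b c)
    rw [neg_zero, TT_zero, neg_zero]
  · obtain ⟨h', e⟩ := neg_mk h
    rw [e, TT_some, TT_some, div_neg]

omit [CharZero K] in
lemma Nb.neg {r : ℝ} {P : Pt a b c} (h : Nb v ρ r P) : Nb v ρ r (-P) := by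
  rcases P with _ | ⟨x, y, h'⟩
  · change Nb v ρ r (-0)
    rw [neg_zero]; exact h
  · obtain ⟨h'', e⟩ := neg_mk h'
    rw [e, Nb_some]
    refine ⟨neg_ne_zero.2 h.1, ?_, ?_⟩
    · rw [div_neg, v.map_neg]; exact h.2.1
    · rw [div_neg, v.map_neg]; exact h.2.2

/-- **Near-additivity.** -/
theorem add_near (hB : Bd v a b c C ρ) {P Q : Pt a b c} {r : ℝ} (hr : r ≤ ρ)
    (hP : Nb v ρ r P) (hQ : Nb v ρ r Q) :
    Nb v ρ (3 * r) (P + Q) ∧ v (TT (P + Q) - TT P - TT Q) ≤ 1 / 2 * (v (TT P) * v (TT Q)) := by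
  have hr0 : 0 ≤ r := (v.nonneg _).trans hP.le
  suffices h : Nb v ρ (v (TT (P + Q))) (P + Q) ∧
      v (TT (P + Q) - TT P - TT Q) ≤ 1 / 2 * (v (TT P) * v (TT Q)) by
    refine ⟨h.1.mono ?_, h.2⟩
    have e1 : TT (P + Q) = (TT (P + Q) - TT P - TT Q) + TT P + TT Q := by ring
    have e2 : v (TT (P + Q)) ≤ v (TT (P + Q) - TT P - TT Q) + v (TT P) + v (TT Q) := by
      conv_lhs => rw [e1]
      exact (v.add_le _ _).trans (add_le_add_left (v.add_le _ _) _)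
    have e3 : v (TT P) * v (TT Q) ≤ r * r := by
      have := v.nonneg (TT Q)
      have h1 := hP.le
      have h2 := hQ.le
      gcongr
    have h4 := hB.ρ_le
    have h5 := hP.le
    have h6 := hQ.le
    have h7 := h.2
    nlinarith
  rcases P with _ | ⟨x₁, y₁, h₁⟩
  · change Nb v ρ _ (0 + Q) ∧ v (TT (0 + Q) - TT (0 : Pt a b c) - TT Q) ≤ _
    rw [zero_add]
    refine ⟨hQ.mono le_rfl, ?_⟩
    rw [TT_zero, sub_zero, sub_self, map_zero]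
    exact mul_nonneg (by norm_num) (mul_nonneg (v.nonneg _) (v.nonneg _))
  rcases Q with _ | ⟨x₂, y₂, h₂⟩
  · change Nb v ρ _ ((.some x₁ y₁ h₁ : Pt a b c) + 0) ∧
      v (TT ((.some x₁ y₁ h₁ : Pt a b c) + 0) - TT (.some x₁ y₁ h₁ : Pt a b c) -
        TT (0 : Pt a b c)) ≤ _
    rw [add_zero]
    refine ⟨hP.mono le_rfl, ?_⟩
    rw [TT_zero, sub_zero, sub_self, map_zero]
    exact mul_nonneg (by norm_num) (mul_nonneg (v.nonneg _) (v.nonneg _))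
  obtain ⟨hy1, ht1, hs1⟩ := (Nb_some h₁).1 hP
  obtain ⟨hy2, ht2, hs2⟩ := (Nb_some h₂).1 hQ
  -- the conclusion from the third point
  have concl : ∀ (ℓ ν x₃ : K) (y₃ : K) (h₃ : (cv a b c).toAffine.Nonsingular x₃ y₃),
      (.some x₁ y₁ h₁ : Pt a b c) + .some x₂ y₂ h₂ = .some x₃ y₃ h₃ → y₃ = -(ℓ * x₃ + ν) →
      y₁ = ℓ * x₁ + ν → y₂ = ℓ * x₂ + ν → x₁ + x₂ + x₃ = ℓ ^ 2 - a →
      x₁ * x₂ + x₁ * x₃ + x₂ * x₃ = b - 2 * ℓ * ν → x₁ * x₂ * x₃ = ν ^ 2 - c → ν ≠ 0 →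
      v (-ℓ / ν) ≤ 7 * r ^ 2 → v (1 / ν) ≤ 9 * r ^ 3 →
      Nb v ρ (v (TT ((.some x₁ y₁ h₁ : Pt a b c) + .some x₂ y₂ h₂)))
        ((.some x₁ y₁ h₁ : Pt a b c) + .some x₂ y₂ h₂) ∧
      v (TT ((.some x₁ y₁ h₁ : Pt a b c) + .some x₂ y₂ h₂) - TT (.some x₁ y₁ h₁ : Pt a b c) -
        TT (.some x₂ y₂ h₂ : Pt a b c)) ≤
        1 / 2 * (v (TT (.some x₁ y₁ h₁ : Pt a b c)) * v (TT (.some x₂ y₂ h₂ : Pt a b c))) := by
    intro ℓ ν x₃ y₃ h₃ hadd hy3 hy1e hy2e E1 E2 E3 hν hl hm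
    rw [hadd]
    simp only [TT_some]
    obtain ⟨k1, k2, k3⟩ := third_near hB E1 E2 E3 hr hν hl hm (by rw [← hy1e]; exact hy1)
      (by rw [← hy2e]; exact hy2) (by rw [← hy1e]; exact ht1) (by rw [← hy2e]; exact ht2)
    refine ⟨(Nb_some h₃).2 ⟨by rw [hy3]; exact neg_ne_zero.2 k1, le_rfl, ?_⟩, ?_⟩
    · rw [hy3, div_neg, v.map_neg]; exact k2
    · rw [← hy1e, ← hy2e] at k3
      rw [hy3, div_neg]
      have e : -(x₃ / (ℓ * x₃ + ν)) - x₁ / y₁ - x₂ / y₂ =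
          -(x₃ / (ℓ * x₃ + ν) + x₁ / y₁ + x₂ / y₂) := by ring
      rw [e, v.map_neg]
      exact k3
  by_cases hx : x₁ = x₂
  · subst hx
    rcases eq_or_neg h₁ h₂ with e | e
    · -- doubling
      rw [Affine.Point.some.injEq] at e
      obtain ⟨-, rfl⟩ := e
      have hy2' : 2 * y₁ ≠ 0 := mul_ne_zero two_ne_zero hy1
      have heq := (cv_ns.1 h₁).1
      obtain ⟨h₃, hadd⟩ := dbl_mk h₁ hy2' (ℓ := (3 * x₁ ^ 2 + 2 * a * x₁ + b) / (2 * y₁))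
        (div_mul_cancel₀ _ hy2')
      set ℓ := (3 * x₁ ^ 2 + 2 * a * x₁ + b) / (2 * y₁) with hℓ
      have hℓ' : ℓ * (2 * y₁) = 3 * x₁ ^ 2 + 2 * a * x₁ + b := div_mul_cancel₀ _ hy2'
      have hy1e : y₁ = ℓ * x₁ + (y₁ - ℓ * x₁) := by ring
      obtain ⟨v1, v2⟩ := vieta_tangent heq hy1e hℓ'
      obtain ⟨b0, b1, b2⟩ := tangent_near hB hr hy1 heq hy1e hℓ' ht1 hs1
      exact concl ℓ (y₁ - ℓ * x₁) _ _ h₃ hadd (by ring) hy1e hy1e (by ring) v1 v2 b0 b1 b2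
    · -- opposite points
      have e1 : (.some x₁ y₁ h₁ : Pt a b c) + .some x₁ y₂ h₂ = 0 := by
        rw [e, neg_add_cancel]
      have e2 : TT (.some x₁ y₁ h₁ : Pt a b c) = -TT (.some x₁ y₂ h₂ : Pt a b c) := by
        rw [e, TT_neg]
      rw [e1]
      refine ⟨Nb_zero (v.nonneg _), ?_⟩
      rw [e2, TT_zero, zero_sub, neg_neg, sub_self, map_zero]
      exact mul_nonneg (by norm_num) (mul_nonneg (v.nonneg _) (v.nonneg _))
  · have heq1 := (cv_ns.1 h₁).1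
    have heq2 := (cv_ns.1 h₂).1
    obtain ⟨h₃, hadd⟩ := add_mk h₁ h₂ hx (ℓ := (y₁ - y₂) / (x₁ - x₂))
      (div_mul_cancel₀ _ (sub_ne_zero.2 hx))
    set ℓ := (y₁ - y₂) / (x₁ - x₂) with hℓ
    have hℓ' : ℓ * (x₁ - x₂) = y₁ - y₂ := div_mul_cancel₀ _ (sub_ne_zero.2 hx)
    have hy1e : y₁ = ℓ * x₁ + (y₁ - ℓ * x₁) := by ring
    have hy2e : y₂ = ℓ * x₂ + (y₁ - ℓ * x₁) := by linear_combination hℓ'
    obtain ⟨v1, v2⟩ := vieta_chord hx heq1 heq2 hy1e hy2e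
    obtain ⟨b0, b1, b2⟩ := chord_near hB hr hy1 hy2 hx heq1 heq2 hy1e hy2e ht1 ht2 hs1 hs2
    exact concl ℓ (y₁ - ℓ * x₁) _ _ h₃ hadd (by ring) hy1e hy2e (by ring) v1 v2 b0 b1 b2

end points

end Pool.Agent.Y720.MZ
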