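import Pool.Agent.Y720.WA.Via

/-!
# Points of infinite order in a second direction (helper720)
-/

set_option autoImplicit false
set_option linter.unusedVariables false
set_option linter.unusedSectionVars false

open WeierstrassCurve Filter Topology

namespace Pool.Agent.Y720.MZ

section gk

variable {K : Type*} [Field K] [CharZero K] {α : Type*} [Fintype α]

/-- the coefficients of the restrictions to the lines with the direction `e`, as polynomials -/
noncomputable def gk (f : MvPolynomial α K) (e : α → K) (k : ℕ) : MvPolynomial α K :=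
  (MvPolynomial.aeval (fun i => Polynomial.C (MvPolynomial.X i) +
    Polynomial.C (MvPolynomial.C (e i)) * Polynomial.X) f : Polynomial (MvPolynomial α K)).coeff k

lemma gk_eval (f : MvPolynomial α K) (z e : α → K) (k : ℕ) :
    MvPolynomial.eval z (gk f e k) = (rst f z e).coeff k := by
  have h : Polynomial.map (MvPolynomial.eval z) (MvPolynomial.aeval (fun i =>
      Polynomial.C (MvPolynomial.X i) + Polynomial.C (MvPolynomial.C (e i)) * Polynomial.X) f :
      Polynomial (MvPolynomial α K)) = rst f z e := by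
    induction f using MvPolynomial.induction_on with
    | C a =>
      simp only [rst, MvPolynomial.aeval_C]
      change Polynomial.map (MvPolynomial.eval z) (Polynomial.C (MvPolynomial.C a)) =
        Polynomial.C a
      rw [Polynomial.map_C, MvPolynomial.eval_C]
    | add p q hp hq =>
      simp only [rst, map_add, Polynomial.map_add] at *
      rw [hp, hq]
    | mul_X p i hp =>
      simp only [rst, map_mul, Polynomial.map_mul, MvPolynomial.aeval_X] at *
      rw [hp]
      simp
  rw [← h, Polynomial.coeff_map]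
  rfl

lemma gk_one [DecidableEq α] (f : MvPolynomial α K) (e : α → K) : gk f e 1 = dd f e := by
  have : Infinite K := CharZero.infinite K
  apply MvPolynomial.funext
  intro z
  have h1 : (Polynomial.derivative (rst f z e)).coeff 0 = (rst f z e).coeff 1 := by
    rw [Polynomial.coeff_derivative]; simp
  rw [gk_eval, ← h1, rst_deriv, Polynomial.coeff_zero_eq_eval_zero, rst_eval, zero_smul, add_zero]

/-- the coefficients along a line, as polynomials -/
lemma gk_line (f : MvPolynomial α K) (zP v e : α → K) (j : Fin 4) (u : K) :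
    (rst (gk f e ((j : ℕ) + 1)) zP v).eval u = cq f (fun a => zP a + u * v a) e j := by
  rw [rst_eval, gk_eval]
  have : (zP + u • v) = fun a => zP a + u * v a := by funext a; simp
  rw [this]
  rfl

lemma aeval_rst {M : Type*} [Field M] [Algebra K M] (f : MvPolynomial α K) (z v : α → K) (s : M) :
    Polynomial.aeval s (rst f z v) =
      MvPolynomial.aeval (fun a => algebraMap K M (z a) + s * algebraMap K M (v a)) f := by
  induction f using MvPolynomial.induction_on with
  | C a => simp [rst]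
  | add p q hp hq => simp only [rst, map_add] at *; rw [hp, hq]
  | mul_X p i hp =>
    simp only [rst, map_mul, MvPolynomial.aeval_X] at *
    rw [hp]
    simp
    left
    ring

end gk

section nt

variable {K : Type*} [Field K] [CharZero K] [DecidableEq K] {ι : Type*} [Finite ι] {p : ι → ℕ}
  [hp : ∀ i, Fact (p i).Prime] {σ : ∀ i, K →+* ℚ_[p i]} {τ : K →+* ℝ}
  {α : Type*} [Fintype α] [DecidableEq α]

/-- the data of a direction at a point -/
noncomputable def th (f : MvPolynomial α K) (e z : α → K) (w : K) : K × (Fin 4 → K) :=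
  (w, cq f z e)

/-- the difference of the two points has infinite order in the direction `e` -/
def IO (f : MvPolynomial α K) (e z : α → K) (w : K) : Prop :=
  dsc (tA (th f e z w)) (tB (th f e z w)) (tC (th f e z w)) ≠ 0 ∧
    ∀ h, ∀ n : ℕ, n ≠ 0 → n • (.some (tX (th f e z w)) (tY (th f e z w)) h :
      Pt (tA (th f e z w)) (tB (th f e z w)) (tC (th f e z w))) ≠ 0

/-- the discriminant in the direction `e` -/
noncomputable def Tq (f : MvPolynomial α K) (e z : α → K) : K :=
  dsc (cq f z e 1) (cq f z e 0 * cq f z e 2 - 4 * MvPolynomial.eval z f * cq f z e 3)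
    (cq f z e 0 ^ 2 * cq f z e 3 + MvPolynomial.eval z f * cq f z e 2 ^ 2 -
      4 * MvPolynomial.eval z f * cq f z e 1 * cq f z e 3)

lemma Tq_eq {f : MvPolynomial α K} {e z : α → K} {w : K} (h : onX f z w) :
    dsc (tA (th f e z w)) (tB (th f e z w)) (tC (th f e z w)) = Tq f e z := by
  unfold onX at h
  simp only [tA, tB, tC, th, rb, rc, Tq, ← h]

/-- **A second direction.** -/
theorem nontor_near [Nonempty ι] {f : MvPolynomial α K} {v e zP : α → K} {wP : K}
    (hP : onX f zP wP) (hw : wP ≠ 0) (hv : Ml (sv σ τ) f v zP wP)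
    {M : Type*} [Field M] [Algebra K M] {s₀ : M}
    (h0 : MvPolynomial.aeval (fun a => algebraMap K M (zP a) + s₀ * algebraMap K M (v a)) f = 0)
    (h1 : MvPolynomial.aeval (fun a => algebraMap K M (zP a) + s₀ * algebraMap K M (v a))
      (dd f v) ≠ 0)
    (h2 : MvPolynomial.aeval (fun a => algebraMap K M (zP a) + s₀ * algebraMap K M (v a))
      (dd f e) ≠ 0)
    (hT : ∃ u : K, Tq f e (fun a => zP a + u * v a) ≠ 0) {δ : ℝ} (hδ : 0 < δ) :
    ∃ u Z : K, onX f (fun a => zP a + u * v a) Z ∧ Z ≠ 0 ∧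
      (∀ v', ‖sv σ τ v' u‖ < δ ∧ ‖sv σ τ v' Z - sv σ τ v' wP‖ < δ) ∧
      IO f e (fun a => zP a + u * v a) Z := by
  classical
  -- the polynomials
  set W : Polynomial K := rst f zP v with hW
  set Q : Fin 4 → Polynomial K := fun j => rst (gk f e ((j : ℕ) + 1)) zP v with hQ
  have hWe : ∀ u, W.eval u = MvPolynomial.eval (fun a => zP a + u * v a) f := by
    intro u
    rw [hW, rst_eval]
    congr 1
  have hQe : ∀ j u, (Q j).eval u = cq f (fun a => zP a + u * v a) e j := fun j u =>
    gk_line f zP v e j u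
  set A : Polynomial K := Q 1 with hA
  set B : Polynomial K := Q 0 * Q 2 - 4 * W * Q 3 with hB
  set C : Polynomial K := Q 0 ^ 2 * Q 3 + W * Q 2 ^ 2 - 4 * W * Q 1 * Q 3 with hC
  set N : Polynomial K := Q 0 ^ 2 - 4 * W * Q 1 with hN
  have hW0 : Polynomial.aeval s₀ W = 0 := by rw [hW, aeval_rst]; exact h0
  have hW1 : Polynomial.aeval s₀ (Polynomial.derivative W) ≠ 0 := by
    rw [hW, rst_deriv, aeval_rst]; exact h1
  have hN0 : Polynomial.aeval s₀ N ≠ 0 := by
    have e1 : Polynomial.aeval s₀ (Q 0) ≠ 0 := by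
      rw [hQ]
      dsimp only
      have : ((0 : Fin 4) : ℕ) + 1 = 1 := rfl
      rw [this, gk_one, aeval_rst]
      exact h2
    rw [hN, map_sub, map_mul, map_mul, hW0, map_pow, mul_zero, zero_mul, sub_zero]
    exact pow_ne_zero 2 e1
  have hTe : ∀ u, Tq f e (fun a => zP a + u * v a) = (dsc A B C).eval u := by
    intro u
    have h3 : (dsc A B C).eval u = dsc (A.eval u) (B.eval u) (C.eval u) := by
      simp only [dsc, Polynomial.eval_sub, Polynomial.eval_add, Polynomial.eval_mul,
        Polynomial.eval_pow, Polynomial.eval_ofNat]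
    rw [h3, hA, hB, hC]
    simp only [Polynomial.eval_sub, Polynomial.eval_add, Polynomial.eval_mul,
        Polynomial.eval_pow, Polynomial.eval_ofNat, hQe, hWe, Tq]
  have hAe : ∀ u Z, tA (th f e (fun a => zP a + u * v a) Z) = A.eval u := by
    intro u Z
    rw [hA, hQe]; rfl
  have hBe : ∀ u Z, onX f (fun a => zP a + u * v a) Z →
      tB (th f e (fun a => zP a + u * v a) Z) = B.eval u := by
    intro u Z hZ
    simp only [hB, Polynomial.eval_sub, Polynomial.eval_mul, Polynomial.eval_ofNat, hQe, hWe,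
      ← (show Z ^ 2 = MvPolynomial.eval (fun a => zP a + u * v a) f from hZ)]
    rfl
  have hCe : ∀ u Z, onX f (fun a => zP a + u * v a) Z →
      tC (th f e (fun a => zP a + u * v a) Z) = C.eval u := by
    intro u Z hZ
    simp only [hC, Polynomial.eval_sub, Polynomial.eval_add, Polynomial.eval_mul,
      Polynomial.eval_pow, Polynomial.eval_ofNat, hQe, hWe,
      ← (show Z ^ 2 = MvPolynomial.eval (fun a => zP a + u * v a) f from hZ)]
    rfl
  have hT0 : dsc A B C ≠ 0 := by
    obtain ⟨u, hu⟩ := hT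
    intro h
    rw [hTe, h, Polynomial.eval_zero] at hu
    exact hu rfl
  have hWne : W ≠ 0 := by
    intro h
    apply hW1
    rw [h, Polynomial.derivative_zero, map_zero]
  -- the first point
  obtain ⟨δ₀, hδ₀, havoid⟩ := hv.avoid hP
  have hfinT : {u : K | (dsc A B C).eval u = 0}.Finite := Polynomial.finite_setOf_isRoot hT0
  have hfinW : {u : K | W.eval u = 0}.Finite := Polynomial.finite_setOf_isRoot hWne
  have hNV : Nonempty (Option ι) := ⟨none⟩
  obtain ⟨u₁, Z₁, hZ1, hn1, hu1⟩ := havoid 0 wP (by simpa using hP) hw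
    (fun v' => ⟨by rw [map_zero, norm_zero]; exact hδ₀, by rw [sub_self, norm_zero]; exact hδ₀⟩)
    ({u : K | (dsc A B C).eval u = 0} ∪ {u : K | W.eval u = 0}) (hfinT.union hfinW)
    (min (δ / 2) δ₀) (lt_min (half_pos hδ) hδ₀)
  have hu1' := hu1 hNV
  rw [Set.mem_union, not_or] at hu1'
  have hZ10 : Z₁ ≠ 0 := by
    intro h
    apply hu1'.2
    change W.eval u₁ = 0
    rw [hWe, ← hZ1, h, zero_pow two_ne_zero]
  -- the uniform bound
  let Θ := {θ : K × K // onX f (fun a => zP a + θ.1 * v a) θ.2 ∧ θ.2 ≠ 0 ∧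
    (dsc A B C).eval θ.1 ≠ 0}
  let i₀ : ι := Classical.arbitrary ι
  let l : Filter Θ := comap (fun θ : Θ => σ i₀ θ.1.1) (𝓝 (σ i₀ u₁))
  have hl : Tendsto (fun θ : Θ => σ i₀ θ.1.1) l (𝓝 (σ i₀ u₁)) := tendsto_comap
  have hpoly : ∀ P : Polynomial K, Tendsto (fun θ : Θ => σ i₀ (P.eval θ.1.1)) l
      (𝓝 (σ i₀ (P.eval u₁))) := by
    intro P
    have h3 : ∀ u, σ i₀ (P.eval u) = (P.map (σ i₀)).eval (σ i₀ u) := by
      intro u; rw [Polynomial.eval_map, Polynomial.eval₂_hom]
    simp only [h3]
    exact ((P.map (σ i₀)).continuous.tendsto _).comp hl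
  have hns : ∀ θ : Θ, (cv (A.eval θ.1.1) (B.eval θ.1.1) (C.eval θ.1.1)).toAffine.Nonsingular
      (tX (th f e (fun a => zP a + θ.1.1 * v a) θ.1.2))
      (tY (th f e (fun a => zP a + θ.1.1 * v a) θ.1.2)) := by
    intro θ
    obtain ⟨k1, k2, k3⟩ := θ.2
    have h4 := tns (θ := th f e (fun a => zP a + θ.1.1 * v a) θ.1.2) k2 (by
      rw [Tq_eq k1, hTe]; exact k3)
    have e1 := hAe θ.1.1 θ.1.2
    have e2 := hBe θ.1.1 θ.1.2 k1
    have e3 := hCe θ.1.1 θ.1.2 k1
    rw [e1, e2, e3] at h4
    exact h4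
  obtain ⟨m, hm⟩ := tor_bound (σ i₀) (l := l) (a := fun θ : Θ => A.eval θ.1.1)
    (b := fun θ => B.eval θ.1.1) (c := fun θ => C.eval θ.1.1) (hpoly A) (hpoly B) (hpoly C) (by
      have h3 : dsc (σ i₀ (A.eval u₁)) (σ i₀ (B.eval u₁)) (σ i₀ (C.eval u₁)) =
          σ i₀ ((dsc A B C).eval u₁) := by
        rw [← map_dsc]
        congr 1
        simp only [dsc, Polynomial.eval_sub, Polynomial.eval_add, Polynomial.eval_mul,
          Polynomial.eval_pow, Polynomial.eval_ofNat]
      rw [h3]
      exact (map_ne_zero (σ i₀)).2 hu1'.1) (fun θ => .some _ _ (hns θ))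
  obtain ⟨S, hS, hSm⟩ := mem_comap.1 hm
  obtain ⟨ε, hε, hball⟩ := Metric.mem_nhds_iff.1 hS
  -- the second point
  have hfinB := itd_finite (a := A) (b := B) (c := C) hW0 hW1 hN0 m
  obtain ⟨u, Z, hZ, hn, hu⟩ := havoid u₁ Z₁ hZ1 hZ10 (fun v' => ⟨by
      have := (hn1 v').1
      rw [map_zero, sub_zero] at this
      exact this.trans_le (min_le_right _ _), (hn1 v').2.trans_le (min_le_right _ _)⟩) _
    (hfinB.union (hfinT.union hfinW)) (min (δ / 2) ε) (lt_min (half_pos hδ) hε)
  have hu' := hu hNV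
  rw [Set.mem_union, Set.mem_union, not_or, not_or] at hu'
  obtain ⟨g1, g2, g3⟩ := hu'
  have g1' := not_not.1 g1
  have hZ0 : Z ≠ 0 := by
    intro h
    apply g3
    change W.eval u = 0
    rw [hWe, ← hZ, h, zero_pow two_ne_zero]
  refine ⟨u, Z, hZ, hZ0, fun v' => ⟨?_, ?_⟩, ?_, ?_⟩
  · have k1 := (hn v').1.trans_le (min_le_left _ _)
    have k2 := (hn1 v').1.trans_le (min_le_left _ _)
    rw [map_zero, sub_zero] at k2
    have := norm_add_le (sv σ τ v' u - sv σ τ v' u₁) (sv σ τ v' u₁)
    rw [sub_add_cancel] at this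
    linarith
  · have k1 := (hn v').2.trans_le (min_le_left _ _)
    have k2 := (hn1 v').2.trans_le (min_le_left _ _)
    have := norm_sub_le_norm_sub_add_norm_sub (sv σ τ v' Z) (sv σ τ v' Z₁) (sv σ τ v' wP)
    linarith
  · rw [Tq_eq hZ, hTe]
    exact g2
  · -- infinite order
    let θ : Θ := ⟨(u, Z), hZ, hZ0, g2⟩
    have h3 : θ ∈ {θ : Θ | (∀ n : ℕ, n ≠ 0 → n ≤ m → n • (.some _ _ (hns θ) :
        Pt (A.eval θ.1.1) (B.eval θ.1.1) (C.eval θ.1.1)) ≠ 0) → ∀ n : ℕ, n ≠ 0 →
          n • (.some _ _ (hns θ) : Pt (A.eval θ.1.1) (B.eval θ.1.1) (C.eval θ.1.1)) ≠ 0} := by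
      apply hSm
      apply hball
      rw [Metric.mem_ball, dist_eq_norm]
      exact (hn (some i₀)).1.trans_le (min_le_right _ _)
    have h4 := h3 (nontor_of_itd (N := N.eval u) (D := 4 * W.eval u) (hns θ) (by
      change tX (th f e (fun a => zP a + u * v a) Z) * _ = _
      have e1 : W.eval u = Z ^ 2 := by rw [hWe, ← hZ]
      have e2 : N.eval u = cq f (fun a => zP a + u * v a) e 0 ^ 2 -
          4 * Z ^ 2 * cq f (fun a => zP a + u * v a) e 1 := by
        simp only [hN, Polynomial.eval_sub, Polynomial.eval_mul, Polynomial.eval_pow,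
          Polynomial.eval_ofNat, hQe, e1]
      rw [e2, e1]
      simp only [tX, th, xs]
      field_simp) g1'.1 g1'.2)
    have e1 := hAe u Z
    have e2 := hBe u Z hZ
    have e3 := hCe u Z hZ
    rw [e1, e2, e3]
    intro h n hn
    exact h4 n hn

/-- a direction in which the difference has infinite order -/
theorem ml_io [Nonempty ι] (hinj : Function.Injective p) {f : MvPolynomial α K} {e z : α → K}
    {w : K} (he : ∀ z, (rst f z e).natDegree ≤ 4) (hw : w ≠ 0) (h : IO f e z w) :
    Ml (sv σ τ) f e z w :=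
  ml_quartic he (waq_all hinj σ τ (θ₀ := th f e z w) hw h.1 h.2)

/-- **Transfer.** -/
theorem mv_transfer [Nonempty ι] (hinj : Function.Injective p) {f : MvPolynomial α K}
    {v e zP : α → K} {wP : K} (hP : onX f zP wP) (hw : wP ≠ 0) (hv : Ml (sv σ τ) f v zP wP)
    (he : ∀ z, (rst f z e).natDegree ≤ 4) {M : Type*} [Field M] [Algebra K M] {s₀ : M}
    (h0 : MvPolynomial.aeval (fun a => algebraMap K M (zP a) + s₀ * algebraMap K M (v a)) f = 0)
    (h1 : MvPolynomial.aeval (fun a => algebraMap K M (zP a) + s₀ * algebraMap K M (v a))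
      (dd f v) ≠ 0)
    (h2 : MvPolynomial.aeval (fun a => algebraMap K M (zP a) + s₀ * algebraMap K M (v a))
      (dd f e) ≠ 0)
    (hT : ∃ u : K, Tq f e (fun a => zP a + u * v a) ≠ 0) : Mv (sv σ τ) f e zP wP := by
  refine mv_via hP hw hv.mv fun δ hδ => ?_
  obtain ⟨u, Z, k1, k2, k3, k4⟩ := nontor_near hP hw hv h0 h1 h2 hT hδ
  exact ⟨u, Z, k1, k2, k3, (ml_io hinj he k2 k4).mv⟩

end nt

end Pool.Agent.Y720.MZ
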