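import Pool.Agent.Y720.WA.Wap3

/-!
# A uniform bound for the torsion, close to a smooth curve (helper720)
-/

set_option autoImplicit false
set_option linter.unusedVariables false
set_option linter.unusedSectionVars false

open WeierstrassCurve Filter Topology

namespace Pool.Agent.Y720.MZ

section limit

variable {L : Type*} [NontriviallyNormedField L] [CharZero L]

/-- the contradiction for bounded sequences -/
lemma seq_contra [ProperSpace L] {a b c : L} (hD : dsc a b c ≠ 0) {x y : ℕ → L} {R C : ℝ}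
    (hR : ∀ n, ‖x n‖ ≤ R) (hB : ∀ n, ‖y n‖ ≤ R)
    (heq : ∀ n, y n ^ 2 = x n ^ 3 + a * x n ^ 2 + b * x n + c)
    (k1 : ∀ n, ‖(3 * x n ^ 2 + 2 * a * x n + b) ^ 2‖ ≤ C * ‖(2 * y n) ^ 2‖)
    (k2 : ∀ m n, n < m → ‖(y m + y n) ^ 2‖ ≤ C * ‖(x m - x n) ^ 2‖) : False := by
  obtain ⟨⟨ξ, η⟩, -, φ, hφ, hlim⟩ := tendsto_subseq_of_bounded
    (Metric.isBounded_closedBall (x := (0 : L × L)) (r := R))
    (x := fun n => (x n, y n)) (fun n => by
      rw [mem_closedBall_zero_iff, Prod.norm_def]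
      exact max_le (hR n) (hB n))
  have hx : Tendsto (fun k => x (φ k)) atTop (𝓝 ξ) := (continuous_fst.tendsto _).comp hlim
  have hy : Tendsto (fun k => y (φ k)) atTop (𝓝 η) := (continuous_snd.tendsto _).comp hlim
  have hx' := hx.comp (tendsto_add_atTop_nat 1)
  have hy' := hy.comp (tendsto_add_atTop_nat 1)
  have hcur : η ^ 2 = ξ ^ 3 + a * ξ ^ 2 + b * ξ + c := by
    have h1 : Tendsto (fun k => y (φ k) ^ 2) atTop (𝓝 (η ^ 2)) := hy.pow 2
    have h2 : Tendsto (fun k => x (φ k) ^ 3 + a * x (φ k) ^ 2 + b * x (φ k) + c)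
        atTop (𝓝 (ξ ^ 3 + a * ξ ^ 2 + b * ξ + c)) :=
      (((hx.pow 3).add ((hx.pow 2).const_mul _)).add (hx.const_mul _)).add_const _
    refine tendsto_nhds_unique h1 (h2.congr fun k => ?_)
    rw [heq]
  have hη : η = 0 := by
    have h1 : Tendsto (fun k => ‖(y (φ (k + 1)) + y (φ k)) ^ 2‖) atTop
        (𝓝 ‖(η + η) ^ 2‖) := ((hy'.add hy).pow 2).norm
    have h2 : Tendsto (fun k => C * ‖(x (φ (k + 1)) - x (φ k)) ^ 2‖) atTop
        (𝓝 (C * ‖(ξ - ξ) ^ 2‖)) := (((hx'.sub hx).pow 2).norm).const_mul _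
    have h3 := le_of_tendsto_of_tendsto' h1 h2 fun k => k2 _ _ (hφ k.lt_succ_self)
    rw [sub_self, zero_pow two_ne_zero, norm_zero, mul_zero] at h3
    have h4 : η + η = 0 := pow_eq_zero_iff two_ne_zero |>.1 (norm_le_zero_iff.1 h3)
    rw [← two_mul, mul_eq_zero] at h4
    exact h4.resolve_left two_ne_zero
  have h1 : Tendsto (fun k => ‖(3 * x (φ k) ^ 2 + 2 * a * x (φ k) + b) ^ 2‖) atTop
      (𝓝 ‖(3 * ξ ^ 2 + 2 * a * ξ + b) ^ 2‖) :=
    (((((hx.pow 2).const_mul _).add (hx.const_mul _)).add_const _).pow 2).norm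
  have h2 : Tendsto (fun k => C * ‖(2 * y (φ k)) ^ 2‖) atTop (𝓝 (C * ‖(2 * η) ^ 2‖)) :=
    (((hy.const_mul _).pow 2).norm).const_mul _
  have h3 := le_of_tendsto_of_tendsto' h1 h2 fun k => k1 _
  rw [hη, mul_zero, zero_pow two_ne_zero, norm_zero, mul_zero] at h3
  have h4 : 3 * ξ ^ 2 + 2 * a * ξ + b = 0 := by
    have := norm_le_zero_iff.1 h3
    exact pow_eq_zero_iff two_ne_zero |>.1 this
  have h5 : ξ ^ 3 + a * ξ ^ 2 + b * ξ + c = 0 := by
    rw [← hcur, hη]; ring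
  exact hD (dsc_root h5 h4)

end limit

section ineq

variable {K : Type*} [Field K] [CharZero K] [DecidableEq K] {L : Type*}
  [NontriviallyNormedField L] {a b c : K}

/-- the multiples up to `M` are bounded -/
def Bm (σ : K →+* L) (R : ℝ) (M : ℕ) (P : Pt a b c) : Prop :=
  ∀ n : ℕ, n ≠ 0 → n ≤ M → n • P ≠ 0 ∧ ∀ x y h, n • P = .some x y h → ‖σ x‖ ≤ R

lemma Bm_dbl {σ : K →+* L} {R : ℝ} {M n : ℕ} {P : Pt a b c} (hB : Bm σ R M P)
    (hn : 2 * n ≤ M) (hn0 : n ≠ 0) {x y : K} {h} (hxy : n • P = .some x y h) :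
    ‖(3 * σ x ^ 2 + 2 * σ a * σ x + σ b) ^ 2‖ ≤ (R + ‖σ a‖ + R + R) * ‖(2 * σ y) ^ 2‖ := by
  have hR := (hB n hn0 (by omega)).2 _ _ _ hxy
  have h2 : (2 * n) • P ≠ 0 := (hB _ (by omega) hn).1
  have hy2 : 2 * y ≠ 0 := by
    intro h0
    apply h2
    rw [two_mul, add_smul, hxy, dbl_zero h h0]
  obtain ⟨h', he⟩ := dbl_mk h hy2 (ℓ := (3 * x ^ 2 + 2 * a * x + b) / (2 * y))
    (div_mul_cancel₀ _ hy2)
  set ℓ := (3 * x ^ 2 + 2 * a * x + b) / (2 * y) with hℓ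
  have h3 := (hB (2 * n) (by omega) hn).2 _ _ _ (by
    rw [two_mul, add_smul, hxy, he])
  have h4 : ‖σ ℓ ^ 2‖ ≤ R + ‖σ a‖ + R + R := by
    have e : σ ℓ ^ 2 = σ (ℓ ^ 2 - a - x - x) + σ a + σ x + σ x := by
      simp only [map_sub, map_pow]; ring
    rw [e]
    exact (norm_add_le _ _).trans (add_le_add ((norm_add_le _ _).trans (add_le_add
      ((norm_add_le _ _).trans (add_le_add h3 le_rfl)) hR)) hR)
  have e5 : (3 * σ x ^ 2 + 2 * σ a * σ x + σ b) = σ ℓ * (2 * σ y) := by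
    have := congrArg σ (div_mul_cancel₀ (3 * x ^ 2 + 2 * a * x + b) hy2)
    rw [← hℓ] at this
    simp only [map_mul, map_add, map_pow, map_ofNat] at this
    exact this.symm
  rw [e5, mul_pow, norm_mul]
  gcongr

lemma Bm_dif {σ : K →+* L} {R : ℝ} {M m n : ℕ} {P : Pt a b c} (hB : Bm σ R M P)
    (hn0 : n ≠ 0) (hnm : n < m) (hM : m + n ≤ M) {x₁ y₁ x₂ y₂ : K} {h₁ h₂}
    (e₁ : m • P = .some x₁ y₁ h₁) (e₂ : n • P = .some x₂ y₂ h₂) :
    ‖(σ y₁ + σ y₂) ^ 2‖ ≤ (R + ‖σ a‖ + R + R) * ‖(σ x₁ - σ x₂) ^ 2‖ := by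
  have hR1 := (hB m (by omega) (by omega)).2 _ _ _ e₁
  have hR2 := (hB n hn0 (by omega)).2 _ _ _ e₂
  have hsub : (m - n) • P = m • P - n • P := by
    have : m • P = (m - n) • P + n • P := by rw [← add_smul]; congr 1; omega
    rw [this, add_sub_cancel_right]
  have hne : x₁ ≠ x₂ := by
    intro he
    have h1 : (.some x₁ y₁ h₁ : Pt a b c) = .some x₂ y₂ h₂ ∨
        (.some x₁ y₁ h₁ : Pt a b c) = -.some x₂ y₂ h₂ :=
      Affine.Point.X_eq_iff.1 he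
    rw [← e₁, ← e₂] at h1
    rcases h1 with h1 | h1
    · exact (hB (m - n) (by omega) (by omega)).1 (by rw [hsub, h1, sub_self])
    · exact (hB (m + n) (by omega) hM).1 (by rw [add_smul, h1, neg_add_cancel])
  obtain ⟨hn', hneg⟩ := neg_mk h₂
  obtain ⟨h', he⟩ := add_mk h₁ hn' hne (ℓ := (y₁ - -y₂) / (x₁ - x₂))
    (div_mul_cancel₀ _ (sub_ne_zero.2 hne))
  set ℓ := (y₁ - -y₂) / (x₁ - x₂) with hℓ
  have h3 := (hB (m - n) (by omega) (by omega)).2 _ _ _ (by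
    rw [hsub, e₁, e₂, sub_eq_add_neg, hneg, he])
  have h4 : ‖σ ℓ ^ 2‖ ≤ R + ‖σ a‖ + R + R := by
    have e : σ ℓ ^ 2 = σ (ℓ ^ 2 - a - x₁ - x₂) + σ a + σ x₁ + σ x₂ := by
      simp only [map_sub, map_pow]; ring
    rw [e]
    exact (norm_add_le _ _).trans (add_le_add ((norm_add_le _ _).trans (add_le_add
      ((norm_add_le _ _).trans (add_le_add h3 le_rfl)) hR1)) hR2)
  have e5 : σ y₁ + σ y₂ = σ ℓ * (σ x₁ - σ x₂) := by
    have := congrArg σ (div_mul_cancel₀ (y₁ - -y₂) (sub_ne_zero.2 hne))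
    rw [← hℓ] at this
    simp only [map_mul, map_sub, sub_neg_eq_add, map_add] at this
    exact this.symm
  rw [e5, mul_pow, norm_mul]
  gcongr

end ineq

/-- **A bounded multiple is at the origin or close to it, uniformly.** -/
theorem unif_accum {K : Type*} [Field K] [CharZero K] [DecidableEq K] {L : Type*}
    [NontriviallyNormedField L] [ProperSpace L] (σ : K →+* L) {Θ : Type*} {l : Filter Θ}
    {a b c : Θ → K} {a₀ b₀ c₀ : L} (ha : Tendsto (fun θ => σ (a θ)) l (𝓝 a₀))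
    (hb : Tendsto (fun θ => σ (b θ)) l (𝓝 b₀)) (hc : Tendsto (fun θ => σ (c θ)) l (𝓝 c₀))
    (hD : dsc a₀ b₀ c₀ ≠ 0) (P : ∀ θ, Pt (a θ) (b θ) (c θ)) (R : ℝ) :
    ∃ M : ℕ, ∀ᶠ θ in l, ∃ n : ℕ, n ≠ 0 ∧ n ≤ M ∧ (n • P θ = 0 ∨
      ∃ x y h, n • P θ = .some x y h ∧ R < ‖σ x‖) := by
  classical
  have : CharZero L := charZero_of_injective_ringHom σ.injective
  by_contra hcon
  push Not at hcon
  have hfr : ∀ M : ℕ, ∃ᶠ θ in l, Bm σ R M (P θ) := by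
    intro M
    refine (hcon M).mono fun θ h n hn0 hnM => ?_
    exact ⟨(h n hn0 hnM).1, (h n hn0 hnM).2⟩
  have hanti : ∀ M M' : ℕ, M ≤ M' → {θ | Bm σ R M' (P θ)} ⊆ {θ | Bm σ R M (P θ)} := by
    intro M M' hM θ h n hn0 hn
    exact h n hn0 (hn.trans hM)
  have hne : NeBot (⨅ M : ℕ, (l ⊓ 𝓟 {θ | Bm σ R M (P θ)})) := by
    refine iInf_neBot_of_directed' ?_ fun M => ?_
    · intro M M'
      refine ⟨max M M', ?_, ?_⟩
      · exact inf_le_inf le_rfl (principal_mono.2 (hanti _ _ (le_max_left _ _)))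
      · exact inf_le_inf le_rfl (principal_mono.2 (hanti _ _ (le_max_right _ _)))
    · rw [inf_comm]
      exact frequently_mem_iff_neBot.1 (hfr M) |> fun h => by rwa [inf_comm] at h
  set U : Ultrafilter Θ := Ultrafilter.of (⨅ M : ℕ, (l ⊓ 𝓟 {θ | Bm σ R M (P θ)})) with hU
  have hUle : (U : Filter Θ) ≤ ⨅ M : ℕ, (l ⊓ 𝓟 {θ | Bm σ R M (P θ)}) := Ultrafilter.of_le _
  have hUl : (U : Filter Θ) ≤ l := (hUle.trans (iInf_le _ 0)).trans inf_le_left
  have hUS : ∀ M : ℕ, ∀ᶠ θ in (U : Filter Θ), Bm σ R M (P θ) := fun M =>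
    le_principal_iff.1 ((hUle.trans (iInf_le _ M)).trans inf_le_right)
  have hex : ∀ (n : ℕ) (θ : Θ), ∃ x y : K, (n + 1) • P θ ≠ 0 → ∃ h, (n + 1) • P θ = .some x y h := by
    intro n θ
    by_cases h : (n + 1) • P θ = 0
    · exact ⟨0, 0, fun h' => absurd h h'⟩
    · obtain ⟨x, y, h', he⟩ := exists_some h
      exact ⟨x, y, fun _ => ⟨h', he⟩⟩
  choose x y hxy using hex
  have ev : ∀ n : ℕ, ∀ᶠ θ in (U : Filter Θ), (∃ h, (n + 1) • P θ = .some (x n θ) (y n θ) h) ∧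
      ‖σ (x n θ)‖ ≤ R := by
    intro n
    filter_upwards [hUS (n + 1)] with θ h
    have h1 := h (n + 1) (by omega) le_rfl
    obtain ⟨h2, h3⟩ := hxy n θ h1.1
    exact ⟨⟨h2, h3⟩, h1.2 _ _ _ h3⟩
  have ha' := ha.mono_left hUl
  have hb' := hb.mono_left hUl
  have hc' := hc.mono_left hUl
  set B : ℝ := 1 + (R ^ 3 + (‖a₀‖ + 1) * R ^ 2 + (‖b₀‖ + 1) * R + (‖c₀‖ + 1)) with hB
  have evB : ∀ n : ℕ, ∀ᶠ θ in (U : Filter Θ), ‖σ (y n θ)‖ ≤ B := by
    intro n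
    filter_upwards [ev n, ha'.norm.eventually_lt_const (lt_add_one ‖a₀‖),
      hb'.norm.eventually_lt_const (lt_add_one ‖b₀‖),
      hc'.norm.eventually_lt_const (lt_add_one ‖c₀‖)] with θ h1 h2 h3 h4
    obtain ⟨⟨h5, h6⟩, h7⟩ := h1
    refine (norm_y_le σ h7 (cv_ns.1 h5).1).trans ?_
    have hR0 : 0 ≤ R := (norm_nonneg _).trans h7
    rw [hB]
    gcongr
  -- the limits
  have hlim : ∀ n : ℕ, ∃ e : L × L, Tendsto (fun θ => (σ (x n θ), σ (y n θ))) (U : Filter Θ) (𝓝 e) := by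
    intro n
    have hcomp : IsCompact (Metric.closedBall (0 : L × L) (max R B)) := isCompact_closedBall _ _
    obtain ⟨e, -, he⟩ := hcomp.ultrafilter_le_nhds
      (U.map fun θ => (σ (x n θ), σ (y n θ))) (by
        rw [le_principal_iff, Ultrafilter.mem_coe, Ultrafilter.mem_map]
        filter_upwards [ev n, evB n] with θ h1 h2
        rw [Set.mem_preimage, mem_closedBall_zero_iff, Prod.norm_def]
        exact max_le_max h1.2 h2)
    exact ⟨e, he⟩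
  choose e he using hlim
  have hx : ∀ n, Tendsto (fun θ => σ (x n θ)) (U : Filter Θ) (𝓝 (e n).1) := fun n =>
    (continuous_fst.tendsto _).comp (he n)
  have hy : ∀ n, Tendsto (fun θ => σ (y n θ)) (U : Filter Θ) (𝓝 (e n).2) := fun n =>
    (continuous_snd.tendsto _).comp (he n)
  have hR0 : 0 ≤ R := by
    obtain ⟨θ, hθ⟩ := (ev 0).exists
    exact (norm_nonneg _).trans hθ.2
  set C := R + (‖a₀‖ + 1) + R + R with hC
  refine seq_contra (a := a₀) (b := b₀) (c := c₀) hD (x := fun n => (e n).1)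
    (y := fun n => (e n).2) (R := max R B) (C := C) ?_ ?_ ?_ ?_ ?_
  · intro n
    exact le_max_of_le_left (le_of_tendsto (hx n).norm ((ev n).mono fun θ h => h.2))
  · intro n
    exact le_max_of_le_right (le_of_tendsto (hy n).norm (evB n))
  · intro n
    have h1 : Tendsto (fun θ => σ (y n θ) ^ 2) (U : Filter Θ) (𝓝 ((e n).2 ^ 2)) := (hy n).pow 2
    have h2 : Tendsto (fun θ => σ (x n θ) ^ 3 + σ (a θ) * σ (x n θ) ^ 2 + σ (b θ) * σ (x n θ) +
        σ (c θ)) (U : Filter Θ) (𝓝 ((e n).1 ^ 3 + a₀ * (e n).1 ^ 2 + b₀ * (e n).1 + c₀)) :=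
      ((((hx n).pow 3).add (ha'.mul ((hx n).pow 2))).add (hb'.mul (hx n))).add hc'
    refine tendsto_nhds_unique h1 (h2.congr' ?_)
    filter_upwards [ev n] with θ h
    obtain ⟨⟨h3, -⟩, -⟩ := h
    rw [← map_pow σ (y n θ), (cv_ns.1 h3).1]
    simp only [map_add, map_mul, map_pow]
  · intro n
    have h1 : Tendsto (fun θ => ‖(3 * σ (x n θ) ^ 2 + 2 * σ (a θ) * σ (x n θ) + σ (b θ)) ^ 2‖)
        (U : Filter Θ) (𝓝 ‖(3 * (e n).1 ^ 2 + 2 * a₀ * (e n).1 + b₀) ^ 2‖) :=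
      ((((((hx n).pow 2).const_mul _).add ((ha'.const_mul 2).mul (hx n))).add hb').pow 2).norm
    have h2 : Tendsto (fun θ => C * ‖(2 * σ (y n θ)) ^ 2‖) (U : Filter Θ)
        (𝓝 (C * ‖(2 * (e n).2) ^ 2‖)) := ((((hy n).const_mul _).pow 2).norm).const_mul _
    refine le_of_tendsto_of_tendsto h1 h2 ?_
    filter_upwards [ev n, hUS (2 * (n + 1)), ha'.norm.eventually_lt_const (lt_add_one ‖a₀‖)]
      with θ h3 h4 h5
    obtain ⟨⟨h6, h7⟩, -⟩ := h3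
    refine (Bm_dbl h4 le_rfl (by omega) h7).trans ?_
    rw [hC]
    gcongr
  · intro m n hnm
    have h1 : Tendsto (fun θ => ‖(σ (y m θ) + σ (y n θ)) ^ 2‖)
        (U : Filter Θ) (𝓝 ‖((e m).2 + (e n).2) ^ 2‖) := (((hy m).add (hy n)).pow 2).norm
    have h2 : Tendsto (fun θ => C * ‖(σ (x m θ) - σ (x n θ)) ^ 2‖) (U : Filter Θ)
        (𝓝 (C * ‖((e m).1 - (e n).1) ^ 2‖)) := ((((hx m).sub (hx n)).pow 2).norm).const_mul _
    refine le_of_tendsto_of_tendsto h1 h2 ?_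
    filter_upwards [ev m, ev n, hUS ((m + 1) + (n + 1)),
      ha'.norm.eventually_lt_const (lt_add_one ‖a₀‖)] with θ h3 h3' h4 h5
    obtain ⟨⟨h6, h7⟩, -⟩ := h3
    obtain ⟨⟨h8, h9⟩, -⟩ := h3'
    refine (Bm_dif h4 (by omega) (by omega) le_rfl h7 h9).trans ?_
    rw [hC]
    gcongr

/-- **The torsion points close to a smooth curve have bounded order.** -/
theorem tor_bound {K : Type*} [Field K] [CharZero K] [DecidableEq K] {p : ℕ} [hp : Fact p.Prime]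
    (σ : K →+* ℚ_[p]) {Θ : Type*} {l : Filter Θ}
    {a b c : Θ → K} {a₀ b₀ c₀ : ℚ_[p]} (ha : Tendsto (fun θ => σ (a θ)) l (𝓝 a₀))
    (hb : Tendsto (fun θ => σ (b θ)) l (𝓝 b₀)) (hc : Tendsto (fun θ => σ (c θ)) l (𝓝 c₀))
    (hD : dsc a₀ b₀ c₀ ≠ 0) (P : ∀ θ, Pt (a θ) (b θ) (c θ)) :
    ∃ M : ℕ, ∀ᶠ θ in l, (∀ n : ℕ, n ≠ 0 → n ≤ M → n • P θ ≠ 0) →
      ∀ n : ℕ, n ≠ 0 → n • P θ ≠ 0 := by
  -- a common bound
  set C := 1 + (‖a₀‖ + 1) + (‖b₀‖ + 1) + (‖c₀‖ + 1) with hC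
  have hC1 : 1 ≤ C := by
    have := norm_nonneg a₀; have := norm_nonneg b₀; have := norm_nonneg c₀
    rw [hC]; linarith
  set ρ := 1 / (100 * C) with hρ
  have hρ0 : 0 < ρ := by positivity
  set r := min ρ ‖(p : ℚ_[p])‖ with hr
  have hr0 : 0 < r := lt_min hρ0 norm_p_pos
  have hBd : ∀ᶠ θ in l, Bd (av σ) (a θ) (b θ) (c θ) C ρ := by
    filter_upwards [ha.norm.eventually_lt_const (lt_add_one ‖a₀‖),
      hb.norm.eventually_lt_const (lt_add_one ‖b₀‖),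
      hc.norm.eventually_lt_const (lt_add_one ‖c₀‖)] with θ h1 h2 h3
    have n1 := norm_nonneg a₀; have n2 := norm_nonneg b₀; have n3 := norm_nonneg c₀
    refine ⟨hC1, ?_, ?_, ?_, hρ0, ?_⟩
    · change ‖σ (a θ)‖ ≤ C
      rw [hC]; linarith
    · change ‖σ (b θ)‖ ≤ C
      rw [hC]; linarith
    · change ‖σ (c θ)‖ ≤ C
      rw [hC]; linarith
    · have : C ≠ 0 := by linarith
      rw [hρ]
      field_simp
      norm_num
  -- the bound for the abscissas does not depend on the curve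
  have hR : ∃ R : ℝ, ∀ (a b c : K), Bd (av σ) a b c C ρ → ∀ x y : K,
      y ^ 2 = x ^ 3 + a * x ^ 2 + b * x + c → R < av σ x →
      y ≠ 0 ∧ av σ (x / y) ≤ r ∧ av σ (1 / y) ≤ ρ := by
    refine ⟨max (6 * C) (max (2 / r ^ 2) (2 / ρ ^ 2)), fun a b c hB => ?_⟩
    exact big_x' hB hr0
  obtain ⟨R, hR⟩ := hR
  obtain ⟨M, hM⟩ := unif_accum σ ha hb hc hD P R
  refine ⟨M, ?_⟩
  filter_upwards [hM, hBd] with θ h1 h2 h3
  obtain ⟨n, hn0, hnM, h4⟩ := h1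
  rcases h4 with h4 | ⟨x, y, h, he, hx⟩
  · exact absurd h4 (h3 n hn0 hnM)
  · have h5 := hR _ _ _ h2 x y (cv_ns.1 h).1 hx
    have h6 : Nb (av σ) ρ r (n • P θ) := by rw [he, Nb_some]; exact h5
    have h7 := TT_ne h2 (min_le_left _ _) h6 (h3 n hn0 hnM)
    have h8 := (av σ).pos h7
    have h9 := U7 h2 (h6.le.trans (min_le_left _ _)) h8 (h6.le.trans (min_le_right _ _))
      (h6.mono le_rfl) rfl
    intro m hm h0
    apply h9 m hm
    rw [← mul_smul, mul_comm, mul_smul, h0, smul_zero]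

end Pool.Agent.Y720.MZ
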