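import Pool.Agent.Y720.WA.Dbl

/-!
# Moves along lines, and moves through another point (helper720)
-/

set_option autoImplicit false
set_option linter.unusedVariables false
set_option linter.unusedSectionVars false

open WeierstrassCurve Filter Topology

namespace Pool.Agent.Y720.MZ

section gen

variable {K : Type*} [Field K] [CharZero K] {V : Type*} [Finite V] {L : V → Type*}
  [∀ v, NontriviallyNormedField (L v)] [∀ v, CompleteSpace (L v)] (s : ∀ v, K →+* L v)
  {α : Type*} [Fintype α]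

/-- moves along the lines with the direction `e`, close to `P` -/
def Ml (f : MvPolynomial α K) (e zP : α → K) (wP : K) : Prop :=
  ∃ δ : ℝ, 0 < δ ∧ ∀ (z : α → K) (w : K), onX f z w →
    nr s δ z w (fun v a => s v (zP a)) (fun v => s v wP) → ∀ t Y : ∀ v, L v, (∀ v, ‖t v‖ < δ) →
    (∀ v, ‖Y v - s v wP‖ < δ) →
    (∀ v, onX (MvPolynomial.map (s v) f) (fun a => s v (z a) + t v * s v (e a)) (Y v)) →
    ∀ η : ℝ, 0 < η → ∃ u Z : K, onX f (fun a => z a + u * e a) Z ∧
      ∀ v, ‖s v u - t v‖ < η ∧ ‖s v Z - Y v‖ < η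

variable {s}

lemma Ml.mv {f : MvPolynomial α K} {e zP : α → K} {wP : K} (h : Ml s f e zP wP) :
    Mv s f e zP wP := by
  obtain ⟨δ, hδ, hb⟩ := h
  refine ⟨δ, hδ, fun z w hzw hn t Y ht hY hYe η hη => ?_⟩
  obtain ⟨η', hη', hη'le, hdir⟩ := dir_bound (s := s) e hη
  obtain ⟨u, Z, g1, g2⟩ := hb z w hzw hn t Y ht hY hYe η' hη'
  refine ⟨fun a => z a + u * e a, Z, g1, fun v => ⟨fun a => ?_, ((g2 v).2).trans_le hη'le⟩⟩
  have e1 : s v (z a + u * e a) - (s v (z a) + t v * s v (e a)) =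
      (s v u - t v) * s v (e a) := by
    rw [map_add, map_mul]; ring
  rw [e1]
  exact hdir v a _ (g2 v).1

theorem ml_quartic {f : MvPolynomial α K} {e : α → K}
    (he : ∀ z, (rst f z e).natDegree ≤ 4) {zP : α → K} {wP : K}
    (hW : WAq s (wP, cq f zP e)) : Ml s f e zP wP := by
  obtain ⟨δ, hδ, hb⟩ := hW
  obtain ⟨δ', hδ', hc⟩ := cq_near (s := s) f e zP hδ
  refine ⟨min δ δ', lt_min hδ hδ', fun z w hzw hn t Y ht hY hYe η hη => ?_⟩
  have k1 : ∀ v, Y v ^ 2 = qv (s v w) (fun j => s v (cq f z e j)) (t v) := by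
    intro v
    have : CharZero (L v) := charZero_of_injective_ringHom (s v).injective
    have h1 := hYe v
    have h2 : (rst (MvPolynomial.map (s v) f) (fun a => s v (z a))
        (fun a => s v (e a))).natDegree ≤ 4 := by
      rw [← rst_map]
      exact Polynomial.natDegree_map_le.trans (he z)
    have h3 := cq_eval h2 (onX_map hzw v) (t v)
    have h4 : (fun j => s v (cq f z e j)) = cq (MvPolynomial.map (s v) f) (fun a => s v (z a))
        (fun a => s v (e a)) := by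
      funext j
      simp only [cq]
      rw [← rst_map, Polynomial.coeff_map]
    unfold onX at h1
    rw [h1, ← h3, h4]
  obtain ⟨u, Z, g1, g2⟩ := hb (w, cq f z e) (fun v => (hn v).2.trans_le (min_le_left _ _))
    (hc z fun v a => ((hn v).1 a).trans_le (min_le_right _ _)) t Y
    (fun v => (ht v).trans_le (min_le_left _ _)) (fun v => (hY v).trans_le (min_le_left _ _))
    k1 η hη
  refine ⟨u, Z, ?_, g2⟩
  unfold onX
  rw [g1, cq_eval (he z) hzw]

theorem ml_conic (hden : Dn s) {f : MvPolynomial α K} {e : α → K}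
    (he : ∀ z, (rst f z e).natDegree ≤ 2) {zP : α → K} {wP : K} (hw : wP ≠ 0) :
    Ml s f e zP wP := by
  -- the good branch
  have h1 : ∀ v, ∃ δ : ℝ, 0 < δ ∧ ∀ (w q t Y : L v), ‖w - s v wP‖ < δ →
      ‖q - s v (cq f zP e 0)‖ < δ → ‖t‖ < δ → ‖Y - s v wP‖ < δ →
      w ≠ 0 ∧ Y + w + q / (2 * w) * t ≠ 0 := by
    intro v
    have : CharZero (L v) := charZero_of_injective_ringHom (s v).injective
    have hw' : s v wP ≠ 0 := (map_ne_zero (s v)).2 hw
    let G : L v × L v × L v × L v → L v := fun e => e.2.2.2 + e.1 + e.2.1 / (2 * e.1) * e.2.2.1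
    have hG : ContinuousAt G (s v wP, s v (cq f zP e 0), 0, s v wP) := by
      refine ContinuousAt.add (by fun_prop) (ContinuousAt.mul (ContinuousAt.div (by fun_prop)
        (by fun_prop) (mul_ne_zero two_ne_zero hw')) (by fun_prop))
    have hG0 : G (s v wP, s v (cq f zP e 0), 0, s v wP) ≠ 0 := by
      simp only [G, mul_zero, add_zero]
      rw [← two_mul]
      exact mul_ne_zero two_ne_zero hw'
    have h2 : ContinuousAt (fun e : L v × L v × L v × L v => e.1)
      (s v wP, s v (cq f zP e 0), 0, s v wP) := continuousAt_fst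
    obtain ⟨δ, hδ, hb⟩ := Metric.eventually_nhds_iff_ball.1
      ((h2.eventually_ne hw').and (hG.eventually_ne hG0))
    refine ⟨δ, hδ, fun w q t Y k1 k2 k3 k4 => hb (w, q, t, Y) ?_⟩
    rw [Metric.mem_ball, Prod.dist_eq, Prod.dist_eq, Prod.dist_eq]
    refine max_lt ?_ (max_lt ?_ (max_lt ?_ ?_))
    · rw [dist_eq_norm]; exact k1
    · rw [dist_eq_norm]; exact k2
    · rw [dist_eq_norm, sub_zero]; exact k3
    · rw [dist_eq_norm]; exact k4
  choose δ hδ hb using h1
  obtain ⟨δ₁, hδ₁, hm⟩ := fin_min hδ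
  obtain ⟨δ₂, hδ₂, hc⟩ := cq_near (s := s) f e zP hδ₁
  refine ⟨min δ₁ δ₂, lt_min hδ₁ hδ₂, fun z w hzw hn t Y ht hY hYe η hη => ?_⟩
  by_cases hV : IsEmpty V
  · refine ⟨0, w, ?_, fun v => (hV.false v).elim⟩
    simpa using hzw
  rw [not_isEmpty_iff] at hV
  have hg : ∀ v, s v w ≠ 0 ∧ Y v + s v w + s v (cq f z e 0) / (2 * s v w) * t v ≠ 0 := by
    intro v
    exact hb v _ _ _ _ ((hn v).2.trans_le ((min_le_left _ _).trans (hm v)))
      ((hc z (fun v a => ((hn v).1 a).trans_le (min_le_right _ _)) v 0).trans_le (hm v))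
      ((ht v).trans_le ((min_le_left _ _).trans (hm v)))
      ((hY v).trans_le ((min_le_left _ _).trans (hm v)))
  have hw0 : w ≠ 0 := by
    obtain ⟨v⟩ := hV
    exact (map_ne_zero (s v)).1 (hg v).1
  obtain ⟨u, Z, k1, k2, k3⟩ := conic_pts hden (he z) hzw hw0 (t := t) (Y := Y) (Or.inr fun v => by
    have := (hg v).2
    rwa [map_div₀, map_mul, map_ofNat]) hYe hη
  exact ⟨u, Z, k1, fun v => ⟨k2 v, (k3 v).2⟩⟩

/-- **Points on the line which avoid a finite set.** -/
lemma Ml.avoid {f : MvPolynomial α K} {e zP : α → K} {wP : K} (hP : onX f zP wP)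
    (h : Ml s f e zP wP) : ∃ δ : ℝ, 0 < δ ∧ ∀ u₁ Z₁ : K, onX f (fun a => zP a + u₁ * e a) Z₁ →
      Z₁ ≠ 0 → (∀ v, ‖s v u₁‖ < δ ∧ ‖s v Z₁ - s v wP‖ < δ) → ∀ (F : Set K), F.Finite →
      ∀ δ' : ℝ, 0 < δ' → ∃ u Z : K, onX f (fun a => zP a + u * e a) Z ∧
        (∀ v, ‖s v u - s v u₁‖ < δ' ∧ ‖s v Z - s v Z₁‖ < δ') ∧ (Nonempty V → u ∉ F) := by
  obtain ⟨δ, hδ, hb⟩ := h
  refine ⟨δ, hδ, fun u₁ Z₁ h1 hZ hn F hF δ' hδ' => ?_⟩
  -- the local targets
  have hloc : ∀ v, ∃ t Y : L v, ‖t - s v u₁‖ < δ' / 2 ∧ ‖Y - s v Z₁‖ < δ' / 2 ∧ ‖t‖ < δ ∧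
      ‖Y - s v wP‖ < δ ∧
      onX (MvPolynomial.map (s v) f) (fun a => s v (zP a) + t * s v (e a)) Y ∧
      ∃ d : ℝ, 0 < d ∧ ∀ x ∈ F, d ≤ ‖s v x - t‖ := by
    intro v
    have : CharZero (L v) := charZero_of_injective_ringHom (s v).injective
    have h2 := onX_map (s := s) h1 v
    have h3 : onX (MvPolynomial.map (s v) f) (fun a => s v (zP a) + s v u₁ * s v (e a)) (s v Z₁) := by
      simpa only [map_add, map_mul] using h2
    obtain ⟨ρ, hρ, hsq⟩ := sq_near h3 ((map_ne_zero (s v)).2 hZ)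
      (ε := min (δ' / 2) (δ - ‖s v Z₁ - s v wP‖)) (lt_min (half_pos hδ') (sub_pos.2 (hn v).2))
    obtain ⟨ρ', hρ', -, hdir⟩ := dir_bound (s := fun _ : Unit => s v) e hρ
    have hdense : Dense (Set.univ \ ((s v '' F : Set (L v)))) := by
      obtain ⟨F', hF'⟩ := (hF.image (s v)).exists_finset_coe
      rw [← hF']
      exact dense_univ.diff_finset F'
    obtain ⟨t, ht1, ht2⟩ := Metric.dense_iff.1 hdense (s v u₁)
      (min (min (δ' / 2) ρ') (δ - ‖s v u₁‖))
      (lt_min (lt_min (half_pos hδ') hρ') (sub_pos.2 (hn v).1))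
    rw [Metric.mem_ball, dist_eq_norm] at ht1
    have k1 := ht1.trans_le ((min_le_left _ _).trans (min_le_left _ _))
    have k2 := ht1.trans_le ((min_le_left _ _).trans (min_le_right _ _))
    have k3 := ht1.trans_le (min_le_right _ _)
    obtain ⟨Y, hY1, hY2⟩ := hsq (fun a => s v (zP a) + t * s v (e a)) (fun a => by
      have e1 : s v (zP a) + t * s v (e a) - (s v (zP a) + s v u₁ * s v (e a)) =
          (t - s v u₁) * s v (e a) := by ring
      rw [e1]
      exact hdir () a _ k2)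
    refine ⟨t, Y, k1, hY1.trans_le (min_le_left _ _), ?_, ?_, hY2, ?_⟩
    · have := norm_add_le (t - s v u₁) (s v u₁)
      rw [sub_add_cancel] at this
      linarith
    · have := norm_add_le (Y - s v Z₁) (s v Z₁ - s v wP)
      rw [sub_add_sub_cancel] at this
      have := hY1.trans_le (min_le_right _ _)
      linarith
    · have hpos : ∀ x : F, 0 < ‖s v x - t‖ := by
        intro x
        rw [norm_pos_iff, sub_ne_zero]
        intro h0
        exact ht2.2 ⟨x, x.2, h0⟩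
      have : Finite F := hF
      obtain ⟨d, hd, hdm⟩ := fin_min hpos
      exact ⟨d, hd, fun x hx => hdm ⟨x, hx⟩⟩
  choose t Y k1 k2 k3 k4 k5 d hd k6 using hloc
  obtain ⟨d', hd', hdm⟩ := fin_min hd
  obtain ⟨u, Z, g1, g2⟩ := hb zP wP hP (fun v => ⟨fun a => by
      rw [sub_self, norm_zero]; exact hδ, by rw [sub_self, norm_zero]; exact hδ⟩) t Y k3 k4 k5
    (min (δ' / 2) d') (lt_min (half_pos hδ') hd')
  refine ⟨u, Z, g1, fun v => ⟨?_, ?_⟩, ?_⟩
  · have := norm_sub_le_norm_sub_add_norm_sub (s v u) (t v) (s v u₁)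
    have := (g2 v).1.trans_le (min_le_left _ _)
    have := k1 v
    linarith
  · have := norm_sub_le_norm_sub_add_norm_sub (s v Z) (Y v) (s v Z₁)
    have := (g2 v).2.trans_le (min_le_left _ _)
    have := k2 v
    linarith
  · rintro ⟨v⟩ hu
    have h2 := k6 v u hu
    have h3 := (g2 v).1.trans_le ((min_le_right _ _).trans (hdm v))
    exact absurd h3 (not_lt.2 h2)

/-- **Moves through another point.** -/
theorem mv_via {f : MvPolynomial α K} {v e zP : α → K} {wP : K} (hP : onX f zP wP) (hw : wP ≠ 0)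
    (hv : Mv s f v zP wP) (h : ∀ δ : ℝ, 0 < δ → ∃ u Z : K, onX f (fun a => zP a + u * v a) Z ∧
      Z ≠ 0 ∧ (∀ v', ‖s v' u‖ < δ ∧ ‖s v' Z - s v' wP‖ < δ) ∧
      Mv s f e (fun a => zP a + u * v a) Z) : Mv s f e zP wP := by
  by_cases hV : IsEmpty V
  · exact ⟨1, one_pos, fun z w hzw hn t Y ht hY hYe η hη => ⟨z, w, hzw,
      fun v => (hV.false v).elim⟩⟩
  rw [not_isEmpty_iff] at hV
  have hcz : ∀ v, CharZero (L v) := fun v => charZero_of_injective_ringHom (s v).injective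
  obtain ⟨δ₁, hδ₁, hmv⟩ := hv
  obtain ⟨κ, hκ, hκle, hdirv⟩ := dir_bound (s := s) v (show (0 : ℝ) < δ₁ / 4 by positivity)
  obtain ⟨u, Z', hzP', hZ', hnP', hMe⟩ := h (min κ (δ₁ / 4)) (lt_min hκ (by positivity))
  have hu1 : ∀ v', ‖s v' u‖ < δ₁ / 4 := fun v' => (hnP' v').1.trans_le (min_le_right _ _)
  have hu2 : ∀ v' a, ‖s v' u * s v' (v a)‖ < δ₁ / 4 := fun v' a =>
    hdirv v' a _ ((hnP' v').1.trans_le (min_le_left _ _))
  have hZ1 : ∀ v', ‖s v' Z' - s v' wP‖ < δ₁ / 4 := fun v' =>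
    (hnP' v').2.trans_le (min_le_right _ _)
  obtain ⟨δ', hδ', hme⟩ := hMe
  -- square roots close to the intermediate point
  have hsq : ∀ v', ∃ ρ : ℝ, 0 < ρ ∧ ∀ x' : α → L v',
      (∀ a, ‖x' a - s v' (zP a + u * v a)‖ < ρ) →
      ∃ y' : L v', ‖y' - s v' Z'‖ < min (δ' / 2) (δ₁ / 4) ∧
        onX (MvPolynomial.map (s v') f) x' y' := by
    intro v'
    have := hcz v'
    exact sq_near (onX_map (s := s) hzP' v') ((map_ne_zero (s v')).2 hZ')
      (lt_min (half_pos hδ') (by positivity))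
  choose ρ hρ hρb using hsq
  obtain ⟨ρ₀, hρ₀, hρm⟩ := fin_min hρ
  -- the radius
  set ε₀ := min (min (δ₁ / 8) (δ' / 4)) (ρ₀ / 4) with hε₀
  have hε₀0 : 0 < ε₀ := lt_min (lt_min (by positivity) (by positivity)) (by positivity)
  have a1 : ε₀ ≤ δ₁ / 8 := (min_le_left _ _).trans (min_le_left _ _)
  have a2 : ε₀ ≤ δ' / 4 := (min_le_left _ _).trans (min_le_right _ _)
  have a3 : ε₀ ≤ ρ₀ / 4 := min_le_right _ _
  obtain ⟨κ', hκ', hκ'le, hdire⟩ := dir_bound (s := s) e hε₀0
  obtain ⟨ω, hω, hωm⟩ := fin_min (f := fun v' : V => ‖s v' wP‖) fun v' =>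
    norm_pos_iff.2 ((map_ne_zero (s v')).2 hw)
  set ε := min κ' ω with hε
  have hε0 : 0 < ε := lt_min hκ' hω
  have b1 : ε ≤ ε₀ := (min_le_left _ _).trans hκ'le
  refine ⟨ε, hε0, fun z w hzw hn t Y ht hY hYe η hη => ?_⟩
  have hte : ∀ v' a, ‖t v' * s v' (e a)‖ < ε₀ := fun v' a =>
    hdire v' a _ ((ht v').trans_le (min_le_left _ _))
  -- square roots close to the target
  have hsq' : ∀ v', ∃ ρ : ℝ, 0 < ρ ∧ ∀ x' : α → L v',
      (∀ a, ‖x' a - (s v' (z a) + t v' * s v' (e a))‖ < ρ) →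
      ∃ y' : L v', ‖y' - Y v'‖ < min (η / 2) (δ₁ / 4) ∧ onX (MvPolynomial.map (s v') f) x' y' := by
    intro v'
    have := hcz v'
    refine sq_near (hYe v') ?_ (lt_min (half_pos hη) (by positivity))
    intro h0
    have h1 := (hY v').trans_le (min_le_right _ _)
    rw [h0, zero_sub, norm_neg] at h1
    exact absurd h1 (not_lt.2 (hωm v'))
  choose ρ' hρ' hρb' using hsq'
  obtain ⟨ρ₁, hρ₁, hρm'⟩ := fin_min hρ'
  set η₁ := min (min (δ₁ / 8) (δ' / 4)) (min (ρ₀ / 4) (min (ρ₁ / 2) (η / 8))) with hη₁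
  have hη₁0 : 0 < η₁ := lt_min (lt_min (by positivity) (by positivity))
    (lt_min (by positivity) (lt_min (by positivity) (by positivity)))
  have c1 : η₁ ≤ δ₁ / 8 := (min_le_left _ _).trans (min_le_left _ _)
  have c2 : η₁ ≤ δ' / 4 := (min_le_left _ _).trans (min_le_right _ _)
  have c3 : η₁ ≤ ρ₀ / 4 := (min_le_right _ _).trans (min_le_left _ _)
  have c4 : η₁ ≤ ρ₁ / 2 := (min_le_right _ _).trans ((min_le_right _ _).trans (min_le_left _ _))
  have c5 : η₁ ≤ η / 8 := (min_le_right _ _).trans ((min_le_right _ _).trans (min_le_right _ _))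
  -- the first step
  choose Y₁ hY₁a hY₁b using fun v' => hρb v' (fun a => s v' (z a) + s v' u * s v' (v a))
    (fun a => by
      have e1 : s v' (z a) + s v' u * s v' (v a) - s v' (zP a + u * v a) =
          s v' (z a) - s v' (zP a) := by rw [map_add, map_mul]; ring
      rw [e1]
      have := (hn v').1 a
      change ‖s v' (z a) - s v' (zP a)‖ < ε at this
      have := hρm v'
      linarith)
  obtain ⟨z₁, w₁, hzw₁, hn₁⟩ := hmv z w hzw (hn.mono (by linarith)) (fun v' => s v' u) Y₁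
    (fun v' => (hu1 v').trans (by linarith)) (fun v' => by
      have k1 := (hY₁a v').trans_le (min_le_right _ _)
      have k2 := hZ1 v'
      have k3 := norm_sub_le_norm_sub_add_norm_sub (Y₁ v') (s v' Z') (s v' wP)
      linarith) hY₁b η₁ hη₁0
  have hz₁ : ∀ v' a, ‖s v' (z₁ a) - s v' (zP a + u * v a)‖ < η₁ + ε := by
    intro v' a
    have k1 := (hn₁ v').1 a
    have k2 := (hn v').1 a
    have e1 : s v' (z₁ a) - s v' (zP a + u * v a) =
        (s v' (z₁ a) - (s v' (z a) + s v' u * s v' (v a))) + (s v' (z a) - s v' (zP a)) := by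
      rw [map_add, map_mul]; ring
    rw [e1]
    have := norm_add_le (s v' (z₁ a) - (s v' (z a) + s v' u * s v' (v a)))
      (s v' (z a) - s v' (zP a))
    linarith
  -- the second step
  choose Y₂ hY₂a hY₂b using fun v' => hρb v' (fun a => s v' (z₁ a) + t v' * s v' (e a))
    (fun a => by
      have e1 : s v' (z₁ a) + t v' * s v' (e a) - s v' (zP a + u * v a) =
          (s v' (z₁ a) - s v' (zP a + u * v a)) + t v' * s v' (e a) := by ring
      rw [e1]
      have k1 := norm_add_le (s v' (z₁ a) - s v' (zP a + u * v a)) (t v' * s v' (e a))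
      have k2 := hz₁ v' a
      have k3 := hte v' a
      have := hρm v'
      linarith)
  obtain ⟨z₂, w₂, hzw₂, hn₂⟩ := hme z₁ w₁ hzw₁ (fun v' => ⟨fun a => by
      have k1 := hz₁ v' a
      dsimp only
      linarith, by
      have k1 := (hn₁ v').2
      have k2 := (hY₁a v').trans_le (min_le_left _ _)
      have k3 := norm_sub_le_norm_sub_add_norm_sub (s v' w₁) (Y₁ v') (s v' Z')
      dsimp only
      linarith⟩) t Y₂ (fun v' => ((ht v').trans_le b1).trans_le (by linarith)) (fun v' => by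
      have k2 := (hY₂a v').trans_le (min_le_left _ _)
      linarith) hY₂b η₁ hη₁0
  -- the third step
  choose Y₃ hY₃a hY₃b using fun v' => hρb' v' (fun a => s v' (z₂ a) + (-s v' u) * s v' (v a))
    (fun a => by
      have e1 : s v' (z₂ a) + (-s v' u) * s v' (v a) - (s v' (z a) + t v' * s v' (e a)) =
          (s v' (z₂ a) - (s v' (z₁ a) + t v' * s v' (e a))) +
          (s v' (z₁ a) - (s v' (z a) + s v' u * s v' (v a))) := by ring
      rw [e1]
      have k1 := norm_add_le (s v' (z₂ a) - (s v' (z₁ a) + t v' * s v' (e a)))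
        (s v' (z₁ a) - (s v' (z a) + s v' u * s v' (v a)))
      have k2 := (hn₁ v').1 a
      have k3 := (hn₂ v').1 a
      have := hρm' v'
      linarith)
  obtain ⟨z₃, w₃, hzw₃, hn₃⟩ := hmv z₂ w₂ hzw₂ (fun v' => ⟨fun a => by
      have e1 : s v' (z₂ a) - s v' (zP a) = (s v' (z₂ a) - (s v' (z₁ a) + t v' * s v' (e a))) +
          (s v' (z₁ a) - s v' (zP a + u * v a)) + t v' * s v' (e a) + s v' u * s v' (v a) := by
        rw [map_add, map_mul]; ring
      have k1 := (hn₂ v').1 a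
      have k2 := hz₁ v' a
      have k3 := hte v' a
      have k4 := hu2 v' a
      have k5 := norm_add_le ((s v' (z₂ a) - (s v' (z₁ a) + t v' * s v' (e a))) +
          (s v' (z₁ a) - s v' (zP a + u * v a)) + t v' * s v' (e a)) (s v' u * s v' (v a))
      have k6 := norm_add_le ((s v' (z₂ a) - (s v' (z₁ a) + t v' * s v' (e a))) +
          (s v' (z₁ a) - s v' (zP a + u * v a))) (t v' * s v' (e a))
      have k7 := norm_add_le (s v' (z₂ a) - (s v' (z₁ a) + t v' * s v' (e a)))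
          (s v' (z₁ a) - s v' (zP a + u * v a))
      dsimp only
      rw [e1]
      linarith, by
      have k1 := (hn₂ v').2
      have k2 := (hY₂a v').trans_le (min_le_right _ _)
      have k3 := hZ1 v'
      have k4 := norm_sub_le_norm_sub_add_norm_sub (s v' w₂) (Y₂ v') (s v' wP)
      have k5 := norm_sub_le_norm_sub_add_norm_sub (Y₂ v') (s v' Z') (s v' wP)
      dsimp only
      linarith⟩) (fun v' => -s v' u) Y₃ (fun v' => by
      rw [norm_neg]; have := hu1 v'; linarith) (fun v' => by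
      have k1 := (hY₃a v').trans_le (min_le_right _ _)
      have k2 := (hY v').trans_le b1
      have k3 := norm_sub_le_norm_sub_add_norm_sub (Y₃ v') (Y v') (s v' wP)
      linarith) hY₃b η₁ hη₁0
  refine ⟨z₃, w₃, hzw₃, fun v' => ⟨fun a => ?_, ?_⟩⟩
  · have e1 : s v' (z₃ a) - (s v' (z a) + t v' * s v' (e a)) =
        (s v' (z₃ a) - (s v' (z₂ a) + (-s v' u) * s v' (v a))) +
        (s v' (z₂ a) - (s v' (z₁ a) + t v' * s v' (e a))) +
          (s v' (z₁ a) - (s v' (z a) + s v' u * s v' (v a))) := by ring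
    have k1 := (hn₁ v').1 a
    have k2 := (hn₂ v').1 a
    have k3 := (hn₃ v').1 a
    have k4 := norm_add_le ((s v' (z₃ a) - (s v' (z₂ a) + (-s v' u) * s v' (v a))) +
        (s v' (z₂ a) - (s v' (z₁ a) + t v' * s v' (e a))))
          (s v' (z₁ a) - (s v' (z a) + s v' u * s v' (v a)))
    have k5 := norm_add_le (s v' (z₃ a) - (s v' (z₂ a) + (-s v' u) * s v' (v a)))
        (s v' (z₂ a) - (s v' (z₁ a) + t v' * s v' (e a)))
    rw [e1]
    linarith
  · have k1 := (hn₃ v').2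
    have k2 := (hY₃a v').trans_le (min_le_left _ _)
    have k3 := norm_sub_le_norm_sub_add_norm_sub (s v' w₃) (Y₃ v') (Y v')
    linarith

end gen

end Pool.Agent.Y720.MZ
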