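import Pool.Agent.Y720.WA.LemE
import Pool.Agent.Y720.WA.Den4

/-!
# Weak approximation near a rational point of `w² = f(z)`: moves (helper720)
-/

set_option autoImplicit false
set_option linter.unusedVariables false
set_option linter.unusedSectionVars false

open Filter Topology

namespace Pool.Agent.Y720.MZ

section coeff

variable {R : Type*} [Field R] [CharZero R] {α : Type*} [Fintype α]

lemma rst_map {S : Type*} [Field S] [CharZero S] (σ : R →+* S) (f : MvPolynomial α R)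
    (z e : α → R) : (rst f z e).map σ =
      rst (MvPolynomial.map σ f) (fun a => σ (z a)) (fun a => σ (e a)) := by
  induction f using MvPolynomial.induction_on with
  | C a => simp [rst]
  | add p q hp hq => simp only [rst, map_add, Polynomial.map_add] at *; rw [hp, hq]
  | mul_X p i hp =>
    simp only [rst, map_mul, Polynomial.map_mul, MvPolynomial.aeval_X, MvPolynomial.map_X] at *
    rw [hp]
    simp

lemma rst_coeff_cont {L : Type*} [NontriviallyNormedField L] [CharZero L] (F : MvPolynomial α L)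
    (e : α → L) : ∀ k : ℕ, Continuous fun x : α → L => (rst F x e).coeff k := by
  induction F using MvPolynomial.induction_on with
  | C a =>
    intro k
    simp only [rst, MvPolynomial.aeval_C]
    exact continuous_const
  | add p q hp hq =>
    intro k
    simp only [rst, map_add, Polynomial.coeff_add] at *
    exact (hp k).add (hq k)
  | mul_X p i hp =>
    intro k
    have h1 : ∀ x : α → L, (rst (p * MvPolynomial.X i) x e).coeff k =
        (rst p x e).coeff k * x i + if k = 0 then 0 else (rst p x e).coeff (k - 1) * e i := by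
      intro x
      simp only [rst, map_mul, MvPolynomial.aeval_X]
      rw [mul_add, Polynomial.coeff_add, Polynomial.coeff_mul_C, ← mul_assoc]
      congr 1
      rcases k with _ | k
      · simp
      · rw [Polynomial.coeff_mul_X, Polynomial.coeff_mul_C]
        simp
    simp only [h1]
    by_cases hk : k = 0
    · simp only [hk, if_true, add_zero]
      exact (hp 0).mul (continuous_apply i)
    · simp only [hk, if_false]
      exact ((hp k).mul (continuous_apply i)).add ((hp (k - 1)).mul continuous_const)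

/-- the coefficients of the restriction to a line -/
noncomputable def cq (f : MvPolynomial α R) (z e : α → R) : Fin 4 → R :=
  fun j => (rst f z e).coeff ((j : ℕ) + 1)

lemma cq_eval {f : MvPolynomial α R} {z e : α → R} (h : (rst f z e).natDegree ≤ 4) {w : R}
    (hw : w ^ 2 = MvPolynomial.eval z f) (t : R) :
    qv w (cq f z e) t = MvPolynomial.eval (fun a => z a + t * e a) f := by
  have h1 : (rst f z e).eval t = MvPolynomial.eval (z + t • e) f := rst_eval _ _ _ _
  have h2 : (z + t • e) = fun a => z a + t * e a := by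
    funext a; simp
  rw [h2] at h1
  rw [← h1, (rst f z e).as_sum_range_C_mul_X_pow' (n := 5) (by omega), Polynomial.eval_finsetSum,
    Finset.sum_range]
  simp only [Polynomial.eval_mul, Polynomial.eval_C, Polynomial.eval_pow, Polynomial.eval_X]
  rw [Fin.sum_univ_five]
  have h3 : (rst f z e).coeff 0 = w ^ 2 := by
    rw [hw, Polynomial.coeff_zero_eq_eval_zero, rst_eval]
    simp
  simp only [qv, cq]
  have e0 : ((0 : Fin 5) : ℕ) = 0 := rfl
  have e1 : ((1 : Fin 5) : ℕ) = 1 := rfl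
  have e2 : ((2 : Fin 5) : ℕ) = 2 := rfl
  have e3 : ((3 : Fin 5) : ℕ) = 3 := rfl
  have e4 : ((4 : Fin 5) : ℕ) = 4 := rfl
  have g0 : ((0 : Fin 4) : ℕ) = 0 := rfl
  have g1 : ((1 : Fin 4) : ℕ) = 1 := rfl
  have g2 : ((2 : Fin 4) : ℕ) = 2 := rfl
  have g3 : ((3 : Fin 4) : ℕ) = 3 := rfl
  rw [e0, e1, e2, e3, e4, g0, g1, g2, g3, h3]
  ring

end coeff

section wap

variable {K : Type*} [Field K] [CharZero K] {V : Type*} {L : V → Type*}
  [∀ v, NontriviallyNormedField (L v)] (s : ∀ v, K →+* L v) {α : Type*}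

/-- rational points on the quartics close to a given one are dense close to the base point -/
def WAq (θ₀ : K × (Fin 4 → K)) : Prop :=
  ∃ δ : ℝ, 0 < δ ∧ ∀ θ : K × (Fin 4 → K), (∀ v, ‖s v θ.1 - s v θ₀.1‖ < δ) →
    (∀ v j, ‖s v (θ.2 j) - s v (θ₀.2 j)‖ < δ) → ∀ t Y : ∀ v, L v, (∀ v, ‖t v‖ < δ) →
    (∀ v, ‖Y v - s v θ₀.1‖ < δ) → (∀ v, Y v ^ 2 = qv (s v θ.1) (fun j => s v (θ.2 j)) (t v)) →
    ∀ η : ℝ, 0 < η → ∃ u Z : K, Z ^ 2 = qv θ.1 θ.2 u ∧
      ∀ v, ‖s v u - t v‖ < η ∧ ‖s v Z - Y v‖ < η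

/-- closeness -/
def nr (ε : ℝ) (z : α → K) (w : K) (x : ∀ v, α → L v) (y : ∀ v, L v) : Prop :=
  ∀ v, (∀ a, ‖s v (z a) - x v a‖ < ε) ∧ ‖s v w - y v‖ < ε

/-- the double cover -/
def onX {R : Type*} [CommRing R] (f : MvPolynomial α R) (z : α → R) (w : R) : Prop :=
  w ^ 2 = MvPolynomial.eval z f

/-- moves in the direction `e` close to `P` -/
def Mv (f : MvPolynomial α K) (e zP : α → K) (wP : K) : Prop :=
  ∃ δ : ℝ, 0 < δ ∧ ∀ (z : α → K) (w : K), onX f z w →
    nr s δ z w (fun v a => s v (zP a)) (fun v => s v wP) → ∀ t Y : ∀ v, L v, (∀ v, ‖t v‖ < δ) →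
    (∀ v, ‖Y v - s v wP‖ < δ) →
    (∀ v, onX (MvPolynomial.map (s v) f) (fun a => s v (z a) + t v * s v (e a)) (Y v)) →
    ∀ η : ℝ, 0 < η → ∃ (z' : α → K) (w' : K), onX f z' w' ∧
      nr s η z' w' (fun v a => s v (z a) + t v * s v (e a)) Y

/-- `P` is an interior point of the closure of the rational points -/
def Int (f : MvPolynomial α K) (zP : α → K) (wP : K) : Prop :=
  ∃ ε : ℝ, 0 < ε ∧ ∀ (x : ∀ v, α → L v) (y : ∀ v, L v),
    (∀ v, onX (MvPolynomial.map (s v) f) (x v) (y v)) →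
    nr s ε zP wP x y → ∀ η : ℝ, 0 < η → ∃ (z : α → K) (w : K), onX f z w ∧ nr s η z w x y

variable {s}

lemma nr.mono {ε ε' : ℝ} {z : α → K} {w : K} {x : ∀ v, α → L v} {y : ∀ v, L v}
    (h : nr s ε z w x y) (he : ε ≤ ε') : nr s ε' z w x y :=
  fun v => ⟨fun a => ((h v).1 a).trans_le he, (h v).2.trans_le he⟩

/-- scaling -/
lemma WAq.scale [Finite V] {w : K} {q : Fin 4 → K} {μ : K} (hμ : μ ≠ 0)
    (h : WAq s (μ * w, fun j => μ ^ 2 * q j)) : WAq s (w, q) := by
  obtain ⟨δ, hδ, hb⟩ := h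
  have hμv : ∀ v, 0 < ‖s v μ‖ := fun v => norm_pos_iff.2 ((map_ne_zero (s v)).2 hμ)
  obtain ⟨δ', hδ', hδ'v⟩ := fin_min (f := fun v : V => min (min δ (δ / ‖s v μ‖)) (δ / ‖s v μ‖ ^ 2))
    fun v => lt_min (lt_min hδ (div_pos hδ (hμv v))) (div_pos hδ (pow_pos (hμv v) 2))
  have d1 : ∀ v, δ' ≤ δ := fun v => (hδ'v v).trans ((min_le_left _ _).trans (min_le_left _ _))
  have d2 : ∀ v, δ' ≤ δ / ‖s v μ‖ := fun v =>
    (hδ'v v).trans ((min_le_left _ _).trans (min_le_right _ _))
  have d3 : ∀ v, δ' ≤ δ / ‖s v μ‖ ^ 2 := fun v => (hδ'v v).trans (min_le_right _ _)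
  refine ⟨δ', hδ', fun θ h1 h2 t Y ht hY he η hη => ?_⟩
  obtain ⟨ηη, hηη, hηv⟩ := fin_min (f := fun v : V => min η (η * ‖s v μ‖))
    fun v => lt_min hη (mul_pos hη (hμv v))
  have k1 : ∀ v, ‖s v (μ * θ.1) - s v (μ * w)‖ < δ := by
    intro v
    have := (h1 v).trans_le (d2 v)
    rw [lt_div_iff₀ (hμv v)] at this
    rw [map_mul, map_mul, ← mul_sub, norm_mul, mul_comm]
    exact this
  have k2 : ∀ v j, ‖s v (μ ^ 2 * θ.2 j) - s v (μ ^ 2 * q j)‖ < δ := by
    intro v j
    have := (h2 v j).trans_le (d3 v)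
    rw [lt_div_iff₀ (pow_pos (hμv v) 2)] at this
    rw [map_mul, map_mul, map_pow, ← mul_sub, norm_mul, norm_pow, mul_comm]
    exact this
  have k3 : ∀ v, ‖s v μ * Y v - s v (μ * w)‖ < δ := by
    intro v
    have := (hY v).trans_le (d2 v)
    rw [lt_div_iff₀ (hμv v)] at this
    rw [map_mul, ← mul_sub, norm_mul, mul_comm]
    exact this
  have k4 : ∀ v, (s v μ * Y v) ^ 2 = qv (s v (μ * θ.1)) (fun j => s v (μ ^ 2 * θ.2 j)) (t v) := by
    intro v
    rw [mul_pow, he v]
    simp only [qv, map_mul, map_pow]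
    ring
  obtain ⟨u, Z, g1, g2⟩ := hb (μ * θ.1, fun j => μ ^ 2 * θ.2 j) k1 k2 t
    (fun v => s v μ * Y v) (fun v => (ht v).trans_le (d1 v)) k3 k4 ηη hηη
  refine ⟨u, Z / μ, ?_, fun v => ⟨((g2 v).1).trans_le ((hηv v).trans (min_le_left _ _)), ?_⟩⟩
  · rw [div_pow, g1, div_eq_iff (pow_ne_zero 2 hμ)]
    simp only [qv]
    ring
  · have e : s v (Z / μ) - Y v = (s v Z - s v μ * Y v) / s v μ := by
      have := (map_ne_zero (s v)).2 hμ
      rw [map_div₀]
      field_simp
    rw [e, norm_div, div_lt_iff₀ (hμv v)]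
    exact (g2 v).2.trans_le ((hηv v).trans (min_le_right _ _))

variable [Fintype α]

lemma onX_map {f : MvPolynomial α K} {z : α → K} {w : K} (h : onX f z w) (v : V) :
    onX (MvPolynomial.map (s v) f) (fun a => s v (z a)) (s v w) := by
  unfold onX at *
  rw [← map_pow, h, MvPolynomial.eval_map, ← MvPolynomial.eval₂_id, MvPolynomial.eval₂_comp_left,
    RingHom.comp_id]
  rfl

/-- square roots close to a point -/
lemma sq_near {F : Type*} [NontriviallyNormedField F] [CompleteSpace F] [CharZero F]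
    {g : MvPolynomial α F} {x : α → F} {y : F} (h : onX g x y) (hy : y ≠ 0) {ε : ℝ} (hε : 0 < ε) :
    ∃ ρ : ℝ, 0 < ρ ∧ ∀ x' : α → F, (∀ a, ‖x' a - x a‖ < ρ) →
      ∃ y' : F, ‖y' - y‖ < ε ∧ onX g x' y' := by
  obtain ⟨δ, hδ, hs⟩ := exists_sqrt hy hε
  have h1 : ∀ᶠ x' in 𝓝 x, ‖MvPolynomial.eval x' g - y ^ 2‖ < δ := by
    have h2 : Tendsto (fun x' => ‖MvPolynomial.eval x' g - y ^ 2‖) (𝓝 x) (𝓝 0) := by
      have := (((MvPolynomial.continuous_eval g).tendsto x).sub_const (y ^ 2)).norm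
      rw [h, sub_self, norm_zero] at this
      rw [h]
      exact this
    exact h2.eventually_lt_const hδ
  obtain ⟨ρ, hρ, hb⟩ := Metric.eventually_nhds_iff_ball.1 h1
  refine ⟨ρ, hρ, fun x' hx' => ?_⟩
  obtain ⟨y', k1, k2⟩ := hs _ (hb x' (by
    rw [Metric.mem_ball, dist_pi_lt_iff hρ]
    intro a
    rw [dist_eq_norm]
    exact hx' a))
  exact ⟨y', k1, k2⟩

/-- continuity of the coefficients -/
lemma cq_near [Finite V] (f : MvPolynomial α K) (e zP : α → K) {δ : ℝ} (hδ : 0 < δ) :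
    ∃ δ' : ℝ, 0 < δ' ∧ ∀ z : α → K, (∀ v a, ‖s v (z a) - s v (zP a)‖ < δ') →
      ∀ v j, ‖s v (cq f z e j) - s v (cq f zP e j)‖ < δ := by
  have h0 : ∀ v : V, ∃ ρ : ℝ, 0 < ρ ∧ ∀ z : α → K, (∀ a, ‖s v (z a) - s v (zP a)‖ < ρ) →
      ∀ j, ‖s v (cq f z e j) - s v (cq f zP e j)‖ < δ := by
    intro v
    have : CharZero (L v) := charZero_of_injective_ringHom (s v).injective
    have h1 : ∀ j : Fin 4, ∀ z : α → K, s v (cq f z e j) =
        (rst (MvPolynomial.map (s v) f) (fun a => s v (z a)) (fun a => s v (e a))).coeff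
          ((j : ℕ) + 1) := by
      intro j z
      rw [← rst_map, Polynomial.coeff_map]
      rfl
    have h2 : ∀ᶠ x in 𝓝 (fun a => s v (zP a)), ∀ j : Fin 4,
        ‖(rst (MvPolynomial.map (s v) f) x (fun a => s v (e a))).coeff ((j : ℕ) + 1) -
          s v (cq f zP e j)‖ < δ := by
      rw [Filter.eventually_all]
      intro j
      have h3 : Tendsto (fun x => ‖(rst (MvPolynomial.map (s v) f) x (fun a => s v (e a))).coeff
          ((j : ℕ) + 1) - s v (cq f zP e j)‖) (𝓝 (fun a => s v (zP a))) (𝓝 0) := by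
        have := (((rst_coeff_cont (MvPolynomial.map (s v) f) (fun a => s v (e a))
          ((j : ℕ) + 1)).tendsto (fun a => s v (zP a))).sub_const (s v (cq f zP e j))).norm
        rwa [← h1 j zP, sub_self, norm_zero] at this
      exact h3.eventually_lt_const hδ
    obtain ⟨ρ, hρ, hb⟩ := Metric.eventually_nhds_iff_ball.1 h2
    refine ⟨ρ, hρ, fun z hz j => ?_⟩
    rw [h1 j z]
    exact hb (fun a => s v (z a)) (by
      rw [Metric.mem_ball, dist_pi_lt_iff hρ]
      intro a
      rw [dist_eq_norm]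
      exact hz a) j
  choose ρ hρ hb using h0
  obtain ⟨δ', hδ', hm⟩ := fin_min hρ
  exact ⟨δ', hδ', fun z hz v j => hb v z (fun a => (hz v a).trans_le (hm v)) j⟩

/-- a bound for the direction -/
lemma dir_bound [Finite V] (e : α → K) {η : ℝ} (hη : 0 < η) : ∃ η' : ℝ, 0 < η' ∧ η' ≤ η ∧
    ∀ (v : V) (a : α) (t : L v), ‖t‖ < η' → ‖t * s v (e a)‖ < η := by
  obtain ⟨η', hη', hm⟩ := fin_min (f := fun i : Option (V × α) =>
    i.elim η fun j => η / (1 + ‖s j.1 (e j.2)‖)) (by
      rintro (_ | ⟨v, a⟩)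
      · exact hη
      · exact div_pos hη (by positivity))
  refine ⟨η', hη', hm none, fun v a t ht => ?_⟩
  have h1 : ‖t‖ < η / (1 + ‖s v (e a)‖) := ht.trans_le (hm (some (v, a)))
  rw [lt_div_iff₀ (by positivity)] at h1
  rw [norm_mul]
  nlinarith [norm_nonneg t, norm_nonneg (s v (e a))]

/-- **Moves from the quartics.** -/
theorem mv_quartic [Finite V] {f : MvPolynomial α K} {e : α → K}
    (he : ∀ z, (rst f z e).natDegree ≤ 4) {zP : α → K} {wP : K}
    (hW : WAq s (wP, cq f zP e)) : Mv s f e zP wP := by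
  obtain ⟨δ, hδ, hb⟩ := hW
  obtain ⟨δ', hδ', hc⟩ := cq_near (s := s) f e zP hδ
  refine ⟨min δ δ', lt_min hδ hδ', fun z w hzw hn t Y ht hY hYe η hη => ?_⟩
  obtain ⟨η', hη', hη'le, hdir⟩ := dir_bound (s := s) e hη
  have k1 : ∀ v, Y v ^ 2 = qv (s v w) (fun j => s v (cq f z e j)) (t v) := by
    intro v
    have : CharZero (L v) := charZero_of_injective_ringHom (s v).injective
    have h1 := hYe v
    have h2 : (rst (MvPolynomial.map (s v) f) (fun a => s v (z a))
        (fun a => s v (e a))).natDegree ≤ 4 := by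
      rw [← rst_map]
      exact Polynomial.natDegree_map_le.trans (he z)
    have h3 := cq_eval h2 (onX_map hzw v) (t v)
    have h4 : (fun j => s v (cq f z e j)) = cq (MvPolynomial.map (s v) f) (fun a => s v (z a))
        (fun a => s v (e a)) := by
      funext j
      simp only [cq]
      rw [← rst_map, Polynomial.coeff_map]
    unfold onX at h1
    rw [h1, ← h3, h4]
  obtain ⟨u, Z, g1, g2⟩ := hb (w, cq f z e) (fun v => (hn v).2.trans_le (min_le_left _ _))
    (hc z fun v a => ((hn v).1 a).trans_le (min_le_right _ _)) t Y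
    (fun v => (ht v).trans_le (min_le_left _ _)) (fun v => (hY v).trans_le (min_le_left _ _))
    k1 η' hη'
  refine ⟨fun a => z a + u * e a, Z, ?_, fun v => ⟨fun a => ?_, ((g2 v).2).trans_le hη'le⟩⟩
  · unfold onX
    rw [g1, cq_eval (he z) hzw]
  · have e1 : s v (z a + u * e a) - (s v (z a) + t v * s v (e a)) =
        (s v u - t v) * s v (e a) := by
      rw [map_add, map_mul]; ring
    rw [e1]
    exact hdir v a _ (g2 v).1

end wap

end Pool.Agent.Y720.MZ
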