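import Pool.Agent.Y720.WA.Wap

/-!
# Weak approximation near a rational point of `w² = f(z)`: conics and assembly (helper720)
-/

set_option autoImplicit false
set_option linter.unusedVariables false
set_option linter.unusedSectionVars false

open Filter Topology

namespace Pool.Agent.Y720.MZ

variable {K : Type*} [Field K] [CharZero K] {V : Type*} [Finite V] {L : V → Type*}
  [∀ v, NontriviallyNormedField (L v)] [∀ v, CompleteSpace (L v)] {s : ∀ v, K →+* L v}
  {α : Type*}

/-- weak approximation for the line -/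
def Dn (s : ∀ v, K →+* L v) : Prop :=
  ∀ (m : ∀ v, L v) (η : ℝ), 0 < η → ∃ x : K, ∀ v, ‖s v x - m v‖ < η

/-- weak approximation on a conic with a rational point -/
lemma conic_wa (hden : Dn s) {w q₀ q₁ : K} (hw : w ≠ 0) {t Y : ∀ v, L v}
    (hb : q₀ ^ 2 - 4 * w ^ 2 * q₁ ≠ 0 ∨ ∀ v, Y v + s v w + s v (q₀ / (2 * w)) * t v ≠ 0)
    (he : ∀ v, Y v ^ 2 = s v w ^ 2 + s v q₀ * t v + s v q₁ * t v ^ 2) {η : ℝ} (hη : 0 < η) :
    ∃ u Z : K, Z ^ 2 = w ^ 2 + q₀ * u + q₁ * u ^ 2 ∧
      ∀ v, ‖s v u - t v‖ < η ∧ ‖s v Z - Y v‖ < η := by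
  have hcz : ∀ v, CharZero (L v) := fun v => charZero_of_injective_ringHom (s v).injective
  by_cases hdisc : q₀ ^ 2 - 4 * w ^ 2 * q₁ = 0
  · -- the conic is split
    have hb' := hb.resolve_left (not_not.2 hdisc)
    set β := q₀ / (2 * w) with hβ
    have hβ0 : q₀ = 2 * w * β := by rw [hβ]; field_simp
    have hβ1 : q₁ = β ^ 2 := by
      have h4 : (4 : K) * w ^ 2 ≠ 0 := mul_ne_zero (by norm_num) (pow_ne_zero 2 hw)
      apply mul_left_cancel₀ h4
      rw [hβ0] at hdisc
      linear_combination -hdisc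
    have hY : ∀ v, Y v = s v w + s v β * t v := by
      intro v
      have h1 := he v
      rw [hβ0, hβ1] at h1
      simp only [map_mul, map_pow, map_ofNat] at h1
      have h2 : (Y v - (s v w + s v β * t v)) * (Y v + s v w + s v β * t v) = 0 := by
        linear_combination h1
      have := (mul_eq_zero.1 h2).resolve_right (hb' v)
      exact sub_eq_zero.1 this
    obtain ⟨η', hη', hm⟩ := fin_min (f := fun v : V => min η (η / (1 + ‖s v β‖))) fun v =>
      lt_min hη (div_pos hη (by positivity))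
    obtain ⟨u, hu⟩ := hden t η' hη'
    refine ⟨u, w + β * u, ?_, fun v => ⟨(hu v).trans_le ((hm v).trans (min_le_left _ _)), ?_⟩⟩
    · rw [hβ0, hβ1]; ring
    · rw [hY v]
      have e : s v (w + β * u) - (s v w + s v β * t v) = s v β * (s v u - t v) := by
        rw [map_add, map_mul]; ring
      rw [e, norm_mul]
      have h1 := (hu v).trans_le ((hm v).trans (min_le_right _ _))
      rw [lt_div_iff₀ (by positivity)] at h1
      nlinarith [norm_nonneg (s v u - t v), norm_nonneg (s v β)]
  · -- slopes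
    have hp1 : ∀ v, ∃ t' Y' : L v, t' ≠ 0 ∧ ‖t' - t v‖ < η / 2 ∧ ‖Y' - Y v‖ < η / 2 ∧
        Y' ^ 2 = s v w ^ 2 + s v q₀ * t' + s v q₁ * t' ^ 2 := by
      intro v
      have := hcz v
      by_cases ht : t v = 0
      · have hYv : Y v ≠ 0 := by
          intro h0
          have h1 := he v
          rw [h0, ht] at h1
          have : s v w ^ 2 = 0 := by linear_combination -h1
          exact pow_ne_zero 2 ((map_ne_zero (s v)).2 hw) this
        exact perturb (g := fun t => s v w ^ 2 + s v q₀ * t + s v q₁ * t ^ 2) (by fun_prop)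
          (he v) hYv (half_pos hη)
      · exact ⟨t v, Y v, ht, by rw [sub_self, norm_zero]; exact half_pos hη,
          by rw [sub_self, norm_zero]; exact half_pos hη, he v⟩
    choose t' Y' ht0 ht1 hY1 he' using hp1
    set m : ∀ v, L v := fun v => (Y' v - s v w) / t' v with hm
    have hmt : ∀ v, m v * t' v = Y' v - s v w := fun v => div_mul_cancel₀ _ (ht0 v)
    have key : ∀ v, t' v * (m v ^ 2 - s v q₁) = s v q₀ - 2 * s v w * m v := by
      intro v
      apply mul_left_cancel₀ (ht0 v)
      have h1 : Y' v = s v w + m v * t' v := by rw [hmt v]; ring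
      have h2 := he' v
      rw [h1] at h2
      linear_combination h2
    have hD : ∀ v, m v ^ 2 - s v q₁ ≠ 0 := by
      intro v h0
      have h1 := key v
      rw [h0, mul_zero] at h1
      apply hdisc
      apply (map_eq_zero (s v)).1
      simp only [map_sub, map_pow, map_mul, map_ofNat]
      linear_combination -(s v q₀ + 2 * s v w * m v) * h1 + 4 * s v w ^ 2 * h0
    have ht' : ∀ v, t' v = (s v q₀ - 2 * s v w * m v) / (m v ^ 2 - s v q₁) := fun v => by
      rw [eq_div_iff (hD v), key v]
    have hρ : ∀ v, ∃ ρ : ℝ, 0 < ρ ∧ ∀ x : L v, ‖x - m v‖ < ρ → x ^ 2 - s v q₁ ≠ 0 ∧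
        ‖(s v q₀ - 2 * s v w * x) / (x ^ 2 - s v q₁) - t' v‖ < η / 2 ∧
        ‖s v w + x * ((s v q₀ - 2 * s v w * x) / (x ^ 2 - s v q₁)) - Y' v‖ < η / 2 := by
      intro v
      have c1 : ContinuousAt (fun x : L v => (s v q₀ - 2 * s v w * x) / (x ^ 2 - s v q₁)) (m v) :=
        ContinuousAt.div (by fun_prop) (by fun_prop) (hD v)
      have c2 : ContinuousAt (fun x : L v => s v w + x *
          ((s v q₀ - 2 * s v w * x) / (x ^ 2 - s v q₁))) (m v) :=
        continuousAt_const.add (continuousAt_id.mul c1)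
      have c3 : ContinuousAt (fun x : L v => x ^ 2 - s v q₁) (m v) := by fun_prop
      have e1 : ∀ᶠ x in 𝓝 (m v), x ^ 2 - s v q₁ ≠ 0 := c3.eventually_ne (hD v)
      have e2 : ∀ᶠ x in 𝓝 (m v), ‖(s v q₀ - 2 * s v w * x) / (x ^ 2 - s v q₁) - t' v‖ < η / 2 := by
        have := (c1.tendsto.sub_const (t' v)).norm
        rw [← ht' v, sub_self, norm_zero] at this
        exact this.eventually_lt_const (half_pos hη)
      have e3 : ∀ᶠ x in 𝓝 (m v), ‖s v w + x * ((s v q₀ - 2 * s v w * x) / (x ^ 2 - s v q₁)) -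
          Y' v‖ < η / 2 := by
        have := (c2.tendsto.sub_const (Y' v)).norm
        rw [← ht' v, hmt v, add_sub_cancel, sub_self, norm_zero] at this
        exact this.eventually_lt_const (half_pos hη)
      obtain ⟨ρ, hρ, hb⟩ := Metric.eventually_nhds_iff_ball.1 (e1.and (e2.and e3))
      exact ⟨ρ, hρ, fun x hx => hb x (by rw [Metric.mem_ball, dist_eq_norm]; exact hx)⟩
    choose ρ hρ0 hρb using hρ
    obtain ⟨ρ', hρ', hρm⟩ := fin_min hρ0
    obtain ⟨x, hx⟩ := hden m ρ' hρ'
    have hg := fun v => hρb v (s v x) ((hx v).trans_le (hρm v))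
    by_cases hV : IsEmpty V
    · exact ⟨0, w, by ring, fun v => (hV.false v).elim⟩
    rw [not_isEmpty_iff] at hV
    have hx0 : x ^ 2 - q₁ ≠ 0 := by
      intro h0
      obtain ⟨v⟩ := hV
      apply (hg v).1
      rw [← map_pow, ← map_sub, h0, map_zero]
    refine ⟨(q₀ - 2 * w * x) / (x ^ 2 - q₁), w + x * ((q₀ - 2 * w * x) / (x ^ 2 - q₁)), ?_,
      fun v => ⟨?_, ?_⟩⟩
    · field_simp
      ring
    · have h1 := (hg v).2.1
      have e : s v ((q₀ - 2 * w * x) / (x ^ 2 - q₁)) =
          (s v q₀ - 2 * s v w * s v x) / (s v x ^ 2 - s v q₁) := by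
        simp only [map_div₀, map_sub, map_mul, map_pow, map_ofNat]
      rw [← e] at h1
      have := norm_sub_le_norm_sub_add_norm_sub (s v ((q₀ - 2 * w * x) / (x ^ 2 - q₁))) (t' v) (t v)
      have := ht1 v
      linarith
    · have h1 := (hg v).2.2
      have e : s v (w + x * ((q₀ - 2 * w * x) / (x ^ 2 - q₁))) =
          s v w + s v x * ((s v q₀ - 2 * s v w * s v x) / (s v x ^ 2 - s v q₁)) := by
        simp only [map_add, map_div₀, map_sub, map_mul, map_pow, map_ofNat]
      rw [← e] at h1
      have := norm_sub_le_norm_sub_add_norm_sub (s v (w + x * ((q₀ - 2 * w * x) / (x ^ 2 - q₁))))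
        (Y' v) (Y v)
      have := hY1 v
      linarith

variable [Fintype α]

lemma conic_eval {R : Type*} [Field R] [CharZero R] {f : MvPolynomial α R} {z e : α → R}
    (h : (rst f z e).natDegree ≤ 2) {w : R} (hw : w ^ 2 = MvPolynomial.eval z f) (t : R) :
    w ^ 2 + cq f z e 0 * t + cq f z e 1 * t ^ 2 =
      MvPolynomial.eval (fun a => z a + t * e a) f := by
  rw [← cq_eval (h.trans (by norm_num)) hw]
  have e2 : cq f z e 2 = 0 := by
    have : (rst f z e).coeff 3 = 0 := Polynomial.coeff_eq_zero_of_natDegree_lt (by omega)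
    exact this
  have e3 : cq f z e 3 = 0 := by
    have : (rst f z e).coeff 4 = 0 := Polynomial.coeff_eq_zero_of_natDegree_lt (by omega)
    exact this
  rw [qv, e2, e3]
  ring

/-- the equation of the conic at a place -/
lemma conic_place {f : MvPolynomial α K} {z e : α → K} (he : (rst f z e).natDegree ≤ 2) {w : K}
    (hzw : onX f z w) {v : V} {t Y : L v}
    (h : onX (MvPolynomial.map (s v) f) (fun a => s v (z a) + t * s v (e a)) Y) :
    Y ^ 2 = s v w ^ 2 + s v (cq f z e 0) * t + s v (cq f z e 1) * t ^ 2 := by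
  have : CharZero (L v) := charZero_of_injective_ringHom (s v).injective
  have h2 : (rst (MvPolynomial.map (s v) f) (fun a => s v (z a))
      (fun a => s v (e a))).natDegree ≤ 2 := by
    rw [← rst_map]
    exact Polynomial.natDegree_map_le.trans he
  have h3 := conic_eval h2 (onX_map (s := s) hzw v) t
  have h4 : ∀ j, s v (cq f z e j) = cq (MvPolynomial.map (s v) f) (fun a => s v (z a))
      (fun a => s v (e a)) j := by
    intro j
    simp only [cq]
    rw [← rst_map, Polynomial.coeff_map]
  unfold onX at h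
  rw [h, ← h3, h4, h4]

/-- rational points on a conic close to a local one -/
lemma conic_pts (hden : Dn s) {f : MvPolynomial α K} {z e : α → K}
    (he : (rst f z e).natDegree ≤ 2) {w : K} (hzw : onX f z w) (hw : w ≠ 0) {t Y : ∀ v, L v}
    (hb : cq f z e 0 ^ 2 - 4 * w ^ 2 * cq f z e 1 ≠ 0 ∨
      ∀ v, Y v + s v w + s v (cq f z e 0 / (2 * w)) * t v ≠ 0)
    (h : ∀ v, onX (MvPolynomial.map (s v) f) (fun a => s v (z a) + t v * s v (e a)) (Y v))
    {η : ℝ} (hη : 0 < η) : ∃ u Z : K, onX f (fun a => z a + u * e a) Z ∧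
      (∀ v, ‖s v u - t v‖ < η) ∧
      nr s η (fun a => z a + u * e a) Z (fun v a => s v (z a) + t v * s v (e a)) Y := by
  obtain ⟨η', hη', hη'le, hdir⟩ := dir_bound (s := s) e hη
  obtain ⟨u, Z, g1, g2⟩ := conic_wa hden hw hb (fun v => conic_place he hzw (h v)) hη'
  refine ⟨u, Z, ?_, fun v => (g2 v).1.trans_le hη'le, fun v => ⟨fun a => ?_,
    ((g2 v).2).trans_le hη'le⟩⟩
  · unfold onX
    rw [g1, conic_eval he hzw]
  · have e1 : s v (z a + u * e a) - (s v (z a) + t v * s v (e a)) =
        (s v u - t v) * s v (e a) := by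
      rw [map_add, map_mul]; ring
    rw [e1]
    exact hdir v a _ (g2 v).1

/-- **Moves from the conics.** -/
theorem mv_conic (hden : Dn s) {f : MvPolynomial α K} {e : α → K}
    (he : ∀ z, (rst f z e).natDegree ≤ 2) {zP : α → K} {wP : K} (hw : wP ≠ 0) :
    Mv s f e zP wP := by
  -- the good branch
  have h1 : ∀ v, ∃ δ : ℝ, 0 < δ ∧ ∀ (w q t Y : L v), ‖w - s v wP‖ < δ →
      ‖q - s v (cq f zP e 0)‖ < δ → ‖t‖ < δ → ‖Y - s v wP‖ < δ →
      w ≠ 0 ∧ Y + w + q / (2 * w) * t ≠ 0 := by
    intro v
    have : CharZero (L v) := charZero_of_injective_ringHom (s v).injective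
    have hw' : s v wP ≠ 0 := (map_ne_zero (s v)).2 hw
    let G : L v × L v × L v × L v → L v := fun e => e.2.2.2 + e.1 + e.2.1 / (2 * e.1) * e.2.2.1
    have hG : ContinuousAt G (s v wP, s v (cq f zP e 0), 0, s v wP) := by
      refine ContinuousAt.add (by fun_prop) (ContinuousAt.mul (ContinuousAt.div (by fun_prop)
        (by fun_prop) (mul_ne_zero two_ne_zero hw')) (by fun_prop))
    have hG0 : G (s v wP, s v (cq f zP e 0), 0, s v wP) ≠ 0 := by
      simp only [G, mul_zero, add_zero]
      rw [← two_mul]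
      exact mul_ne_zero two_ne_zero hw'
    have h2 : ContinuousAt (fun e : L v × L v × L v × L v => e.1)
      (s v wP, s v (cq f zP e 0), 0, s v wP) := continuousAt_fst
    obtain ⟨δ, hδ, hb⟩ := Metric.eventually_nhds_iff_ball.1
      ((h2.eventually_ne hw').and (hG.eventually_ne hG0))
    refine ⟨δ, hδ, fun w q t Y k1 k2 k3 k4 => hb (w, q, t, Y) ?_⟩
    rw [Metric.mem_ball, Prod.dist_eq, Prod.dist_eq, Prod.dist_eq]
    refine max_lt ?_ (max_lt ?_ (max_lt ?_ ?_))
    · rw [dist_eq_norm]; exact k1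
    · rw [dist_eq_norm]; exact k2
    · rw [dist_eq_norm, sub_zero]; exact k3
    · rw [dist_eq_norm]; exact k4
  choose δ hδ hb using h1
  obtain ⟨δ₁, hδ₁, hm⟩ := fin_min hδ
  obtain ⟨δ₂, hδ₂, hc⟩ := cq_near (s := s) f e zP hδ₁
  refine ⟨min δ₁ δ₂, lt_min hδ₁ hδ₂, fun z w hzw hn t Y ht hY hYe η hη => ?_⟩
  by_cases hV : IsEmpty V
  · exact ⟨z, w, hzw, fun v => (hV.false v).elim⟩
  rw [not_isEmpty_iff] at hV
  have hg : ∀ v, s v w ≠ 0 ∧ Y v + s v w + s v (cq f z e 0) / (2 * s v w) * t v ≠ 0 := by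
    intro v
    exact hb v _ _ _ _ ((hn v).2.trans_le ((min_le_left _ _).trans (hm v)))
      ((hc z (fun v a => ((hn v).1 a).trans_le (min_le_right _ _)) v 0).trans_le (hm v))
      ((ht v).trans_le ((min_le_left _ _).trans (hm v)))
      ((hY v).trans_le ((min_le_left _ _).trans (hm v)))
  have hw0 : w ≠ 0 := by
    obtain ⟨v⟩ := hV
    exact (map_ne_zero (s v)).1 (hg v).1
  obtain ⟨u, Z, k1, -, k2⟩ := conic_pts hden (he z) hzw hw0 (t := t) (Y := Y) (Or.inr fun v => by
    have := (hg v).2
    rwa [map_div₀, map_mul, map_ofNat]) hYe hη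
  exact ⟨_, _, k1, k2⟩

/-- **Assembly.** -/
theorem int_of_mv [DecidableEq α] {f : MvPolynomial α K} {zP : α → K} {wP : K}
    (hP : onX f zP wP) (hw : wP ≠ 0) (hM : ∀ a, Mv s f (Pi.single a 1) zP wP) :
    Int s f zP wP := by
  classical
  have hcz : ∀ v, CharZero (L v) := fun v => charZero_of_injective_ringHom (s v).injective
  have hw' : ∀ v, 0 < ‖s v wP‖ := fun v => norm_pos_iff.2 ((map_ne_zero (s v)).2 hw)
  have hw2 : ∀ v, 0 < ‖2 * s v wP‖ := fun v => by
    have := hcz v
    exact norm_pos_iff.2 (mul_ne_zero two_ne_zero ((map_ne_zero (s v)).2 hw))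
  have claim : ∀ S : Finset α, ∃ ε : ℝ, 0 < ε ∧ ∀ (z : α → K) (w : K), onX f z w →
      nr s ε z w (fun v a => s v (zP a)) (fun v => s v wP) →
      ∀ (x : ∀ v, α → L v) (y : ∀ v, L v),
      (∀ v, onX (MvPolynomial.map (s v) f) (x v) (y v)) → nr s ε zP wP x y →
      (∀ v, ∀ a ∉ S, x v a = s v (z a)) → ∀ η : ℝ, 0 < η →
      ∃ (z' : α → K) (w' : K), onX f z' w' ∧ nr s η z' w' x y := by
    intro S
    induction S using Finset.induction_on with
    | empty =>
      obtain ⟨ε, hε, hm⟩ := fin_min (f := fun v : V => ‖2 * s v wP‖ / 2) fun v => half_pos (hw2 v)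
      refine ⟨ε, hε, fun z w hzw hn x y hxy hT hx η hη => ⟨z, w, hzw, fun v => ?_⟩⟩
      have h1 : x v = fun a => s v (z a) := by
        funext a
        exact hx v a (Finset.notMem_empty a)
      have h2 := hxy v
      rw [h1] at h2
      have h3 : y v ^ 2 = s v w ^ 2 := h2.trans (onX_map (s := s) hzw v).symm
      have h4 : (y v - s v w) * (y v + s v w) = 0 := by linear_combination h3
      have h5 : y v + s v w ≠ 0 := by
        intro h0
        have h6 : 2 * s v wP = (s v wP - y v) + -(s v w - s v wP) := by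
          linear_combination h0
        have h7 := norm_add_le (s v wP - y v) (-(s v w - s v wP))
        rw [← h6, norm_neg] at h7
        have h8 := (hT v).2
        have h9 := (hn v).2
        have := hm v
        linarith
      have h6 : y v = s v w := sub_eq_zero.1 ((mul_eq_zero.1 h4).resolve_right h5)
      refine ⟨fun a => ?_, ?_⟩
      · rw [h1, sub_self, norm_zero]; exact hη
      · rw [h6, sub_self, norm_zero]; exact hη
    | insert a S ha ih =>
      obtain ⟨ε', hε', hcl⟩ := ih
      obtain ⟨δ, hδ, hmv⟩ := hM a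
      have hsq : ∀ v, ∃ ρ : ℝ, 0 < ρ ∧ ∀ x' : α → L v, (∀ a, ‖x' a - s v (zP a)‖ < ρ) →
          ∃ y' : L v, ‖y' - s v wP‖ < min δ (ε' / 2) ∧ onX (MvPolynomial.map (s v) f) x' y' := by
        intro v
        have := hcz v
        exact sq_near (onX_map (s := s) hP v) ((map_ne_zero (s v)).2 hw)
          (lt_min hδ (half_pos hε'))
      choose ρ hρ hρb using hsq
      obtain ⟨ε, hε, hm⟩ := fin_min (f := fun v : V => min (min (ε' / 2) (δ / 2))
        (min (ρ v) (‖s v wP‖))) fun v => lt_min (lt_min (half_pos hε') (half_pos hδ))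
          (lt_min (hρ v) (hw' v))
      by_cases hV : IsEmpty V
      · exact ⟨1, one_pos, fun z w hzw hn x y hxy hT hx η hη => ⟨z, w, hzw,
          fun v => (hV.false v).elim⟩⟩
      rw [not_isEmpty_iff] at hV
      have hε1 : ε ≤ ε' / 2 := by
        obtain ⟨v⟩ := hV
        exact (hm v).trans ((min_le_left _ _).trans (min_le_left _ _))
      have hε2 : ε ≤ δ / 2 := by
        obtain ⟨v⟩ := hV
        exact (hm v).trans ((min_le_left _ _).trans (min_le_right _ _))
      have hε3 : ∀ v, ε ≤ ρ v := fun v => (hm v).trans ((min_le_right _ _).trans (min_le_left _ _))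
      have hε4 : ∀ v, ε ≤ ‖s v wP‖ := fun v =>
        (hm v).trans ((min_le_right _ _).trans (min_le_right _ _))
      refine ⟨ε, hε, fun z w hzw hn x y hxy hT hx η hη => ?_⟩
      -- the first target
      set t : ∀ v, L v := fun v => x v a - s v (z a) with ht
      set x₁ : ∀ v, α → L v := fun v b => s v (z b) + t v * s v ((Pi.single a 1 : α → K) b) with hx₁
      have hx₁a : ∀ v, x₁ v a = x v a := by
        intro v
        simp only [hx₁, ht, Pi.single_eq_same, map_one, mul_one]
        ring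
      have hx₁b : ∀ v b, b ≠ a → x₁ v b = s v (z b) := by
        intro v b hb
        simp only [hx₁, Pi.single_eq_of_ne hb, map_zero, mul_zero, add_zero]
      have hx₁P : ∀ v b, ‖x₁ v b - s v (zP b)‖ < ε := by
        intro v b
        by_cases hb : b = a
        · rw [hb, hx₁a, norm_sub_rev]; exact (hT v).1 a
        · rw [hx₁b v b hb]; exact (hn v).1 b
      have hx₁S : ∀ v b, b ∉ S → x₁ v b = x v b := by
        intro v b hb
        by_cases hba : b = a
        · rw [hba, hx₁a]
        · rw [hx₁b v b hba, hx v b]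
          rw [Finset.mem_insert, not_or]
          exact ⟨hba, hb⟩
      choose Y hY1 hY2 using fun v => hρb v (x₁ v) fun b => (hx₁P v b).trans_le (hε3 v)
      -- the second target
      have hsq' : ∀ v, ∃ ρ : ℝ, 0 < ρ ∧ ∀ x' : α → L v, (∀ a, ‖x' a - x v a‖ < ρ) →
          ∃ y' : L v, ‖y' - y v‖ < min (η / 2) (ε' / 2) ∧
            onX (MvPolynomial.map (s v) f) x' y' := by
        intro v
        have := hcz v
        refine sq_near (hxy v) ?_ (lt_min (half_pos hη) (half_pos hε'))
        intro h0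
        have h1 := (hT v).2
        rw [h0, sub_zero] at h1
        exact absurd h1 (not_lt.2 (hε4 v))
      choose ρ' hρ' hρb' using hsq'
      obtain ⟨η₁, hη₁, hm₁⟩ := fin_min (f := fun v : V => min (min (ε' / 2) (η / 2)) (ρ' v))
        fun v => lt_min (lt_min (half_pos hε') (half_pos hη)) (hρ' v)
      have g1 : η₁ ≤ ε' / 2 := by
        obtain ⟨v⟩ := hV
        exact (hm₁ v).trans ((min_le_left _ _).trans (min_le_left _ _))
      have g2 : η₁ ≤ η / 2 := by
        obtain ⟨v⟩ := hV
        exact (hm₁ v).trans ((min_le_left _ _).trans (min_le_right _ _))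
      have g3 : ∀ v, η₁ ≤ ρ' v := fun v => (hm₁ v).trans (min_le_right _ _)
      obtain ⟨z₁, w₁, hzw₁, hn₁⟩ := hmv z w hzw (hn.mono (hε2.trans (by linarith))) t Y
        (fun v => by
          have h1 := (hT v).1 a
          have h2 := (hn v).1 a
          have h3 : t v = -(s v (zP a) - x v a) + -(s v (z a) - s v (zP a)) := by
            simp only [ht]; ring
          have h4 := norm_add_le (-(s v (zP a) - x v a)) (-(s v (z a) - s v (zP a)))
          rw [← h3, norm_neg, norm_neg] at h4
          linarith)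
        (fun v => (hY1 v).trans_le (min_le_left _ _)) hY2 η₁ hη₁
      set x' : ∀ v, α → L v := fun v b => if b ∈ S then x v b else s v (z₁ b) with hx'
      have hx'x : ∀ v b, ‖x' v b - x v b‖ < η₁ := by
        intro v b
        simp only [hx']
        by_cases hb : b ∈ S
        · rw [if_pos hb, sub_self, norm_zero]; exact hη₁
        · rw [if_neg hb, ← hx₁S v b hb]
          exact (hn₁ v).1 b
      choose y' hy1 hy2 using fun v => hρb' v (x' v) fun b => (hx'x v b).trans_le (g3 v)
      obtain ⟨z', w', h1, h2⟩ := hcl z₁ w₁ hzw₁ (fun v => ⟨fun b => by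
          have k1 := (hn₁ v).1 b
          have k2 := hx₁P v b
          have k3 := norm_sub_le_norm_sub_add_norm_sub (s v (z₁ b)) (x₁ v b) (s v (zP b))
          change ‖s v (z₁ b) - x₁ v b‖ < η₁ at k1
          linarith, by
          have k1 := (hn₁ v).2
          have k2 := (hY1 v).trans_le (min_le_right _ _)
          have k3 := norm_sub_le_norm_sub_add_norm_sub (s v w₁) (Y v) (s v wP)
          linarith⟩) x' y' hy2 (fun v => ⟨fun b => by
          have k1 := (hT v).1 b
          have k2 := hx'x v b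
          have k3 := norm_sub_le_norm_sub_add_norm_sub (s v (zP b)) (x v b) (x' v b)
          rw [norm_sub_rev (x v b)] at k3
          linarith, by
          have k1 := (hT v).2
          have k2 := (hy1 v).trans_le (min_le_right _ _)
          have k3 := norm_sub_le_norm_sub_add_norm_sub (s v wP) (y v) (y' v)
          rw [norm_sub_rev (y v)] at k3
          linarith⟩) (fun v b hb => by simp only [hx', if_neg hb]) (η / 2) (half_pos hη)
      refine ⟨z', w', h1, fun v => ⟨fun b => ?_, ?_⟩⟩
      · have k1 := (h2 v).1 b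
        have k2 := hx'x v b
        have k3 := norm_sub_le_norm_sub_add_norm_sub (s v (z' b)) (x' v b) (x v b)
        linarith
      · have k1 := (h2 v).2
        have k2 := (hy1 v).trans_le (min_le_left _ _)
        have k3 := norm_sub_le_norm_sub_add_norm_sub (s v w') (y' v) (y v)
        linarith
  obtain ⟨ε, hε, h⟩ := claim Finset.univ
  refine ⟨ε, hε, fun x y hxy hT η hη => h zP wP hP (fun v => ⟨fun a => ?_, ?_⟩) x y hxy hT
    (fun v a ha => absurd (Finset.mem_univ a) ha) η hη⟩
  · rw [sub_self, norm_zero]; exact hε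
  · rw [sub_self, norm_zero]; exact hε

end Pool.Agent.Y720.MZ
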